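import Mathlib
import Pool.Agent.H1.Tate.Defs

/-!
# Euler products with given Frobenius traces, and the curve `F_ℓ : y ^ 2 = 4 x ^ ℓ + 1`
-/

open NumberField IsDedekindDomain Filter Topology Polynomial

namespace Pool.Agent.H16.HK

noncomputable section

variable {k : Type*} [Field k] [NumberField k]

open Classical in
/-- The Euler product over the primes `v` of `k` whose factor at `v ∉ R`, with `q` residue classes,
is `exp (∑ n ≥ 1, c v n q ^ (-n s) / n)`, that is `det (1 - Frob q ^ (-s))⁻¹` if `c v n` is the trace of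
the `n`-th power of the Frobenius `Frob` at `v`. At each `v` of the finite set `R` the factor is
`∏ (1 - α q ^ (-s))⁻¹` over the members `α` of the multiset `bad v`. -/
def eulerL (R : Finset (HeightOneSpectrum (𝓞 k))) (c : HeightOneSpectrum (𝓞 k) → ℕ → ℂ)
    (bad : HeightOneSpectrum (𝓞 k) → Multiset ℂ) (s : ℂ) : ℂ :=
  ∏' v : HeightOneSpectrum (𝓞 k),
    if v ∈ R then (((bad v).map fun α => 1 - α * (Ideal.absNorm v.asIdeal : ℂ) ^ (-s)).prod)⁻¹
    else Complex.exp (∑' n : ℕ, c v (n + 1) *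
        ((Ideal.absNorm v.asIdeal : ℂ) ^ (-s)) ^ (n + 1) / ((n : ℂ) + 1))

/-- The trace of the `n`-th power of the Frobenius at `v` on `H¹` of the curve
`F_ℓ : y ^ 2 = 4 x ^ ℓ + 1`: `q ^ n + 1 - #F_ℓ(𝔽_{q ^ n})`. -/
def fermatTrace (ℓ : ℕ) (v : HeightOneSpectrum (𝓞 k)) (n : ℕ) : ℤ :=
  letI := Ideal.Quotient.field v.asIdeal
  Pool.Agent.H1.Tate.traceH1 (𝓞 k ⧸ v.asIdeal) (C 4 * X ^ ℓ + 1) n

/-- The trace of the `n`-th power of the Frobenius at `v` on
`H²(Y × F_ℓ) = H²(Y) ⊕ H²(F_ℓ) ⊕ H¹(Y) ⊗ H¹(F_ℓ)`, when its traces on `H¹(Y)` and `H²(Y)` are `a v n` and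
`b v n`. -/
def prodTrace (ℓ : ℕ) (a b : HeightOneSpectrum (𝓞 k) → ℕ → ℂ) (v : HeightOneSpectrum (𝓞 k))
    (n : ℕ) : ℂ :=
  b v n + (Ideal.absNorm v.asIdeal : ℂ) ^ n + a v n * fermatTrace ℓ v n

end

end Pool.Agent.H16.HK
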