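import Pool.Agent.H16.HK.Defs
import Pool.Agent.H18.RS.Defs

/-!
# Jacobi sums of the cyclotomic field of prime level `ℓ`: notation

`Gal(K/ℚ)` acts on `𝓞 K` and on its ideals by `σ • x`, `σ • I` (Mathlib,
`Mathlib/NumberTheory/NumberField/Cyclotomic/Galois.lean`); `galEquivZMod ℓ K σ = a` means `σ ζ = ζ ^ a`.
-/

open NumberField IsDedekindDomain Polynomial IsCyclotomicExtension.Rat
open scoped Pointwise Classical

namespace Pool.Agent.H16.HK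

noncomputable section

/-- the polynomial `4 x ^ ℓ + 1` -/
abbrev fermatPoly (ℓ : ℕ) : ℤ[X] := C 4 * X ^ ℓ + 1

variable (ℓ : ℕ) [NeZero ℓ] (K : Type*) [Field K] [NumberField K] [IsCyclotomicExtension {ℓ} ℚ K]

/-- the automorphisms `σ` with `σ⁻¹ ζ = ζ ^ t`, `1 ≤ t < ℓ / 2` -/
def half : Finset Gal(K/ℚ) :=
  Finset.univ.filter fun σ => 2 * (galEquivZMod ℓ K σ⁻¹).val.val < ℓ

/-- the prime `(ζ - 1)` above `ℓ` -/
def lam : Ideal (𝓞 K) :=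
  Ideal.span {(IsCyclotomicExtension.zeta_spec ℓ ℚ K).toInteger - 1}

variable {K}

/-- `∏_{σ ∈ half} σ(a)` -/
def CM (a : 𝓞 K) : 𝓞 K := ∏ σ ∈ half ℓ K, σ • a

omit [NeZero ℓ] [IsCyclotomicExtension {ℓ} ℚ K] in
/-- `v` is a prime of degree one, not above `ℓ` -/
def Good (v : HeightOneSpectrum (𝓞 K)) : Prop :=
  (Ideal.absNorm v.asIdeal).Prime ∧ Ideal.absNorm v.asIdeal ≠ ℓ

/-- the properties of the Jacobi sum `J` of the prime `v` of degree one -/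
structure IsJac (v : HeightOneSpectrum (𝓞 K)) (J : 𝓞 K) : Prop where
  norm : ∀ φ : K →+* ℂ, ‖φ (J : K)‖ ^ 2 = Ideal.absNorm v.asIdeal
  congr : J - 1 ∈ lam ℓ K ^ 2
  ideal : Ideal.span {J} = ∏ σ ∈ half ℓ K, σ • v.asIdeal
  count : ((Pool.Agent.H18.RS.ap (fermatPoly ℓ) (Ideal.absNorm v.asIdeal) : ℤ) : 𝓞 K) =
    ∑ σ : Gal(K/ℚ), σ • J

end

end Pool.Agent.H16.HK
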