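import Pool.Agent.H16.HK.Defs

/-!
# Job HK-Bump: a Lipschitz partition of unity for the units

`unitLattice K` is a lattice in `logSpace K` (`IsZLattice ℝ (unitLattice K)`, discrete: instances of Mathlib), and
`logEmbedding K : Additive (𝓞 K)ˣ →+ logSpace K` has range `unitLattice K` and finite kernel (the torsion).
So there is `r` such that every `y` has a unit `u` with `‖y + logEmbedding u‖ ≤ r` (bounded fundamental domain), and for every
`R` the number of units with `‖logEmbedding u‖ ≤ R` is finite. Put `β(y) = max 0 (r + 1 - ‖y‖)` (Lipschitz constant 1, support in the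
ball of radius `r + 1`), `D(y) = ∑_u β(y + logEmbedding u)`: for every `y` a finite sum, with at most `M` nonzero terms, `M` independent of
`y` (translate `y` by a unit into the ball of radius `r`; the nonzero terms have `‖logEmbedding u‖ ≤ 2 r + 1`).
`D ≥ 1`, `D` is invariant under `y ↦ y + logEmbedding u'` (`Equiv.tsum_eq`), `|D y - D z| ≤ 2 M ‖y - z‖`, `D ≤ M (r + 1)`.
`b = β / D`: `0 ≤ b ≤ 1`, `∑_u b(y + logEmbedding u) = D(y) / D(y) = 1`,
`|β/D - β'/D'| ≤ |β - β'| / D + β' |D - D'| / (D D')`, and `β' ≤ r + 1`.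
-/

open NumberField NumberField.InfinitePlace NumberField.mixedEmbedding NumberField.Units
open NumberField.Units.dirichletUnitTheorem MeasureTheory Module
open scoped Classical

namespace Pool.Agent.H16.HK

/-- the abstract partition of unity -/
theorem bump_abs {U E : Type*} [AddCommGroup U] [NormedAddCommGroup E] (φ : U →+ E) (r : ℝ)
    (hr : 0 ≤ r) (h1 : ∀ y, ∃ u, ‖y + φ u‖ ≤ r) (h2 : ∀ R : ℝ, {u | ‖φ u‖ ≤ R}.Finite) :
    ∃ b : E → ℝ, (∀ y, 0 ≤ b y) ∧ (∀ y, b y ≤ 1) ∧
      (∃ C : ℝ, 0 ≤ C ∧ ∀ y z, |b y - b z| ≤ C * ‖y - z‖) ∧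
      (∃ R : ℝ, 0 ≤ R ∧ ∀ y, b y ≠ 0 → ‖y‖ ≤ R) ∧
      ∀ y, HasSum (fun u => b (y + φ u)) 1 := by
  set β : E → ℝ := fun y => max 0 (r + 1 - ‖y‖) with hβ
  have hβ0 : ∀ y, 0 ≤ β y := fun y => le_max_left _ _
  have hβ1 : ∀ y, β y ≤ r + 1 := fun y => max_le (by linarith) (by have := norm_nonneg y; linarith)
  have hβs : ∀ y, β y ≠ 0 → ‖y‖ ≤ r + 1 := by
    intro y hy
    by_contra hcon
    push Not at hcon
    exact hy (max_eq_left (by linarith))
  have hβl : ∀ y z, |β y - β z| ≤ ‖y - z‖ := by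
    intro y z
    have h3 := abs_max_sub_max_le_abs (r + 1 - ‖y‖) (r + 1 - ‖z‖) 0
    rw [max_comm _ (0 : ℝ), max_comm _ (0 : ℝ)] at h3
    refine h3.trans ?_
    have h4 : r + 1 - ‖y‖ - (r + 1 - ‖z‖) = -(‖y‖ - ‖z‖) := by ring
    rw [h4, abs_neg]
    exact abs_norm_sub_norm_le y z
  -- supports
  set S : Finset U := (h2 (2 * r + 2)).toFinset with hS
  have hfin : ∀ y, ∃ T : Finset U, T.card ≤ S.card ∧ ∀ u, u ∉ T → β (y + φ u) = 0 := by
    intro y
    obtain ⟨u0, hu0⟩ := h1 y
    refine ⟨S.image (fun v => v + u0), Finset.card_image_le, ?_⟩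
    intro u hu
    by_contra hcon
    apply hu
    rw [Finset.mem_image]
    refine ⟨u - u0, ?_, by abel⟩
    rw [hS, Set.Finite.mem_toFinset]
    show ‖φ (u - u0)‖ ≤ 2 * r + 2
    have h3 := hβs _ hcon
    have h4 : φ (u - u0) = (y + φ u) - (y + φ u0) := by rw [map_sub]; abel
    rw [h4]
    refine (norm_sub_le _ _).trans ?_
    linarith
  choose T hT1 hT2 using hfin
  have hsum : ∀ y, HasSum (fun u => β (y + φ u)) (∑ u ∈ T y, β (y + φ u)) := fun y =>
    hasSum_sum_of_ne_finset_zero (fun u hu => hT2 y u hu)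
  set D : E → ℝ := fun y => ∑ u ∈ T y, β (y + φ u) with hD
  have hD1 : ∀ y, 1 ≤ D y := by
    intro y
    obtain ⟨u, hu⟩ := h1 y
    have h3 : 1 ≤ β (y + φ u) := by
      refine le_trans ?_ (le_max_right _ _)
      linarith
    exact h3.trans (le_hasSum (hsum y) u (fun v _ => hβ0 _))
  have hβD : ∀ y, β y ≤ D y := by
    intro y
    have h3 := le_hasSum (hsum y) 0 (fun v _ => hβ0 _)
    simpa using h3
  have hDinv : ∀ y v, D (y + φ v) = D y := by
    intro y v
    have h3 := (Equiv.hasSum_iff (Equiv.addLeft v)).2 (hsum y)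
    have h4 := hsum (y + φ v)
    refine h4.unique ?_
    refine h3.congr_fun ?_ |> fun h => h
    intro u
    simp only [Function.comp, Equiv.coe_addLeft, map_add]
    rw [add_assoc]
  have hDl : ∀ y z, |D y - D z| ≤ 2 * S.card * ‖y - z‖ := by
    intro y z
    have h3 : D y = ∑ u ∈ T y ∪ T z, β (y + φ u) := by
      refine (hsum y).unique (hasSum_sum_of_ne_finset_zero (fun u hu => hT2 y u ?_))
      exact fun h => hu (Finset.mem_union_left _ h)
    have h4 : D z = ∑ u ∈ T y ∪ T z, β (z + φ u) := by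
      refine (hsum z).unique (hasSum_sum_of_ne_finset_zero (fun u hu => hT2 z u ?_))
      exact fun h => hu (Finset.mem_union_right _ h)
    rw [h3, h4, ← Finset.sum_sub_distrib]
    refine (Finset.abs_sum_le_sum_abs _ _).trans ?_
    have h5 : ∀ u ∈ T y ∪ T z, |β (y + φ u) - β (z + φ u)| ≤ ‖y - z‖ := by
      intro u _
      have := hβl (y + φ u) (z + φ u)
      rwa [add_sub_add_right_eq_sub] at this
    refine (Finset.sum_le_sum h5).trans ?_
    rw [Finset.sum_const, nsmul_eq_mul]
    apply mul_le_mul_of_nonneg_right _ (norm_nonneg _)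
    have h6 := Finset.card_union_le (T y) (T z)
    have h7 := hT1 y
    have h8 := hT1 z
    have h9 : (T y ∪ T z).card ≤ 2 * S.card := by omega
    exact_mod_cast h9
  have hDpos : ∀ y, 0 < D y := fun y => lt_of_lt_of_le one_pos (hD1 y)
  refine ⟨fun y => β y / D y, fun y => div_nonneg (hβ0 y) (hDpos y).le,
    fun y => (div_le_one (hDpos y)).2 (hβD y), ?_, ?_, ?_⟩
  · refine ⟨1 + (r + 1) * (2 * S.card), by positivity, ?_⟩
    intro y z
    have e : β y / D y - β z / D z = (β y - β z) / D y + β z * (D z - D y) / (D y * D z) := by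
      have := (hDpos y).ne'
      have := (hDpos z).ne'
      field_simp
      ring
    have h3 : |(β y - β z) / D y| ≤ ‖y - z‖ := by
      rw [abs_div, abs_of_pos (hDpos y), div_le_iff₀ (hDpos y)]
      refine (hβl y z).trans ?_
      exact le_mul_of_one_le_right (norm_nonneg _) (hD1 y)
    have h4 : |β z * (D z - D y) / (D y * D z)| ≤ (r + 1) * (2 * S.card * ‖y - z‖) := by
      rw [abs_div, abs_of_pos (mul_pos (hDpos y) (hDpos z)), div_le_iff₀ (mul_pos (hDpos y) (hDpos z)),
        abs_mul, abs_of_nonneg (hβ0 z)]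
      have h5 := hDl z y
      rw [norm_sub_rev] at h5
      have h6 : β z * |D z - D y| ≤ (r + 1) * (2 * S.card * ‖y - z‖) :=
        mul_le_mul (hβ1 z) h5 (abs_nonneg _) (by linarith)
      refine h6.trans ?_
      apply le_mul_of_one_le_right (by positivity)
      exact one_le_mul_of_one_le_of_one_le (hD1 y) (hD1 z)
    show |β y / D y - β z / D z| ≤ _
    rw [e]
    refine (abs_add_le _ _).trans ?_
    calc _ ≤ ‖y - z‖ + (r + 1) * (2 * S.card * ‖y - z‖) := add_le_add h3 h4
      _ = _ := by ring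
  · refine ⟨r + 1, by linarith, ?_⟩
    intro y hy
    apply hβs
    intro h3
    apply hy
    show β y / D y = 0
    rw [h3, zero_div]
  · intro y
    have h3 := (hsum y).div_const (D y)
    have h4 : (∑ u ∈ T y, β (y + φ u)) / D y = 1 := div_self (hDpos y).ne'
    rw [h4] at h3
    refine h3.congr_fun ?_ |> fun h => h
    intro u
    show β (y + φ u) / D (y + φ u) = _
    rw [hDinv]

theorem exists_bump (K : Type*) [Field K] [NumberField K] :
    ∃ b : logSpace K → ℝ, IsBump b := by
  let B : Basis (Fin (rank K)) ℝ (logSpace K) := (basisUnitLattice K).ofZLatticeBasis ℝ (unitLattice K)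
  have hspan : ∀ l : logSpace K, l ∈ Submodule.span ℤ (Set.range B) → ∃ u : Additive (𝓞 K)ˣ,
      logEmbedding K u = l := by
    intro l hl
    rw [Basis.ofZLatticeBasis_span ℝ (unitLattice K)] at hl
    obtain ⟨u, hu⟩ := hl
    exact ⟨u, hu.2⟩
  have h1 : ∀ y : logSpace K, ∃ u : Additive (𝓞 K)ˣ, ‖y + logEmbedding K u‖ ≤ ∑ i, ‖B i‖ := by
    intro y
    obtain ⟨u, hu⟩ := hspan _ (ZSpan.floor B y).2
    refine ⟨-u, ?_⟩
    rw [map_neg, hu, ← sub_eq_add_neg]
    exact ZSpan.norm_fract_le B y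
  have h2 : ∀ R : ℝ, {u : Additive (𝓞 K)ˣ | ‖logEmbedding K u‖ ≤ R}.Finite := by
    intro R
    have h3 := unitLattice_inter_ball_finite K R
    have h4 : {u : Additive (𝓞 K)ˣ | ‖logEmbedding K u‖ ≤ R} =
        (logEmbedding K) ⁻¹' ((unitLattice K : Set (logSpace K)) ∩ Metric.closedBall 0 R) := by
      ext u
      simp only [Set.mem_ofPred_eq, Set.mem_preimage, Set.mem_inter_iff, mem_closedBall_zero_iff]
      constructor
      · intro h
        exact ⟨⟨u, trivial, rfl⟩, h⟩
      · exact fun h => h.2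
    rw [h4]
    apply h3.preimage'
    intro l hl
    by_cases hex : ∃ u0 : Additive (𝓞 K)ˣ, logEmbedding K u0 = l
    · obtain ⟨u0, rfl⟩ := hex
      have h5 : (logEmbedding K) ⁻¹' {logEmbedding K u0} ⊆
          (fun v : (𝓞 K)ˣ => Additive.ofMul v + u0) '' (torsion K : Set (𝓞 K)ˣ) := by
        intro u hu
        refine ⟨(u - u0).toMul, ?_, ?_⟩
        · have h6 : logEmbedding K (Additive.ofMul (u - u0).toMul) = 0 := by
            rw [ofMul_toMul, map_sub]
            exact sub_eq_zero.2 hu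
          exact logEmbedding_eq_zero_iff.1 h6
        · simp
      have hft : (torsion K : Set (𝓞 K)ˣ).Finite :=
        @Set.toFinite _ (torsion K : Set (𝓞 K)ˣ) (inferInstanceAs (Finite (torsion K)))
      exact (Set.Finite.image _ hft).subset h5
    · push Not at hex
      have : (logEmbedding K) ⁻¹' {l} = ∅ := by
        ext u
        simp only [Set.mem_preimage, Set.mem_singleton_iff, Set.mem_empty_iff_false, iff_false]
        exact hex u
      rw [this]
      exact Set.finite_empty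
  obtain ⟨b, hb1, hb2, hb3, hb4, hb5⟩ := bump_abs (logEmbedding K) (∑ i, ‖B i‖)
    (Finset.sum_nonneg fun i _ => norm_nonneg _) h1 h2
  refine ⟨b, hb1, hb2, hb3, hb4, ?_⟩
  intro y
  exact (Equiv.hasSum_iff (Additive.ofMul (α := (𝓞 K)ˣ))).2 (hb5 y)

end Pool.Agent.H16.HK
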