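import Pool.Agent.H16.HK.Alg

/-!
# Job HK-Char: the power residue character of a prime of degree one

`F = 𝓞 K ⧸ v.asIdeal` is a field with `p` elements, `p = absNorm v.asIdeal` a prime `≠ ℓ`. The image of `ζ` is a primitive `ℓ`-th root of unity
in `F` (`IsPrimitiveRoot.idealQuotient_mk`, `Ideal.rootsOfUnityMapQuot_injective` in `Mathlib/NumberTheory/NumberField/Ideal/Basic.lean`), so `ℓ ∣ p - 1`
(order divides the order of `Fˣ`), and reduction is an isomorphism of the `ℓ`-th roots of unity of `𝓞 K` with those of `F` (injective, both have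
`ℓ` elements). For `x` in `Fˣ`, `x ^ ((p - 1) / ℓ)` is an `ℓ`-th root of unity; composing with the inverse isomorphism gives a homomorphism
`Fˣ → (𝓞 K)ˣ`; `χ` is its extension by `0` (`MulChar.ofUnitHom`). `χ ≠ 1`: at a generator of the cyclic group `Fˣ` the value
`g ^ ((p-1)/ℓ)` is not `1`. For `x ∈ v`: `χ 0 = 0` and `x ^ ((p - 1) / ℓ) ∈ v` since `(p - 1) / ℓ ≥ 1`.
-/

open NumberField IsDedekindDomain Polynomial IsCyclotomicExtension.Rat
open scoped Pointwise Classical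

namespace Pool.Agent.H16.HK

variable {ℓ : ℕ} [Fact ℓ.Prime] {K : Type*} [Field K] [NumberField K] [IsCyclotomicExtension {ℓ} ℚ K]

theorem char_card (v : HeightOneSpectrum (𝓞 K)) :
    Nat.card (𝓞 K ⧸ v.asIdeal) = Ideal.absNorm v.asIdeal := rfl

theorem exists_char {v : HeightOneSpectrum (𝓞 K)} (hv : Good ℓ v) :
    ℓ ∣ Ideal.absNorm v.asIdeal - 1 ∧
    ∃ χ : MulChar (𝓞 K ⧸ v.asIdeal) (𝓞 K), χ ^ ℓ = 1 ∧ χ ≠ 1 ∧
      ∀ x : 𝓞 K, χ (Ideal.Quotient.mk v.asIdeal x) - x ^ ((Ideal.absNorm v.asIdeal - 1) / ℓ) ∈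
        v.asIdeal := by
  have hmax : v.asIdeal.IsMaximal := v.isMaximal
  let _ := Ideal.Quotient.field v.asIdeal
  have hfin : Finite (𝓞 K ⧸ v.asIdeal) := inferInstance
  have hℓ : ℓ.Prime := Fact.out
  have hcop : (Ideal.absNorm v.asIdeal).Coprime ℓ := (Nat.coprime_primes hv.1 hℓ).2 hv.2
  have hN1 : Ideal.absNorm v.asIdeal ≠ 1 := hv.1.one_lt.ne'
  have hinj := Ideal.rootsOfUnityMapQuot_injective (I := v.asIdeal) ℓ hN1 hcop
  set ρ := Ideal.rootsOfUnityMapQuot v.asIdeal ℓ with hρ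
  have hζ : IsPrimitiveRoot (IsCyclotomicExtension.zeta_spec ℓ ℚ K).toInteger ℓ :=
    (IsCyclotomicExtension.zeta_spec ℓ ℚ K).toInteger_isPrimitiveRoot
  have hζq := hζ.idealQuotient_mk (I := v.asIdeal) hN1 hcop
  -- divisibility
  have hcardU : Nat.card (𝓞 K ⧸ v.asIdeal)ˣ = Ideal.absNorm v.asIdeal - 1 := by
    rw [Nat.card_units, char_card]
  have hdvd : ℓ ∣ Ideal.absNorm v.asIdeal - 1 := by
    rw [← hcardU]
    have h1 := Subgroup.card_dvd_of_injective _ hinj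
    have h2 : Nat.card (rootsOfUnity ℓ (𝓞 K)) = ℓ := hζ.card_rootsOfUnity
    rwa [h2] at h1
  refine ⟨hdvd, ?_⟩
  have hN2 : 2 ≤ Ideal.absNorm v.asIdeal := hv.1.two_le
  set m : ℕ := (Ideal.absNorm v.asIdeal - 1) / ℓ with hm
  have hmℓ : m * ℓ = Ideal.absNorm v.asIdeal - 1 := Nat.div_mul_cancel hdvd
  have hm1 : 1 ≤ m := by
    rcases Nat.eq_zero_or_pos m with h0 | h0
    · rw [h0, zero_mul] at hmℓ
      omega
    · exact h0
  have hsurj : ∀ y : (𝓞 K ⧸ v.asIdeal)ˣ, y ^ ℓ = 1 → ∃ u : rootsOfUnity ℓ (𝓞 K), ρ u = y := by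
    intro y hy
    have hy' : ((y : (𝓞 K ⧸ v.asIdeal)ˣ) : 𝓞 K ⧸ v.asIdeal) ^ ℓ = 1 := by
      rw [← Units.val_pow_eq_pow_val, hy, Units.val_one]
    obtain ⟨i, _, hi⟩ := hζq.eq_pow_of_pow_eq_one hy'
    refine ⟨hζ.toRootsOfUnity ^ i, Units.ext ?_⟩
    rw [map_pow, Units.val_pow_eq_pow_val]
    exact hi
  have hpow : ∀ x : (𝓞 K ⧸ v.asIdeal)ˣ, (x ^ m) ^ ℓ = 1 := by
    intro x
    rw [← pow_mul, hmℓ, ← hcardU]
    exact pow_card_eq_one'
  choose g0 hg0 using fun x : (𝓞 K ⧸ v.asIdeal)ˣ => hsurj (x ^ m) (hpow x)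
  let g : (𝓞 K ⧸ v.asIdeal)ˣ →* rootsOfUnity ℓ (𝓞 K) :=
    { toFun := g0
      map_one' := hinj (by rw [hg0, one_pow, map_one])
      map_mul' := fun x y => hinj (by rw [hg0, map_mul, hg0, hg0, mul_pow]) }
  let G : (𝓞 K ⧸ v.asIdeal)ˣ →* (𝓞 K)ˣ := (rootsOfUnity ℓ (𝓞 K)).subtype.comp g
  have hG : ∀ x : (𝓞 K ⧸ v.asIdeal)ˣ, Ideal.Quotient.mk v.asIdeal ((G x : (𝓞 K)ˣ) : 𝓞 K) =
      ((x : (𝓞 K ⧸ v.asIdeal)ˣ) : 𝓞 K ⧸ v.asIdeal) ^ m := by
    intro x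
    have h1 := congrArg Units.val (hg0 x)
    rw [Units.val_pow_eq_pow_val] at h1
    exact h1
  refine ⟨MulChar.ofUnitHom G, ?_, ?_, ?_⟩
  · refine MulChar.ext fun a => ?_
    rw [MulChar.pow_apply_coe, MulChar.one_apply_coe, MulChar.ofUnitHom_coe,
      ← Units.val_pow_eq_pow_val]
    have h1 : (G a) ^ ℓ = 1 := (g a).2
    rw [h1, Units.val_one]
  · intro hone
    obtain ⟨γ, hγ⟩ := IsCyclic.exists_generator (α := (𝓞 K ⧸ v.asIdeal)ˣ)
    have h1 : (MulChar.ofUnitHom G) γ = 1 := by rw [hone, MulChar.one_apply_coe]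
    rw [MulChar.ofUnitHom_coe] at h1
    have h2 := hG γ
    rw [h1, map_one, ← Units.val_pow_eq_pow_val] at h2
    have h3 : γ ^ m = 1 := Units.ext h2.symm
    have h4 : orderOf γ = Ideal.absNorm v.asIdeal - 1 := by
      rw [orderOf_eq_card_of_forall_mem_zpowers hγ, hcardU]
    have h5 := Nat.le_of_dvd hm1 (orderOf_dvd_of_pow_eq_one h3)
    rw [h4, ← hmℓ] at h5
    have h6 := hℓ.two_le
    nlinarith
  · intro x
    by_cases hx : Ideal.Quotient.mk v.asIdeal x = 0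
    · rw [hx, MulChar.map_nonunit _ (by simp), zero_sub]
      refine neg_mem (Ideal.pow_mem_of_mem _ ?_ _ hm1)
      exact Ideal.Quotient.eq_zero_iff_mem.1 hx
    · have h1 := hG (Units.mk0 _ hx)
      have h2 : (MulChar.ofUnitHom G) (Ideal.Quotient.mk v.asIdeal x) =
          ((G (Units.mk0 _ hx) : (𝓞 K)ˣ) : 𝓞 K) :=
        MulChar.ofUnitHom_coe G (Units.mk0 _ hx)
      rw [h2, ← Ideal.Quotient.eq, h1, Units.val_mk0, map_pow]

end Pool.Agent.H16.HK
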