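import Pool.Agent.H16.HK.Summ

/-!
# Job HK-Class: from principal ideals to all ideals

Let `h` be the class number. For every ideal class `c` in which `Ψ` is not identically `0` choose `A` in `c` with `Ψ A ≠ 0` (so `A ≠ ⊥`), and put `J = A ^ (h - 1)`:
`Ψ J ≠ 0`, `J ≠ ⊥`, and for `I ≠ ⊥` : `I` is in `c` iff `I * J` is principal (`ClassGroup.mk0`, `ClassGroup.mk0_eq_one_iff`, `pow_card_eq_one`: `[A] ^ h = 1`).
`I ↦ I * J` is a bijection of the nonzero ideals of `c` with the nonzero principal ideals `P ≤ J` (`Ideal.dvd_iff_le`, `mul_left_cancel₀`), and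
`Ψ I N(I) ^ (-t) = Ψ(J)⁻¹ N(J) ^ t Ψ(I J) N(I J) ^ (-t)`. So the sum over the class is bounded by `|Ψ J|⁻¹ N(J) ^ 2 C_J`. The sum over all ideals is the
finite sum over the classes (`summable_ideals` gives absolute convergence; the ideal `⊥` contributes `Ψ ⊥ = 0`).
-/

open NumberField IsDedekindDomain nonZeroDivisors

namespace Pool.Agent.H16.HK

variable {K : Type*} [Field K] [NumberField K]

open scoped Classical in
/-- the class of an ideal (`1` for the zero ideal) -/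
noncomputable def classsCls (I : Ideal (𝓞 K)) : ClassGroup (𝓞 K) :=
  if h : I ≠ ⊥ then ClassGroup.mk0 ⟨I, mem_nonZeroDivisors_of_ne_zero h⟩ else 1

theorem classsCls_mul {I J : Ideal (𝓞 K)} (hI : I ≠ ⊥) (hJ : J ≠ ⊥) :
    classsCls (I * J) = classsCls I * classsCls J := by
  have hIJ : I * J ≠ ⊥ := mul_ne_zero hI hJ
  rw [classsCls, classsCls, classsCls, dif_pos hI, dif_pos hJ, dif_pos hIJ, ← map_mul]
  rfl

theorem classsCls_pow {I : Ideal (𝓞 K)} (hI : I ≠ ⊥) (n : ℕ) :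
    classsCls (I ^ n) = classsCls I ^ n := by
  have hIJ : I ^ n ≠ ⊥ := pow_ne_zero n hI
  rw [classsCls, classsCls, dif_pos hI, dif_pos hIJ, ← map_pow]
  rfl

theorem classsCls_eq_one {I : Ideal (𝓞 K)} (hI : I ≠ ⊥) :
    classsCls I = 1 ↔ ∃ a, I = Ideal.span {a} := by
  rw [classsCls, dif_pos hI, ClassGroup.mk0_eq_one_iff]
  constructor
  · rintro ⟨a, ha⟩
    exact ⟨a, ha⟩
  · rintro ⟨a, ha⟩
    exact ⟨⟨a, ha⟩⟩

theorem classs_summable (Ψ : Ideal (𝓞 K) →*₀ ℂ) (h1 : ∀ I, ‖Ψ I‖ ≤ 1) {t : ℝ} (ht : 1 < t) :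
    Summable (fun I : Ideal (𝓞 K) => Ψ I * (((Ideal.absNorm I : ℝ) ^ (-t) : ℝ) : ℂ)) := by
  refine Summable.of_norm_bounded (summable_ideals K ht) fun I => ?_
  rw [norm_mul, Complex.norm_real, Real.norm_eq_abs,
    abs_of_nonneg (Real.rpow_nonneg (Nat.cast_nonneg _) _)]
  calc ‖Ψ I‖ * (Ideal.absNorm I : ℝ) ^ (-t) ≤ 1 * (Ideal.absNorm I : ℝ) ^ (-t) :=
        mul_le_mul_of_nonneg_right (h1 I) (Real.rpow_nonneg (Nat.cast_nonneg _) _)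
    _ = (Ideal.absNorm I : ℝ) ^ (-t) := one_mul _

theorem classs_mem_iff (c : ClassGroup (𝓞 K)) {A : Ideal (𝓞 K)} (hA : A ≠ ⊥)
    (hc : classsCls A = c) {h : ℕ} (hh : h = Fintype.card (ClassGroup (𝓞 K)))
    {I : Ideal (𝓞 K)} (hI : I ≠ ⊥) :
    classsCls I = c ↔ ∃ a, I * A ^ (h - 1) = Ideal.span {a} := by
  have hpos : 0 < h := hh ▸ Fintype.card_pos
  by_cases h1 : h - 1 = 0
  · have hcard : Fintype.card (ClassGroup (𝓞 K)) = 1 := by omega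
    have hsub : Subsingleton (ClassGroup (𝓞 K)) := Fintype.card_le_one_iff_subsingleton.mp hcard.le
    rw [h1, pow_zero, mul_one, ← classsCls_eq_one hI]
    exact ⟨fun _ => Subsingleton.elim _ _, fun _ => Subsingleton.elim _ _⟩
  · have hJ : A ^ (h - 1) ≠ ⊥ := pow_ne_zero _ hA
    rw [← classsCls_eq_one (mul_ne_zero hI hJ), classsCls_mul hI hJ, classsCls_pow hA _, hc]
    have hch : c * c ^ (h - 1) = 1 := by
      rw [← pow_succ', Nat.sub_add_cancel hpos, hh]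
      exact pow_card_eq_one
    constructor
    · rintro rfl
      exact hch
    · intro e
      exact mul_right_cancel (e.trans hch.symm)

/-- the bijection `I ↦ I * J` -/
theorem classs_bij (c : ClassGroup (𝓞 K)) {A : Ideal (𝓞 K)} (hA : A ≠ ⊥)
    (hc : classsCls A = c) {h : ℕ} (hh : h = Fintype.card (ClassGroup (𝓞 K))) :
    ∃ e : {I : Ideal (𝓞 K) // I ≠ ⊥ ∧ classsCls I = c} ≃
      {P : Ideal (𝓞 K) // P ≠ ⊥ ∧ (∃ a, P = Ideal.span {a}) ∧ P ≤ A ^ (h - 1)},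
      ∀ I, ((e I : Ideal (𝓞 K))) = I * A ^ (h - 1) := by
  have hJ : A ^ (h - 1) ≠ ⊥ := pow_ne_zero _ hA
  let F : {I : Ideal (𝓞 K) // I ≠ ⊥ ∧ classsCls I = c} →
      {P : Ideal (𝓞 K) // P ≠ ⊥ ∧ (∃ a, P = Ideal.span {a}) ∧ P ≤ A ^ (h - 1)} :=
    fun I => ⟨I * A ^ (h - 1), mul_ne_zero I.2.1 hJ,
      (classs_mem_iff c hA hc hh I.2.1).1 I.2.2, Ideal.mul_le_right⟩
  have hF : Function.Bijective F := by
    constructor
    · intro I I' e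
      have e1 : (I : Ideal (𝓞 K)) * A ^ (h - 1) = I' * A ^ (h - 1) := congrArg Subtype.val e
      exact Subtype.ext (mul_right_cancel₀ hJ e1)
    · rintro ⟨P, hP, hPa, hPJ⟩
      obtain ⟨I, rfl⟩ := Ideal.dvd_iff_le.2 hPJ
      have hI : I ≠ ⊥ := right_ne_zero_of_mul hP
      refine ⟨⟨I, hI, (classs_mem_iff c hA hc hh hI).2 ?_⟩, ?_⟩
      · rw [mul_comm]
        exact hPa
      · apply Subtype.ext
        change I * A ^ (h - 1) = A ^ (h - 1) * I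
        exact mul_comm _ _
  exact ⟨Equiv.ofBijective F hF, fun I => rfl⟩

theorem classs_one (Ψ : Ideal (𝓞 K) →*₀ ℂ)
    (h : ∀ J : Ideal (𝓞 K), J ≠ ⊥ → ∃ C : ℝ, ∀ t : ℝ, 1 < t → t ≤ 2 →
      ‖∑' P : {P : Ideal (𝓞 K) // P ≠ ⊥ ∧ (∃ a, P = Ideal.span {a}) ∧ P ≤ J},
        Ψ P * (((Ideal.absNorm (P : Ideal (𝓞 K)) : ℝ) ^ (-t) : ℝ) : ℂ)‖ ≤ C)
    (c : ClassGroup (𝓞 K)) :
    ∃ C : ℝ, ∀ t : ℝ, 1 < t → t ≤ 2 →
      ‖∑' I : {I : Ideal (𝓞 K) // I ≠ ⊥ ∧ classsCls I = c},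
        Ψ I * (((Ideal.absNorm (I : Ideal (𝓞 K)) : ℝ) ^ (-t) : ℝ) : ℂ)‖ ≤ C := by
  by_cases hz : ∀ I : Ideal (𝓞 K), I ≠ ⊥ → classsCls I = c → Ψ I = 0
  · refine ⟨0, fun t _ _ => ?_⟩
    have e : (fun I : {I : Ideal (𝓞 K) // I ≠ ⊥ ∧ classsCls I = c} =>
        Ψ I * (((Ideal.absNorm (I : Ideal (𝓞 K)) : ℝ) ^ (-t) : ℝ) : ℂ)) = fun _ => 0 := by
      funext I
      rw [hz I I.2.1 I.2.2, zero_mul]
    rw [e, tsum_zero, norm_zero]
  · push Not at hz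
    obtain ⟨A, hA, hAc, hΨ⟩ := hz
    set n := Fintype.card (ClassGroup (𝓞 K)) with hn
    obtain ⟨J, hJdef⟩ : ∃ J, J = A ^ (n - 1) := ⟨_, rfl⟩
    have hbij := classs_bij c hA hAc hn
    rw [← hJdef] at hbij
    obtain ⟨e, he⟩ := hbij
    have hJ : J ≠ ⊥ := hJdef ▸ pow_ne_zero _ hA
    have hΨJ : Ψ J ≠ 0 := by
      rw [hJdef, map_pow]
      exact pow_ne_zero _ hΨ
    have hNJ : (0 : ℝ) < Ideal.absNorm J := by
      have := Ideal.absNorm_eq_zero_iff.not.2 hJ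
      exact_mod_cast Nat.pos_of_ne_zero this
    have hNJ1 : (1 : ℝ) ≤ Ideal.absNorm J := by
      have := Ideal.absNorm_eq_zero_iff.not.2 hJ
      exact_mod_cast Nat.pos_of_ne_zero this
    obtain ⟨C, hC⟩ := h J hJ
    refine ⟨‖Ψ J‖⁻¹ * (Ideal.absNorm J : ℝ) ^ (2 : ℝ) * C, fun t ht1 ht2 => ?_⟩
    have key : ∀ I : {I : Ideal (𝓞 K) // I ≠ ⊥ ∧ classsCls I = c},
        Ψ I * (((Ideal.absNorm (I : Ideal (𝓞 K)) : ℝ) ^ (-t) : ℝ) : ℂ) =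
        ((Ψ J)⁻¹ * (((Ideal.absNorm J : ℝ) ^ t : ℝ) : ℂ)) *
          (Ψ (e I) * (((Ideal.absNorm ((e I : Ideal (𝓞 K))) : ℝ) ^ (-t) : ℝ) : ℂ)) := by
      intro I
      rw [he I, map_mul, map_mul, Nat.cast_mul,
        Real.mul_rpow (Nat.cast_nonneg _) (Nat.cast_nonneg _), Complex.ofReal_mul]
      have e2 : (((Ideal.absNorm J : ℝ) ^ t : ℝ) : ℂ) * (((Ideal.absNorm J : ℝ) ^ (-t) : ℝ) : ℂ)
          = 1 := by
        rw [← Complex.ofReal_mul, ← Real.rpow_add hNJ]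
        simp
      calc Ψ I * (((Ideal.absNorm (I : Ideal (𝓞 K)) : ℝ) ^ (-t) : ℝ) : ℂ)
          = ((Ψ J)⁻¹ * Ψ J) * ((((Ideal.absNorm J : ℝ) ^ t : ℝ) : ℂ) *
            (((Ideal.absNorm J : ℝ) ^ (-t) : ℝ) : ℂ)) *
            (Ψ I * (((Ideal.absNorm (I : Ideal (𝓞 K)) : ℝ) ^ (-t) : ℝ) : ℂ)) := by
            rw [e2, inv_mul_cancel₀ hΨJ, one_mul, one_mul]
        _ = _ := by ring
    rw [tsum_congr key, tsum_mul_left,
      e.tsum_eq (fun P : {P : Ideal (𝓞 K) // P ≠ ⊥ ∧ (∃ a, P = Ideal.span {a}) ∧ P ≤ J} =>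
        Ψ P * (((Ideal.absNorm (P : Ideal (𝓞 K)) : ℝ) ^ (-t) : ℝ) : ℂ)), norm_mul, norm_mul,
      norm_inv, Complex.norm_real, Real.norm_eq_abs, abs_of_nonneg (Real.rpow_nonneg hNJ.le _)]
    have hC0 : 0 ≤ C := (norm_nonneg _).trans (hC t ht1 ht2)
    refine mul_le_mul ?_ (hC t ht1 ht2) (norm_nonneg _) (by positivity)
    exact mul_le_mul_of_nonneg_left (Real.rpow_le_rpow_of_exponent_le hNJ1 ht2) (by positivity)

theorem class_sum (Ψ : Ideal (𝓞 K) →*₀ ℂ) (h1 : ∀ I, ‖Ψ I‖ ≤ 1)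
    (h : ∀ J : Ideal (𝓞 K), J ≠ ⊥ → ∃ C : ℝ, ∀ t : ℝ, 1 < t → t ≤ 2 →
      ‖∑' P : {P : Ideal (𝓞 K) // P ≠ ⊥ ∧ (∃ a, P = Ideal.span {a}) ∧ P ≤ J},
        Ψ P * (((Ideal.absNorm (P : Ideal (𝓞 K)) : ℝ) ^ (-t) : ℝ) : ℂ)‖ ≤ C) :
    ∃ C : ℝ, ∀ t : ℝ, 1 < t → t ≤ 2 →
      ‖∑' I : Ideal (𝓞 K), Ψ I * (((Ideal.absNorm I : ℝ) ^ (-t) : ℝ) : ℂ)‖ ≤ C := by
  classical
  choose C hC using classs_one Ψ h
  refine ⟨∑ c, C c, fun t ht1 ht2 => ?_⟩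
  set f : Ideal (𝓞 K) → ℂ := fun I => Ψ I * (((Ideal.absNorm I : ℝ) ^ (-t) : ℝ) : ℂ) with hf
  have hs : Summable f := classs_summable Ψ h1 ht1
  have e1 : ∀ I, f I = ∑ c, Set.indicator {I : Ideal (𝓞 K) | I ≠ ⊥ ∧ classsCls I = c} f I := by
    intro I
    by_cases hI : I = ⊥
    · have : f I = 0 := by
        rw [hf, hI]
        change Ψ 0 * _ = 0
        rw [map_zero, zero_mul]
      rw [this]
      refine (Finset.sum_eq_zero fun c _ => Set.indicator_of_notMem ?_ _).symm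
      rintro ⟨h0, _⟩
      exact h0 hI
    · rw [Finset.sum_eq_single (classsCls I)]
      · exact (Set.indicator_of_mem (s := {I' : Ideal (𝓞 K) | I' ≠ ⊥ ∧ classsCls I' = classsCls I})
          ⟨hI, rfl⟩ f).symm
      · intro c _ hc
        refine Set.indicator_of_notMem ?_ _
        rintro ⟨_, h2⟩
        exact hc h2.symm
      · intro hne
        exact absurd (Finset.mem_univ _) hne
  rw [tsum_congr e1, Summable.tsum_finsetSum (fun c _ => hs.indicator _)]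
  refine (norm_sum_le _ _).trans (Finset.sum_le_sum fun c _ => ?_)
  rw [← tsum_subtype]
  exact hC c t ht1 ht2

end Pool.Agent.H16.HK
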