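import Pool.Agent.H16.HK.Defs

/-!
# Job HK-Cone: the cone of bounded `logMap`

`‖x‖ = max_w |x|_w` (`norm_eq_sup'_normAtPlace`), `N x = ∏_w |x|_w ^ (mult w)` (`mixedEmbedding.norm_apply`), `∑_w mult w = n`
(`InfinitePlace.sum_mult_eq`), `n = finrank ℚ K`.
* `norm_le_pow`: each `|x|_w ≤ ‖x‖`.
* `pow_le_norm`: each `|x|_w ≥ c ‖x‖`.
* `cone`: put `d_w = log |x|_w - log(N x) / n`. For `w ≠ w₀`, `logMap x w = mult w * d_w`, so `|d_w| ≤ R` (`mult w ≥ 1`).
  `∑_w mult w * d_w = log N x - log N x = 0`, so `|d_{w₀}| ≤ mult w₀ |d_{w₀}| ≤ (number of places) * R =: R'`. Hence for all `w, w'`: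
  `log |x|_w ≥ log |x|_{w'} - 2 (R + R')`, `|x|_w ≥ exp(-2 (R + R')) |x|_{w'}`; `c = exp(-2 (R + R'))`.
-/

open NumberField NumberField.InfinitePlace NumberField.mixedEmbedding NumberField.Units
open NumberField.Units.dirichletUnitTheorem MeasureTheory Module
open scoped Classical

namespace Pool.Agent.H16.HK

variable {K : Type*} [Field K] [NumberField K]

theorem normAtPlace_le_norm (x : mixedSpace K) (w : InfinitePlace K) : normAtPlace w x ≤ ‖x‖ := by
  rw [norm_eq_sup'_normAtPlace]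
  exact Finset.le_sup' (fun w => normAtPlace w x) (Finset.mem_univ w)

theorem norm_le_pow (x : mixedSpace K) : mixedEmbedding.norm x ≤ ‖x‖ ^ finrank ℚ K := by
  rw [mixedEmbedding.norm_apply, ← sum_mult_eq, ← Finset.prod_pow_eq_pow_sum]
  exact Finset.prod_le_prod (fun w _ => pow_nonneg (normAtPlace_nonneg w x) _)
    (fun w _ => pow_le_pow_left₀ (normAtPlace_nonneg w x) (normAtPlace_le_norm x w) _)

theorem pow_le_norm {c : ℝ} (hc : 0 ≤ c) {x : mixedSpace K}
    (h : ∀ w, c * ‖x‖ ≤ normAtPlace w x) : (c * ‖x‖) ^ finrank ℚ K ≤ mixedEmbedding.norm x := by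
  rw [mixedEmbedding.norm_apply, ← sum_mult_eq, ← Finset.prod_pow_eq_pow_sum]
  exact Finset.prod_le_prod (fun w _ => pow_nonneg (mul_nonneg hc (norm_nonneg x)) _)
    (fun w _ => pow_le_pow_left₀ (mul_nonneg hc (norm_nonneg x)) (h w) _)

theorem cone_bound {x : mixedSpace K} {R : ℝ} (hx : mixedEmbedding.norm x ≠ 0)
    (hR : ‖logMap x‖ ≤ R) (w : InfinitePlace K) :
    |Real.log (normAtPlace w x) - Real.log (mixedEmbedding.norm x) * (finrank ℚ K : ℝ)⁻¹| ≤
      Fintype.card (InfinitePlace K) * R := by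
  have hR0 : 0 ≤ R := (norm_nonneg _).trans hR
  have hn : (finrank ℚ K : ℝ) ≠ 0 := by
    have := (Module.finrank_pos : 0 < finrank ℚ K)
    positivity
  set d : InfinitePlace K → ℝ := fun w => Real.log (normAtPlace w x) -
    Real.log (mixedEmbedding.norm x) * (finrank ℚ K : ℝ)⁻¹ with hd
  have h1 : ∀ w : InfinitePlace K, w ≠ w₀ → |(mult w : ℝ) * d w| ≤ R := by
    intro w hw
    have := (norm_le_pi_norm (logMap x) ⟨w, hw⟩).trans hR
    rwa [logMap_apply, Real.norm_eq_abs] at this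
  have hne : ∀ w, normAtPlace w x ≠ 0 := mixedEmbedding.norm_ne_zero_iff.1 hx
  have hlog : ∑ w : InfinitePlace K, (mult w : ℝ) * Real.log (normAtPlace w x) =
      Real.log (mixedEmbedding.norm x) := by
    rw [mixedEmbedding.norm_apply, Real.log_prod (fun w _ => pow_ne_zero _ (hne w))]
    exact Finset.sum_congr rfl fun w _ => (Real.log_pow _ _).symm
  have hsum : ∑ w : InfinitePlace K, (mult w : ℝ) * d w = 0 := by
    have e : ∀ w : InfinitePlace K, (mult w : ℝ) * d w =
        (mult w : ℝ) * Real.log (normAtPlace w x) -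
        (mult w : ℝ) * (Real.log (mixedEmbedding.norm x) * (finrank ℚ K : ℝ)⁻¹) := by
      intro w
      rw [hd]
      ring
    rw [Finset.sum_congr rfl fun w _ => e w, Finset.sum_sub_distrib, hlog, ← Finset.sum_mul,
      ← Nat.cast_sum, sum_mult_eq]
    field_simp
    ring
  have habs : |(mult w : ℝ) * d w| ≤ Fintype.card (InfinitePlace K) * R := by
    have hcard1 : (1 : ℝ) ≤ Fintype.card (InfinitePlace K) := by
      exact_mod_cast Fintype.card_pos_iff.2 ⟨w⟩
    by_cases hw : w = w₀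
    · rw [← Finset.add_sum_erase _ _ (Finset.mem_univ w)] at hsum
      have h2 : (mult w : ℝ) * d w =
          -∑ w' ∈ Finset.univ.erase w, (mult w' : ℝ) * d w' := by linarith
      rw [h2, abs_neg]
      calc |∑ w' ∈ Finset.univ.erase w, (mult w' : ℝ) * d w'|
          ≤ ∑ w' ∈ Finset.univ.erase w, |(mult w' : ℝ) * d w'| := Finset.abs_sum_le_sum_abs _ _
        _ ≤ ∑ w' ∈ Finset.univ.erase w, R := by
            refine Finset.sum_le_sum fun w' hw' => h1 w' ?_
            have := Finset.ne_of_mem_erase hw'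
            rwa [hw] at this
        _ ≤ ∑ w' : InfinitePlace K, R :=
            Finset.sum_le_sum_of_subset_of_nonneg (Finset.erase_subset _ _) fun _ _ _ => hR0
        _ = Fintype.card (InfinitePlace K) * R := by
            rw [Finset.sum_const, Finset.card_univ, nsmul_eq_mul]
    · calc |(mult w : ℝ) * d w| ≤ R := h1 w hw
        _ = 1 * R := (one_mul R).symm
        _ ≤ _ := mul_le_mul_of_nonneg_right hcard1 hR0
  have hm : (1 : ℝ) ≤ mult w := by exact_mod_cast one_le_mult
  rw [abs_mul, abs_of_pos (by linarith)] at habs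
  calc |d w| = 1 * |d w| := (one_mul _).symm
    _ ≤ (mult w : ℝ) * |d w| := mul_le_mul_of_nonneg_right hm (abs_nonneg _)
    _ ≤ _ := habs

theorem cone (K : Type*) [Field K] [NumberField K] (R : ℝ) :
    ∃ c : ℝ, 0 < c ∧ c ≤ 1 ∧ ∀ x : mixedSpace K, mixedEmbedding.norm x ≠ 0 → ‖logMap x‖ ≤ R →
      ∀ w, c * ‖x‖ ≤ normAtPlace w x := by
  set B : ℝ := Fintype.card (InfinitePlace K) * |R| with hB
  have hB0 : 0 ≤ B := by positivity
  refine ⟨Real.exp (-(2 * B)), Real.exp_pos _, Real.exp_le_one_iff.2 (by linarith), ?_⟩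
  intro x hx hR w
  have hbd := cone_bound hx (hR.trans (le_abs_self R))
  have hne : ∀ w, normAtPlace w x ≠ 0 := mixedEmbedding.norm_ne_zero_iff.1 hx
  have hpos : ∀ w, 0 < normAtPlace w x := fun w =>
    lt_of_le_of_ne (normAtPlace_nonneg w x) (hne w).symm
  obtain ⟨w', -, hw'⟩ := Finset.exists_mem_eq_sup' (s := (Finset.univ : Finset (InfinitePlace K)))
    Finset.univ_nonempty (fun w => normAtPlace w x)
  rw [norm_eq_sup'_normAtPlace, hw', ← Real.exp_log (hpos w), ← Real.exp_log (hpos w'),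
    ← Real.exp_add, Real.exp_le_exp]
  have h1 := abs_le.1 (hbd w)
  have h2 := abs_le.1 (hbd w')
  rw [← hB] at h1 h2
  linarith [h1.1, h2.2]

end Pool.Agent.H16.HK
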