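import Mathlib

/-!
# Hecke characters of infinite order over a number field: the test functions

`mixedSpace K = ℝ ^ r₁ × ℂ ^ r₂`, `mixedEmbedding.norm` the absolute value of the norm,
`logMap : mixedSpace K → logSpace K` and `logEmbedding` of Mathlib.
-/

open NumberField NumberField.InfinitePlace NumberField.mixedEmbedding NumberField.Units
open NumberField.Units.dirichletUnitTheorem MeasureTheory

open scoped Classical

namespace Pool.Agent.H16.HK

noncomputable section

/-- `z / |z|` -/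
def uni (z : ℂ) : ℂ := z / (‖z‖ : ℂ)

variable {K : Type*} [Field K] [NumberField K]

/-- `∏_w (x_w / |x_w|) ^ m_w` over the complex places -/
def Phi (m : {w : InfinitePlace K // IsComplex w} → ℤ) (x : mixedSpace K) : ℂ :=
  ∏ w, uni (x.2 w) ^ m w

/-- a cutoff: `0` for `y ≤ 1/2`, `1` for `1 ≤ y` -/
def cut (y : ℝ) : ℝ := min 1 (max 0 (2 * y - 1))

/-- a Lipschitz partition of unity for the action of the units -/
structure IsBump (b : logSpace K → ℝ) : Prop where
  nonneg : ∀ y, 0 ≤ b y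
  le_one : ∀ y, b y ≤ 1
  lip : ∃ C : ℝ, 0 ≤ C ∧ ∀ y z, |b y - b z| ≤ C * ‖y - z‖
  supp : ∃ R : ℝ, 0 ≤ R ∧ ∀ y, b y ≠ 0 → ‖y‖ ≤ R
  sum : ∀ y, HasSum (fun u : (𝓞 K)ˣ => b (y + logEmbedding K (Additive.ofMul u))) 1

/-- the test function `x ↦ b(log x) ∏_w (x_w / |x_w|) ^ m_w |N x| ^ (-t)`, cut off at `|N x| ≤ 1/2` -/
def G (b : logSpace K → ℝ) (m : {w : InfinitePlace K // IsComplex w} → ℤ) (t : ℝ)
    (x : mixedSpace K) : ℂ :=
  ((cut (mixedEmbedding.norm x) * b (logMap x) * mixedEmbedding.norm x ^ (-t) : ℝ) : ℂ) * Phi m x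

end

end Pool.Agent.H16.HK
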