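import Pool.Agent.H16.HK.Defs

/-!
# Job HK-Diff: the variation of `Phi`, `logMap` and `|N| ^ (-t)` in a cone

Let `x ≠ 0`, `|x|_w ≥ c ‖x‖` for all places `w`, and `‖x - y‖ ≤ (c / 2) ‖x‖`. Then for every `w`
`|x - y|_w ≤ ‖x - y‖` (`‖z‖ = max_w |z|_w`, `norm_eq_sup'_normAtPlace`), so `|y|_w ≥ (c / 2) ‖x‖ > 0`, `||x|_w - |y|_w| ≤ ‖x - y‖`.
* `uni_sub_le`: `a/|a| - b/|b| = (a - b)/|a| + (b/|b|) (|b| - |a|)/|a|` (`b = 0`: `‖uni a‖ ≤ 1`).
* `Phi_diff`: product of unit complex numbers; `|u ^ m - v ^ m| ≤ |m| |u - v|` for `|u| = |v| = 1`, `m : ℤ`;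
  `|∏ a_i - ∏ b_i| ≤ ∑ |a_i - b_i|` for `|a_i|, |b_i| ≤ 1`; `‖x.2 w‖ = normAtPlace w x` for a complex place.
* `logMap_diff`: `|log |x|_w - log |y|_w| ≤ ||x|_w - |y|_w| / min(|x|_w, |y|_w) ≤ (2 / c) ‖x - y‖ / ‖x‖`,
  `log N x = ∑ mult w log |x|_w`; `‖·‖` on `logSpace K` is the sup norm (`pi_norm_le_iff_of_nonneg`).
* `norm_rpow_diff`: with `a = t log N x`, `a' = t log N y`: `|exp(-a) - exp(-a')| ≤ |a - a'| max(exp(-a), exp(-a'))`, `|a - a'| ≤ 2 (2 n / c) ‖x - y‖ / ‖x‖`, and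
  `exp(-a), exp(-a') ≤ ((c/2) ‖x‖) ^ (-n t) ≤ max(1, (c/2) ^ (-2 n)) ‖x‖ ^ (-n)`, because `‖x‖ ≥ 1` and `1 ≤ t ≤ 2`.
-/

open NumberField NumberField.InfinitePlace NumberField.mixedEmbedding NumberField.Units
open NumberField.Units.dirichletUnitTheorem MeasureTheory Module
open scoped Classical

namespace Pool.Agent.H16.HK

variable {K : Type*} [Field K] [NumberField K]

theorem uni_norm {a : ℂ} (ha : a ≠ 0) : ‖uni a‖ = 1 := by
  unfold uni
  rw [norm_div, Complex.norm_real, norm_norm, div_self (norm_ne_zero_iff.2 ha)]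

lemma diff_uni_zero : uni 0 = 0 := by
  unfold uni
  rw [zero_div]

theorem uni_norm_le (a : ℂ) : ‖uni a‖ ≤ 1 := by
  by_cases ha : a = 0
  · rw [ha, diff_uni_zero, norm_zero]
    exact zero_le_one
  · exact (uni_norm ha).le

theorem uni_sub_le (a b : ℂ) (ha : a ≠ 0) : ‖uni a - uni b‖ ≤ 2 * ‖a - b‖ / ‖a‖ := by
  have hna : 0 < ‖a‖ := norm_pos_iff.2 ha
  by_cases hb : b = 0
  · rw [hb, diff_uni_zero, sub_zero, sub_zero, uni_norm ha, mul_div_assoc, div_self hna.ne']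
    norm_num
  have hnb : 0 < ‖b‖ := norm_pos_iff.2 hb
  have hca : (‖a‖ : ℂ) ≠ 0 := by exact_mod_cast hna.ne'
  have hcb : (‖b‖ : ℂ) ≠ 0 := by exact_mod_cast hnb.ne'
  have h1 : uni a - uni b = (a - b) / (‖a‖ : ℂ) + uni b * (((‖b‖ - ‖a‖ : ℝ) : ℂ) / (‖a‖ : ℂ)) := by
    unfold uni
    push_cast
    field_simp
    ring
  rw [h1]
  refine (norm_add_le _ _).trans ?_
  rw [norm_mul, uni_norm hb, norm_div, norm_div, Complex.norm_real, Complex.norm_real, norm_norm,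
    one_mul, Real.norm_eq_abs, ← add_div]
  refine div_le_div_of_nonneg_right ?_ hna.le
  have h2 := abs_norm_sub_norm_le b a
  rw [norm_sub_rev] at h2
  linarith

lemma diff_zpow_norm_le {u : ℂ} (hu : ‖u‖ ≤ 1) (hu0 : u = 0 ∨ ‖u‖ = 1) (m : ℤ) : ‖u ^ m‖ ≤ 1 := by
  rw [norm_zpow]
  rcases hu0 with h | h
  · rw [h, norm_zero]
    by_cases hm : m = 0
    · rw [hm, zpow_zero]
    · rw [zero_zpow m hm]
      exact zero_le_one
  · rw [h, one_zpow]

lemma diff_uni_or (a : ℂ) : uni a = 0 ∨ ‖uni a‖ = 1 := by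
  by_cases ha : a = 0
  · exact Or.inl (by rw [ha, diff_uni_zero])
  · exact Or.inr (uni_norm ha)

theorem Phi_norm_le (m : {w : InfinitePlace K // IsComplex w} → ℤ) (x : mixedSpace K) :
    ‖Phi m x‖ ≤ 1 := by
  unfold Phi
  rw [norm_prod]
  refine Finset.prod_le_one (fun _ _ => norm_nonneg _) fun w _ => ?_
  exact diff_zpow_norm_le (uni_norm_le _) (diff_uni_or _) _

lemma diff_pow {u v : ℂ} (hu : ‖u‖ ≤ 1) (hv : ‖v‖ ≤ 1) (n : ℕ) : ‖u ^ n - v ^ n‖ ≤ n * ‖u - v‖ := by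
  induction n with
  | zero => simp
  | succ n ih =>
    have h1 : u ^ (n + 1) - v ^ (n + 1) = u ^ n * (u - v) + (u ^ n - v ^ n) * v := by ring
    rw [h1]
    refine (norm_add_le _ _).trans ?_
    rw [norm_mul, norm_mul, norm_pow]
    have h2 : ‖u‖ ^ n ≤ 1 := pow_le_one₀ (norm_nonneg _) hu
    have h3 : ‖u‖ ^ n * ‖u - v‖ ≤ 1 * ‖u - v‖ := mul_le_mul_of_nonneg_right h2 (norm_nonneg _)
    have h4 : ‖u ^ n - v ^ n‖ * ‖v‖ ≤ ‖u ^ n - v ^ n‖ * 1 := mul_le_mul_of_nonneg_left hv (norm_nonneg _)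
    push_cast
    linarith

lemma diff_zpow {u v : ℂ} (hu : ‖u‖ = 1) (hv : ‖v‖ = 1) (m : ℤ) :
    ‖u ^ m - v ^ m‖ ≤ |(m : ℝ)| * ‖u - v‖ := by
  rcases m with n | n
  · have := diff_pow hu.le hv.le n
    simpa using this
  · have hu0 : u ≠ 0 := fun h => by rw [h, norm_zero] at hu; exact zero_ne_one hu
    have hv0 : v ≠ 0 := fun h => by rw [h, norm_zero] at hv; exact zero_ne_one hv
    have h1 : ‖u⁻¹ - v⁻¹‖ = ‖u - v‖ := by
      rw [inv_sub_inv hu0 hv0, norm_div, norm_mul, hu, hv, mul_one, div_one, norm_sub_rev]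
    have h2 := diff_pow (u := u⁻¹) (v := v⁻¹) (by rw [norm_inv, hu, inv_one])
      (by rw [norm_inv, hv, inv_one]) (n + 1)
    rw [h1, inv_pow, inv_pow] at h2
    rw [zpow_negSucc, zpow_negSucc]
    refine h2.trans (le_of_eq ?_)
    congr 1
    rw [Int.cast_negSucc, abs_neg, abs_of_nonneg (by positivity)]

lemma diff_prod {ι : Type*} (s : Finset ι) (a b : ι → ℂ) (ha : ∀ i, ‖a i‖ ≤ 1)
    (hb : ∀ i, ‖b i‖ ≤ 1) : ‖∏ i ∈ s, a i - ∏ i ∈ s, b i‖ ≤ ∑ i ∈ s, ‖a i - b i‖ := by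
  induction s using Finset.induction_on with
  | empty => simp
  | insert i s hi ih =>
    rw [Finset.prod_insert hi, Finset.prod_insert hi, Finset.sum_insert hi]
    have h1 : a i * ∏ i ∈ s, a i - b i * ∏ i ∈ s, b i =
        (a i - b i) * ∏ i ∈ s, a i + b i * (∏ i ∈ s, a i - ∏ i ∈ s, b i) := by ring
    rw [h1]
    refine (norm_add_le _ _).trans ?_
    rw [norm_mul, norm_mul]
    have h2 : ‖∏ i ∈ s, a i‖ ≤ 1 := by
      rw [norm_prod]
      exact Finset.prod_le_one (fun _ _ => norm_nonneg _) fun _ _ => ha _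
    have h3 : ‖a i - b i‖ * ‖∏ i ∈ s, a i‖ ≤ ‖a i - b i‖ * 1 :=
      mul_le_mul_of_nonneg_left h2 (norm_nonneg _)
    have h4 : ‖b i‖ * ‖∏ i ∈ s, a i - ∏ i ∈ s, b i‖ ≤ 1 * ‖∏ i ∈ s, a i - ∏ i ∈ s, b i‖ :=
      mul_le_mul_of_nonneg_right (hb i) (norm_nonneg _)
    linarith

lemma diff_place_le (w : InfinitePlace K) (x : mixedSpace K) : normAtPlace w x ≤ ‖x‖ := by
  rw [norm_eq_sup'_normAtPlace]
  exact Finset.le_sup' (fun w => normAtPlace w x) (Finset.mem_univ w)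

lemma diff_place_sub (w : InfinitePlace K) (x y : mixedSpace K) :
    |normAtPlace w x - normAtPlace w y| ≤ ‖x - y‖ := by
  have h0 := diff_place_le w (x - y)
  have h1 := normAtPlace_add_le w (x - y) y
  rw [sub_add_cancel] at h1
  have h2 := normAtPlace_add_le w (y - x) x
  rw [sub_add_cancel, ← neg_sub x y, normAtPlace_neg] at h2
  rw [abs_le]
  constructor <;> linarith

lemma diff_place_lower {c : ℝ} (w : InfinitePlace K) (x y : mixedSpace K)
    (h : c * ‖x‖ ≤ normAtPlace w x) (hxy : ‖x - y‖ ≤ c / 2 * ‖x‖) :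
    c / 2 * ‖x‖ ≤ normAtPlace w y := by
  have := (abs_le.1 (diff_place_sub w x y)).2
  linarith

lemma diff_log {a b m : ℝ} (hm : 0 < m) (ha : m ≤ a) (hb : m ≤ b) :
    |Real.log a - Real.log b| ≤ |a - b| / m := by
  have key : ∀ a b : ℝ, m ≤ a → m ≤ b → b ≤ a → |Real.log a - Real.log b| ≤ |a - b| / m := by
    intro a b ha hb hab
    have ha0 : 0 < a := lt_of_lt_of_le hm ha
    have hb0 : 0 < b := lt_of_lt_of_le hm hb
    have h1 : Real.log b ≤ Real.log a := Real.log_le_log hb0 hab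
    rw [abs_of_nonneg (by linarith), abs_of_nonneg (by linarith), ← Real.log_div ha0.ne' hb0.ne']
    have h2 := Real.log_le_sub_one_of_pos (show 0 < a / b by positivity)
    have h3 : a / b - 1 = (a - b) / b := by
      field_simp
    rw [h3] at h2
    exact h2.trans (div_le_div_of_nonneg_left (by linarith) hm hb)
  rcases le_total b a with h | h
  · exact key a b ha hb h
  · rw [abs_sub_comm, abs_sub_comm a b]
    exact key b a hb ha h

theorem Phi_diff (m : {w : InfinitePlace K // IsComplex w} → ℤ) {c : ℝ} (hc : 0 < c) :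
    ∃ C : ℝ, 0 ≤ C ∧ ∀ x y : mixedSpace K, x ≠ 0 → (∀ w, c * ‖x‖ ≤ normAtPlace w x) →
      ‖x - y‖ ≤ c / 2 * ‖x‖ → ‖Phi m x - Phi m y‖ ≤ C * (‖x - y‖ / ‖x‖) := by
  refine ⟨∑ w, |(m w : ℝ)| * (2 / c), by positivity, fun x y hx hw hxy => ?_⟩
  have hx0 : 0 < ‖x‖ := norm_pos_iff.2 hx
  unfold Phi
  refine (diff_prod _ _ _ (fun w => diff_zpow_norm_le (uni_norm_le _) (diff_uni_or _) _)
    (fun w => diff_zpow_norm_le (uni_norm_le _) (diff_uni_or _) _)).trans ?_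
  rw [Finset.sum_mul]
  refine Finset.sum_le_sum fun w _ => ?_
  have h1 := hw w.1
  have h2 := diff_place_lower w.1 x y h1 hxy
  have h4 := diff_place_le w.1 (x - y)
  rw [normAtPlace_apply_of_isComplex w.2] at h1 h2 h4
  have h1' : c * ‖x‖ ≤ ‖x.2 w‖ := h1
  have h2' : c / 2 * ‖x‖ ≤ ‖y.2 w‖ := h2
  have h4' : ‖x.2 w - y.2 w‖ ≤ ‖x - y‖ := h4
  have hxw : x.2 w ≠ 0 := by
    rw [← norm_pos_iff]
    exact lt_of_lt_of_le (by positivity) h1'
  have hyw : y.2 w ≠ 0 := by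
    rw [← norm_pos_iff]
    exact lt_of_lt_of_le (by positivity) h2'
  refine (diff_zpow (uni_norm hxw) (uni_norm hyw) (m w)).trans ?_
  rw [mul_assoc]
  refine mul_le_mul_of_nonneg_left ?_ (abs_nonneg _)
  refine (uni_sub_le _ _ hxw).trans ?_
  calc 2 * ‖x.2 w - y.2 w‖ / ‖x.2 w‖ ≤ 2 * ‖x - y‖ / (c * ‖x‖) := by gcongr
    _ = 2 / c * (‖x - y‖ / ‖x‖) := by field_simp

lemma diff_log_place {c : ℝ} (hc : 0 < c) {x y : mixedSpace K} (hx : x ≠ 0)
    (hw : ∀ w, c * ‖x‖ ≤ normAtPlace w x) (hxy : ‖x - y‖ ≤ c / 2 * ‖x‖) (w : InfinitePlace K) :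
    |Real.log (normAtPlace w x) - Real.log (normAtPlace w y)| ≤ 2 / c * (‖x - y‖ / ‖x‖) := by
  have hx0 : 0 < ‖x‖ := norm_pos_iff.2 hx
  have h1 : c / 2 * ‖x‖ ≤ normAtPlace w x := by
    have := hw w
    nlinarith
  have h2 := diff_place_lower w x y (hw w) hxy
  refine (diff_log (by positivity) h1 h2).trans ?_
  calc |normAtPlace w x - normAtPlace w y| / (c / 2 * ‖x‖) ≤ ‖x - y‖ / (c / 2 * ‖x‖) := by
        have := diff_place_sub w x y
        gcongr
    _ = 2 / c * (‖x - y‖ / ‖x‖) := by field_simp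

lemma diff_log_norm {x : mixedSpace K} (hx : ∀ w, 0 < normAtPlace w x) :
    Real.log (mixedEmbedding.norm x) = ∑ w, (mult w : ℝ) * Real.log (normAtPlace w x) := by
  rw [mixedEmbedding.norm_apply, Real.log_prod (fun w _ => (pow_pos (hx w) _).ne')]
  refine Finset.sum_congr rfl fun w _ => ?_
  rw [Real.log_pow]

lemma diff_log_N {c : ℝ} (hc : 0 < c) {x y : mixedSpace K} (hx : x ≠ 0)
    (hw : ∀ w, c * ‖x‖ ≤ normAtPlace w x) (hxy : ‖x - y‖ ≤ c / 2 * ‖x‖) :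
    |Real.log (mixedEmbedding.norm x) - Real.log (mixedEmbedding.norm y)| ≤
      (finrank ℚ K : ℝ) * (2 / c * (‖x - y‖ / ‖x‖)) := by
  have hx0 : 0 < ‖x‖ := norm_pos_iff.2 hx
  rw [diff_log_norm (fun w => lt_of_lt_of_le (by positivity) (hw w)),
    diff_log_norm (fun w => lt_of_lt_of_le (by positivity) (diff_place_lower w x y (hw w) hxy)),
    ← Finset.sum_sub_distrib]
  refine (Finset.abs_sum_le_sum_abs _ _).trans ?_
  have h1 : (finrank ℚ K : ℝ) = ∑ w : InfinitePlace K, (mult w : ℝ) := by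
    rw [← sum_mult_eq]
    push_cast
    rfl
  rw [h1, Finset.sum_mul]
  refine Finset.sum_le_sum fun w _ => ?_
  rw [← mul_sub, abs_mul, abs_of_nonneg (Nat.cast_nonneg _)]
  exact mul_le_mul_of_nonneg_left (diff_log_place hc hx hw hxy w) (Nat.cast_nonneg _)

lemma diff_mult_le (w : InfinitePlace K) : (mult w : ℝ) ≤ 2 := by
  unfold mult
  split_ifs <;> norm_num

theorem logMap_diff (K : Type*) [Field K] [NumberField K] {c : ℝ} (hc : 0 < c) :
    ∃ C : ℝ, 0 ≤ C ∧ ∀ x y : mixedSpace K, x ≠ 0 → (∀ w, c * ‖x‖ ≤ normAtPlace w x) →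
      ‖x - y‖ ≤ c / 2 * ‖x‖ → ‖logMap x - logMap y‖ ≤ C * (‖x - y‖ / ‖x‖) := by
  refine ⟨8 / c, by positivity, fun x y hx hw hxy => ?_⟩
  have hx0 : 0 < ‖x‖ := norm_pos_iff.2 hx
  have hn : (0 : ℝ) < finrank ℚ K := by exact_mod_cast finrank_pos
  rw [pi_norm_le_iff_of_nonneg (by positivity)]
  intro w
  rw [Pi.sub_apply, logMap_apply, logMap_apply, ← mul_sub, Real.norm_eq_abs, abs_mul,
    abs_of_nonneg (Nat.cast_nonneg _)]
  have h1 := diff_log_place hc hx hw hxy w.1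
  have h2 := diff_log_N hc hx hw hxy
  set δ := ‖x - y‖ / ‖x‖ with hδ
  have hδ0 : 0 ≤ δ := by positivity
  have h3 : |Real.log (normAtPlace w.1 x) - Real.log (mixedEmbedding.norm x) * (finrank ℚ K : ℝ)⁻¹ -
      (Real.log (normAtPlace w.1 y) - Real.log (mixedEmbedding.norm y) * (finrank ℚ K : ℝ)⁻¹)| ≤
      4 / c * δ := by
    have h4 : Real.log (normAtPlace w.1 x) - Real.log (mixedEmbedding.norm x) * (finrank ℚ K : ℝ)⁻¹ -
      (Real.log (normAtPlace w.1 y) - Real.log (mixedEmbedding.norm y) * (finrank ℚ K : ℝ)⁻¹) =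
      (Real.log (normAtPlace w.1 x) - Real.log (normAtPlace w.1 y)) -
      (Real.log (mixedEmbedding.norm x) - Real.log (mixedEmbedding.norm y)) * (finrank ℚ K : ℝ)⁻¹ := by
      ring
    rw [h4]
    refine (abs_sub _ _).trans ?_
    rw [abs_mul, abs_of_pos (inv_pos.2 hn)]
    have h5 : |Real.log (mixedEmbedding.norm x) - Real.log (mixedEmbedding.norm y)| *
        (finrank ℚ K : ℝ)⁻¹ ≤ 2 / c * δ := by
      rw [← div_eq_mul_inv, div_le_iff₀ hn]
      linarith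
    have h6 : 4 / c * δ = 2 / c * δ + 2 / c * δ := by ring
    rw [h6]
    exact add_le_add h1 h5
  calc _ ≤ 2 * (4 / c * δ) := mul_le_mul (diff_mult_le _) h3 (abs_nonneg _) (by norm_num)
    _ = 8 / c * δ := by ring

lemma diff_exp (u v : ℝ) : |Real.exp u - Real.exp v| ≤ |u - v| * max (Real.exp u) (Real.exp v) := by
  have key : ∀ u v : ℝ, v ≤ u → Real.exp u - Real.exp v ≤ (u - v) * Real.exp u := by
    intro u v h
    have h1 := Real.add_one_le_exp (v - u)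
    have h2 : Real.exp v = Real.exp u * Real.exp (v - u) := by
      rw [← Real.exp_add]
      congr 1
      ring
    rw [h2]
    have h3 := mul_le_mul_of_nonneg_left h1 (Real.exp_pos u).le
    nlinarith
  rcases le_total v u with h | h
  · have h1 : Real.exp v ≤ Real.exp u := Real.exp_le_exp.2 h
    rw [abs_of_nonneg (by linarith), abs_of_nonneg (by linarith), max_eq_left h1]
    exact key u v h
  · have h1 : Real.exp u ≤ Real.exp v := Real.exp_le_exp.2 h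
    rw [abs_sub_comm, abs_sub_comm u v, abs_of_nonneg (by linarith), abs_of_nonneg (by linarith),
      max_eq_right h1]
    exact key v u h

theorem norm_rpow_diff (K : Type*) [Field K] [NumberField K] {c : ℝ} (hc : 0 < c) :
    ∃ C : ℝ, 0 ≤ C ∧ ∀ x y : mixedSpace K, 1 ≤ ‖x‖ → (∀ w, c * ‖x‖ ≤ normAtPlace w x) →
      ‖x - y‖ ≤ c / 2 * ‖x‖ → ∀ t : ℝ, 1 ≤ t → t ≤ 2 →
        |mixedEmbedding.norm x ^ (-t) - mixedEmbedding.norm y ^ (-t)| ≤
          C * ‖x‖ ^ (-(finrank ℚ K : ℝ)) * (‖x - y‖ / ‖x‖) := by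
  have hn : (0 : ℝ) < finrank ℚ K := by exact_mod_cast finrank_pos
  set n : ℝ := (finrank ℚ K : ℝ) with hndef
  set κ : ℝ := min (c / 2) 1 with hκ
  have hκ0 : 0 < κ := lt_min (by positivity) one_pos
  have hκ1 : κ ≤ 1 := min_le_right _ _
  have hκc : κ ≤ c / 2 := min_le_left _ _
  refine ⟨2 * (n * (2 / c)) * κ ^ (-(2 * n)), by positivity, fun x y hx1 hw hxy t ht1 ht2 => ?_⟩
  have hx0 : 0 < ‖x‖ := by linarith
  have hx : x ≠ 0 := norm_pos_iff.1 hx0
  have hpx : ∀ w, κ * ‖x‖ ≤ normAtPlace w x := fun w => by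
    have := hw w
    nlinarith
  have hpy : ∀ w, κ * ‖x‖ ≤ normAtPlace w y := fun w => by
    have := diff_place_lower w x y (hw w) hxy
    nlinarith
  have hB : 0 < κ * ‖x‖ := by positivity
  have key : ∀ z : mixedSpace K, (∀ w, κ * ‖x‖ ≤ normAtPlace w z) → 0 < mixedEmbedding.norm z ∧
      mixedEmbedding.norm z ^ (-t) ≤ κ ^ (-(2 * n)) * ‖x‖ ^ (-n) := by
    intro z hz
    have h1 : (κ * ‖x‖) ^ (finrank ℚ K) ≤ mixedEmbedding.norm z := by
      rw [mixedEmbedding.norm_apply, ← sum_mult_eq, ← Finset.prod_pow_eq_pow_sum]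
      exact Finset.prod_le_prod (fun w _ => by positivity) fun w _ =>
        pow_le_pow_left₀ hB.le (hz w) _
    have h2 : 0 < (κ * ‖x‖) ^ (finrank ℚ K) := by positivity
    refine ⟨lt_of_lt_of_le h2 h1, ?_⟩
    calc mixedEmbedding.norm z ^ (-t) ≤ ((κ * ‖x‖) ^ (finrank ℚ K)) ^ (-t) :=
          Real.rpow_le_rpow_of_nonpos h2 h1 (by linarith)
      _ = κ ^ (-(n * t)) * ‖x‖ ^ (-(n * t)) := by
          rw [← Real.rpow_natCast, ← Real.rpow_mul hB.le, Real.mul_rpow hκ0.le hx0.le]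
          rw [← hndef, mul_neg]
      _ ≤ κ ^ (-(2 * n)) * ‖x‖ ^ (-n) := by
          refine mul_le_mul ?_ ?_ (by positivity) (by positivity)
          · exact Real.rpow_le_rpow_of_exponent_ge hκ0 hκ1 (by nlinarith)
          · exact Real.rpow_le_rpow_of_exponent_le hx1 (by nlinarith)
  obtain ⟨hNx, hNx'⟩ := key x hpx
  obtain ⟨hNy, hNy'⟩ := key y hpy
  have e1 : mixedEmbedding.norm x ^ (-t) = Real.exp (-(t * Real.log (mixedEmbedding.norm x))) := by
    rw [Real.rpow_def_of_pos hNx]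
    congr 1
    ring
  have e2 : mixedEmbedding.norm y ^ (-t) = Real.exp (-(t * Real.log (mixedEmbedding.norm y))) := by
    rw [Real.rpow_def_of_pos hNy]
    congr 1
    ring
  have h3 := diff_exp (-(t * Real.log (mixedEmbedding.norm x)))
    (-(t * Real.log (mixedEmbedding.norm y)))
  rw [← e1, ← e2] at h3
  have h4 : |(-(t * Real.log (mixedEmbedding.norm x))) - (-(t * Real.log (mixedEmbedding.norm y)))| ≤
      2 * (n * (2 / c * (‖x - y‖ / ‖x‖))) := by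
    have h5 : (-(t * Real.log (mixedEmbedding.norm x))) - (-(t * Real.log (mixedEmbedding.norm y))) =
        -(t * (Real.log (mixedEmbedding.norm x) - Real.log (mixedEmbedding.norm y))) := by ring
    rw [h5, abs_neg, abs_mul, abs_of_pos (by linarith : 0 < t)]
    exact mul_le_mul ht2 (diff_log_N hc hx hw hxy) (abs_nonneg _) (by norm_num)
  refine h3.trans ?_
  calc _ ≤ (2 * (n * (2 / c * (‖x - y‖ / ‖x‖)))) * (κ ^ (-(2 * n)) * ‖x‖ ^ (-n)) :=
        mul_le_mul h4 (max_le hNx' hNy') (le_max_of_le_left (by positivity)) (by positivity)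
    _ = _ := by ring

end Pool.Agent.H16.HK
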