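import Pool.Agent.H16.HK.Defs

/-!
# Job HK-Emb: products over the embeddings of a totally complex field

Every complex place `w` comes from exactly the two embeddings `w.embedding` and its conjugate (`InfinitePlace.mk_eq_iff`,
`InfinitePlace.card_filter_mk_eq`), `(mixedEmbedding K x).2 w = w.embedding x`, and `uni (conj z) = conj (uni z) = (uni z)⁻¹` for `z ≠ 0`. So
the product over the embeddings above `w` is `uni (x_w) ^ (n w.embedding - n (conjugate w.embedding))`. (Group by fibres of `InfinitePlace.mk`:
`Finset.prod_fiberwise`; all places are complex: `IsTotallyComplex.isComplex`.)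
`emb_ne`: for `φ` with `n φ ≠ n (conjugate φ)` take `w = mk φ`: `w.embedding = φ` or `conjugate φ` (`embedding_mk_eq`).
-/

open NumberField NumberField.InfinitePlace NumberField.mixedEmbedding NumberField.Units
open NumberField.Units.dirichletUnitTheorem MeasureTheory Module
open scoped Classical

namespace Pool.Agent.H16.HK

variable {K : Type*} [Field K] [NumberField K]

theorem emb_uni_conj {z : ℂ} (hz : z ≠ 0) : uni ((starRingEnd ℂ) z) = (uni z)⁻¹ := by
  have hn : ((‖z‖ : ℝ) : ℂ) ≠ 0 := by
    simpa using hz
  have hc : (starRingEnd ℂ) z ≠ 0 := by simpa using hz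
  unfold uni
  rw [Complex.norm_conj, inv_div, div_eq_div_iff hn hz, mul_comm, Complex.mul_conj,
    Complex.normSq_eq_norm_sq]
  push_cast
  ring

theorem emb_mk_iff (w : InfinitePlace K) (φ : K →+* ℂ) :
    InfinitePlace.mk φ = w ↔ φ = w.embedding ∨ φ = ComplexEmbedding.conjugate w.embedding := by
  constructor
  · intro h
    have h1 : InfinitePlace.mk w.embedding = InfinitePlace.mk φ := by rw [mk_embedding, h]
    rcases mk_eq_iff.1 h1 with h2 | h2
    · exact Or.inl h2.symm
    · exact Or.inr h2.symm
  · rintro (h | h)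
    · rw [h, mk_embedding]
    · rw [h, mk_conjugate_eq, mk_embedding]

theorem prod_emb [IsTotallyComplex K] (n : (K →+* ℂ) → ℤ) {x : K} (hx : x ≠ 0) :
    ∏ φ : K →+* ℂ, uni (φ x) ^ n φ =
      Phi (fun w => n w.1.embedding - n (ComplexEmbedding.conjugate w.1.embedding))
        (mixedEmbedding K x) := by
  rw [← Finset.prod_fiberwise Finset.univ (fun φ : K →+* ℂ => InfinitePlace.mk φ)]
  have h1 : ∀ w : InfinitePlace K,
      ∏ φ ∈ Finset.univ.filter (fun φ : K →+* ℂ => InfinitePlace.mk φ = w), uni (φ x) ^ n φ
        = uni (w.embedding x) ^ (n w.embedding - n (ComplexEmbedding.conjugate w.embedding)) := by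
    intro w
    have hw : IsComplex w := IsTotallyComplex.isComplex w
    have hne : w.embedding ≠ ComplexEmbedding.conjugate w.embedding := by
      intro h
      exact (isComplex_iff.1 hw) (ComplexEmbedding.isReal_iff.2 h.symm)
    have hset : Finset.univ.filter (fun φ : K →+* ℂ => InfinitePlace.mk φ = w)
        = {w.embedding, ComplexEmbedding.conjugate w.embedding} := by
      ext φ
      simp [emb_mk_iff]
    have hz : w.embedding x ≠ 0 := by
      rw [Ne, map_eq_zero]; exact hx
    have hu : uni (w.embedding x) ≠ 0 := by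
      unfold uni
      exact div_ne_zero hz (by simpa using hx)
    rw [hset, Finset.prod_pair hne, ComplexEmbedding.conjugate_coe_eq, emb_uni_conj hz,
      inv_zpow', zpow_sub₀ hu, zpow_neg, div_eq_mul_inv]
  rw [Finset.prod_congr rfl (fun w _ => h1 w)]
  unfold Phi
  let e : {w : InfinitePlace K // IsComplex w} ≃ InfinitePlace K :=
    Equiv.subtypeUnivEquiv (fun w => IsTotallyComplex.isComplex w)
  rw [← Fintype.prod_equiv e _ _ (fun _ => rfl)]
  rfl

theorem emb_ne [IsTotallyComplex K] {n : (K →+* ℂ) → ℤ}
    (h : ∃ φ, n φ ≠ n (ComplexEmbedding.conjugate φ)) :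
    (fun w : {w : InfinitePlace K // IsComplex w} =>
      n w.1.embedding - n (ComplexEmbedding.conjugate w.1.embedding)) ≠ 0 := by
  obtain ⟨φ, hφ⟩ := h
  intro h0
  have h1 := congrFun h0 ⟨InfinitePlace.mk φ, IsTotallyComplex.isComplex _⟩
  simp only [Pi.zero_apply] at h1
  rcases (emb_mk_iff (InfinitePlace.mk φ) φ).1 rfl with h2 | h2
  · rw [← h2] at h1
    exact hφ (by linarith)
  · have h3 : ComplexEmbedding.conjugate φ = (InfinitePlace.mk φ).embedding := by
      conv_lhs => rw [h2]
      exact star_star _
    rw [← h3] at h1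
    have h4 : ComplexEmbedding.conjugate (ComplexEmbedding.conjugate φ) = φ := star_star _
    rw [h4] at h1
    exact hφ (by linarith)

end Pool.Agent.H16.HK
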