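import Pool.Agent.H16.HK.Summ
import Pool.Agent.H3.TatePole.EulerLog

/-!
# Job HK-Eul: an upper bound for the sum over the primes

`w_t(I) = Ψ(I) N(I) ^ (-t)` is completely multiplicative, `∑_I |w_t(I)| < ∞` (`summable_ideals`). For a finite set `T` of primes
`∑_{I ∈ idealsOver T} w_t(I) = ∏_{v ∈ T} (1 - w_t(v))⁻¹`: repeat the proof of `tsum_idealsOver` (`Pool/Agent/H3/TatePole/Zeta.lean`, bijection
`bij_insert`) with complex terms, `|w_t(v)| ≤ 2 ^ (-t) < 1`, everything summable. As `T` grows the left side tends to `Z(t) = ∑_I w_t(I)`: the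
difference is a sum over the nonzero ideals not in `idealsOver T`; given a finite set `F` of nonzero ideals take `T ⊇` all primes dividing a member of `F` (as in
`tsum_nonzero_ideals`), the difference is at most the tail of `∑ |w_t|` outside `F`. And
`|1 - z|⁻¹ ≥ exp(Re z - |z| ^ 2)` for `|z| ≤ 1/2` (`log_one_sub_bound` in `Pool/Agent/H3/TatePole/EulerLog.lean` or directly), so for all `T ⊇ T₀`:
`exp(∑_{v ∈ T} (Re w_t(v) - |w_t(v)| ^ 2)) ≤ ∏_{v ∈ T} |1 - w_t(v)|⁻¹ → |Z(t)| ≤ C`. Hence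
`∑_v Re Ψ(v) N(v) ^ (-t) ≤ log (max C 1) + ∑_v N(v) ^ (-2)` (`summable_nrm` in `Mean.lean`; `t > 1`; pass to the limit in `T`: `ge_of_tendsto`).
-/

open NumberField IsDedekindDomain

namespace Pool.Agent.H16.HK

open Pool.Agent.H3.TatePole

variable {K : Type*} [Field K] [NumberField K]

open Filter Topology

lemma eul_hasSum (w : Ideal (𝓞 K) →* ℂ) (hs : Summable (fun I => ‖w I‖))
    (h1 : ∀ v : HeightOneSpectrum (𝓞 K), ‖w v.asIdeal‖ < 1)
    (T : Finset (HeightOneSpectrum (𝓞 K))) :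
    ∑' I : idealsOver T, w I = ∏ v ∈ T, (1 - w v.asIdeal)⁻¹ := by
  classical
  have hsT : ∀ T : Finset (HeightOneSpectrum (𝓞 K)),
      Summable (fun I : idealsOver T => ‖w (I : Ideal (𝓞 K))‖) := fun T =>
    hs.comp_injective Subtype.val_injective
  induction T using Finset.induction_on with
  | empty =>
    rw [idealsOver_empty, tsum_singleton (1 : Ideal (𝓞 K)) (fun I => w I), map_one,
      Finset.prod_empty]
  | insert v T hv ih =>
    obtain ⟨e, he⟩ := bij_insert hv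
    rw [Finset.prod_insert hv, ← ih, ← e.tsum_eq]
    have h2 : ∀ c : ℕ × idealsOver T, w (e c : Ideal (𝓞 K)) = w v.asIdeal ^ c.1 * w c.2 := by
      intro c
      rw [he, map_mul, map_pow]
    have hg : Summable (fun n : ℕ => ‖w v.asIdeal ^ n‖) := by
      simp only [norm_pow]
      exact summable_geometric_of_lt_one (norm_nonneg _) (h1 v)
    rw [tsum_congr h2, ← tsum_geometric_of_norm_lt_one (h1 v)]
    exact (tsum_mul_tsum_of_summable_norm hg (hsT T)).symm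

lemma eul_tendsto (w : Ideal (𝓞 K) →* ℂ) (h0 : w ⊥ = 0) (hs : Summable (fun I => ‖w I‖))
    (h1 : ∀ v : HeightOneSpectrum (𝓞 K), ‖w v.asIdeal‖ < 1) :
    Tendsto (fun T : Finset (HeightOneSpectrum (𝓞 K)) => ∏ v ∈ T, (1 - w v.asIdeal)⁻¹) atTop
      (𝓝 (∑' I, w I)) := by
  classical
  have h2 : (fun T : Finset (HeightOneSpectrum (𝓞 K)) => ∏ v ∈ T, (1 - w v.asIdeal)⁻¹) =
      fun T => ∑' I, (idealsOver T).indicator w I := by
    funext T
    rw [← eul_hasSum w hs h1, tsum_subtype (idealsOver T) (fun I => w I)]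
  rw [h2]
  refine tendsto_tsum_of_dominated_convergence (bound := fun I => ‖w I‖) hs ?_ ?_
  · intro I
    by_cases hI : I = ⊥
    · subst hI
      rw [h0]
      refine tendsto_const_nhds.congr fun T => ?_
      by_cases h : (⊥ : Ideal (𝓞 K)) ∈ idealsOver T
      · rw [Set.indicator_of_mem h, h0]
      · rw [Set.indicator_of_notMem h]
    · have hfin := Ideal.finite_factors hI
      refine tendsto_const_nhds.congr' ?_
      filter_upwards [eventually_ge_atTop hfin.toFinset] with T hT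
      rw [Set.indicator_of_mem]
      refine ⟨hI, fun v hv => hT ?_⟩
      rw [Set.Finite.mem_toFinset]
      exact hv
  · filter_upwards with T I
    by_cases h : I ∈ idealsOver T
    · rw [Set.indicator_of_mem h]
    · rw [Set.indicator_of_notMem h, norm_zero]
      exact norm_nonneg _

lemma eul_local {z : ℂ} (hz : ‖z‖ ≤ 1 / 2) :
    Real.exp (z.re - ‖z‖ ^ 2) ≤ ‖(1 - z)⁻¹‖ := by
  have hne : (1 : ℂ) - z ≠ 0 := by
    intro h
    have h1 : z = 1 := (sub_eq_zero.1 h).symm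
    rw [h1, norm_one] at hz
    norm_num at hz
  have h1 : (1 - z)⁻¹ = Complex.exp (-Complex.log (1 - z)) := by
    rw [Complex.exp_neg, Complex.exp_log hne]
  rw [h1, Complex.norm_exp]
  apply Real.exp_le_exp.2
  have h2 := (Complex.abs_re_le_norm _).trans (log_one_sub_bound hz)
  rw [Complex.sub_re] at h2
  linarith [(abs_le.1 h2).1]

/-- `w_t` -/
noncomputable def eulW (Ψ : Ideal (𝓞 K) →*₀ ℂ) (t : ℝ) : Ideal (𝓞 K) →* ℂ where
  toFun I := Ψ I * (((Ideal.absNorm I : ℝ) ^ (-t) : ℝ) : ℂ)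
  map_one' := by
    rw [map_one, map_one, Nat.cast_one, Real.one_rpow, Complex.ofReal_one, one_mul]
  map_mul' I J := by
    rw [map_mul, map_mul, Nat.cast_mul, Real.mul_rpow (by positivity) (by positivity)]
    push_cast
    ring

theorem euler_upper (Ψ : Ideal (𝓞 K) →*₀ ℂ) (h1 : ∀ I, ‖Ψ I‖ ≤ 1)
    (h : ∃ C : ℝ, ∀ t : ℝ, 1 < t → t ≤ 2 →
      ‖∑' I : Ideal (𝓞 K), Ψ I * (((Ideal.absNorm I : ℝ) ^ (-t) : ℝ) : ℂ)‖ ≤ C) :
    ∃ C : ℝ, ∀ t : ℝ, 1 < t → t ≤ 2 →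
      wsum (fun v : HeightOneSpectrum (𝓞 K) => (Ψ v.asIdeal).re) t ≤ C := by
  obtain ⟨C, hC⟩ := h
  refine ⟨Real.log (max C 1) + ∑' v : HeightOneSpectrum (𝓞 K), nrm v ^ (-2 : ℝ), ?_⟩
  intro t ht ht2
  have hnorm : ∀ I, ‖eulW Ψ t I‖ ≤ (Ideal.absNorm I : ℝ) ^ (-t) := by
    intro I
    change ‖Ψ I * (((Ideal.absNorm I : ℝ) ^ (-t) : ℝ) : ℂ)‖ ≤ _
    rw [norm_mul, Complex.norm_real, Real.norm_of_nonneg (by positivity)]
    calc ‖Ψ I‖ * (Ideal.absNorm I : ℝ) ^ (-t) ≤ 1 * (Ideal.absNorm I : ℝ) ^ (-t) :=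
          mul_le_mul_of_nonneg_right (h1 I) (by positivity)
      _ = _ := one_mul _
  have hs : Summable (fun I => ‖eulW Ψ t I‖) :=
    Summable.of_nonneg_of_le (fun I => norm_nonneg _) hnorm (summable_ideals K ht)
  have hhalf : ∀ v : HeightOneSpectrum (𝓞 K), ‖eulW Ψ t v.asIdeal‖ ≤ 1 / 2 := fun v =>
    (hnorm v.asIdeal).trans (rpow_neg_le_half K ht.le v)
  have hlt : ∀ v : HeightOneSpectrum (𝓞 K), ‖eulW Ψ t v.asIdeal‖ < 1 := fun v =>
    lt_of_le_of_lt (hhalf v) (by norm_num)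
  have h0 : eulW Ψ t ⊥ = 0 := by
    change Ψ ⊥ * _ = 0
    rw [← Ideal.zero_eq_bot, map_zero, zero_mul]
  have hlim := (eul_tendsto (eulW Ψ t) h0 hs hlt).norm
  have hre : ∀ v : HeightOneSpectrum (𝓞 K), (eulW Ψ t v.asIdeal).re =
      (Ψ v.asIdeal).re * nrm v ^ (-t) := by
    intro v
    change (Ψ v.asIdeal * (((Ideal.absNorm v.asIdeal : ℝ) ^ (-t) : ℝ) : ℂ)).re = _
    rw [Complex.re_mul_ofReal]
    rfl
  have hb : Bdd (fun v : HeightOneSpectrum (𝓞 K) => (Ψ v.asIdeal).re) :=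
    ⟨1, fun v => (Complex.abs_re_le_norm _).trans (h1 _)⟩
  have hS1 := hb.summable ht
  have hsq : ∀ v : HeightOneSpectrum (𝓞 K), ‖eulW Ψ t v.asIdeal‖ ^ 2 ≤ nrm v ^ (-2 : ℝ) := by
    intro v
    have h2 : ‖eulW Ψ t v.asIdeal‖ ≤ nrm v ^ (-t) := hnorm v.asIdeal
    refine (pow_le_pow_left₀ (norm_nonneg _) h2 2).trans ?_
    rw [← Real.rpow_natCast, ← Real.rpow_mul (nrm_pos v).le]
    exact Real.rpow_le_rpow_of_exponent_le (by linarith [two_le_nrm v]) (by push_cast; linarith)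
  have hS3 : Summable (fun v : HeightOneSpectrum (𝓞 K) => nrm v ^ (-2 : ℝ)) :=
    summable_nrm (by norm_num)
  have hS2 : Summable (fun v : HeightOneSpectrum (𝓞 K) => ‖eulW Ψ t v.asIdeal‖ ^ 2) :=
    Summable.of_nonneg_of_le (fun v => by positivity) hsq hS3
  have hS : Summable (fun v : HeightOneSpectrum (𝓞 K) =>
      (Ψ v.asIdeal).re * nrm v ^ (-t) - ‖eulW Ψ t v.asIdeal‖ ^ 2) := hS1.sub hS2
  have hexp : Real.exp (∑' v : HeightOneSpectrum (𝓞 K),
      ((Ψ v.asIdeal).re * nrm v ^ (-t) - ‖eulW Ψ t v.asIdeal‖ ^ 2)) ≤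
      ‖∑' I, eulW Ψ t I‖ := by
    refine le_of_tendsto_of_tendsto' ((Real.continuous_exp.tendsto _).comp hS.hasSum) hlim ?_
    intro T
    rw [norm_prod, Function.comp_apply, Real.exp_sum]
    refine Finset.prod_le_prod (fun v _ => (Real.exp_pos _).le) fun v _ => ?_
    rw [← hre]
    exact eul_local (hhalf v)
  have hle : ∑' v : HeightOneSpectrum (𝓞 K),
      ((Ψ v.asIdeal).re * nrm v ^ (-t) - ‖eulW Ψ t v.asIdeal‖ ^ 2) ≤ Real.log (max C 1) := by
    rw [Real.le_log_iff_exp_le (lt_of_lt_of_le one_pos (le_max_right _ _))]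
    exact (hexp.trans (hC t ht ht2)).trans (le_max_left _ _)
  have hw : wsum (fun v : HeightOneSpectrum (𝓞 K) => (Ψ v.asIdeal).re) t =
      ∑' v : HeightOneSpectrum (𝓞 K),
        ((Ψ v.asIdeal).re * nrm v ^ (-t) - ‖eulW Ψ t v.asIdeal‖ ^ 2) +
      ∑' v : HeightOneSpectrum (𝓞 K), ‖eulW Ψ t v.asIdeal‖ ^ 2 := by
    rw [← hS.tsum_add hS2]
    unfold wsum
    exact tsum_congr fun v => by ring
  rw [hw]
  exact add_le_add hle (hS2.tsum_le_tsum hsq hS3)

end Pool.Agent.H16.HK
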