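import Mathlib

/-!
# Extension of unitary characters

A homomorphism of a commutative monoid to the circle that factors through a homomorphism to an
abelian group extends to the group: it is defined on the subgroup of quotients of the image, and
the circle is divisible.
-/

namespace Pool.Agent.H16.HK

theorem circle_root (z : Circle) {n : ℤ} (hn : n ≠ 0) : ∃ w : Circle, w ^ n = z := by
  refine ⟨Circle.exp (Complex.arg z / n), ?_⟩
  have h1 : ∀ (m : ℤ) (x : ℝ), (Circle.exp x) ^ m = Circle.exp (m * x) := by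
    intro m x
    have h2 := map_zsmul Circle.expHom m x
    have h3 : Circle.exp (m • x) = (Circle.exp x) ^ m := congrArg Additive.toMul h2
    rw [← h3, zsmul_eq_mul]
  rw [h1, mul_div_cancel₀ _ (by exact_mod_cast hn), Circle.exp_arg]

theorem exists_extension {N G : Type*} [CommMonoid N] [CommGroup G] (π : N →* G) (g : N →* ℂˣ)
    (h : ∀ n n', π n = π n' → g n = g n') (hn : ∀ n, ‖(g n : ℂ)‖ = 1) :
    ∃ Ψ : G →* ℂˣ, (∀ x, ‖(Ψ x : ℂ)‖ = 1) ∧ ∀ n, Ψ (π n) = g n := by
  classical
  -- the character with values in the circle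
  let c : N → Circle := fun n => ⟨(g n : ℂ), by simp [Submonoid.unitSphere, hn n]⟩
  have hc : ∀ n, ((c n : Circle) : ℂ) = g n := fun n => rfl
  have hc_mul : ∀ n m, c (n * m) = c n * c m := by
    intro n m
    apply Circle.ext
    rw [Circle.coe_mul, hc, hc, hc, map_mul, Units.val_mul]
  have hc_one : c 1 = 1 := by
    apply Circle.ext
    rw [hc, map_one, Units.val_one, Circle.coe_one]
  have hc_eq : ∀ n m, π n = π m → c n = c m := by
    intro n m hnm
    apply Circle.ext
    rw [hc, hc, h n m hnm]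
  -- the subgroup of quotients
  let H : Subgroup G :=
    { carrier := {x | ∃ n m, x = π n * (π m)⁻¹}
      mul_mem' := by
        rintro x y ⟨n, m, rfl⟩ ⟨n', m', rfl⟩
        refine ⟨n * n', m * m', ?_⟩
        rw [map_mul, map_mul, mul_inv, mul_mul_mul_comm]
      one_mem' := ⟨1, 1, by simp⟩
      inv_mem' := by
        rintro x ⟨n, m, rfl⟩
        refine ⟨m, n, ?_⟩
        rw [mul_inv, inv_inv, mul_comm] }
  have key : ∀ n m n' m', π n * (π m)⁻¹ = π n' * (π m')⁻¹ →
      c n * (c m)⁻¹ = c n' * (c m')⁻¹ := by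
    intro n m n' m' hh
    have h1 : π (n * m') = π (n' * m) := by
      rw [map_mul, map_mul]
      exact (mul_inv_eq_mul_inv_iff_mul_eq_mul.mp hh)
    have h2 := hc_eq _ _ h1
    rw [hc_mul, hc_mul] at h2
    exact mul_inv_eq_mul_inv_iff_mul_eq_mul.mpr h2
  have hex : ∀ x : H, ∃ p : N × N, (x : G) = π p.1 * (π p.2)⁻¹ := by
    rintro ⟨x, n, m, rfl⟩
    exact ⟨(n, m), rfl⟩
  choose p hp using hex
  have hχ : ∀ (x : H) (n m : N), (x : G) = π n * (π m)⁻¹ →
      c (p x).1 * (c (p x).2)⁻¹ = c n * (c m)⁻¹ := fun x n m hx =>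
    key _ _ _ _ ((hp x).symm.trans hx)
  let χ : H →* Circle :=
    { toFun := fun x => c (p x).1 * (c (p x).2)⁻¹
      map_one' := by
        rw [hχ 1 1 1 (by simp), mul_inv_cancel]
      map_mul' := by
        intro x y
        rw [hχ (x * y) ((p x).1 * (p y).1) ((p x).2 * (p y).2) (by
          rw [Subgroup.coe_mul, map_mul, map_mul, mul_inv, mul_mul_mul_comm, ← hp x, ← hp y]),
          hc_mul, hc_mul, mul_inv, mul_mul_mul_comm] }
  -- extension to the group
  let _ : DivisibleBy (Additive Circle) ℤ :=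
    divisibleByOfSMulRightSurj (Additive Circle) ℤ (by
      intro n hn z
      obtain ⟨w, hw⟩ := circle_root z.toMul hn
      exact ⟨Additive.ofMul w, congrArg Additive.ofMul hw⟩)
  obtain ⟨Ψ, hΨ⟩ := (Module.Baer.of_divisible (Additive Circle)).extension_property_addMonoidHom
    (MonoidHom.toAdditive H.subtype) (fun a b hab => Subtype.ext hab) (MonoidHom.toAdditive χ)
  refine ⟨Circle.toUnits.comp (AddMonoidHom.toMultiplicative Ψ), ?_, ?_⟩
  · intro x
    exact Circle.norm_coe _
  · intro n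
    have hx : π n ∈ H := ⟨n, 1, by simp⟩
    have h1 : Ψ (Additive.ofMul (π n)) = Additive.ofMul (χ ⟨π n, hx⟩) :=
      DFunLike.congr_fun hΨ (Additive.ofMul (⟨π n, hx⟩ : H))
    have h2 : χ ⟨π n, hx⟩ = c n := by
      show c (p ⟨π n, hx⟩).1 * (c (p ⟨π n, hx⟩).2)⁻¹ = c n
      rw [hχ ⟨π n, hx⟩ n 1 (by simp), hc_one, inv_one, mul_one]
    apply Units.ext
    rw [← hc n, ← h2]
    show ((Ψ (Additive.ofMul (π n))).toMul : ℂ) = _
    rw [h1]
    rfl

end Pool.Agent.H16.HK
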