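import Pool.Agent.H16.HK.Alg
import Pool.Agent.H3.TatePole.DegOne

/-!
# Job HK-NM3: primes of norm `≡ 1` modulo `ℓ` split completely in `k(ζ_ℓ)`

`q = absNorm v`, `q ≡ 1` modulo `ℓ`; so `ℓ ∉ v` (`q` is a power of the prime below `v`). `M/k` is Galois (`IsCyclotomicExtension.isGalois`). Let `P` be a prime of
`M` above `v` and `σ ∈ Gal(M/k)` with `σ • P = P`. It induces an automorphism of the finite field `𝓞 M ⧸ P` over `𝓞 k ⧸ v`, which is `x ↦ x ^ (q ^ j)`
for some `j`, so `σ ζ ≡ ζ ^ (q ^ j) = ζ` modulo `P` (`ζ ^ ℓ = 1`, `q ≡ 1` modulo `ℓ`). `σ ζ = ζ ^ a`, and the `ℓ`-th roots of unity are distinct modulo `P`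
(`Ideal.rootsOfUnityMapQuot_injective`, `Mathlib/NumberTheory/NumberField/Ideal/Basic.lean`), so `σ ζ = ζ`, `σ = 1` (`M = k(ζ)`). So the decomposition
group is trivial: the orbit of `P` has `[M : k]` elements (`MulAction.card_orbit_mul_card_stabilizer_eq_card_group`; transitive on the primes above `v`), and
`e f = 1`, so `absNorm P = q ^ f = q` for each of them (`Ideal.ncard_primesOver_mul_ramificationIdxIn_mul_inertiaDegIn`). Alternatively by `degOne_eq`
(`Pool/Agent/H3/TatePole/DegOne.lean`): count the `𝓞 k`-algebra homomorphisms `𝓞 M → 𝓞 k ⧸ v`.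
-/

open NumberField IsDedekindDomain Polynomial IsCyclotomicExtension.Rat
open scoped Pointwise Classical

namespace Pool.Agent.H16.HK

open Pool.Agent.H3.TatePole

/-- roots of unity are separated by homomorphisms to rings in which `ℓ ≠ 0` -/
theorem nm3_root_eq {ℓ : ℕ} [Fact ℓ.Prime] {A B : Type*} [CommRing A] [IsDomain A] [CommRing B]
    (f : A →+* B) (hB : (ℓ : B) ≠ 0) {x y : A} (hx : x ^ ℓ = 1) (hy : y ^ ℓ = 1)
    (h : f x = f y) : x = y := by
  have hℓ : 0 < ℓ := (Fact.out : ℓ.Prime).pos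
  have e1 : y ^ (ℓ - 1) * y = 1 := by
    rw [← pow_succ, Nat.sub_add_cancel hℓ, hy]
  set u : A := x * y ^ (ℓ - 1) with hu
  have hu1 : u ^ ℓ = 1 := by
    rw [hu, mul_pow, hx, one_mul, ← pow_mul, mul_comm, pow_mul, hy, one_pow]
  have hfu : f u = 1 := by
    rw [hu, map_mul, h, ← map_mul, mul_comm y, e1, map_one]
  have hu2 : u = 1 := by
    by_contra hne
    have h2 := geom_sum_mul u ℓ
    rw [hu1, sub_self, mul_eq_zero] at h2
    rcases h2 with h2 | h2
    · apply hB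
      have h3 := congrArg f h2
      rw [map_sum, map_zero] at h3
      simpa [map_pow, hfu] using h3
    · exact hne (sub_eq_zero.mp h2)
  have : x = u * y := by
    rw [hu, mul_assoc, e1, mul_one]
  rw [this, hu2, one_mul]

theorem nm3_natCast_ne_zero {ℓ : ℕ} [Fact ℓ.Prime] {k : Type*} [Field k] [NumberField k]
    {v : HeightOneSpectrum (𝓞 k)} (hv : Ideal.absNorm v.asIdeal ≡ 1 [MOD ℓ]) :
    (ℓ : 𝓞 k) ∉ v.asIdeal := by
  intro h
  have hp : ℓ.Prime := Fact.out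
  have h1 : Ideal.absNorm v.asIdeal ∣ Ideal.absNorm (Ideal.span {(ℓ : 𝓞 k)}) :=
    Ideal.absNorm_dvd_absNorm_of_le ((Ideal.span_singleton_le_iff_mem _).mpr h)
  have h2 : Ideal.absNorm (Ideal.span {(ℓ : 𝓞 k)}) = ℓ ^ Module.finrank ℤ (𝓞 k) := by
    rw [Ideal.absNorm_span_singleton, ← map_natCast (algebraMap ℤ (𝓞 k)),
      Algebra.norm_algebraMap, Int.natAbs_pow, Int.natAbs_natCast]
  rw [h2] at h1
  obtain ⟨j, -, hj⟩ := (Nat.dvd_prime_pow hp).mp h1
  have hne : Ideal.absNorm v.asIdeal ≠ 1 := by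
    rw [Ne, Ideal.absNorm_eq_one_iff]
    exact v.isPrime.ne_top
  have hj0 : j ≠ 0 := by
    rintro rfl
    exact hne (by simpa using hj)
  rw [hj] at hv
  have h3 : ℓ ^ j ≡ 0 [MOD ℓ] := (Nat.modEq_zero_iff_dvd).mpr (dvd_pow_self ℓ hj0)
  have h4 : 0 ≡ 1 [MOD ℓ] := h3.symm.trans hv
  have h5 : ℓ ∣ 1 := (Nat.modEq_iff_dvd' (by norm_num)).mp h4
  exact hp.one_lt.ne' (Nat.dvd_one.mp h5)

theorem nm3_exists_prime {ℓ : ℕ} [Fact ℓ.Prime] (k M : Type*) [Field k] [NumberField k] [Field M]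
    [NumberField M] [Algebra k M] [IsCyclotomicExtension {ℓ} k M] {v : HeightOneSpectrum (𝓞 k)}
    (hv : Ideal.absNorm v.asIdeal ≡ 1 [MOD ℓ]) :
    ∃ P : HeightOneSpectrum (𝓞 M), P.asIdeal.under (𝓞 k) = v.asIdeal ∧
      Ideal.absNorm P.asIdeal = Ideal.absNorm v.asIdeal := by
  have : NeZero ℓ := ⟨(Fact.out : ℓ.Prime).ne_zero⟩
  have hG : IsGalois k M := IsCyclotomicExtension.isGalois {ℓ} k M
  obtain ⟨⟨P, hP1, hP2⟩⟩ := (inferInstance : Nonempty (v.asIdeal.primesOver (𝓞 M)))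
  have hPv : P.under (𝓞 k) = v.asIdeal := hP2.over.symm
  have hPne : P ≠ ⊥ := by
    rintro rfl
    apply v.ne_bot
    rw [← hPv]
    ext x
    simp only [Ideal.mem_comap, Ideal.mem_bot]
    constructor
    · intro hx
      exact (FaithfulSMul.algebraMap_injective (𝓞 k) (𝓞 M)) (by rw [hx, map_zero])
    · rintro rfl
      simp
  have hfin : Finite (𝓞 M ⧸ P) := Ideal.finiteQuotientOfFreeOfNeBot _ hPne
  have hfin' : Finite (𝓞 k ⧸ v.asIdeal) := Ideal.finiteQuotientOfFreeOfNeBot _ v.ne_bot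
  obtain ⟨σ, hσ⟩ := IsArithFrobAt.exists_of_isInvariant (𝓞 k) Gal(M/k) P
  have hζ := IsCyclotomicExtension.zeta_spec ℓ k M
  have hζ' : hζ.toInteger ^ ℓ = 1 := hζ.toInteger_isPrimitiveRoot.pow_eq_one
  have hℓk := nm3_natCast_ne_zero (ℓ := ℓ) hv
  have hℓP : ((ℓ : ℕ) : 𝓞 M) ∉ P := by
    intro h
    apply hℓk
    rw [← hPv]
    change algebraMap (𝓞 k) (𝓞 M) _ ∈ P
    rwa [map_natCast]
  have hq : Nat.card (𝓞 k ⧸ P.under (𝓞 k)) = Ideal.absNorm v.asIdeal := by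
    rw [hPv, Ideal.absNorm_apply, Submodule.cardQuot_apply]
  have h1 : σ • hζ.toInteger = hζ.toInteger := by
    have h2 := AlgHom.IsArithFrobAt.apply_of_pow_eq_one hσ hζ' hℓP
    rw [hq] at h2
    have h3 : hζ.toInteger ^ Ideal.absNorm v.asIdeal = hζ.toInteger := by
      have h4 : Ideal.absNorm v.asIdeal % ℓ = 1 := by
        rw [hv]
        exact Nat.mod_eq_of_lt (Fact.out : ℓ.Prime).one_lt
      rw [← Nat.div_add_mod (Ideal.absNorm v.asIdeal) ℓ, h4, pow_add, pow_mul, hζ', one_pow,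
        one_mul, pow_one]
    rw [h3] at h2
    exact h2
  have h2 : σ = 1 := by
    apply IsCyclotomicExtension.algEquiv_eq_of_apply_eq {ℓ} k M
    rintro n rfl -
    refine ⟨_, hζ, ?_⟩
    have h3 := congrArg (fun z : 𝓞 M => (z : M)) h1
    exact h3
  refine ⟨⟨P, hP1, hPne⟩, hPv, ?_⟩
  change Ideal.absNorm P = Ideal.absNorm v.asIdeal
  have hprime : P.IsPrime := hP1
  have hmax : P.IsMaximal := hprime.isMaximal hPne
  letI : Field (𝓞 M ⧸ P) := Ideal.Quotient.field P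
  have hpow : ∀ x : 𝓞 M ⧸ P, x ^ Ideal.absNorm v.asIdeal = x := by
    intro x
    obtain ⟨y, rfl⟩ := Ideal.Quotient.mk_surjective x
    have h3 := hσ y
    rw [hq] at h3
    have h4 : MulSemiringAction.toAlgHom (𝓞 k) (𝓞 M) σ y = y := by
      rw [h2]
      exact one_smul _ y
    rw [h4] at h3
    rw [← map_pow]
    exact ((Ideal.Quotient.eq).mpr h3).symm
  have hq2 : 1 < Ideal.absNorm v.asIdeal := by
    have hne : Ideal.absNorm v.asIdeal ≠ 1 := by
      rw [Ne, Ideal.absNorm_eq_one_iff]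
      exact v.isPrime.ne_top
    have hne0 : Ideal.absNorm v.asIdeal ≠ 0 := by
      rw [Ne, Ideal.absNorm_eq_zero_iff]
      exact v.ne_bot
    omega
  apply le_antisymm
  · rw [Ideal.absNorm_apply, Submodule.cardQuot_apply]
    cases nonempty_fintype (𝓞 M ⧸ P)
    rw [Nat.card_eq_fintype_card]
    have hX : (X ^ Ideal.absNorm v.asIdeal - X : (𝓞 M ⧸ P)[X]) ≠ 0 :=
      FiniteField.X_pow_card_sub_X_ne_zero (𝓞 M ⧸ P) hq2
    have h5 : (Finset.univ : Finset (𝓞 M ⧸ P)).card ≤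
        (X ^ Ideal.absNorm v.asIdeal - X : (𝓞 M ⧸ P)[X]).roots.toFinset.card := by
      apply Finset.card_le_card
      intro x _
      rw [Multiset.mem_toFinset, Polynomial.mem_roots hX, Polynomial.IsRoot.def]
      simp [hpow x]
    rw [Finset.card_univ] at h5
    refine h5.trans ((Multiset.toFinset_card_le _).trans ((Polynomial.card_roots' _).trans ?_))
    rw [FiniteField.X_pow_card_sub_X_natDegree_eq (𝓞 M ⧸ P) hq2]
  · rw [Ideal.absNorm_apply, Submodule.cardQuot_apply, Ideal.absNorm_apply,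
      Submodule.cardQuot_apply, ← hPv]
    exact Nat.card_le_card_of_injective _
      (Ideal.algebraMap_quotient_injective (R := 𝓞 k) (I := P))

theorem split_cyclo {ℓ : ℕ} [Fact ℓ.Prime] (k M : Type*) [Field k] [NumberField k] [Field M]
    [NumberField M] [Algebra k M] [IsCyclotomicExtension {ℓ} k M] {v : HeightOneSpectrum (𝓞 k)}
    (hv : Ideal.absNorm v.asIdeal ≡ 1 [MOD ℓ]) :
    Module.finrank k M ≤ degOne k M v := by
  have : NeZero ℓ := ⟨(Fact.out : ℓ.Prime).ne_zero⟩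
  have hG : IsGalois k M := IsCyclotomicExtension.isGalois {ℓ} k M
  obtain ⟨P, hP1, hP2⟩ := nm3_exists_prime k M hv
  -- the homomorphism attached to `P`
  have hφ : ∃ f : 𝓞 M →ₐ[𝓞 k] 𝓞 k ⧸ v.asIdeal, True := by
    let φ : (𝓞 k ⧸ v.asIdeal) →ₐ[𝓞 k] (𝓞 M ⧸ P.asIdeal) :=
      Ideal.quotientMapₐ P.asIdeal (Algebra.ofId (𝓞 k) (𝓞 M)) (by rw [← hP1]; exact le_rfl)
    have hinj : Function.Injective φ := by
      intro x y hxy
      obtain ⟨x, rfl⟩ := Ideal.Quotient.mk_surjective x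
      obtain ⟨y, rfl⟩ := Ideal.Quotient.mk_surjective y
      have h3 : Ideal.Quotient.mk P.asIdeal (algebraMap _ _ x) =
        Ideal.Quotient.mk P.asIdeal (algebraMap _ _ y) := hxy
      rw [Ideal.Quotient.eq, ← map_sub] at h3
      rw [Ideal.Quotient.eq, ← hP1]
      exact h3
    have hbij : Function.Bijective φ := by
      rw [Nat.bijective_iff_injective_and_card]
      refine ⟨hinj, ?_⟩
      rw [Ideal.absNorm_apply, Ideal.absNorm_apply, Submodule.cardQuot_apply,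
        Submodule.cardQuot_apply] at hP2
      exact hP2.symm
    let e := AlgEquiv.ofBijective φ hbij
    exact ⟨(e.symm : (𝓞 M ⧸ P.asIdeal) →ₐ[𝓞 k] _).comp (Ideal.Quotient.mkₐ (𝓞 k) P.asIdeal),
      trivial⟩
  obtain ⟨f, -⟩ := hφ
  have hfin : Finite (𝓞 M →ₐ[𝓞 k] 𝓞 k ⧸ v.asIdeal) := by
    have hg : Function.Injective (fun g : 𝓞 M →ₐ[𝓞 k] 𝓞 k ⧸ v.asIdeal =>
        fun i => g (RingOfIntegers.basis M i)) := by
      intro g g' hgg
      have h1 : (g : 𝓞 M →+ 𝓞 k ⧸ v.asIdeal).toIntLinearMap =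
          (g' : 𝓞 M →+ 𝓞 k ⧸ v.asIdeal).toIntLinearMap := by
        apply (RingOfIntegers.basis M).ext
        intro i
        exact congrFun hgg i
      ext x
      exact DFunLike.congr_fun h1 x
    exact Finite.of_injective _ hg
  rw [degOne_eq, ← IsGalois.card_aut_eq_finrank k M]
  refine Nat.card_le_card_of_injective
    (fun σ : Gal(M/k) => f.comp (MulSemiringAction.toAlgHom (𝓞 k) (𝓞 M) σ)) ?_
  intro σ τ hστ
  have hζ := IsCyclotomicExtension.zeta_spec ℓ k M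
  have hζ' : hζ.toInteger ^ ℓ = 1 := hζ.toInteger_isPrimitiveRoot.pow_eq_one
  have hℓ0 : ((ℓ : ℕ) : 𝓞 k ⧸ v.asIdeal) ≠ 0 := by
    intro h
    apply nm3_natCast_ne_zero (ℓ := ℓ) hv
    rw [← Ideal.Quotient.eq_zero_iff_mem, map_natCast]
    exact h
  have h1 : f (σ • hζ.toInteger) = f (τ • hζ.toInteger) :=
    DFunLike.congr_fun hστ hζ.toInteger
  have h2 : σ • hζ.toInteger = τ • hζ.toInteger := by
    refine nm3_root_eq (ℓ := ℓ) (f : 𝓞 M →+* 𝓞 k ⧸ v.asIdeal) hℓ0 ?_ ?_ h1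
    · rw [← smul_pow', hζ', smul_one]
    · rw [← smul_pow', hζ', smul_one]
  apply IsCyclotomicExtension.algEquiv_eq_of_apply_eq {ℓ} k M
  rintro n rfl -
  refine ⟨_, hζ, ?_⟩
  have h3 := congrArg (fun z : 𝓞 M => (z : M)) h2
  exact h3

end Pool.Agent.H16.HK
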