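import Pool.Agent.H16.HK.Alg

/-!
# Job HK-Inert: the trace at primes `p ≢ 1` modulo `ℓ`

`x ↦ x ^ ℓ` is a bijection of `ZMod p` because `ℓ` is coprime to `p - 1` (`0 ↦ 0`, on units `Nat.Coprime` powers: `powCoprime`), and `4 ≠ 0`, so
`{(x, y) | y ^ 2 = 4 x ^ ℓ + 1}` is in bijection with the `y ∈ ZMod p`: `p` elements, `ap = 0`.
-/

open Polynomial

namespace Pool.Agent.H16.HK

theorem inert_inj {ℓ p : ℕ} (hℓ : ℓ.Prime) (hp : p.Prime) (h : ¬ p ≡ 1 [MOD ℓ]) :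
    Function.Injective (fun x : ZMod p => x ^ ℓ) := by
  have : Fact p.Prime := ⟨hp⟩
  have hco : Nat.Coprime ℓ (p - 1) := by
    rw [Nat.Prime.coprime_iff_not_dvd hℓ]
    intro hd
    apply h
    have := (Nat.modEq_iff_dvd' hp.one_lt.le).2 hd
    exact this.symm
  intro x y hxy
  simp only at hxy
  rcases eq_or_ne y 0 with hy | hy
  · subst hy
    rw [zero_pow hℓ.ne_zero] at hxy
    exact (pow_eq_zero_iff hℓ.ne_zero).1 hxy
  · have hx : x ≠ 0 := by
      rintro rfl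
      rw [zero_pow hℓ.ne_zero] at hxy
      exact hy ((pow_eq_zero_iff hℓ.ne_zero).1 hxy.symm)
    have h1 : (x / y) ^ ℓ = 1 := by
      rw [div_pow, hxy, div_self (pow_ne_zero _ hy)]
    have h2 : (x / y) ^ (p - 1) = 1 := ZMod.pow_card_sub_one_eq_one (div_ne_zero hx hy)
    have h3 : orderOf (x / y) ∣ Nat.gcd ℓ (p - 1) :=
      Nat.dvd_gcd (orderOf_dvd_of_pow_eq_one h1) (orderOf_dvd_of_pow_eq_one h2)
    rw [hco] at h3
    have h4 : x / y = 1 := orderOf_eq_one_iff.1 (Nat.dvd_one.1 h3)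
    rwa [div_eq_one_iff_eq hy] at h4

open Pool.Agent.H18.RS in
theorem ap_inert {ℓ p : ℕ} (hℓ : ℓ.Prime) (hp : p.Prime) (hp2 : p ≠ 2) (h : ¬ p ≡ 1 [MOD ℓ]) :
    ap (fermatPoly ℓ) p = 0 := by
  have : Fact p.Prime := ⟨hp⟩
  have hinj := inert_inj hℓ hp h
  have hsurj : Function.Surjective (fun x : ZMod p => x ^ ℓ) :=
    Finite.injective_iff_surjective.1 hinj
  have hev : ∀ x : ZMod p, ((fermatPoly ℓ).map (Int.castRingHom (ZMod p))).eval x =
      4 * x ^ ℓ + 1 := by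
    intro x
    simp [fermatPoly]
  have h2 : (2 : ZMod p) ≠ 0 := by
    intro h0
    have h1 : ((2 : ℕ) : ZMod p) = 0 := by exact_mod_cast h0
    rw [ZMod.natCast_eq_zero_iff] at h1
    exact hp2 ((Nat.prime_dvd_prime_iff_eq hp Nat.prime_two).1 h1)
  have h4 : (4 : ZMod p) ≠ 0 := by
    have : (4 : ZMod p) = 2 * 2 := by norm_num
    rw [this]
    exact mul_ne_zero h2 h2
  have hcard : Nat.card {z : ZMod p × ZMod p //
      z.2 ^ 2 = ((fermatPoly ℓ).map (Int.castRingHom (ZMod p))).eval z.1} = Nat.card (ZMod p) := by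
    refine Nat.card_eq_of_bijective (fun z => z.1.2) ⟨?_, ?_⟩
    · rintro ⟨⟨x, y⟩, hz⟩ ⟨⟨x', y'⟩, hz'⟩ he
      simp only at he hz hz'
      subst he
      rw [hev] at hz hz'
      have h5 : (4 : ZMod p) * x ^ ℓ = 4 * x' ^ ℓ := by
        have := hz.symm.trans hz'
        exact add_right_cancel this
      have h6 : x ^ ℓ = x' ^ ℓ := mul_left_cancel₀ h4 h5
      have h7 : x = x' := hinj h6
      subst h7
      rfl
    · intro y
      obtain ⟨x, hx⟩ := hsurj ((y ^ 2 - 1) / 4)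
      refine ⟨⟨(x, y), ?_⟩, rfl⟩
      simp only at hx
      simp only [hev, hx]
      field_simp
      ring
  unfold ap
  rw [hcard, Nat.card_zmod, sub_self]

end Pool.Agent.H16.HK
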