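import Pool.Agent.H16.HK.Alg

/-!
# Job HK-Split: a prime `p ≡ 1` modulo `ℓ` has `ℓ - 1` primes of degree one above it

`p ≠ ℓ`. Residue degree and ramification index of the primes above `p` are `1`
(`IsCyclotomicExtension.Rat.inertiaDegIn_eq_of_not_dvd`: the order of `p` modulo `ℓ`, `ramificationIdxIn_eq_of_not_dvd`,
`Mathlib/NumberTheory/NumberField/Cyclotomic/Ideal.lean`), so `Ideal.ncard_primesOver_mul_ramificationIdxIn_mul_inertiaDegIn` gives `ℓ - 1` primes over
`(p)` (`K/ℚ` is Galois of degree `ℓ - 1`), each with `absNorm = p ^ 1` (`Ideal.absNorm_eq_pow_inertiaDeg`). The set of primes of norm `p` is finite (`fib_finite` in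
`Pool/Agent/H18/RS/Fib.lean`).
-/

open NumberField IsDedekindDomain Polynomial IsCyclotomicExtension.Rat
open scoped Pointwise Classical

namespace Pool.Agent.H16.HK

variable {ℓ : ℕ} [Fact ℓ.Prime] {K : Type*} [Field K] [NumberField K] [IsCyclotomicExtension {ℓ} ℚ K]

theorem card_fib (K : Type*) [Field K] [NumberField K] [IsCyclotomicExtension {ℓ} ℚ K] {p : ℕ}
    (hp : p.Prime) (h : p ≡ 1 [MOD ℓ]) :
    ℓ - 1 ≤ Nat.card {v : HeightOneSpectrum (𝓞 K) // Ideal.absNorm v.asIdeal = p} := by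
  have hℓ : ℓ.Prime := Fact.out
  have : Fact p.Prime := ⟨hp⟩
  have : IsGalois ℚ K := IsCyclotomicExtension.isGalois {ℓ} ℚ K
  have hnd : ¬ p ∣ ℓ := by
    intro hd
    have := (Nat.prime_dvd_prime_iff_eq hp hℓ).1 hd
    subst this
    have h1 : p % p = 1 % p := h
    rw [Nat.mod_self, Nat.mod_eq_of_lt hp.one_lt] at h1
    exact absurd h1 (by norm_num)
  have hp' : Prime (p : ℤ) := Nat.prime_iff_prime_int.1 hp
  have hne : (Ideal.span {(p : ℤ)} : Ideal ℤ) ≠ ⊥ := by
    rw [Ne, Ideal.span_singleton_eq_bot]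
    exact_mod_cast hp.ne_zero
  have hprime : (Ideal.span {(p : ℤ)} : Ideal ℤ).IsPrime :=
    (Ideal.span_singleton_prime (by exact_mod_cast hp.ne_zero)).2 hp'
  have hmax : (Ideal.span {(p : ℤ)} : Ideal ℤ).IsMaximal := hprime.isMaximal hne
  have hord : orderOf (p : ZMod ℓ) = 1 := by
    rw [orderOf_eq_one_iff]
    have := (ZMod.natCast_eq_natCast_iff p 1 ℓ).2 h
    simpa using this
  have e1 : (Ideal.span {(p : ℤ)}).inertiaDegIn (𝓞 K) = 1 := by
    rw [IsCyclotomicExtension.Rat.inertiaDegIn_eq_of_not_dvd (m := ℓ) p K hnd, hord]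
  have e2 : (Ideal.span {(p : ℤ)}).ramificationIdxIn (𝓞 K) = 1 := by
    rw [IsCyclotomicExtension.Rat.ramificationIdxIn_eq_of_not_dvd (m := ℓ) p K hnd]
  have e3 := Ideal.ncard_primesOver_mul_ramificationIdxIn_mul_inertiaDegIn
    (Ideal.span {(p : ℤ)}) (𝓞 K) Gal(K/ℚ)
  rw [e1, e2, mul_one, mul_one, IsGalois.card_aut_eq_finrank,
    IsCyclotomicExtension.finrank (n := ℓ) K (Polynomial.cyclotomic.irreducible_rat hℓ.pos),
    Nat.totient_prime hℓ] at e3
  rw [← e3, ← Nat.card_coe_set_eq]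
  have hfin : Finite {v : HeightOneSpectrum (𝓞 K) // Ideal.absNorm v.asIdeal = p} := by
    have hf := (Ideal.finite_setOfPred_absNorm_eq (S := 𝓞 K) p).to_subtype
    refine Finite.of_injective
      (fun v : {v : HeightOneSpectrum (𝓞 K) // Ideal.absNorm v.asIdeal = p} =>
        (⟨v.1.asIdeal, v.2⟩ : {I : Ideal (𝓞 K) | Ideal.absNorm I = p})) ?_
    intro v w hvw
    exact Subtype.ext (HeightOneSpectrum.ext (congrArg Subtype.val hvw))
  have hbot : ∀ P : ((Ideal.span {(p : ℤ)}).primesOver (𝓞 K)), P.1 ≠ ⊥ := by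
    intro P
    have := P.2.1
    have := P.2.2
    exact Ideal.ne_bot_of_liesOver_of_ne_bot hne P.1
  have hnorm : ∀ P : ((Ideal.span {(p : ℤ)}).primesOver (𝓞 K)), Ideal.absNorm P.1 = p := by
    intro P
    have := P.2.1
    have := P.2.2
    have h1 := IsCyclotomicExtension.Rat.inertiaDeg_eq_of_not_dvd (m := ℓ) p K P.1 hnd
    rw [hord] at h1
    have h2 := Ideal.absNorm_eq_pow_inertiaDeg P.1 hp'
    have : P.1.IsMaximal := Ideal.IsPrime.isMaximal P.2.1 (hbot P)
    rw [Ideal.inertiaDeg'_eq_inertiaDeg, h1] at h2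
    simpa using h2
  refine Nat.card_le_card_of_injective
    (fun P => ⟨⟨P.1, P.2.1, hbot P⟩, hnorm P⟩) ?_
  intro P Q hPQ
  have := congrArg (fun x => x.1.asIdeal) hPQ
  exact Subtype.ext this

end Pool.Agent.H16.HK
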