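import Pool.Agent.H16.HK.MSq
import Pool.Agent.H16.HK.Split
import Pool.Agent.H16.HK.Inert
import Pool.Agent.H18.RS.Fib
import Pool.Agent.H18.RS.Traces

/-!
# Sums against the traces of `y ^ 2 = 4 x ^ ℓ + 1`: sparse support and Cauchy-Schwarz
-/

open NumberField IsDedekindDomain Polynomial Filter Topology
open scoped Classical

namespace Pool.Agent.H16.HK

open Pool.Agent.H3.TatePole Pool.Agent.H18.RS Pool.Agent.H1.Tate

/-- the normalised trace at the primes `p ≡ 1` modulo `ℓ` -/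
noncomputable def wl (ℓ p : ℕ) : ℝ :=
  if p ≡ 1 [MOD ℓ] then (ap (fermatPoly ℓ) p : ℝ) / Real.sqrt p else 0

lemma good_of_modEq {ℓ : ℕ} (hℓ : ℓ.Prime) {K : Type*} [Field K] [NumberField K]
    {v : HeightOneSpectrum (𝓞 K)} (hp : (Ideal.absNorm v.asIdeal).Prime)
    (h : Ideal.absNorm v.asIdeal ≡ 1 [MOD ℓ]) : Good ℓ v := by
  refine ⟨hp, fun he => ?_⟩
  rw [he] at h
  have h1 : (ℓ : ℕ) % ℓ = 1 % ℓ := h
  rw [Nat.mod_self, Nat.mod_eq_of_lt hℓ.one_lt] at h1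
  exact zero_ne_one h1

theorem exists_cyclotomic (ℓ : ℕ) [NeZero ℓ] :
    ∃ (K : Type) (_ : Field K) (_ : NumberField K), IsCyclotomicExtension {ℓ} ℚ K := by
  refine ⟨CyclotomicField ℓ ℚ, inferInstance, inferInstance, ?_⟩
  have : NeZero ((ℓ : ℕ) : ℚ) := ⟨by exact_mod_cast NeZero.ne ℓ⟩
  have h := CyclotomicField.isCyclotomicExtension ℓ ℚ
  have e : (DivisionRing.toRatAlgebra : Algebra ℚ (CyclotomicField ℓ ℚ)) =
    CyclotomicField.algebra ℓ ℚ := Subsingleton.elim _ _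
  rw [e]
  exact h

variable {ℓ : ℕ} [Fact ℓ.Prime]

/-- the sum over `p ≡ 1` is at most `1 / (ℓ - 1)` times the sum over the primes of degree one -/
theorem sum_le_cyclo (hℓ : ℓ ≠ 2) (K : Type*) [Field K] [NumberField K]
    [IsCyclotomicExtension {ℓ} ℚ K] {t : ℝ} (ht : 1 < t) :
    Summable (fun p : Nat.Primes => |wl ℓ p| * (p : ℝ) ^ (-t)) ∧
    ((ℓ : ℝ) - 1) * ∑' p : Nat.Primes, |wl ℓ p| * (p : ℝ) ^ (-t) ≤
      wsum (fun v : HeightOneSpectrum (𝓞 K) => |wGood ℓ v|) t := by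
  have hℓ' : ℓ.Prime := Fact.out
  have hl1 : (1 : ℝ) < ℓ := by exact_mod_cast hℓ'.one_lt
  obtain ⟨D, hD⟩ := wGood_bdd ℓ hℓ K
  have hb : Bdd (fun v : HeightOneSpectrum (𝓞 K) => |wGood ℓ v|) :=
    ⟨D, fun v => by rw [abs_abs]; exact hD v⟩
  have hF := hb.summable ht
  have h1 := hasSum_fib hF
  have hle : ∀ p : Nat.Primes, ((ℓ : ℝ) - 1) * (|wl ℓ p| * (p : ℝ) ^ (-t)) ≤
      ∑' v : {v : HeightOneSpectrum (𝓞 K) // Ideal.absNorm v.asIdeal = p},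
        |wGood ℓ (v : HeightOneSpectrum (𝓞 K))| * nrm (v : HeightOneSpectrum (𝓞 K)) ^ (-t) := by
    intro p
    obtain ⟨hfin, -⟩ := fib_finite (k := K) p p.2
    cases nonempty_fintype {v : HeightOneSpectrum (𝓞 K) // Ideal.absNorm v.asIdeal = p}
    by_cases hp : (p : ℕ) ≡ 1 [MOD ℓ]
    · have e1 : ∀ v : {v : HeightOneSpectrum (𝓞 K) // Ideal.absNorm v.asIdeal = p},
          |wGood ℓ (v : HeightOneSpectrum (𝓞 K))| * nrm (v : HeightOneSpectrum (𝓞 K)) ^ (-t) =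
            |wl ℓ p| * (p : ℝ) ^ (-t) := by
        intro v
        have hg : Good ℓ (v : HeightOneSpectrum (𝓞 K)) :=
          good_of_modEq hℓ' (by rw [v.2]; exact p.2) (by rw [v.2]; exact hp)
        unfold wGood wl nrm
        rw [if_pos hg, if_pos hp, v.2]
      rw [tsum_congr e1, tsum_const, nsmul_eq_mul]
      refine mul_le_mul_of_nonneg_right ?_
        (mul_nonneg (abs_nonneg _) (Real.rpow_nonneg (Nat.cast_nonneg _) _))
      have h2 := card_fib (ℓ := ℓ) K p.2 hp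
      have h3 : ((ℓ - 1 : ℕ) : ℝ) = (ℓ : ℝ) - 1 := by
        rw [Nat.cast_sub hℓ'.one_lt.le]; simp
      rw [← h3]
      exact_mod_cast h2
    · have : wl ℓ p = 0 := by
        unfold wl
        rw [if_neg hp]
      rw [this, abs_zero, zero_mul, mul_zero]
      exact tsum_nonneg fun v => mul_nonneg (abs_nonneg _) (Real.rpow_nonneg (nrm_pos _).le _)
  have hs : Summable (fun p : Nat.Primes => ((ℓ : ℝ) - 1) * (|wl ℓ p| * (p : ℝ) ^ (-t))) := by
    refine Summable.of_nonneg_of_le (fun p => ?_) hle h1.summable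
    exact mul_nonneg (by linarith)
      (mul_nonneg (abs_nonneg _) (Real.rpow_nonneg (Nat.cast_nonneg _) _))
  refine ⟨(summable_mul_left_iff (by linarith)).mp hs, ?_⟩
  rw [← tsum_mul_left]
  refine (hs.tsum_le_tsum hle h1.summable).trans ?_
  rw [h1.tsum_eq]
  have hnn : ∀ v : HeightOneSpectrum (𝓞 K), 0 ≤ |wGood ℓ v| * nrm v ^ (-t) := fun v =>
    mul_nonneg (abs_nonneg _) (Real.rpow_nonneg (nrm_pos v).le _)
  have hle2 : ∀ v : HeightOneSpectrum (𝓞 K),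
      (if (Ideal.absNorm v.asIdeal).Prime then |wGood ℓ v| * nrm v ^ (-t) else 0) ≤
        |wGood ℓ v| * nrm v ^ (-t) := by
    intro v
    split_ifs
    · exact le_rfl
    · exact hnn v
  unfold wsum
  refine Summable.tsum_le_tsum hle2 ?_ hF
  refine Summable.of_nonneg_of_le (fun v => ?_) hle2 hF
  split_ifs
  · exact hnn v
  · exact le_rfl

/-- the mean of `|w|` over the primes `p ≡ 1` is at most `1 / √(ℓ - 1)` -/
theorem abs_mean' (hℓ : ℓ ≠ 2) (K : Type*) [Field K] [NumberField K]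
    [IsCyclotomicExtension {ℓ} ℚ K] {ε : ℝ} (hε : 0 < ε) :
    ∀ᶠ t : ℝ in 𝓝[>] 1, Summable (fun p : Nat.Primes => |wl ℓ p| * (p : ℝ) ^ (-t)) ∧
      ((ℓ : ℝ) - 1) * (∑' p : Nat.Primes, |wl ℓ p| * (p : ℝ) ^ (-t)) ^ 2 ≤ (1 + ε) * Lam t ^ 2 := by
  have hℓ' : ℓ.Prime := Fact.out
  have hl1 : (1 : ℝ) < ℓ := by exact_mod_cast hℓ'.one_lt
  set L : ℝ := (ℓ : ℝ) - 1 with hL
  have hL0 : 0 < L := by linarith
  -- choose `δ` with `(1 + δ) (L + δ) ≤ (1 + ε) L`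
  let δ : ℝ := min 1 (ε * L / (L + 2))
  have hδ0 : 0 < δ := lt_min one_pos (by positivity)
  have hδ1 : δ ≤ 1 := min_le_left _ _
  have hδ2 : δ * (L + 2) ≤ ε * L := by
    have : δ ≤ ε * L / (L + 2) := min_le_right _ _
    rwa [le_div_iff₀ (by linarith)] at this
  have hδ3 : (1 + δ) * (L + δ) ≤ (1 + ε) * L := by nlinarith
  have hone : Tendsto (fun t => wsum (fun _ : HeightOneSpectrum (𝓞 K) => (1 : ℝ)) t / Lam t)
    (𝓝[>] 1) (𝓝 1) := hasMean_one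
  have h5 := hone.eventually_le_const (show (1 : ℝ) < 1 + δ by linarith)
  have h6 := mean_square hℓ K hδ0
  filter_upwards [h5, h6, Lam_tendsto.eventually_gt_atTop 0, self_mem_nhdsWithin] with t ht1 ht2 ht3 ht4
  have ht4' : 1 < t := ht4
  obtain ⟨hs, hle⟩ := sum_le_cyclo hℓ K ht4'
  refine ⟨hs, ?_⟩
  rw [div_le_iff₀ ht3] at ht1
  set T := ∑' p : Nat.Primes, |wl ℓ p| * (p : ℝ) ^ (-t) with hT
  have hT0 : 0 ≤ T := tsum_nonneg fun p =>
    mul_nonneg (abs_nonneg _) (Real.rpow_nonneg (Nat.cast_nonneg _) _)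
  have hcs := wsum_cs (k := K) (Bdd.const 1)
    (show Bdd (fun v : HeightOneSpectrum (𝓞 K) => |wGood ℓ v|) by
      obtain ⟨D, hD⟩ := wGood_bdd ℓ hℓ K
      exact ⟨D, fun v => by rw [abs_abs]; exact hD v⟩) ht4'
  simp only [one_mul, one_pow, sq_abs] at hcs
  have hW0 : 0 ≤ wsum (fun _ : HeightOneSpectrum (𝓞 K) => (1 : ℝ)) t :=
    tsum_nonneg fun v => mul_nonneg zero_le_one (Real.rpow_nonneg (nrm_pos v).le _)
  have hW2 : 0 ≤ wsum (fun v : HeightOneSpectrum (𝓞 K) => wGood ℓ v ^ 2) t :=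
    tsum_nonneg fun v => mul_nonneg (sq_nonneg _) (Real.rpow_nonneg (nrm_pos v).le _)
  have h7 : (L * T) ^ 2 ≤ (wsum (fun v : HeightOneSpectrum (𝓞 K) => |wGood ℓ v|) t) ^ 2 :=
    pow_le_pow_left₀ (mul_nonneg hL0.le hT0) hle 2
  have h8 : wsum (fun _ : HeightOneSpectrum (𝓞 K) => (1 : ℝ)) t *
      wsum (fun v : HeightOneSpectrum (𝓞 K) => wGood ℓ v ^ 2) t ≤
      ((1 + δ) * Lam t) * ((L + δ) * Lam t) :=
    mul_le_mul ht1 ht2 hW2 (by positivity)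
  have h9 : L ^ 2 * T ^ 2 ≤ (1 + δ) * (L + δ) * Lam t ^ 2 := by
    calc L ^ 2 * T ^ 2 = (L * T) ^ 2 := by ring
      _ ≤ _ := h7.trans (hcs.trans h8)
      _ = _ := by ring
  have h10 : L * (L * T ^ 2) ≤ L * ((1 + ε) * Lam t ^ 2) := by
    calc L * (L * T ^ 2) = L ^ 2 * T ^ 2 := by ring
      _ ≤ (1 + δ) * (L + δ) * Lam t ^ 2 := h9
      _ ≤ ((1 + ε) * L) * Lam t ^ 2 := mul_le_mul_of_nonneg_right hδ3 (sq_nonneg _)
      _ = L * ((1 + ε) * Lam t ^ 2) := by ring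
  exact le_of_mul_le_mul_left h10 hL0

theorem abs_mean (hℓ : ℓ ≠ 2) {ε : ℝ} (hε : 0 < ε) :
    ∀ᶠ t : ℝ in 𝓝[>] 1, Summable (fun p : Nat.Primes => |wl ℓ p| * (p : ℝ) ^ (-t)) ∧
      ((ℓ : ℝ) - 1) * (∑' p : Nat.Primes, |wl ℓ p| * (p : ℝ) ^ (-t)) ^ 2 ≤ (1 + ε) * Lam t ^ 2 := by
  obtain ⟨K, i1, i2, i3⟩ := exists_cyclotomic ℓ
  exact abs_mean' hℓ K hε

/-! ## any function on the primes of a number field -/

variable {k : Type*} [Field k] [NumberField k]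

lemma fermat_natDegree (ℓ : ℕ) : (fermatPoly ℓ).natDegree = ℓ := by
  have h1 : (fermatPoly ℓ) = C 4 * X ^ ℓ + C 1 := by simp
  rw [h1, natDegree_add_C, natDegree_C_mul_X_pow ℓ 4 (by norm_num)]

lemma fermat_degree (hℓ : ℓ ≠ 2) : ∃ g : ℕ, (fermatPoly ℓ).natDegree = 2 * g + 1 ∧
    (up k (fermatPoly ℓ)).natDegree = 2 * g + 1 := by
  have hℓ' : ℓ.Prime := Fact.out
  obtain ⟨g, hg⟩ := hℓ'.odd_of_ne_two hℓ
  exact ⟨g, by rw [fermat_natDegree ℓ, hg], by rw [up_natDegree, fermat_natDegree ℓ, hg]⟩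

lemma fermat_separable {ℓ : ℕ} (hℓ : ℓ.Prime) :
    ((fermatPoly ℓ).map (Int.castRingHom ℚ)).Separable := by
  have h1 : (fermatPoly ℓ).map (Int.castRingHom ℚ) = C 4 * X ^ ℓ + 1 := by
    rw [fermatPoly, Polynomial.map_add, Polynomial.map_mul, Polynomial.map_pow, map_X, map_C,
      Polynomial.map_one]
    rfl
  rw [h1]
  have hl : (ℓ : ℚ) ≠ 0 := by exact_mod_cast hℓ.ne_zero
  refine ⟨1, C (-(ℓ : ℚ)⁻¹) * X, ?_⟩
  have hd : derivative (C (4 : ℚ) * X ^ ℓ + 1) = C 4 * (C (ℓ : ℚ) * X ^ (ℓ - 1)) := by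
    simp [derivative_X_pow]
  rw [hd]
  have hX : (X : ℚ[X]) ^ ℓ = X * X ^ (ℓ - 1) := by
    rw [← pow_succ', Nat.sub_add_cancel hℓ.one_lt.le]
  have hC : C (-(ℓ : ℚ)⁻¹) * C (ℓ : ℚ) = C (-1) := by
    rw [← C_mul]
    congr 1
    field_simp
  calc 1 * (C 4 * X ^ ℓ + 1) + C (-(ℓ : ℚ)⁻¹) * X * (C 4 * (C (ℓ : ℚ) * X ^ (ℓ - 1)))
      = C 4 * X ^ ℓ + 1 + (C (-(ℓ : ℚ)⁻¹) * C (ℓ : ℚ)) * C 4 * (X * X ^ (ℓ - 1)) := by ring
    _ = 1 := by
        rw [hC, ← hX]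
        simp

theorem sparse_general (hℓ : ℓ ≠ 2) {U : HeightOneSpectrum (𝓞 k) → ℝ} {B : ℝ}
    (hU : ∀ v, |U v| ≤ B) {ε : ℝ} (hε : 0 < ε) :
    ∀ᶠ t : ℝ in 𝓝[>] 1, ((ℓ : ℝ) - 1) *
      (wsum (fun v => U v * aV (up k (fermatPoly ℓ)) v) t / Lam t) ^ 2 ≤
        B ^ 2 * Module.finrank ℚ k ^ 2 + ε := by
  have hℓ' : ℓ.Prime := Fact.out
  have hl1 : (1 : ℝ) < ℓ := by exact_mod_cast hℓ'.one_lt
  obtain ⟨g, hg, hgU⟩ := fermat_degree (k := k) hℓ
  have hsep := fermat_separable hℓ'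
  set h := fermatPoly ℓ with hh
  set n : ℝ := (Module.finrank ℚ k : ℝ) with hn
  have hn0 : 0 ≤ n := Nat.cast_nonneg _
  have hUb : Bdd U := ⟨B, hU⟩
  -- a bound for `w`
  have hwb : ∃ D : ℝ, ∀ p : ℕ, p.Prime → |wl ℓ p| ≤ D := by
    obtain ⟨K, i1, i2, i3⟩ := exists_cyclotomic ℓ
    obtain ⟨D, hD⟩ := wGood_bdd ℓ hℓ K
    refine ⟨max D 0, fun p hp => ?_⟩
    by_cases h1 : p ≡ 1 [MOD ℓ]
    · have h2 := card_fib (ℓ := ℓ) K hp h1
      have h3 : 0 < Nat.card {v : HeightOneSpectrum (𝓞 K) // Ideal.absNorm v.asIdeal = p} := by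
        have := hℓ'.two_le
        omega
      obtain ⟨v⟩ := (Nat.card_pos_iff.mp h3).1
      have hg : Good ℓ (v : HeightOneSpectrum (𝓞 K)) :=
        good_of_modEq hℓ' (by rw [v.2]; exact hp) (by rw [v.2]; exact h1)
      have h4 := hD v
      unfold wGood at h4
      rw [if_pos hg, v.2] at h4
      unfold wl
      rw [if_pos h1]
      exact h4.trans (le_max_left _ _)
    · unfold wl
      rw [if_neg h1, abs_zero]
      exact le_max_right _ _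
  obtain ⟨D, hD⟩ := hwb
  -- the two functions agree at almost all primes of prime norm
  have hfin : {v : HeightOneSpectrum (𝓞 k) | (Ideal.absNorm v.asIdeal).Prime ∧
      aV (up k h) v ≠ wl ℓ (Ideal.absNorm v.asIdeal)}.Finite := by
    refine (finite_bad (up_separable (k := k) hsep)).subset ?_
    rintro v ⟨hp, hv⟩
    intro hgood
    apply hv
    rw [aV_up hp hgood]
    unfold wl
    split_ifs with h1
    · rfl
    · have hp2 : Ideal.absNorm v.asIdeal ≠ 2 := by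
        intro h2
        apply hgood.1
        have := Ideal.absNorm_mem v.asIdeal
        rw [h2] at this
        exact_mod_cast this
      rw [ap_inert hℓ' hp hp2 h1]
      simp
  obtain ⟨C, hC⟩ := fib_sum (U := U) (X := aV (up k h)) (w := wl ℓ) hUb (aV_bdd hgU) hD hfin
  have hfibB : ∀ p : Nat.Primes, |fib U p| ≤ n * |B| := by
    intro p
    obtain ⟨hfin', hcard⟩ := fib_finite (k := k) p p.2
    cases nonempty_fintype {v : HeightOneSpectrum (𝓞 k) // Ideal.absNorm v.asIdeal = p}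
    unfold fib
    rw [tsum_fintype]
    refine (Finset.abs_sum_le_sum_abs _ _).trans ?_
    calc ∑ v : {v : HeightOneSpectrum (𝓞 k) // Ideal.absNorm v.asIdeal = p},
          |U (v : HeightOneSpectrum (𝓞 k))|
        ≤ ∑ _v : {v : HeightOneSpectrum (𝓞 k) // Ideal.absNorm v.asIdeal = p}, |B| :=
          Finset.sum_le_sum fun v _ => (hU v).trans (le_abs_self B)
      _ = (Nat.card {v : HeightOneSpectrum (𝓞 k) // Ideal.absNorm v.asIdeal = p} : ℝ) * |B| := by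
          rw [Finset.sum_const, Finset.card_univ, nsmul_eq_mul, Nat.card_eq_fintype_card]
      _ ≤ n * |B| := mul_le_mul_of_nonneg_right (by rw [hn]; exact_mod_cast hcard) (abs_nonneg _)
  set M : ℝ := (n * |B|) ^ 2 with hM
  have hM0 : 0 ≤ M := sq_nonneg _
  let η : ℝ := min 1 (ε / (6 * (M + 1)))
  have hη0 : 0 < η := lt_min one_pos (by positivity)
  have hη1 : η ≤ 1 := min_le_left _ _
  have hη2 : η * (6 * (M + 1)) ≤ ε := by
    have : η ≤ ε / (6 * (M + 1)) := min_le_right _ _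
    rwa [le_div_iff₀ (by positivity)] at this
  have hη3 : (1 + η) * ((1 + η) * M) ≤ M + ε / 2 := by nlinarith
  have e1 := abs_mean (ℓ := ℓ) hℓ hη0
  have e2 : ∀ᶠ t : ℝ in 𝓝[>] 1, (1 + 1 / η) * ((ℓ : ℝ) - 1) * (C / Lam t) ^ 2 ≤ ε / 2 := by
    have h1 : Tendsto (fun t : ℝ => (1 + 1 / η) * ((ℓ : ℝ) - 1) * (C / Lam t) ^ 2) (𝓝[>] 1)
        (𝓝 ((1 + 1 / η) * ((ℓ : ℝ) - 1) * 0 ^ 2)) :=
      ((Tendsto.div_atTop tendsto_const_nhds Lam_tendsto).pow 2).const_mul _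
    refine h1.eventually_le_const ?_
    simp
    linarith
  filter_upwards [e1, e2, Lam_tendsto.eventually_gt_atTop 0, self_mem_nhdsWithin] with t h1 h2 h3 h4
  have h4' : 1 < t := h4
  obtain ⟨hs, h5⟩ := h1
  set W := wsum (fun v => U v * aV (up k h) v) t with hW
  set T := ∑' p : Nat.Primes, |wl ℓ p| * (p : ℝ) ^ (-t) with hT
  set S := ∑' p : Nat.Primes, fib U p * wl ℓ p * (p : ℝ) ^ (-t) with hS
  have hCt : |W - S| ≤ C := hC t h4'
  have hST : |S| ≤ n * |B| * T := by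
    have hle : ∀ p : Nat.Primes, ‖fib U p * wl ℓ p * (p : ℝ) ^ (-t)‖ ≤
        n * |B| * (|wl ℓ p| * (p : ℝ) ^ (-t)) := by
      intro p
      rw [norm_mul, norm_mul, Real.norm_eq_abs, Real.norm_eq_abs,
        Real.norm_of_nonneg (Real.rpow_nonneg (Nat.cast_nonneg _) _), mul_assoc]
      exact mul_le_mul_of_nonneg_right (hfibB p)
        (mul_nonneg (abs_nonneg _) (Real.rpow_nonneg (Nat.cast_nonneg _) _))
    rw [← Real.norm_eq_abs, hT, ← tsum_mul_left]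
    exact tsum_of_norm_bounded (hs.mul_left _).hasSum hle
  have hT0 : 0 ≤ T := tsum_nonneg fun p =>
    mul_nonneg (abs_nonneg _) (Real.rpow_nonneg (Nat.cast_nonneg _) _)
  have h6 : ((ℓ : ℝ) - 1) * (S / Lam t) ^ 2 ≤ (1 + η) * M := by
    rw [div_pow, mul_div_assoc', div_le_iff₀ (by positivity)]
    have h7 : S ^ 2 ≤ M * T ^ 2 := by
      rw [← sq_abs S, hM, ← mul_pow]
      exact pow_le_pow_left₀ (abs_nonneg _) hST 2
    calc ((ℓ : ℝ) - 1) * S ^ 2 ≤ ((ℓ : ℝ) - 1) * (M * T ^ 2) :=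
          mul_le_mul_of_nonneg_left h7 (by linarith)
      _ = M * (((ℓ : ℝ) - 1) * T ^ 2) := by ring
      _ ≤ M * ((1 + η) * Lam t ^ 2) := mul_le_mul_of_nonneg_left h5 hM0
      _ = (1 + η) * M * Lam t ^ 2 := by ring
  have h8 : (W / Lam t) ^ 2 ≤ (1 + η) * (S / Lam t) ^ 2 + (1 + 1 / η) * (C / Lam t) ^ 2 := by
    have h9 : W / Lam t = S / Lam t + (W - S) / Lam t := by ring
    have h10 : ((W - S) / Lam t) ^ 2 ≤ (C / Lam t) ^ 2 := by
      rw [div_pow, div_pow]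
      refine div_le_div_of_nonneg_right ?_ (sq_nonneg _)
      rw [← sq_abs (W - S)]
      exact pow_le_pow_left₀ (abs_nonneg _) hCt 2
    have h11 : ∀ a b : ℝ, (a + b) ^ 2 ≤ (1 + η) * a ^ 2 + (1 + 1 / η) * b ^ 2 := by
      intro a b
      have h12 : 0 ≤ (η * a - b) ^ 2 / η := by positivity
      have h13 : (η * a - b) ^ 2 / η = η * a ^ 2 - 2 * a * b + 1 / η * b ^ 2 := by
        field_simp
        ring
      rw [h13] at h12
      nlinarith
    rw [h9]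
    refine (h11 _ _).trans ?_
    have h14 : 0 ≤ 1 + 1 / η := by positivity
    exact add_le_add le_rfl (mul_le_mul_of_nonneg_left h10 h14)
  have hMB : M = B ^ 2 * n ^ 2 := by
    rw [hM, mul_pow, sq_abs]
    ring
  rw [← hMB]
  calc ((ℓ : ℝ) - 1) * (W / Lam t) ^ 2
      ≤ ((ℓ : ℝ) - 1) * ((1 + η) * (S / Lam t) ^ 2 + (1 + 1 / η) * (C / Lam t) ^ 2) :=
        mul_le_mul_of_nonneg_left h8 (by linarith)
    _ = (1 + η) * (((ℓ : ℝ) - 1) * (S / Lam t) ^ 2) +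
          (1 + 1 / η) * ((ℓ : ℝ) - 1) * (C / Lam t) ^ 2 := by ring
    _ ≤ (1 + η) * ((1 + η) * M) + ε / 2 :=
        add_le_add (mul_le_mul_of_nonneg_left h6 (by linarith)) h2
    _ ≤ M + ε := by linarith

end Pool.Agent.H16.HK
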