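import Pool.Agent.H16.HK.MSqM
import Pool.Agent.H16.HK.NM3
import Pool.Agent.H16.HK.Sparse
import Pool.Agent.H18.RS.Main

/-!
# The sharp bound: sums over the primes of `k` through the primes of `k(ζ_ℓ)`
-/

open NumberField IsDedekindDomain Polynomial Filter Topology
open scoped Classical

namespace Pool.Agent.H16.HK

open Pool.Agent.H3.TatePole Pool.Agent.H18.RS Pool.Agent.H1.Tate

lemma bounded_nonprime {k : Type*} [Field k] [NumberField k] {f : HeightOneSpectrum (𝓞 k) → ℝ}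
    (hf : Bdd f)
    (hfin : {v : HeightOneSpectrum (𝓞 k) | (Ideal.absNorm v.asIdeal).Prime ∧ f v ≠ 0}.Finite) :
    ∃ C : ℝ, ∀ t : ℝ, 1 < t → |wsum f t| ≤ C := by
  obtain ⟨pr, hpr, hprs⟩ := exists_pr_summable (k := k)
  obtain ⟨A, hA⟩ := hf
  let M : HeightOneSpectrum (𝓞 k) → ℝ := fun v =>
    |A| * ((pr v : ℕ) : ℝ) ^ (-2 : ℝ) + if v ∈ hfin.toFinset then |A| else 0
  have hMsum : Summable M := by
    refine Summable.add (hprs.mul_left _) ?_
    exact summable_of_ne_finset_zero (s := hfin.toFinset) (fun P hP => by simp [hP])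
  refine ⟨∑' v, M v, fun t ht => ?_⟩
  have hfb : Bdd f := ⟨A, hA⟩
  have hbound : ∀ v, ‖f v * nrm v ^ (-t)‖ ≤ M v := by
    intro v
    have hpp : 0 ≤ |A| * ((pr v : ℕ) : ℝ) ^ (-2 : ℝ) :=
      mul_nonneg (abs_nonneg _) (Real.rpow_nonneg (Nat.cast_nonneg _) _)
    have hle1 : nrm v ^ (-t) ≤ 1 :=
      Real.rpow_le_one_of_one_le_of_nonpos (by linarith [two_le_nrm v]) (by linarith)
    have hA' : |f v| ≤ |A| := (hA v).trans (le_abs_self _)
    rw [norm_mul, Real.norm_eq_abs, Real.norm_of_nonneg (Real.rpow_nonneg (nrm_pos v).le _)]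
    by_cases hP : (Ideal.absNorm v.asIdeal).Prime
    · by_cases h0 : f v = 0
      · rw [h0, abs_zero, zero_mul]
        simp only [M]
        have := abs_nonneg A
        split_ifs <;> linarith
      · have hmem : v ∈ hfin.toFinset := by simp [hP, h0]
        simp only [M, hmem, if_true]
        have h4 : |f v| * nrm v ^ (-t) ≤ |A| * 1 :=
          mul_le_mul hA' hle1 (Real.rpow_nonneg (nrm_pos _).le _) (abs_nonneg _)
        linarith
    · have h5 := hpr v hP
      have hpos : (0 : ℝ) < ((pr v : ℕ) : ℝ) := by exact_mod_cast (pr v).2.pos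
      have h6 : nrm v ^ (-t) ≤ ((pr v : ℕ) : ℝ) ^ (-2 : ℝ) := by
        calc nrm v ^ (-t) ≤ nrm v ^ (-1 : ℝ) :=
              Real.rpow_le_rpow_of_exponent_le (by linarith [two_le_nrm v]) (by linarith)
          _ ≤ (((pr v : ℕ) : ℝ) ^ 2) ^ (-1 : ℝ) := by
              apply Real.rpow_le_rpow_of_nonpos _ h5 (by norm_num)
              exact pow_pos hpos 2
          _ = ((pr v : ℕ) : ℝ) ^ (-2 : ℝ) := by
              rw [← Real.rpow_natCast, ← Real.rpow_mul hpos.le]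
              norm_num
      have h7 : |f v| * nrm v ^ (-t) ≤ |A| * ((pr v : ℕ) : ℝ) ^ (-2 : ℝ) :=
        mul_le_mul hA' h6 (Real.rpow_nonneg (nrm_pos v).le _) (abs_nonneg _)
      simp only [M]
      have := abs_nonneg A
      split_ifs <;> linarith
  rw [← Real.norm_eq_abs]
  exact tsum_of_norm_bounded hMsum.hasSum hbound

lemma ap_two {ℓ : ℕ} (hℓ : ℓ.Prime) : ap (fermatPoly ℓ) 2 = 0 := by
  have h0 : (fermatPoly ℓ).map (Int.castRingHom (ZMod 2)) = 1 := by
    rw [fermatPoly, Polynomial.map_add, Polynomial.map_mul, map_C, Polynomial.map_one]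
    have : (Int.castRingHom (ZMod 2)) 4 = 0 := by decide
    rw [this]
    simp
  unfold ap
  rw [h0]
  simp only [eval_one]
  have : Nat.card {z : ZMod 2 × ZMod 2 // z.2 ^ 2 = 1} = 2 := by
    rw [Nat.card_eq_fintype_card]
    decide
  rw [this]
  norm_num

lemma wGood_ne_zero {ℓ : ℕ} (hℓ : ℓ.Prime) {k : Type*} [Field k] [NumberField k]
    {v : HeightOneSpectrum (𝓞 k)} (h : wGood ℓ v ≠ 0) : Ideal.absNorm v.asIdeal ≡ 1 [MOD ℓ] := by
  by_contra hc
  apply h
  unfold wGood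
  split_ifs with hg
  · by_cases h2 : Ideal.absNorm v.asIdeal = 2
    · rw [h2, ap_two hℓ]
      simp
    · rw [ap_inert hℓ hg.1 h2 hc]
      simp
  · rfl

lemma limsup_perturb {L M : ℝ} (hL : 0 < L) (hM : 0 ≤ M) {x y : ℝ → ℝ}
    (hy : ∀ ε : ℝ, 0 < ε → ∀ᶠ t in 𝓝[>] (1 : ℝ), L * y t ^ 2 ≤ M + ε)
    (hxy : Tendsto (fun t => x t - y t) (𝓝[>] 1) (𝓝 0)) {ε : ℝ} (hε : 0 < ε) :
    ∀ᶠ t in 𝓝[>] (1 : ℝ), L * x t ^ 2 ≤ M + ε := by
  let η : ℝ := min 1 (ε / (4 * (M + 1)))
  have hη0 : 0 < η := lt_min one_pos (by positivity)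
  have hη1 : η ≤ 1 := min_le_left _ _
  have hη2 : η * (4 * (M + 1)) ≤ ε := by
    have : η ≤ ε / (4 * (M + 1)) := min_le_right _ _
    rwa [le_div_iff₀ (by positivity)] at this
  have e1 := hy (ε / 4) (by positivity)
  have e2 : ∀ᶠ t in 𝓝[>] (1 : ℝ), L * (1 + 1 / η) * (x t - y t) ^ 2 ≤ ε / 4 := by
    have h1 : Tendsto (fun t => L * (1 + 1 / η) * (x t - y t) ^ 2) (𝓝[>] 1)
        (𝓝 (L * (1 + 1 / η) * 0 ^ 2)) := (hxy.pow 2).const_mul _
    refine h1.eventually_le_const ?_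
    simp
    linarith
  filter_upwards [e1, e2] with t h1 h2
  have h11 : ∀ a b : ℝ, (a + b) ^ 2 ≤ (1 + η) * a ^ 2 + (1 + 1 / η) * b ^ 2 := by
    intro a b
    have h12 : 0 ≤ (η * a - b) ^ 2 / η := by positivity
    have h13 : (η * a - b) ^ 2 / η = η * a ^ 2 - 2 * a * b + 1 / η * b ^ 2 := by
      field_simp
      ring
    rw [h13] at h12
    nlinarith
  have h3 := h11 (y t) (x t - y t)
  rw [add_sub_cancel] at h3
  calc L * x t ^ 2 ≤ L * ((1 + η) * y t ^ 2 + (1 + 1 / η) * (x t - y t) ^ 2) :=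
        mul_le_mul_of_nonneg_left h3 hL.le
    _ = (1 + η) * (L * y t ^ 2) + L * (1 + 1 / η) * (x t - y t) ^ 2 := by ring
    _ ≤ (1 + η) * (M + ε / 4) + ε / 4 := add_le_add (mul_le_mul_of_nonneg_left h1 (by linarith)) h2
    _ ≤ M + ε := by nlinarith

theorem sharp_aux {ℓ : ℕ} [Fact ℓ.Prime] (hℓ : ℓ ≠ 2) (k K M : Type*) [Field k] [NumberField k]
    [Field K] [NumberField K] [IsCyclotomicExtension {ℓ} ℚ K] [Field M] [NumberField M]
    [Algebra K M] [Algebra k M] [IsCyclotomicExtension {ℓ} k M]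
    {U : HeightOneSpectrum (𝓞 k) → ℝ} {B : ℝ} (hU : ∀ v, |U v| ≤ B) {ε : ℝ} (hε : 0 < ε) :
    ∀ᶠ t : ℝ in 𝓝[>] 1, (Module.finrank k M : ℝ) ^ 2 *
      (wsum (fun v => U v * aV (up k (fermatPoly ℓ)) v) t / Lam t) ^ 2 ≤
        ((ℓ : ℝ) - 1) * B ^ 2 + ε := by
  have hℓ' : ℓ.Prime := Fact.out
  have hl1 : (1 : ℝ) < ℓ := by exact_mod_cast hℓ'.one_lt
  set L : ℝ := (ℓ : ℝ) - 1 with hL
  have hL0 : 0 < L := by linarith
  obtain ⟨g, hg, hgU⟩ := fermat_degree (k := k) hℓ
  have hsep := fermat_separable hℓ'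
  set F := up k (fermatPoly ℓ) with hF
  set d : ℝ := (Module.finrank k M : ℝ) with hd
  have hd0 : 0 ≤ d := Nat.cast_nonneg _
  have hUb : Bdd U := ⟨B, hU⟩
  have hFb : Bdd (aV F) := aV_bdd hgU
  have hGk : Bdd (fun v : HeightOneSpectrum (𝓞 k) => |wGood ℓ v|) := by
    -- from the cyclotomic field over `k`
    obtain ⟨D, hD⟩ := hFb
    refine ⟨|D| + ∑ v ∈ (finite_bad (up_separable (k := k) hsep)).toFinset, |wGood ℓ v|,
      fun v => ?_⟩
    rw [abs_abs]
    have h0 : 0 ≤ ∑ v ∈ (finite_bad (up_separable (k := k) hsep)).toFinset, |wGood ℓ v| :=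
      Finset.sum_nonneg fun _ _ => abs_nonneg _
    by_cases hgood : GoodAt F v
    · by_cases hv : Good ℓ v
      · have h1 : wGood ℓ v = aV F v := by
          unfold wGood
          rw [if_pos hv, aV_up hv.1 hgood]
        rw [h1]
        have := (hD v).trans (le_abs_self D)
        linarith
      · unfold wGood at *
        rw [if_neg hv, abs_zero]
        positivity
    · have hmem : v ∈ (finite_bad (up_separable (k := k) hsep)).toFinset := by
        rw [Set.Finite.mem_toFinset]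
        exact hgood
      have := Finset.single_le_sum (f := fun v : HeightOneSpectrum (𝓞 k) => |wGood ℓ v|)
        (fun _ _ => abs_nonneg _) hmem
      have h2 := abs_nonneg D
      linarith
  have hGM : Bdd (fun v : HeightOneSpectrum (𝓞 M) => |wGood ℓ v|) := by
    obtain ⟨D, hD⟩ := wGood_bddM ℓ hℓ K M
    exact ⟨D, fun v => by rw [abs_abs]; exact hD v⟩
  -- (1)
  obtain ⟨C₁, hC₁⟩ := bounded_nonprime (k := k)
    (f := fun v => |aV F v| - |wGood ℓ v|)
    (by
      have h1 : Bdd (fun v => |aV F v|) := by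
        obtain ⟨D, hD⟩ := hFb
        exact ⟨D, fun v => by rw [abs_abs]; exact hD v⟩
      obtain ⟨D₁, hD₁⟩ := h1
      obtain ⟨D₂, hD₂⟩ := hGk
      exact ⟨D₁ + D₂, fun v => (abs_sub _ _).trans (add_le_add (hD₁ v) (hD₂ v))⟩)
    (by
      have hfl : {v : HeightOneSpectrum (𝓞 k) | Ideal.absNorm v.asIdeal ∈ ({ℓ} : Set ℕ)}.Finite :=
        finite_places (Set.finite_singleton ℓ) (by
          intro p hp
          rw [Set.mem_singleton_iff] at hp
          rw [hp]
          exact hℓ')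
      refine ((finite_bad (up_separable (k := k) hsep)).union hfl).subset ?_
      rintro v ⟨hp, hv⟩
      by_cases hgood : GoodAt F v
      · by_cases hv2 : Good ℓ v
        · exfalso
          apply hv
          have h1 : wGood ℓ v = aV F v := by
            unfold wGood
            rw [if_pos hv2, aV_up hv2.1 hgood]
          rw [h1, sub_self]
        · right
          by_contra hc
          exact hv2 ⟨hp, fun he => hc (by rw [Set.mem_setOf_eq, he]; rfl)⟩
      · left; exact hgood)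
  -- (2)
  obtain ⟨C₂, hC₂⟩ := wsum_compare (k := k) (K := M) (u := fun v => |wGood ℓ v|)
    (U := fun v => |wGood ℓ v|) hGk hGM (by
      have : {P : HeightOneSpectrum (𝓞 M) | nrm P = nrm (below k P) ∧
          |wGood ℓ P| ≠ |wGood ℓ (below k P)|} = ∅ := by
        ext P
        simp only [Set.mem_setOf_eq, Set.mem_empty_iff_false, iff_false, not_and, not_not]
        intro hP
        have h1 : Ideal.absNorm P.asIdeal = Ideal.absNorm (below k P).asIdeal := by
          unfold nrm at hP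
          exact_mod_cast hP
        have h2 : Good ℓ P ↔ Good ℓ (below k P) := by
          unfold Good
          rw [h1]
        unfold wGood
        by_cases h3 : Good ℓ P
        · rw [if_pos h3, if_pos (h2.mp h3), h1]
        · rw [if_neg h3, if_neg (fun h => h3 (h2.mpr h))]
      rw [this]
      exact Set.finite_empty)
  set C₃ : ℝ := |C₂| + d * |C₁| with hC₃
  -- (3)
  have e3 : ∀ ε : ℝ, 0 < ε → ∀ᶠ t in 𝓝[>] (1 : ℝ),
      1 * (|B| * wsum (fun v : HeightOneSpectrum (𝓞 M) => |wGood ℓ v|) t / Lam t) ^ 2 ≤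
        L * B ^ 2 + ε := by
    intro ε hε
    let δ : ℝ := min 1 (ε / ((L + 2) * (B ^ 2 + 1)))
    have hδ0 : 0 < δ := lt_min one_pos (by positivity)
    have hδ1 : δ ≤ 1 := min_le_left _ _
    have hδ2 : δ * ((L + 2) * (B ^ 2 + 1)) ≤ ε := by
      have : δ ≤ ε / ((L + 2) * (B ^ 2 + 1)) := min_le_right _ _
      rwa [le_div_iff₀ (by positivity)] at this
    have hδ3 : B ^ 2 * ((1 + δ) * (L + δ)) ≤ L * B ^ 2 + ε := by
      have h1 : (1 + δ) * (L + δ) ≤ L + δ * (L + 2) := by nlinarith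
      have h2 : B ^ 2 * ((1 + δ) * (L + δ)) ≤ B ^ 2 * (L + δ * (L + 2)) :=
        mul_le_mul_of_nonneg_left h1 (sq_nonneg _)
      have h3 : B ^ 2 * (δ * (L + 2)) ≤ δ * ((L + 2) * (B ^ 2 + 1)) := by
        have : 0 ≤ δ * (L + 2) := by positivity
        nlinarith
      nlinarith
    have hone : Tendsto (fun t => wsum (fun _ : HeightOneSpectrum (𝓞 M) => (1 : ℝ)) t / Lam t)
      (𝓝[>] 1) (𝓝 1) := hasMean_one
    have h5 := hone.eventually_le_const (show (1 : ℝ) < 1 + δ by linarith)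
    have h6 := mean_squareM hℓ K M hδ0
    filter_upwards [h5, h6, Lam_tendsto.eventually_gt_atTop 0, self_mem_nhdsWithin]
      with t ht1 ht2 ht3 ht4
    have ht4' : 1 < t := ht4
    rw [div_le_iff₀ ht3] at ht1
    have hcs := wsum_cs (k := M) (Bdd.const 1) hGM ht4'
    simp only [one_mul, one_pow, sq_abs] at hcs
    have hW2 : 0 ≤ wsum (fun v : HeightOneSpectrum (𝓞 M) => wGood ℓ v ^ 2) t :=
      tsum_nonneg fun v => mul_nonneg (sq_nonneg _) (Real.rpow_nonneg (nrm_pos v).le _)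
    have h8 : wsum (fun _ : HeightOneSpectrum (𝓞 M) => (1 : ℝ)) t *
        wsum (fun v : HeightOneSpectrum (𝓞 M) => wGood ℓ v ^ 2) t ≤
        ((1 + δ) * Lam t) * ((L + δ) * Lam t) :=
      mul_le_mul ht1 ht2 hW2 (by positivity)
    rw [one_mul, div_pow, div_le_iff₀ (by positivity), mul_pow, sq_abs]
    calc B ^ 2 * wsum (fun v : HeightOneSpectrum (𝓞 M) => |wGood ℓ v|) t ^ 2
        ≤ B ^ 2 * (((1 + δ) * Lam t) * ((L + δ) * Lam t)) :=
          mul_le_mul_of_nonneg_left (hcs.trans h8) (sq_nonneg _)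
      _ = B ^ 2 * ((1 + δ) * (L + δ)) * Lam t ^ 2 := by ring
      _ ≤ (L * B ^ 2 + ε) * Lam t ^ 2 := mul_le_mul_of_nonneg_right hδ3 (sq_nonneg _)
  have e4 := limsup_perturb (L := 1) (M := L * B ^ 2) one_pos (by positivity)
    (x := fun t => |B| * (wsum (fun v : HeightOneSpectrum (𝓞 M) => |wGood ℓ v|) t + C₃) / Lam t)
    e3 (by
      have h1 : Tendsto (fun t : ℝ => |B| * C₃ / Lam t) (𝓝[>] 1) (𝓝 0) :=
        Tendsto.div_atTop tendsto_const_nhds Lam_tendsto
      refine h1.congr fun t => ?_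
      ring) hε
  filter_upwards [e4, Lam_tendsto.eventually_gt_atTop 0, self_mem_nhdsWithin] with t h1 h2 h3
  have h3' : 1 < t := h3
  refine le_trans ?_ h1
  rw [one_mul, ← mul_pow, mul_div_assoc']
  set W := wsum (fun v => U v * aV F v) t with hW
  set Gk := wsum (fun v : HeightOneSpectrum (𝓞 k) => |wGood ℓ v|) t with hGkd
  set GM := wsum (fun v : HeightOneSpectrum (𝓞 M) => |wGood ℓ v|) t with hGMd
  have hFab : Bdd (fun v => |aV F v|) := by
    obtain ⟨D, hD⟩ := hFb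
    exact ⟨D, fun v => by rw [abs_abs]; exact hD v⟩
  have hWle : |W| ≤ |B| * wsum (fun v => |aV F v|) t := by
    have h5 := (hUb.mul hFb).summable h3'
    rw [hW, ← wsum_const_mul]
    unfold wsum
    rw [← Real.norm_eq_abs]
    refine (norm_tsum_le_tsum_norm h5.norm).trans ?_
    refine h5.norm.tsum_le_tsum (fun v => ?_) (((Bdd.const |B|).mul hFab).summable h3')
    rw [norm_mul, norm_mul, Real.norm_eq_abs, Real.norm_eq_abs,
      Real.norm_of_nonneg (Real.rpow_nonneg (nrm_pos v).le _)]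
    refine mul_le_mul_of_nonneg_right ?_ (Real.rpow_nonneg (nrm_pos v).le _)
    exact mul_le_mul_of_nonneg_right ((hU v).trans (le_abs_self B)) (abs_nonneg _)
  have h6 : wsum (fun v => |aV F v|) t ≤ Gk + |C₁| := by
    have h7 := hC₁ t h3'
    have h8 : wsum (fun v => |aV F v|) t = Gk + wsum (fun v => |aV F v| - |wGood ℓ v|) t := by
      have hb : Bdd (fun v : HeightOneSpectrum (𝓞 k) => |aV F v| - |wGood ℓ v|) := by
        obtain ⟨D₁, hD₁⟩ := hFab
        obtain ⟨D₂, hD₂⟩ := hGk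
        exact ⟨D₁ + D₂, fun v => (abs_sub _ _).trans (add_le_add (hD₁ v) (hD₂ v))⟩
      rw [hGkd, ← wsum_add hGk hb h3']
      congr 1
      funext v
      ring
    rw [h8]
    have := (le_abs_self _).trans (h7.trans (le_abs_self C₁))
    linarith
  have h9 : d * Gk ≤ GM + |C₂| := by
    have h10 : d * Gk ≤ wsum (fun v : HeightOneSpectrum (𝓞 k) => |wGood ℓ v| * degOne k M v) t := by
      rw [hGkd, ← wsum_const_mul]
      refine wsum_mono ((Bdd.const d).mul hGk) (hGk.mul (degOne_bdd k M)) (fun v => ?_) h3'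
      by_cases h0 : wGood ℓ v = 0
      · rw [h0, abs_zero, mul_zero, zero_mul]
      · have h11 := split_cyclo (ℓ := ℓ) k M (wGood_ne_zero hℓ' h0)
        rw [mul_comm]
        exact mul_le_mul_of_nonneg_left (by rw [hd]; exact_mod_cast h11) (abs_nonneg _)
    have h12 := abs_le.mp ((hC₂ t h3').trans (le_abs_self C₂))
    linarith
  have h13 : |d * W| ≤ |B| * (GM + C₃) := by
    rw [abs_mul, abs_of_nonneg hd0]
    calc d * |W| ≤ d * (|B| * (Gk + |C₁|)) :=
          mul_le_mul_of_nonneg_left (hWle.trans (mul_le_mul_of_nonneg_left h6 (abs_nonneg _))) hd0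
      _ = |B| * (d * Gk + d * |C₁|) := by ring
      _ ≤ |B| * (GM + C₃) := by
          refine mul_le_mul_of_nonneg_left ?_ (abs_nonneg _)
          rw [hC₃]
          linarith
  rw [div_pow, div_pow]
  refine div_le_div_of_nonneg_right ?_ (sq_nonneg _)
  rw [← sq_abs (d * W)]
  exact pow_le_pow_left₀ (abs_nonneg _) h13 2

theorem exists_sub_cyclo {ℓ : ℕ} [NeZero ℓ] (M : Type*) [Field M] [NumberField M]
    (hM : ∃ ζ : M, IsPrimitiveRoot ζ ℓ) :
    ∃ (K : IntermediateField ℚ M), IsCyclotomicExtension {ℓ} ℚ K := by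
  obtain ⟨ζ, hζ⟩ := hM
  exact ⟨IntermediateField.adjoin ℚ {ζ}, hζ.intermediateField_adjoin_isCyclotomicExtension ℚ⟩

/-- sums against the traces of `F_ℓ`, with `[k(ζ_ℓ) : k]` -/
theorem sharp {ℓ : ℕ} (hℓ' : ℓ.Prime) (hℓ : ℓ ≠ 2) {k : Type*} [Field k] [NumberField k]
    {U : HeightOneSpectrum (𝓞 k) → ℝ} {B : ℝ} (hU : ∀ v, |U v| ≤ B) {ε : ℝ} (hε : 0 < ε) :
    ∀ᶠ t : ℝ in 𝓝[>] 1, (Module.finrank k (CyclotomicField ℓ k) : ℝ) ^ 2 *
      (wsum (fun v => U v * aV (up k (fermatPoly ℓ)) v) t / Lam t) ^ 2 ≤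
        ((ℓ : ℝ) - 1) * B ^ 2 + ε := by
  have : Fact ℓ.Prime := ⟨hℓ'⟩
  have hM : ∃ ζ : CyclotomicField ℓ k, IsPrimitiveRoot ζ ℓ :=
    ⟨_, IsCyclotomicExtension.zeta_spec ℓ k (CyclotomicField ℓ k)⟩
  obtain ⟨K, hK⟩ := exists_sub_cyclo (ℓ := ℓ) (CyclotomicField ℓ k) hM
  exact sharp_aux hℓ k K (CyclotomicField ℓ k) hU hε

end Pool.Agent.H16.HK
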