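import Pool.Agent.H16.HK.LogF
import Pool.Agent.H16.HK.Sharp
import Pool.Agent.H18.RS.Main

/-!
# The pole orders of `L₂(s, Y × F_ℓ)`
-/

open NumberField IsDedekindDomain Filter Topology Polynomial

namespace Pool.Agent.H16.HK

open Pool.Agent.H3.TatePole Pool.Agent.H1.Tate Pool.Agent.H18.RS

variable {k : Type*} [Field k] [NumberField k]

lemma fermat_map {ℓ : ℕ} (v : HeightOneSpectrum (𝓞 k)) :
    (up k (fermatPoly ℓ)).map (Ideal.Quotient.mk v.asIdeal) = C 4 * X ^ ℓ + 1 := by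
  rw [up, fermatPoly, Polynomial.map_add, Polynomial.map_mul, Polynomial.map_pow, map_X, map_C,
    Polynomial.map_one, Polynomial.map_add, Polynomial.map_mul, Polynomial.map_pow, map_X, map_C,
    Polynomial.map_one]
  have h4 : (Ideal.Quotient.mk v.asIdeal) ((Int.castRingHom (𝓞 k)) 4) = 4 := by
    simp only [eq_intCast, Int.cast_ofNat]
    exact map_ofNat _ 4
  rw [h4]

lemma fermat_goodAt {ℓ : ℕ} (hℓ : ℓ.Prime) {v : HeightOneSpectrum (𝓞 k)}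
    (h : (2 * ℓ : 𝓞 k) ∉ v.asIdeal) : GoodAt (up k (fermatPoly ℓ)) v := by
  let _ := Ideal.Quotient.field v.asIdeal
  have h2 : (2 : 𝓞 k) ∉ v.asIdeal := fun hc => h (v.asIdeal.mul_mem_right _ hc)
  have hl : (ℓ : 𝓞 k) ∉ v.asIdeal := fun hc => h (v.asIdeal.mul_mem_left _ hc)
  have h2' : (2 : 𝓞 k ⧸ v.asIdeal) ≠ 0 := by
    intro hc
    apply h2
    rw [← Ideal.Quotient.eq_zero_iff_mem, map_ofNat]
    exact hc
  have hl' : (ℓ : 𝓞 k ⧸ v.asIdeal) ≠ 0 := by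
    intro hc
    apply hl
    rw [← Ideal.Quotient.eq_zero_iff_mem, map_natCast]
    exact hc
  have h4' : (4 : 𝓞 k ⧸ v.asIdeal) ≠ 0 := by
    have : (4 : 𝓞 k ⧸ v.asIdeal) = 2 * 2 := by norm_num
    rw [this]
    exact mul_ne_zero h2' h2'
  refine ⟨h2, ?_, ?_⟩
  · rw [fermat_map]
    refine ⟨1, C (-(ℓ : 𝓞 k ⧸ v.asIdeal)⁻¹) * X, ?_⟩
    have hd : derivative (C (4 : 𝓞 k ⧸ v.asIdeal) * X ^ ℓ + 1) =
        C 4 * (C (ℓ : 𝓞 k ⧸ v.asIdeal) * X ^ (ℓ - 1)) := by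
      simp [derivative_X_pow]
    rw [hd]
    have hX : (X : (𝓞 k ⧸ v.asIdeal)[X]) ^ ℓ = X * X ^ (ℓ - 1) := by
      rw [← pow_succ', Nat.sub_add_cancel hℓ.one_lt.le]
    have hC : C (-(ℓ : 𝓞 k ⧸ v.asIdeal)⁻¹) * C (ℓ : 𝓞 k ⧸ v.asIdeal) = C (-1) := by
      rw [← C_mul]
      congr 1
      rw [neg_mul, inv_mul_cancel₀ hl']
    calc 1 * (C 4 * X ^ ℓ + 1) + C (-(ℓ : 𝓞 k ⧸ v.asIdeal)⁻¹) * X *
          (C 4 * (C (ℓ : 𝓞 k ⧸ v.asIdeal) * X ^ (ℓ - 1)))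
        = C 4 * X ^ ℓ + 1 + (C (-(ℓ : 𝓞 k ⧸ v.asIdeal)⁻¹) * C (ℓ : 𝓞 k ⧸ v.asIdeal)) * C 4 *
            (X * X ^ (ℓ - 1)) := by ring
      _ = 1 := by
          rw [hC, ← hX]
          simp
  · rw [fermat_map, up_natDegree, fermat_natDegree]
    have h1 : (C (4 : 𝓞 k ⧸ v.asIdeal) * X ^ ℓ + 1) = C 4 * X ^ ℓ + C 1 := by simp
    rw [h1, natDegree_add_C, natDegree_C_mul_X_pow ℓ _ h4']

lemma fermatTrace_eq {ℓ : ℕ} (hℓ : ℓ.Prime) {v : HeightOneSpectrum (𝓞 k)}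
    (h : (2 * ℓ : 𝓞 k) ∉ v.asIdeal) :
    (fermatTrace ℓ v 1 : ℝ) = aV (up k (fermatPoly ℓ)) v * Real.sqrt (nrm v) := by
  unfold fermatTrace aV
  rw [if_pos (fermat_goodAt hℓ h), fermat_map,
    div_mul_cancel₀ _ (Real.sqrt_pos.mpr (nrm_pos v)).ne']

lemma abs_fermatTrace_le {ℓ : ℕ} (hℓ : ℓ.Prime) {g : ℕ} (hg : ℓ = 2 * g + 1)
    {v : HeightOneSpectrum (𝓞 k)} (h : (2 * ℓ : 𝓞 k) ∉ v.asIdeal) {n : ℕ} (hn : 0 < n) :
    |(fermatTrace ℓ v n : ℝ)| ≤ 2 * g * Real.sqrt (nrm v) ^ n := by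
  let _ := Ideal.Quotient.field v.asIdeal
  have hgood := fermat_goodAt hℓ h
  have h2 := hgood.2.2
  rw [fermat_map, up_natDegree, fermat_natDegree, hg] at h2
  have h1 := abs_traceH1_le (F := 𝓞 k ⧸ v.asIdeal) (ringChar_ne_two hgood.1) h2 hn
  rw [← nrm_eq_card] at h1
  unfold fermatTrace
  rw [hg]
  exact h1

section main

variable {ℓ : ℕ} {R : Finset (HeightOneSpectrum (𝓞 k))}
  {a b : HeightOneSpectrum (𝓞 k) → ℕ → ℂ} {B B₂ : ℝ}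
  {bad bad' : HeightOneSpectrum (𝓞 k) → Multiset ℂ}

theorem growth' (hℓ : ℓ.Prime) (hℓ2 : ℓ ≠ 2) (hR : ∀ v, (2 * ℓ : 𝓞 k) ∈ v.asIdeal → v ∈ R)
    (ha : ∀ v ∉ R, ∀ n, 0 < n → ‖a v n‖ ≤ B * Real.sqrt (Ideal.absNorm v.asIdeal) ^ n)
    (hb : ∀ v ∉ R, ∀ n, 0 < n → ‖b v n‖ ≤ B₂ * (Ideal.absNorm v.asIdeal : ℝ) ^ n)
    (hbad : ∀ v ∈ R, ∀ α ∈ bad v, ‖α‖ ≤ Ideal.absNorm v.asIdeal)
    (hbad' : ∀ v ∈ R, ∀ α ∈ bad' v, ‖α‖ ≤ Ideal.absNorm v.asIdeal) {ε : ℝ} (hε : 0 < ε) :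
    ∀ᶠ t : ℝ in 𝓝[>] 1, (Module.finrank k (CyclotomicField ℓ k) : ℝ) ^ 2 *
      ((Real.log ‖eulerL R (prodTrace ℓ a b) bad' ((t + 1 : ℝ) : ℂ)‖ -
        Real.log ‖eulerL R b bad ((t + 1 : ℝ) : ℂ)‖) / Lam t - 1) ^ 2 ≤
          ((ℓ : ℝ) - 1) * B ^ 2 + ε := by
  classical
  have : Fact ℓ.Prime := ⟨hℓ⟩
  have hl1 : (1 : ℝ) < ℓ := by exact_mod_cast hℓ.one_lt
  obtain ⟨g, hg⟩ := hℓ.odd_of_ne_two hℓ2
  have hgU : (up k (fermatPoly ℓ)).natDegree = 2 * g + 1 := by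
    rw [up_natDegree, fermat_natDegree, hg]
  have hR' : ∀ v, v ∉ R → (2 * ℓ : 𝓞 k) ∉ v.asIdeal := fun v hv hc => hv (hR v hc)
  set F := up k (fermatPoly ℓ) with hF
  let U : HeightOneSpectrum (𝓞 k) → ℝ := fun v =>
    if v ∈ R then 0 else (a v 1).re / Real.sqrt (nrm v)
  let u₁ : HeightOneSpectrum (𝓞 k) → ℝ := fun v => if v ∈ R then 0 else reTr b v
  have hUB : ∀ v, |U v| ≤ |B| := by
    intro v
    simp only [U]
    split_ifs with h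
    · rw [abs_zero]; exact abs_nonneg _
    · rw [abs_div, abs_of_pos (Real.sqrt_pos.mpr (nrm_pos v)),
        div_le_iff₀ (Real.sqrt_pos.mpr (nrm_pos v))]
      refine (Complex.abs_re_le_norm _).trans ((ha v h 1 one_pos).trans ?_)
      rw [pow_one]
      exact mul_le_mul_of_nonneg_right (le_abs_self B) (Real.sqrt_nonneg _)
  have hUb : Bdd U := ⟨|B|, hUB⟩
  have hu₁b : Bdd u₁ := by
    refine ⟨|B₂|, fun v => ?_⟩
    simp only [u₁]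
    split_ifs with h
    · rw [abs_zero]; exact abs_nonneg _
    · unfold reTr
      rw [abs_div, abs_of_pos (nrm_pos v), div_le_iff₀ (nrm_pos v)]
      refine (Complex.abs_re_le_norm _).trans ((hb v h 1 one_pos).trans ?_)
      rw [pow_one]
      exact mul_le_mul_of_nonneg_right (le_abs_self B₂) (nrm_pos v).le
  have hub : Bdd (fun v => U v * aV F v) := hUb.mul (aV_bdd hgU)
  have hu₂b : Bdd (fun v => u₁ v + (1 + U v * aV F v)) := hu₁b.add ((Bdd.const 1).add hub)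
  have hc₂ : ∀ v, v ∉ R → ∀ n, 0 < n → ‖prodTrace ℓ a b v n‖ ≤
      (|B₂| + 1 + |B| * (2 * g)) * nrm v ^ n := by
    intro v hv n hn
    have h1 := hb v hv n hn
    have h2 := ha v hv n hn
    have h3 := abs_fermatTrace_le hℓ hg (hR' v hv) hn
    have hs : Real.sqrt (nrm v) ^ n * Real.sqrt (nrm v) ^ n = nrm v ^ n := by
      rw [← mul_pow, Real.mul_self_sqrt (nrm_pos v).le]
    have hs0 : 0 ≤ Real.sqrt (nrm v) ^ n := pow_nonneg (Real.sqrt_nonneg _) _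
    unfold prodTrace
    refine (norm_add_le _ _).trans ?_
    refine (add_le_add (norm_add_le _ _) le_rfl).trans ?_
    rw [norm_mul, norm_pow, Complex.norm_natCast]
    have h4 : ‖((fermatTrace ℓ v n : ℤ) : ℂ)‖ = |(fermatTrace ℓ v n : ℝ)| := by
      rw [Complex.norm_intCast]
    rw [h4]
    have h5 : ‖b v n‖ ≤ |B₂| * nrm v ^ n :=
      h1.trans (mul_le_mul_of_nonneg_right (le_abs_self _) (pow_nonneg (nrm_pos v).le _))
    have h6 : ‖a v n‖ ≤ |B| * Real.sqrt (nrm v) ^ n :=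
      h2.trans (mul_le_mul_of_nonneg_right (le_abs_self _) hs0)
    have h7 : ‖a v n‖ * |(fermatTrace ℓ v n : ℝ)| ≤
        (|B| * Real.sqrt (nrm v) ^ n) * (2 * g * Real.sqrt (nrm v) ^ n) :=
      mul_le_mul h6 h3 (abs_nonneg _) (mul_nonneg (abs_nonneg _) hs0)
    have h8 : (|B| * Real.sqrt (nrm v) ^ n) * (2 * g * Real.sqrt (nrm v) ^ n) =
        |B| * (2 * g) * nrm v ^ n := by
      rw [← hs]; ring
    rw [h8] at h7
    have h9 : ((Ideal.absNorm v.asIdeal : ℝ)) ^ n = nrm v ^ n := rfl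
    rw [h9]
    nlinarith
  have hu₂ : ∀ v, v ∉ R → (fun v => u₁ v + (1 + U v * aV F v)) v = reTr (prodTrace ℓ a b) v := by
    intro v hv
    simp only [u₁, U, if_neg hv]
    unfold reTr prodTrace
    have h1 := fermatTrace_eq hℓ (hR' v hv)
    have h2 : (a v 1 * ((fermatTrace ℓ v 1 : ℤ) : ℂ)).re = (a v 1).re * (fermatTrace ℓ v 1 : ℝ) := by
      have : ((fermatTrace ℓ v 1 : ℤ) : ℂ) = (((fermatTrace ℓ v 1 : ℤ) : ℝ) : ℂ) := by push_cast; rfl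
      rw [this, Complex.re_mul_ofReal]
    have h3 : ((Ideal.absNorm v.asIdeal : ℂ) ^ 1).re = nrm v := by
      rw [pow_one, Complex.natCast_re]
      rfl
    rw [Complex.add_re, Complex.add_re, h2, h1, h3]
    have h4 : Real.sqrt (nrm v) * Real.sqrt (nrm v) = nrm v := Real.mul_self_sqrt (nrm_pos v).le
    have h5 : 0 < Real.sqrt (nrm v) := Real.sqrt_pos.mpr (nrm_pos v)
    have h6 : (a v 1).re / Real.sqrt (nrm v) * aV (up k (fermatPoly ℓ)) v =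
        (a v 1).re * (aV (up k (fermatPoly ℓ)) v * Real.sqrt (nrm v)) / nrm v := by
      rw [div_mul_eq_mul_div, div_eq_div_iff h5.ne' (nrm_pos v).ne']
      calc (a v 1).re * aV (up k (fermatPoly ℓ)) v * nrm v
          = (a v 1).re * aV (up k (fermatPoly ℓ)) v * (Real.sqrt (nrm v) * Real.sqrt (nrm v)) := by
            rw [h4]
        _ = _ := by ring
    rw [hF, h6]
    have := (nrm_pos v).ne'
    field_simp
    ring
  obtain ⟨C₁, hC₁⟩ := log_eulerL (R := R) (c := b) (D := |B₂|) (abs_nonneg _) (bad := bad) hbad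
    (fun v hv n hn => (hb v hv n hn).trans (mul_le_mul_of_nonneg_right (le_abs_self _)
      (pow_nonneg (nrm_pos v).le _))) u₁ hu₁b (fun v hv => by simp only [u₁, if_neg hv])
  obtain ⟨C₂, hC₂⟩ := log_eulerL (R := R) (c := prodTrace ℓ a b) (D := |B₂| + 1 + |B| * (2 * g))
    (by positivity) (bad := bad') hbad' hc₂ _ hu₂b hu₂
  have h0 : ∀ ε : ℝ, 0 < ε → ∀ᶠ t in 𝓝[>] (1 : ℝ),
      (Module.finrank k (CyclotomicField ℓ k) : ℝ) ^ 2 *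
        (wsum (fun v => U v * aV F v) t / Lam t) ^ 2 ≤ ((ℓ : ℝ) - 1) * B ^ 2 + ε := by
    intro ε hε
    have := sharp hℓ hℓ2 (U := U) (B := |B|) hUB hε
    simp only [sq_abs] at this
    exact this
  have hd0 : 0 < (Module.finrank k (CyclotomicField ℓ k) : ℝ) ^ 2 := by
    have : NeZero ℓ := ⟨hℓ.ne_zero⟩
    have : 0 < Module.finrank k (CyclotomicField ℓ k) := Module.finrank_pos
    positivity
  refine limsup_perturb hd0 (mul_nonneg (by linarith) (sq_nonneg B)) h0 ?_ hε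
  have h2 : Tendsto (fun t => wsum (fun _ : HeightOneSpectrum (𝓞 k) => (1 : ℝ)) t / Lam t)
    (𝓝[>] 1) (𝓝 1) := hasMean_one
  have h3 := ((tendsto_zero_of_bounded hC₂).sub (tendsto_zero_of_bounded hC₁)).add (h2.sub_const 1)
  rw [sub_self, sub_self, add_zero] at h3
  refine h3.congr' ?_
  filter_upwards [self_mem_nhdsWithin] with t ht
  have ht' : 1 < t := ht
  have h4 : wsum (fun v => u₁ v + (1 + U v * aV F v)) t = wsum u₁ t +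
      (wsum (fun _ : HeightOneSpectrum (𝓞 k) => (1 : ℝ)) t + wsum (fun v => U v * aV F v) t) := by
    rw [wsum_add hu₁b ((Bdd.const 1).add hub) ht', wsum_add (Bdd.const 1) hub ht']
  rw [h4]
  ring

theorem growth (hℓ : ℓ.Prime) (hℓ2 : ℓ ≠ 2) (hR : ∀ v, (2 * ℓ : 𝓞 k) ∈ v.asIdeal → v ∈ R)
    (ha : ∀ v ∉ R, ∀ n, 0 < n → ‖a v n‖ ≤ B * Real.sqrt (Ideal.absNorm v.asIdeal) ^ n)
    (hb : ∀ v ∉ R, ∀ n, 0 < n → ‖b v n‖ ≤ B₂ * (Ideal.absNorm v.asIdeal : ℝ) ^ n)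
    (hbad : ∀ v ∈ R, ∀ α ∈ bad v, ‖α‖ ≤ Ideal.absNorm v.asIdeal)
    (hbad' : ∀ v ∈ R, ∀ α ∈ bad' v, ‖α‖ ≤ Ideal.absNorm v.asIdeal) {ε : ℝ} (hε : 0 < ε) :
    ∀ᶠ s : ℝ in 𝓝[>] 2, (Module.finrank k (CyclotomicField ℓ k) : ℝ) ^ 2 *
      ((Real.log ‖eulerL R (prodTrace ℓ a b) bad' (s : ℂ)‖ -
        Real.log ‖eulerL R b bad (s : ℂ)‖) / Real.log (1 / (s - 2)) - 1) ^ 2 ≤
          ((ℓ : ℝ) - 1) * B ^ 2 + ε := by
  have h1 := growth' hℓ hℓ2 hR ha hb hbad hbad' hε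
  filter_upwards [Pool.Agent.H8.TW.tendsto_sub_one.eventually h1] with s hs
  have e1 : (s - 1 : ℝ) + 1 = s := by ring
  have e2 : Lam (s - 1) = Real.log (1 / (s - 2)) := by
    unfold Lam
    rw [show s - 1 - 1 = s - 2 by ring]
  rw [e1, e2] at hs
  exact hs

theorem pole (hℓ : ℓ.Prime) (hℓ2 : ℓ ≠ 2) (hR : ∀ v, (2 * ℓ : 𝓞 k) ∈ v.asIdeal → v ∈ R)
    (ha : ∀ v ∉ R, ∀ n, 0 < n → ‖a v n‖ ≤ B * Real.sqrt (Ideal.absNorm v.asIdeal) ^ n)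
    (hb : ∀ v ∉ R, ∀ n, 0 < n → ‖b v n‖ ≤ B₂ * (Ideal.absNorm v.asIdeal : ℝ) ^ n)
    (hbad : ∀ v ∈ R, ∀ α ∈ bad v, ‖α‖ ≤ Ideal.absNorm v.asIdeal)
    (hbad' : ∀ v ∈ R, ∀ α ∈ bad' v, ‖α‖ ≤ Ideal.absNorm v.asIdeal) {ρ r : ℤ}
    (hρ : HasPole (eulerL R b bad) 2 ρ) (hr : HasPole (eulerL R (prodTrace ℓ a b) bad') 2 r) :
    (Module.finrank k (CyclotomicField ℓ k) : ℝ) ^ 2 * ((r : ℝ) - ρ - 1) ^ 2 ≤
        ((ℓ : ℝ) - 1) * B ^ 2 ∧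
      (((ℓ : ℝ) - 1) * B ^ 2 < (Module.finrank k (CyclotomicField ℓ k) : ℝ) ^ 2 → r = ρ + 1) := by
  have h1 : Tendsto (fun s : ℝ => (Module.finrank k (CyclotomicField ℓ k) : ℝ) ^ 2 *
      ((Real.log ‖eulerL R (prodTrace ℓ a b) bad' (s : ℂ)‖ -
        Real.log ‖eulerL R b bad (s : ℂ)‖) / Real.log (1 / (s - 2)) - 1) ^ 2) (𝓝[>] 2)
      (𝓝 ((Module.finrank k (CyclotomicField ℓ k) : ℝ) ^ 2 * ((r : ℝ) - ρ - 1) ^ 2)) := by
    have h2 := (Pool.Agent.H8.TW.tendsto_of_hasPole hr).sub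
      (Pool.Agent.H8.TW.tendsto_of_hasPole hρ)
    have h3 := ((h2.sub_const 1).pow 2).const_mul
      ((Module.finrank k (CyclotomicField ℓ k) : ℝ) ^ 2)
    refine h3.congr fun s => ?_
    rw [sub_div]
  have h4 : ∀ ε : ℝ, 0 < ε → (Module.finrank k (CyclotomicField ℓ k) : ℝ) ^ 2 *
      ((r : ℝ) - ρ - 1) ^ 2 ≤ ((ℓ : ℝ) - 1) * B ^ 2 + ε := fun ε hε =>
    le_of_tendsto h1 (growth hℓ hℓ2 hR ha hb hbad hbad' hε)
  have h5 := le_of_forall_pos_le_add h4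
  refine ⟨h5, fun hlt => ?_⟩
  by_contra hne
  have h6 : (r - ρ - 1 : ℤ) ≠ 0 := by omega
  have h7 : (1 : ℤ) ≤ (r - ρ - 1) ^ 2 := by
    have := sq_pos_of_ne_zero h6
    omega
  have h8 : (1 : ℝ) ≤ ((r : ℝ) - ρ - 1) ^ 2 := by exact_mod_cast h7
  have h9 : 0 ≤ (Module.finrank k (CyclotomicField ℓ k) : ℝ) ^ 2 := sq_nonneg _
  nlinarith

end main

section hyper

variable {ℓ : ℕ} {F : (𝓞 k)[X]} {g : ℕ} {bad : HeightOneSpectrum (𝓞 k) → Multiset ℂ}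

theorem hyper_growth (hℓ : ℓ.Prime) (hℓ2 : ℓ ≠ 2) (hF : F.natDegree = 2 * g + 1)
    (hsF : (F.map (algebraMap (𝓞 k) k)).Separable)
    (hbad : ∀ v, ∀ α ∈ bad v, ‖α‖ ≤ Ideal.absNorm v.asIdeal) {ε : ℝ} (hε : 0 < ε) :
    ∀ᶠ s : ℝ in 𝓝[>] 2, (Module.finrank k (CyclotomicField ℓ k) : ℝ) ^ 2 *
      (Real.log ‖L2 F (up k (fermatPoly ℓ)) bad (s : ℂ)‖ / Real.log (1 / (s - 2)) - 2) ^ 2 ≤
        ((ℓ : ℝ) - 1) * (2 * g) ^ 2 + ε := by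
  have : Fact ℓ.Prime := ⟨hℓ⟩
  have hl1 : (1 : ℝ) < ℓ := by exact_mod_cast hℓ.one_lt
  obtain ⟨g', hg'⟩ := hℓ.odd_of_ne_two hℓ2
  have hgU : (up k (fermatPoly ℓ)).natDegree = 2 * g' + 1 := by
    rw [up_natDegree, fermat_natDegree, hg']
  have hsU := up_separable (k := k) (fermat_separable hℓ)
  have hd0 : 0 < (Module.finrank k (CyclotomicField ℓ k) : ℝ) ^ 2 := by
    have : NeZero ℓ := ⟨hℓ.ne_zero⟩
    have : 0 < Module.finrank k (CyclotomicField ℓ k) := Module.finrank_pos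
    positivity
  have h1 : ∀ᶠ t : ℝ in 𝓝[>] 1, (Module.finrank k (CyclotomicField ℓ k) : ℝ) ^ 2 *
      (Real.log ‖L2 F (up k (fermatPoly ℓ)) bad ((t + 1 : ℝ) : ℂ)‖ / Lam t - 2) ^ 2 ≤
        ((ℓ : ℝ) - 1) * (2 * g) ^ 2 + ε := by
    refine limsup_perturb hd0 (mul_nonneg (by linarith) (sq_nonneg _))
      (y := fun t => wsum (fun v => aV F v * aV (up k (fermatPoly ℓ)) v) t / Lam t) ?_
      (log_growth hF hgU hsF hsU hbad) hε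
    intro δ hδ
    exact sharp hℓ hℓ2 (abs_aV_le hF) hδ
  filter_upwards [Pool.Agent.H8.TW.tendsto_sub_one.eventually h1] with s hs
  have e1 : (s - 1 : ℝ) + 1 = s := by ring
  have e2 : Lam (s - 1) = Real.log (1 / (s - 2)) := by
    unfold Lam
    rw [show s - 1 - 1 = s - 2 by ring]
  rw [e1, e2] at hs
  exact hs

theorem hyper_pole (hℓ : ℓ.Prime) (hℓ2 : ℓ ≠ 2) (hF : F.natDegree = 2 * g + 1)
    (hsF : (F.map (algebraMap (𝓞 k) k)).Separable)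
    (hbad : ∀ v, ∀ α ∈ bad v, ‖α‖ ≤ Ideal.absNorm v.asIdeal) {r : ℤ}
    (hr : HasPole (L2 F (up k (fermatPoly ℓ)) bad) 2 r) :
    (Module.finrank k (CyclotomicField ℓ k) : ℤ) ^ 2 * (r - 2) ^ 2 ≤
        ((ℓ : ℤ) - 1) * (2 * g) ^ 2 ∧
      (((ℓ : ℤ) - 1) * (2 * g) ^ 2 < (Module.finrank k (CyclotomicField ℓ k) : ℤ) ^ 2 → r = 2) := by
  have h1 : Tendsto (fun s : ℝ => (Module.finrank k (CyclotomicField ℓ k) : ℝ) ^ 2 *
      (Real.log ‖L2 F (up k (fermatPoly ℓ)) bad (s : ℂ)‖ / Real.log (1 / (s - 2)) - 2) ^ 2) (𝓝[>] 2)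
      (𝓝 ((Module.finrank k (CyclotomicField ℓ k) : ℝ) ^ 2 * ((r : ℝ) - 2) ^ 2)) :=
    (((Pool.Agent.H8.TW.tendsto_of_hasPole hr).sub_const 2).pow 2).const_mul _
  have h4 : ∀ ε : ℝ, 0 < ε → (Module.finrank k (CyclotomicField ℓ k) : ℝ) ^ 2 *
      ((r : ℝ) - 2) ^ 2 ≤ ((ℓ : ℝ) - 1) * (2 * g) ^ 2 + ε := fun ε hε =>
    le_of_tendsto h1 (hyper_growth hℓ hℓ2 hF hsF hbad hε)
  have h5 := le_of_forall_pos_le_add h4
  have h6 : (Module.finrank k (CyclotomicField ℓ k) : ℤ) ^ 2 * (r - 2) ^ 2 ≤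
      ((ℓ : ℤ) - 1) * (2 * g) ^ 2 := by
    exact_mod_cast h5
  refine ⟨h6, fun hlt => ?_⟩
  by_contra hne
  have h7 : (r - 2 : ℤ) ≠ 0 := by omega
  have h8 : (1 : ℤ) ≤ (r - 2) ^ 2 := by
    have := sq_pos_of_ne_zero h7
    omega
  have h9 : 0 ≤ (Module.finrank k (CyclotomicField ℓ k) : ℤ) ^ 2 := sq_nonneg _
  nlinarith

end hyper

end Pool.Agent.H16.HK
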