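import Pool.Agent.H16.HK.Cone
import Pool.Agent.H16.HK.Diff

/-!
# Job HK-GBasic: continuity, size and integrability of the test function `G`

`n = finrank ℚ K`, `N = mixedEmbedding.norm`, `hb.supp` gives `R`.
* `G_ne_zero`: `G b m t x ≠ 0` implies `N x > 1/2` (`cut` vanishes for `y ≤ 1/2`) and `b (logMap x) ≠ 0`, hence `‖logMap x‖ ≤ R`.
* `G_continuous`: at `x` with `N x = 0` the function vanishes in the neighbourhood `N < 1/2` (`N` is continuous). At `x` with `N x ≠ 0` all
  `|x|_w ≠ 0` (`norm_ne_zero_iff`) and every factor is continuous at `x`: `log`, `rpow`, `zpow` of a nonzero number, `b` (Lipschitz).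
* `G_bound`: `‖G‖ ≤ N x ^ (-t)` (`cut, b, ‖Phi‖ ≤ 1`); where `G ≠ 0`: `N x ≥ (c ‖x‖) ^ n` (`cone`, `pow_le_norm`), `1/2 < N x ≤ ‖x‖ ^ n` gives
  `‖x‖ ≥ 1/2` (`n ≥ 1`), `1 + ‖x‖ ≤ 3 ‖x‖`; so `‖G‖ ≤ (c/3) ^ (-n t) (1 + ‖x‖) ^ (-n t)`, and `(c/3) ^ (-n t) ≤ (c/3) ^ (-2 n)` as `c/3 ≤ 1`.
* `G_integrable`: continuous, bounded by `C (1 + ‖x‖) ^ (-n t)` with `n t > n = finrank ℝ (mixedSpace K)` (`mixedEmbedding.finrank`):
  `integrable_one_add_norm`.
-/

open NumberField NumberField.InfinitePlace NumberField.mixedEmbedding NumberField.Units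
open NumberField.Units.dirichletUnitTheorem MeasureTheory Module
open scoped Classical

namespace Pool.Agent.H16.HK

variable {K : Type*} [Field K] [NumberField K]

theorem G_ne_zero {b : logSpace K → ℝ} {m : {w : InfinitePlace K // IsComplex w} → ℤ} {t : ℝ}
    {x : mixedSpace K} (h : G b m t x ≠ 0) :
    1 / 2 < mixedEmbedding.norm x ∧ b (logMap x) ≠ 0 := by
  unfold G at h
  have h1 := left_ne_zero_of_mul h
  have h2 : cut (mixedEmbedding.norm x) * b (logMap x) * mixedEmbedding.norm x ^ (-t) ≠ 0 := by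
    exact_mod_cast h1
  have h3 := left_ne_zero_of_mul h2
  refine ⟨?_, right_ne_zero_of_mul h3⟩
  have h4 := left_ne_zero_of_mul h3
  by_contra hcon
  push Not at hcon
  apply h4
  unfold cut
  rw [max_eq_left (by linarith), min_eq_right zero_le_one]

theorem gb_cut_nonneg (y : ℝ) : 0 ≤ cut y := le_min zero_le_one (le_max_left _ _)

theorem gb_cut_le (y : ℝ) : cut y ≤ 1 := min_le_left _ _

theorem gb_cut_continuous : Continuous cut := by
  unfold cut
  fun_prop

theorem gb_b_continuous {b : logSpace K → ℝ} (hb : IsBump b) : Continuous b := by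
  obtain ⟨C, hC, h⟩ := hb.lip
  have : LipschitzWith ⟨C, hC⟩ b := by
    apply LipschitzWith.of_dist_le_mul
    intro y z
    rw [Real.dist_eq, dist_eq_norm]
    exact h y z
  exact this.continuous

theorem gb_logMap_continuousAt {x : mixedSpace K} (hx : mixedEmbedding.norm x ≠ 0) :
    ContinuousAt (logMap : mixedSpace K → logSpace K) x := by
  rw [continuousAt_pi]
  intro w
  have h1 : (fun y : mixedSpace K => logMap y w) = fun y => mult w.val *
      (Real.log (normAtPlace w.val y) -
        Real.log (mixedEmbedding.norm y) * (finrank ℚ K : ℝ)⁻¹) := by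
    funext y
    exact logMap_apply y w
  rw [h1]
  have h2 := mixedEmbedding.norm_ne_zero_iff.1 hx w.val
  have h3 : ContinuousAt (fun y : mixedSpace K => Real.log (normAtPlace w.val y)) x :=
    (continuous_normAtPlace w.val).continuousAt.log h2
  have h4 : ContinuousAt (fun y : mixedSpace K => Real.log (mixedEmbedding.norm y)) x :=
    (mixedEmbedding.continuous_norm K).continuousAt.log hx
  exact continuousAt_const.mul (h3.sub (h4.mul continuousAt_const))

theorem gb_Phi_continuousAt (m : {w : InfinitePlace K // IsComplex w} → ℤ) {x : mixedSpace K}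
    (hx : mixedEmbedding.norm x ≠ 0) : ContinuousAt (Phi m) x := by
  have h1 : ∀ w : {w : InfinitePlace K // IsComplex w},
      ContinuousAt (fun y : mixedSpace K => uni (y.2 w) ^ m w) x := by
    intro w
    have h2 := mixedEmbedding.norm_ne_zero_iff.1 hx w.val
    rw [normAtPlace_apply_of_isComplex w.2] at h2
    have h3 : x.2 w ≠ 0 := fun h => h2 (by rw [← norm_zero (E := ℂ)]; exact congrArg _ h)
    have h4 : uni (x.2 w) ≠ 0 := by
      intro h5
      have := uni_norm h3
      rw [h5, norm_zero] at this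
      exact zero_ne_one this
    have h6 : ContinuousAt (fun y : mixedSpace K => y.2 w) x :=
      ((continuous_apply w).comp continuous_snd).continuousAt
    have h7 : ContinuousAt (fun y : mixedSpace K => uni (y.2 w)) x := by
      unfold uni
      refine h6.div ?_ (by simpa using h3)
      exact Complex.continuous_ofReal.continuousAt.comp h6.norm
    exact ContinuousAt.zpow₀ h7 (m w) (Or.inl h4)
  unfold Phi
  exact tendsto_finsetProd _ (fun w _ => h1 w)

theorem G_continuous {b : logSpace K → ℝ} (hb : IsBump b)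
    (m : {w : InfinitePlace K // IsComplex w} → ℤ) (t : ℝ) : Continuous (G b m t) := by
  rw [continuous_iff_continuousAt]
  intro x
  by_cases hx : mixedEmbedding.norm x = 0
  · have h1 : ∀ᶠ y in nhds x, mixedEmbedding.norm y < 1 / 2 := by
      apply (mixedEmbedding.continuous_norm K).continuousAt.eventually_lt continuousAt_const
      rw [hx]; norm_num
    have h2 : G b m t =ᶠ[nhds x] fun _ => 0 := by
      filter_upwards [h1] with y hy
      by_contra hcon
      have := (G_ne_zero hcon).1
      linarith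
    exact continuousAt_const.congr h2.symm
  · have h1 := (gb_b_continuous hb).continuousAt.comp (gb_logMap_continuousAt hx)
    have h2 : ContinuousAt (fun y : mixedSpace K => cut (mixedEmbedding.norm y)) x :=
      (gb_cut_continuous.comp (mixedEmbedding.continuous_norm K)).continuousAt
    have h3 : ContinuousAt (fun y : mixedSpace K => mixedEmbedding.norm y ^ (-t)) x :=
      (mixedEmbedding.continuous_norm K).continuousAt.rpow_const (Or.inl hx)
    have h4 := gb_Phi_continuousAt m hx
    unfold G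
    exact (Complex.continuous_ofReal.continuousAt.comp ((h2.mul h1).mul h3)).mul h4

theorem G_bound {b : logSpace K → ℝ} (hb : IsBump b)
    (m : {w : InfinitePlace K // IsComplex w} → ℤ) :
    ∃ C : ℝ, 0 ≤ C ∧ ∀ t : ℝ, 1 ≤ t → t ≤ 2 → ∀ x : mixedSpace K,
      ‖G b m t x‖ ≤ C * (1 + ‖x‖) ^ (-((finrank ℚ K : ℝ) * t)) := by
  obtain ⟨R0, hR0, hsupp⟩ := hb.supp
  obtain ⟨c, hc0, hc1, hcone⟩ := cone K R0
  have hn : 0 < finrank ℚ K := finrank_pos
  have hn1 : (1 : ℝ) ≤ finrank ℚ K := by exact_mod_cast hn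
  refine ⟨(c / 3) ^ (-((finrank ℚ K : ℝ) * 2)), by positivity, fun t ht1 ht2 x => ?_⟩
  by_cases hG : G b m t x = 0
  · rw [hG, norm_zero]
    positivity
  obtain ⟨h1, h2⟩ := G_ne_zero hG
  have hN : mixedEmbedding.norm x ≠ 0 := by
    intro h; rw [h] at h1; norm_num at h1
  have hN0 : 0 < mixedEmbedding.norm x := by linarith
  have h3 := hcone x hN (hsupp _ h2)
  have h4 := pow_le_norm hc0.le h3
  have h5 := norm_le_pow x
  have hx0 : 0 ≤ ‖x‖ := norm_nonneg x
  have hx : 1 / 2 ≤ ‖x‖ := by
    by_contra hcon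
    push Not at hcon
    have h6 : ‖x‖ ^ finrank ℚ K ≤ ‖x‖ ^ 1 := pow_le_pow_of_le_one hx0 (by linarith) hn
    rw [pow_one] at h6
    linarith
  have hx3 : c / 3 * (1 + ‖x‖) ≤ c * ‖x‖ := by nlinarith
  have hpos : 0 < c / 3 * (1 + ‖x‖) := by positivity
  have h6 : ‖G b m t x‖ ≤ mixedEmbedding.norm x ^ (-t) := by
    unfold G
    rw [norm_mul, Complex.norm_real, Real.norm_eq_abs]
    have h7 := Phi_norm_le m x
    have h8 : |cut (mixedEmbedding.norm x) * b (logMap x) * mixedEmbedding.norm x ^ (-t)| ≤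
        mixedEmbedding.norm x ^ (-t) := by
      rw [abs_mul, abs_mul, abs_of_nonneg (gb_cut_nonneg _), abs_of_nonneg (hb.nonneg _),
        abs_of_nonneg (Real.rpow_nonneg hN0.le _)]
      apply mul_le_of_le_one_left (Real.rpow_nonneg hN0.le _)
      exact mul_le_one₀ (gb_cut_le _) (hb.nonneg _) (hb.le_one _)
    calc _ ≤ mixedEmbedding.norm x ^ (-t) * 1 :=
          mul_le_mul h8 h7 (norm_nonneg _) (Real.rpow_nonneg hN0.le _)
      _ = _ := mul_one _
  refine h6.trans ?_
  calc mixedEmbedding.norm x ^ (-t) ≤ ((c * ‖x‖) ^ finrank ℚ K) ^ (-t) := by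
        apply Real.rpow_le_rpow_of_nonpos _ h4 (by linarith)
        have : 0 < ‖x‖ := by linarith
        positivity
    _ ≤ ((c / 3 * (1 + ‖x‖)) ^ finrank ℚ K) ^ (-t) := by
        apply Real.rpow_le_rpow_of_nonpos (by positivity) _ (by linarith)
        exact pow_le_pow_left₀ hpos.le hx3 _
    _ = (c / 3 * (1 + ‖x‖)) ^ (-((finrank ℚ K : ℝ) * t)) := by
        rw [← Real.rpow_natCast, ← Real.rpow_mul hpos.le]
        congr 1
        ring
    _ = (c / 3) ^ (-((finrank ℚ K : ℝ) * t)) * (1 + ‖x‖) ^ (-((finrank ℚ K : ℝ) * t)) :=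
        Real.mul_rpow (by positivity) (by positivity)
    _ ≤ (c / 3) ^ (-((finrank ℚ K : ℝ) * 2)) * (1 + ‖x‖) ^ (-((finrank ℚ K : ℝ) * t)) := by
        apply mul_le_mul_of_nonneg_right _ (by positivity)
        apply Real.rpow_le_rpow_of_exponent_ge (by positivity) (by linarith)
        nlinarith

theorem G_integrable {b : logSpace K → ℝ} (hb : IsBump b)
    (m : {w : InfinitePlace K // IsComplex w} → ℤ) {t : ℝ} (ht : 1 < t) (ht2 : t ≤ 2) :
    Integrable (G b m t) volume := by
  obtain ⟨C, hC, h⟩ := G_bound hb m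
  have hn : (1 : ℝ) ≤ finrank ℚ K := by exact_mod_cast (finrank_pos : 0 < finrank ℚ K)
  have hfr : finrank ℝ (mixedSpace K) = finrank ℚ K := mixedEmbedding.finrank K
  have h1 : Integrable (fun x : mixedSpace K => (1 + ‖x‖) ^ (-((finrank ℚ K : ℝ) * t))) volume := by
    apply integrable_one_add_norm
    rw [hfr]
    nlinarith
  refine (h1.const_mul C).mono' (G_continuous hb m t).aestronglyMeasurable ?_
  exact Filter.Eventually.of_forall (fun x => h t ht.le ht2 x)

end Pool.Agent.H16.HK
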