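import Pool.Agent.H16.HK.GBasic

/-!
# Job HK-GDiff: the variation of the test function `G`

`n = finrank ℚ K`, `N = mixedEmbedding.norm`, `hb.supp` gives `R₀`, `cone K R₀` gives `c`. Let `R₁` be so large that `R₁ ≥ 2`, `R₁ ≥ 2 R + 2`,
`R ≤ (c / 2) (R₁ / 2)`, `(c/2) (R₁/2) ≥ 1`.
* `‖x‖ ≤ R₁`: `‖G x - G y‖ ≤ 2 C` (`G_bound`, `(1 + ‖·‖) ^ (-n t) ≤ 1`), and `(1 + ‖x‖) ^ (-(n+1)) ≥ (1 + R₁) ^ (-(n+1))`.
* `‖x‖ > R₁`: if `G x = G y = 0` nothing to prove. Otherwise let `z ∈ {x, y}` with `G z ≠ 0` and `z'` the other point: `‖z‖ ≥ ‖x‖ - R ≥ ‖x‖ / 2 ≥ 1`,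
  `‖z - z'‖ ≤ R ≤ (c/2) ‖z‖`, and `|z|_w ≥ c ‖z‖` for all `w` (`G_ne_zero`, `hb.supp`, `cone`). Then `|z'|_w ≥ (c/2) ‖z‖ ≥ 1` (see `Diff.lean`:
  `|z - z'|_w ≤ ‖z - z'‖`), so `N z ≥ 1`, `N z' ≥ 1` and `cut = 1` at both points. `G = b(log) · Phi · N ^ (-t)` there, with `b, |Phi| ≤ 1`,
  `N z ^ (-t) ≤ (c ‖z‖) ^ (-n t) ≤ c ^ (-2 n) ‖z‖ ^ (-n)`. The differences of the three factors are bounded by
  `hb.lip` + `logMap_diff`, `Phi_diff`, `norm_rpow_diff`. Total: `≤ C' ‖z‖ ^ (-n) · R / ‖z‖`, and `‖z‖ ≥ ‖x‖ / 2 ≥ (1 + ‖x‖) / 4`.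
  (`a b c - a' b' c' = (a - a') b c + a' (b - b') c + a' b' (c - c')`: choose the order so that `c = N z ^ (-t)`.)
-/

open NumberField NumberField.InfinitePlace NumberField.mixedEmbedding NumberField.Units
open NumberField.Units.dirichletUnitTheorem MeasureTheory Module
open scoped Classical

namespace Pool.Agent.H16.HK

variable {K : Type*} [Field K] [NumberField K]

theorem gdiff_cut_eq {y : ℝ} (hy : 1 ≤ y) : cut y = 1 := by
  unfold cut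
  rw [max_eq_right (by linarith), min_eq_left (by linarith)]

theorem gdiff_one_le_norm {z : mixedSpace K} (h : ∀ w, 1 ≤ normAtPlace w z) :
    1 ≤ mixedEmbedding.norm z := by
  rw [mixedEmbedding.norm_apply]
  calc (1 : ℝ) = ∏ w : InfinitePlace K, (1 : ℝ) ^ (mult w) := by simp
    _ ≤ _ := Finset.prod_le_prod (fun i _ => by positivity) (fun i _ => by
        apply pow_le_pow_left₀ (by norm_num) (h i))

/-- the core estimate in the cone -/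
theorem gdiff_core {b : logSpace K → ℝ} (hb : IsBump b)
    (m : {w : InfinitePlace K // IsComplex w} → ℤ) :
    ∃ c C : ℝ, 0 < c ∧ 0 ≤ C ∧ ∀ t : ℝ, 1 ≤ t → t ≤ 2 → ∀ z z' : mixedSpace K,
      G b m t z ≠ 0 → 1 ≤ ‖z‖ → 1 ≤ c / 2 * ‖z‖ → ‖z - z'‖ ≤ c / 2 * ‖z‖ →
      ‖G b m t z - G b m t z'‖ ≤ C * ((‖z‖ ^ finrank ℚ K)⁻¹ * (‖z - z'‖ / ‖z‖)) := by
  obtain ⟨R₀, hR₀, hsupp⟩ := hb.supp
  obtain ⟨L, hL, hlip⟩ := hb.lip
  obtain ⟨c, hc, hc1, hcone⟩ := cone K R₀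
  obtain ⟨C2, hC2, hPhi⟩ := Phi_diff m hc
  obtain ⟨C3, hC3, hlog⟩ := logMap_diff K hc
  obtain ⟨C4, hC4, hN⟩ := norm_rpow_diff K hc
  refine ⟨c, (L * C3 + C2) * (c ^ finrank ℚ K)⁻¹ + C4, hc, by positivity, ?_⟩
  intro t ht1 ht2 z z' hz hz1 hcz hzz'
  obtain ⟨hNz0, hbz⟩ := G_ne_zero hz
  have hcw : ∀ w, c * ‖z‖ ≤ normAtPlace w z :=
    hcone z (by linarith) (hsupp _ hbz)
  have hz0 : z ≠ 0 := by
    rintro rfl
    rw [norm_zero] at hz1
    norm_num at hz1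
  have hzpos : 0 < ‖z‖ := by linarith
  have hw' : ∀ w, 1 ≤ normAtPlace w z' := by
    intro w
    have h1 := normAtPlace_add_le w (z - z') z'
    rw [sub_add_cancel] at h1
    have h2 := normAtPlace_le_norm (z - z') w
    have h3 := hcw w
    nlinarith
  have hw : ∀ w, 1 ≤ normAtPlace w z := by
    intro w
    have h3 := hcw w
    nlinarith
  have hNz := gdiff_one_le_norm hw
  have hNz' := gdiff_one_le_norm hw'
  have hpow := pow_le_norm hc.le hcw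
  have hNt : mixedEmbedding.norm z ^ (-t) ≤ (c ^ finrank ℚ K)⁻¹ * (‖z‖ ^ finrank ℚ K)⁻¹ := by
    calc mixedEmbedding.norm z ^ (-t) ≤ mixedEmbedding.norm z ^ (-1 : ℝ) :=
          Real.rpow_le_rpow_of_exponent_le hNz (by linarith)
      _ = (mixedEmbedding.norm z)⁻¹ := Real.rpow_neg_one _
      _ ≤ ((c * ‖z‖) ^ finrank ℚ K)⁻¹ := by
          apply inv_anti₀ (by positivity) hpow
      _ = _ := by rw [mul_pow, mul_inv]
  have hNt0 : 0 ≤ mixedEmbedding.norm z ^ (-t) := Real.rpow_nonneg (by linarith) _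
  set δ := ‖z - z'‖ / ‖z‖ with hδ
  have hδ0 : 0 ≤ δ := by positivity
  set V := (‖z‖ ^ finrank ℚ K)⁻¹ with hV
  have hV0 : 0 ≤ V := by positivity
  have e1 : G b m t z - G b m t z' =
      ((b (logMap z) - b (logMap z') : ℝ) : ℂ) * Phi m z * ((mixedEmbedding.norm z ^ (-t) : ℝ) : ℂ)
      + ((b (logMap z') : ℝ) : ℂ) * (Phi m z - Phi m z') *
        ((mixedEmbedding.norm z ^ (-t) : ℝ) : ℂ)
      + ((b (logMap z') : ℝ) : ℂ) * Phi m z' *
        ((mixedEmbedding.norm z ^ (-t) - mixedEmbedding.norm z' ^ (-t) : ℝ) : ℂ) := by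
    unfold G
    rw [gdiff_cut_eq hNz, gdiff_cut_eq hNz']
    push_cast
    ring
  have hb' : ‖((b (logMap z') : ℝ) : ℂ)‖ ≤ 1 := by
    rw [Complex.norm_real, Real.norm_eq_abs, abs_of_nonneg (hb.nonneg _)]
    exact hb.le_one _
  have hN1 : ‖((mixedEmbedding.norm z ^ (-t) : ℝ) : ℂ)‖ = mixedEmbedding.norm z ^ (-t) := by
    rw [Complex.norm_real, Real.norm_eq_abs, abs_of_nonneg hNt0]
  have t1 : ‖((b (logMap z) - b (logMap z') : ℝ) : ℂ) * Phi m z *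
      ((mixedEmbedding.norm z ^ (-t) : ℝ) : ℂ)‖ ≤
      (L * (C3 * δ)) * ((c ^ finrank ℚ K)⁻¹ * V) := by
    rw [norm_mul, norm_mul, hN1, Complex.norm_real, Real.norm_eq_abs]
    have h1 : |b (logMap z) - b (logMap z')| ≤ L * (C3 * δ) :=
      (hlip _ _).trans (mul_le_mul_of_nonneg_left (hlog z z' hz0 hcw hzz') hL)
    have h2 : |b (logMap z) - b (logMap z')| * ‖Phi m z‖ ≤ L * (C3 * δ) := by
      calc _ ≤ |b (logMap z) - b (logMap z')| * 1 :=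
            mul_le_mul_of_nonneg_left (Phi_norm_le m z) (abs_nonneg _)
        _ ≤ _ := by rw [mul_one]; exact h1
    exact mul_le_mul h2 hNt hNt0 (by positivity)
  have t2 : ‖((b (logMap z') : ℝ) : ℂ) * (Phi m z - Phi m z') *
        ((mixedEmbedding.norm z ^ (-t) : ℝ) : ℂ)‖ ≤
      (C2 * δ) * ((c ^ finrank ℚ K)⁻¹ * V) := by
    rw [norm_mul, norm_mul, hN1]
    have h1 := hPhi z z' hz0 hcw hzz'
    have h2 : ‖((b (logMap z') : ℝ) : ℂ)‖ * ‖Phi m z - Phi m z'‖ ≤ C2 * δ := by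
      calc _ ≤ 1 * ‖Phi m z - Phi m z'‖ :=
            mul_le_mul_of_nonneg_right hb' (norm_nonneg _)
        _ ≤ _ := by rw [one_mul]; exact h1
    exact mul_le_mul h2 hNt hNt0 (by positivity)
  have t3 : ‖((b (logMap z') : ℝ) : ℂ) * Phi m z' *
        ((mixedEmbedding.norm z ^ (-t) - mixedEmbedding.norm z' ^ (-t) : ℝ) : ℂ)‖ ≤
      C4 * V * δ := by
    rw [norm_mul, norm_mul, Complex.norm_real (mixedEmbedding.norm z ^ (-t) - _),
      Real.norm_eq_abs]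
    have h1 := hN z z' hz1 hcw hzz' t ht1 ht2
    rw [Real.rpow_neg hzpos.le, Real.rpow_natCast] at h1
    have h2 : ‖((b (logMap z') : ℝ) : ℂ)‖ * ‖Phi m z'‖ ≤ 1 :=
      mul_le_one₀ hb' (norm_nonneg _) (Phi_norm_le m z')
    calc _ ≤ 1 * |mixedEmbedding.norm z ^ (-t) - mixedEmbedding.norm z' ^ (-t)| :=
          mul_le_mul_of_nonneg_right h2 (abs_nonneg _)
      _ ≤ _ := by rw [one_mul]; exact h1
  rw [e1]
  calc _ ≤ (L * (C3 * δ)) * ((c ^ finrank ℚ K)⁻¹ * V) + (C2 * δ) * ((c ^ finrank ℚ K)⁻¹ * V)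
        + C4 * V * δ := (norm_add₃_le).trans (add_le_add (add_le_add t1 t2) t3)
    _ = _ := by ring

theorem G_diff {b : logSpace K → ℝ} (hb : IsBump b)
    (m : {w : InfinitePlace K // IsComplex w} → ℤ) (R : ℝ) :
    ∃ A : ℝ, 0 ≤ A ∧ ∀ t : ℝ, 1 ≤ t → t ≤ 2 → ∀ x y : mixedSpace K, ‖x - y‖ ≤ R →
      ‖G b m t x - G b m t y‖ ≤ A * (1 + ‖x‖) ^ (-((finrank ℚ K : ℝ) + 1)) := by
  obtain ⟨c, C, hc, hC, hcore⟩ := gdiff_core hb m
  obtain ⟨C1, hC1, hbd⟩ := G_bound hb m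
  set R' := max R 0 with hR'
  have hR'0 : 0 ≤ R' := le_max_right _ _
  set R₁ := 2 * R' + 2 + 4 * (R' + 1) / c with hR₁
  have hR₁0 : 0 ≤ R₁ := by positivity
  have hbd1 : ∀ t : ℝ, 1 ≤ t → t ≤ 2 → ∀ x : mixedSpace K, ‖G b m t x‖ ≤ C1 := by
    intro t ht1 ht2 x
    refine (hbd t ht1 ht2 x).trans ?_
    have : (1 + ‖x‖) ^ (-((finrank ℚ K : ℝ) * t)) ≤ 1 := by
      apply Real.rpow_le_one_of_one_le_of_nonpos
      · linarith [norm_nonneg x]
      · have : 0 ≤ (finrank ℚ K : ℝ) * t := by positivity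
        linarith
    calc _ ≤ C1 * 1 := mul_le_mul_of_nonneg_left this hC1
      _ = _ := mul_one _
  refine ⟨2 * C1 * (1 + R₁) ^ (finrank ℚ K + 1) + C * R' * 4 ^ (finrank ℚ K + 1),
    by positivity, ?_⟩
  intro t ht1 ht2 x y hxy
  have hxy' : ‖x - y‖ ≤ R' := hxy.trans (le_max_left _ _)
  have hx0 := norm_nonneg x
  have erp : (1 + ‖x‖) ^ (-((finrank ℚ K : ℝ) + 1)) = ((1 + ‖x‖) ^ (finrank ℚ K + 1))⁻¹ := by
    rw [Real.rpow_neg (by positivity)]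
    congr 1
    rw [← Real.rpow_natCast]
    push_cast
    rfl
  rw [erp]
  have hI0 : 0 ≤ ((1 + ‖x‖) ^ (finrank ℚ K + 1))⁻¹ := by positivity
  by_cases hxR : ‖x‖ ≤ R₁
  · have h1 : ‖G b m t x - G b m t y‖ ≤ 2 * C1 := by
      calc _ ≤ ‖G b m t x‖ + ‖G b m t y‖ := norm_sub_le _ _
        _ ≤ C1 + C1 := add_le_add (hbd1 t ht1 ht2 x) (hbd1 t ht1 ht2 y)
        _ = _ := by ring
    have h2 : (1 : ℝ) ≤ (1 + R₁) ^ (finrank ℚ K + 1) * ((1 + ‖x‖) ^ (finrank ℚ K + 1))⁻¹ := by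
      rw [← div_eq_mul_inv, one_le_div (by positivity)]
      apply pow_le_pow_left₀ (by positivity)
      linarith
    calc _ ≤ 2 * C1 * 1 := by rw [mul_one]; exact h1
      _ ≤ 2 * C1 * ((1 + R₁) ^ (finrank ℚ K + 1) * ((1 + ‖x‖) ^ (finrank ℚ K + 1))⁻¹) :=
          mul_le_mul_of_nonneg_left h2 (by positivity)
      _ ≤ _ := by
          rw [add_mul, ← mul_assoc]
          have : 0 ≤ C * R' * 4 ^ (finrank ℚ K + 1) * ((1 + ‖x‖) ^ (finrank ℚ K + 1))⁻¹ := by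
            positivity
          linarith
  · have hxR' : R₁ < ‖x‖ := lt_of_not_ge hxR
    have hc4 : 0 ≤ 4 * (R' + 1) / c := by positivity
    have hcx : 4 * (R' + 1) ≤ c * ‖x‖ := by
      have : 4 * (R' + 1) / c ≤ ‖x‖ := by linarith
      rw [div_le_iff₀ hc] at this
      linarith
    -- the estimate for a pair
    have key : ∀ z z' : mixedSpace K, G b m t z ≠ 0 → ‖z - z'‖ ≤ R' → ‖x‖ / 2 ≤ ‖z‖ →
        ‖G b m t z - G b m t z'‖ ≤ C * R' * 4 ^ (finrank ℚ K + 1) *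
          ((1 + ‖x‖) ^ (finrank ℚ K + 1))⁻¹ := by
      intro z z' hz hzz' hxz
      have hz1 : 1 ≤ ‖z‖ := by linarith
      have hcz : R' + 1 ≤ c / 2 * ‖z‖ := by
        have : c / 2 * (‖x‖ / 2) ≤ c / 2 * ‖z‖ := mul_le_mul_of_nonneg_left hxz (by positivity)
        nlinarith
      refine (hcore t ht1 ht2 z z' hz hz1 (by linarith) (by linarith)).trans ?_
      have hzpos : 0 < ‖z‖ := by linarith
      have h4 : (1 + ‖x‖) / 4 ≤ ‖z‖ := by linarith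
      have h5 : (‖z‖ ^ finrank ℚ K)⁻¹ * (‖z - z'‖ / ‖z‖) ≤
          R' * (‖z‖ ^ (finrank ℚ K + 1))⁻¹ := by
        have : (‖z‖ ^ finrank ℚ K)⁻¹ * (‖z - z'‖ / ‖z‖) =
            ‖z - z'‖ * (‖z‖ ^ (finrank ℚ K + 1))⁻¹ := by
          rw [pow_succ, mul_inv, div_eq_mul_inv]
          ring
        rw [this]
        exact mul_le_mul_of_nonneg_right hzz' (by positivity)
      have h6 : (‖z‖ ^ (finrank ℚ K + 1))⁻¹ ≤
          4 ^ (finrank ℚ K + 1) * ((1 + ‖x‖) ^ (finrank ℚ K + 1))⁻¹ := by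
        calc _ ≤ (((1 + ‖x‖) / 4) ^ (finrank ℚ K + 1))⁻¹ := by
              apply inv_anti₀ (by positivity)
              apply pow_le_pow_left₀ (by positivity) h4
          _ = _ := by
              rw [div_pow, inv_div, div_eq_mul_inv]
      calc _ ≤ C * (R' * (4 ^ (finrank ℚ K + 1) * ((1 + ‖x‖) ^ (finrank ℚ K + 1))⁻¹)) := by
            apply mul_le_mul_of_nonneg_left _ hC
            exact h5.trans (mul_le_mul_of_nonneg_left h6 hR'0)
        _ = _ := by ring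
    have fin : ∀ v : ℝ, v ≤ C * R' * 4 ^ (finrank ℚ K + 1) * ((1 + ‖x‖) ^ (finrank ℚ K + 1))⁻¹ →
        v ≤ (2 * C1 * (1 + R₁) ^ (finrank ℚ K + 1) + C * R' * 4 ^ (finrank ℚ K + 1)) *
          ((1 + ‖x‖) ^ (finrank ℚ K + 1))⁻¹ := by
      intro v hv
      rw [add_mul]
      have : 0 ≤ 2 * C1 * (1 + R₁) ^ (finrank ℚ K + 1) * ((1 + ‖x‖) ^ (finrank ℚ K + 1))⁻¹ := by
        positivity
      linarith
    apply fin
    by_cases hGx : G b m t x = 0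
    · by_cases hGy : G b m t y = 0
      · rw [hGx, hGy, sub_zero, norm_zero]
        positivity
      · rw [norm_sub_rev]
        apply key y x hGy (by rw [norm_sub_rev]; exact hxy')
        have := norm_sub_norm_le x y
        linarith
    · exact key x y hGx hxy' (by linarith)

end Pool.Agent.H16.HK
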