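import Pool.Agent.H16.HK.Defs

/-!
# Job HK-GInt: the integral of `G` vanishes

Let `w` be a complex place with `m w ≠ 0`, `u = exp(i π / m w)` (so `u ^ (m w) = -1`, `|u| = 1`; `m w` may be negative). Let `T` be the map
of `mixedSpace K` which multiplies the coordinate `x.2 w` by `u` and fixes all others. It is a measurable equivalence preserving the volume:
the volume is a product measure (`MeasurePreserving.prod`, `volume_preserving_pi` / `MeasureTheory.measurePreserving_pi`), and multiplication by
`u` preserves the volume of `ℂ` (`rotation` is a linear isometry: `LinearIsometryEquiv.measurePreserving`; or the whole of `T` is a linear isometry of the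
Euclidean version; or via `MeasureTheory.Measure.addHaar_preimage_continuousLinearEquiv` with `|det T| = 1`).
`T` preserves all `normAtPlace` (`normAtPlace_apply_of_isComplex`), so `norm` and `logMap` (`logMap_eq_of_normAtPlace_eq`,
`norm_eq_of_normAtPlace_eq`), and `Phi m (T x) = u ^ (m w) Phi m x = - Phi m x` because `uni (u z) = u * uni z`. So
`∫ G = ∫ G ∘ T = - ∫ G` (`MeasurePreserving.integral_comp'`).
-/

open NumberField NumberField.InfinitePlace NumberField.mixedEmbedding NumberField.Units
open NumberField.Units.dirichletUnitTheorem MeasureTheory Module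
open scoped Classical

namespace Pool.Agent.H16.HK

variable {K : Type*} [Field K] [NumberField K]

theorem gint_uni_mul (u z : ℂ) (hu : ‖u‖ = 1) : uni (u * z) = u * uni z := by
  unfold uni
  rw [norm_mul, hu, one_mul, mul_div_assoc]

/-- multiplication of the complex coordinates by unit complex numbers -/
noncomputable def gint_T (c : {w : InfinitePlace K // IsComplex w} → Circle) :
    mixedSpace K ≃ₜ mixedSpace K where
  toFun x := (x.1, fun v => (c v : ℂ) * x.2 v)
  invFun x := (x.1, fun v => ((c v)⁻¹ : ℂ) * x.2 v)
  left_inv x := by
    refine Prod.ext rfl (funext fun v => ?_)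
    simp
  right_inv x := by
    refine Prod.ext rfl (funext fun v => ?_)
    simp
  continuous_toFun := by fun_prop
  continuous_invFun := by fun_prop

theorem gint_T_preserving (c : {w : InfinitePlace K // IsComplex w} → Circle) :
    MeasurePreserving (gint_T (K := K) c) volume volume := by
  have h1 : MeasurePreserving (fun (a : {w : InfinitePlace K // IsComplex w} → ℂ) v =>
      (c v : ℂ) * a v) volume volume := by
    refine volume_preserving_pi (f := fun v z => (c v : ℂ) * z) fun v => ?_
    exact (rotation (c v)).measurePreserving
  exact (MeasurePreserving.id (volume : Measure ({w : InfinitePlace K // IsReal w} → ℝ))).prod h1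

omit [NumberField K] in
theorem gint_normAtPlace (c : {w : InfinitePlace K // IsComplex w} → Circle) (x : mixedSpace K)
    (w : InfinitePlace K) : normAtPlace w (gint_T c x) = normAtPlace w x := by
  by_cases hw : IsReal w
  · rw [normAtPlace_apply_of_isReal hw, normAtPlace_apply_of_isReal hw]
    rfl
  · rw [not_isReal_iff_isComplex] at hw
    rw [normAtPlace_apply_of_isComplex hw, normAtPlace_apply_of_isComplex hw]
    change ‖(c ⟨w, hw⟩ : ℂ) * x.2 ⟨w, hw⟩‖ = _
    rw [norm_mul, Circle.norm_coe, one_mul]

theorem G_integral (b : logSpace K → ℝ) {m : {w : InfinitePlace K // IsComplex w} → ℤ} (hm : m ≠ 0)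
    (t : ℝ) : ∫ x : mixedSpace K, G b m t x = 0 := by
  obtain ⟨w, hw⟩ : ∃ w, m w ≠ 0 := by
    by_contra hc
    push Not at hc
    exact hm (funext hc)
  set u : Circle := Circle.exp (Real.pi / m w) with hu
  have hum : (u : ℂ) ^ m w = -1 := by
    have h1 : (m w : ℝ) ≠ 0 := by exact_mod_cast hw
    have h2 : Circle.exp ((m w : ℝ) * (Real.pi / m w)) = u ^ m w := Circle.exp_intCast_mul _ _
    rw [mul_div_cancel₀ _ h1] at h2
    rw [← Circle.coe_zpow, ← h2, Circle.coe_exp, Complex.exp_pi_mul_I]
  set c : {w : InfinitePlace K // IsComplex w} → Circle := fun v => if v = w then u else 1 with hc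
  have hPhi : ∀ x : mixedSpace K, Phi m (gint_T c x) = - Phi m x := by
    intro x
    have h1 : ∀ v, uni ((gint_T c x).2 v) ^ m v = (c v : ℂ) ^ m v * uni (x.2 v) ^ m v := by
      intro v
      change uni ((c v : ℂ) * x.2 v) ^ m v = _
      rw [gint_uni_mul _ _ (Circle.norm_coe _), mul_zpow]
    unfold Phi
    rw [Finset.prod_congr rfl fun v _ => h1 v, Finset.prod_mul_distrib]
    have h2 : ∏ v, (c v : ℂ) ^ m v = -1 := by
      rw [Finset.prod_eq_single w]
      · simp only [hc, if_true]
        exact hum
      · intro v _ hv
        simp only [hc, if_neg hv]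
        simp
      · intro h
        exact absurd (Finset.mem_univ w) h
    rw [h2, neg_one_mul]
  have hG : ∀ x : mixedSpace K, G b m t (gint_T c x) = - G b m t x := by
    intro x
    have h1 : ∀ v, normAtPlace v (gint_T c x) = normAtPlace v x := gint_normAtPlace c x
    unfold G
    rw [hPhi, norm_eq_of_normAtPlace_eq h1, logMap_eq_of_normAtPlace_eq h1, mul_neg]
  have key := (gint_T_preserving (K := K) c).integral_comp (gint_T (K := K) c).measurableEmbedding
    (G b m t)
  have h2 : ∫ x : mixedSpace K, G b m t (gint_T c x) = - ∫ x : mixedSpace K, G b m t x := by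
    rw [← integral_neg]
    exact integral_congr_ae (Filter.Eventually.of_forall hG)
  rw [h2] at key
  have h3 : (2 : ℂ) * ∫ x : mixedSpace K, G b m t x = 0 := by
    linear_combination -key
  rcases mul_eq_zero.mp h3 with h | h
  · norm_num at h
  · exact h

end Pool.Agent.H16.HK
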