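import Pool.Agent.H16.HK.Weil
import Pool.Agent.H16.HK.Extn

/-!
# Job HK-HChar: the Hecke character of the Jacobi sums

Let `G = (FractionalIdeal (𝓞 K)⁰ K)ˣ`, `N = Multiplicative (Multiset {v // Good ℓ v}) × A` with `A` the submonoid of `𝓞 K` of the nonzero elements
`≡ 1` modulo `lam ^ 2` (or `N` any equivalent commutative monoid), `π (s, a) = ` the (invertible fractional) ideal `(s.map asIdeal).prod * span {a}`
(`FractionalIdeal.mk0`), `g (s, a) = uni (φ ((s.map J).prod * CM ℓ a))` (`uni` is multiplicative, of norm `1` at nonzero numbers: `Diff.lean`/direct).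
`π (s, a) = π (s', b)` implies `g (s, a) = g (s', b)` by `weil` (`FractionalIdeal.mk0` is injective). `exists_extension` gives `Ψ₀ : G →* ℂˣ`. Put
`Ψ I = Ψ₀ (mk0 I)` if `I ⊔ lam ^ 2 = ⊤` and `I ≠ ⊥`, and `0` otherwise. `lam` is a proper ideal, so `I = ⊥` is not coprime to `lam ^ 2`;
`I * I' ⊔ lam ^ 2 = ⊤` iff both are coprime to `lam ^ 2` (`Ideal.sup_mul_eq_of_coprime_left`, `IsCoprime.mul_left_iff`). For `Good ℓ v`: `v` is a maximal ideal
different from `lam` (`absNorm lam = ℓ`, `absNorm_span_zeta_sub_one'` or `absNorm_span_zeta_sub_one`), so coprime to `lam ^ 2`; `a ≡ 1` is coprime to `lam ^ 2`.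
-/

open NumberField IsDedekindDomain Polynomial IsCyclotomicExtension.Rat
open scoped Pointwise Classical nonZeroDivisors

namespace Pool.Agent.H16.HK

variable {ℓ : ℕ} [Fact ℓ.Prime] {K : Type*} [Field K] [NumberField K] [IsCyclotomicExtension {ℓ} ℚ K]

theorem hchar_uni_mul (z w : ℂ) : uni (z * w) = uni z * uni w := by
  unfold uni
  rw [norm_mul, Complex.ofReal_mul, mul_div_mul_comm]

theorem hchar_uni_one : uni 1 = 1 := by
  unfold uni
  simp

theorem hchar_uni_norm {z : ℂ} (hz : z ≠ 0) : ‖uni z‖ = 1 := by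
  unfold uni
  rw [norm_div, Complex.norm_real, norm_norm, div_self (norm_ne_zero_iff.2 hz)]

theorem hchar_absNorm : Ideal.absNorm (lam ℓ K) = ℓ := by
  have i1 : IsCyclotomicExtension {ℓ ^ (0 + 1)} ℚ K := by rwa [zero_add, pow_one]
  have hζ : IsPrimitiveRoot (IsCyclotomicExtension.zeta ℓ ℚ K) (ℓ ^ (0 + 1)) := by
    rw [zero_add, pow_one]
    exact IsCyclotomicExtension.zeta_spec ℓ ℚ K
  exact absNorm_span_zeta_sub_one ℓ 0 hζ

/-- the nonzero elements congruent to one -/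
def hchar_A (ℓ : ℕ) [Fact ℓ.Prime] (K : Type*) [Field K] [NumberField K]
    [IsCyclotomicExtension {ℓ} ℚ K] : Submonoid (𝓞 K) where
  carrier := {a | a ≠ 0 ∧ a - 1 ∈ lam ℓ K ^ 2}
  one_mem' := ⟨one_ne_zero, by rw [sub_self]; exact Submodule.zero_mem _⟩
  mul_mem' := by
    rintro a b ⟨ha, ha1⟩ ⟨hb, hb1⟩
    refine ⟨mul_ne_zero ha hb, ?_⟩
    have h : a * b - 1 = a * (b - 1) + (a - 1) := by ring
    rw [h]
    exact Ideal.add_mem _ (Ideal.mul_mem_left _ _ hb1) ha1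

/-- the monoid of pairs -/
abbrev hchar_N (ℓ : ℕ) [Fact ℓ.Prime] (K : Type*) [Field K] [NumberField K]
    [IsCyclotomicExtension {ℓ} ℚ K] : Type _ :=
  Multiplicative (Multiset {v : HeightOneSpectrum (𝓞 K) // Good ℓ v}) × hchar_A ℓ K

/-- the ideal of a pair -/
noncomputable def hchar_I : hchar_N ℓ K →* Ideal (𝓞 K) where
  toFun n := ((Multiplicative.toAdd n.1).map fun v => v.1.asIdeal).prod *
    Ideal.span {(n.2 : 𝓞 K)}
  map_one' := by
    simp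
  map_mul' n n' := by
    rw [Prod.fst_mul, Prod.snd_mul, toAdd_mul, Multiset.map_add, Multiset.prod_add,
      Submonoid.coe_mul, ← Ideal.span_singleton_mul_span_singleton]
    ring

theorem hchar_I_ne (n : hchar_N ℓ K) : hchar_I n ≠ 0 := by
  have h1 : hchar_I n = ((Multiplicative.toAdd n.1).map fun v => v.1.asIdeal).prod *
    Ideal.span {(n.2 : 𝓞 K)} := rfl
  rw [h1]
  refine mul_ne_zero ?_ ?_
  · intro h
    rw [Multiset.prod_eq_zero_iff, Multiset.mem_map] at h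
    obtain ⟨v, _, hv⟩ := h
    exact v.1.ne_bot hv
  · intro h
    rw [Ideal.zero_eq_bot, Ideal.span_singleton_eq_bot] at h
    exact n.2.2.1 h

/-- the fractional ideal of a pair -/
noncomputable def hchar_pi : hchar_N ℓ K →* (FractionalIdeal (𝓞 K)⁰ K)ˣ :=
  (FractionalIdeal.mk0 K).comp (hchar_I.codRestrict (Ideal (𝓞 K))⁰
    (fun n => mem_nonZeroDivisors_of_ne_zero (hchar_I_ne n)))

theorem hchar_mk0_inj {I J : (Ideal (𝓞 K))⁰}
    (h : FractionalIdeal.mk0 K I = FractionalIdeal.mk0 K J) : (I : Ideal (𝓞 K)) = J := by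
  have h1 := congrArg (fun x : (FractionalIdeal (𝓞 K)⁰ K)ˣ => (x : FractionalIdeal (𝓞 K)⁰ K)) h
  simp only [FractionalIdeal.coe_mk0] at h1
  exact FractionalIdeal.coeIdeal_injective h1

/-- the number of a pair -/
noncomputable def hchar_X (J : HeightOneSpectrum (𝓞 K) → 𝓞 K) : hchar_N ℓ K →* 𝓞 K where
  toFun n := ((Multiplicative.toAdd n.1).map fun v => J v.1).prod * CM ℓ (n.2 : 𝓞 K)
  map_one' := by
    simp [CM]
  map_mul' n n' := by
    rw [Prod.fst_mul, Prod.snd_mul, toAdd_mul, Multiset.map_add, Multiset.prod_add,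
      Submonoid.coe_mul, CM_mul]
    ring

theorem hchar_J_ne {J : HeightOneSpectrum (𝓞 K) → 𝓞 K}
    (hJ : ∀ v, Good ℓ v → IsJac ℓ v (J v)) (v : HeightOneSpectrum (𝓞 K)) (hv : Good ℓ v) :
    J v ≠ 0 := by
  intro h
  have h1 := (hJ v hv).ideal
  rw [h, Ideal.span_singleton_eq_bot.2 rfl, ← Ideal.zero_eq_bot, eq_comm,
    Finset.prod_eq_zero_iff] at h1
  obtain ⟨σ, _, hσ⟩ := h1
  have h2 : v.asIdeal = 0 := by
    have h3 := congrArg (fun I => σ⁻¹ • I) hσ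
    simpa using h3
  exact v.ne_bot h2

theorem hchar_X_ne {J : HeightOneSpectrum (𝓞 K) → 𝓞 K}
    (hJ : ∀ v, Good ℓ v → IsJac ℓ v (J v)) (n : hchar_N ℓ K) : hchar_X J n ≠ 0 := by
  have h1 : hchar_X J n = ((Multiplicative.toAdd n.1).map fun v => J v.1).prod *
    CM ℓ (n.2 : 𝓞 K) := rfl
  rw [h1]
  refine mul_ne_zero ?_ (CM_ne_zero n.2.2.1)
  intro h
  rw [Multiset.prod_eq_zero_iff, Multiset.mem_map] at h
  obtain ⟨v, _, hv⟩ := h
  exact hchar_J_ne hJ v.1 v.2 hv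

theorem hchar_phi_ne (φ : K →+* ℂ) {x : 𝓞 K} (hx : x ≠ 0) : φ (x : K) ≠ 0 := by
  intro h
  rw [map_eq_zero] at h
  exact hx (by exact_mod_cast h)

/-- the values of the character on pairs -/
noncomputable def hchar_g {J : HeightOneSpectrum (𝓞 K) → 𝓞 K}
    (hJ : ∀ v, Good ℓ v → IsJac ℓ v (J v)) (φ : K →+* ℂ) : hchar_N ℓ K →* ℂˣ where
  toFun n := Units.mk0 (uni (φ (hchar_X J n : K))) (by
    intro h
    have h1 := hchar_uni_norm (hchar_phi_ne φ (hchar_X_ne hJ n))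
    rw [h, norm_zero] at h1
    exact zero_ne_one h1)
  map_one' := by
    apply Units.ext
    have h1 : ((1 : 𝓞 K) : K) = 1 := map_one (algebraMap (𝓞 K) K)
    rw [Units.val_mk0, map_one, h1, map_one, hchar_uni_one, Units.val_one]
  map_mul' n n' := by
    apply Units.ext
    have h1 : ((hchar_X J n * hchar_X J n' : 𝓞 K) : K) = (hchar_X J n : K) * (hchar_X J n' : K) :=
      map_mul (algebraMap (𝓞 K) K) _ _
    rw [Units.val_mk0, Units.val_mul, Units.val_mk0, Units.val_mk0, map_mul, h1, map_mul,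
      hchar_uni_mul]

theorem hchar_cop {v : HeightOneSpectrum (𝓞 K)} (hv : Good ℓ v) :
    IsCoprime v.asIdeal (lam ℓ K ^ 2) := by
  apply IsCoprime.pow_right
  rw [Ideal.isCoprime_iff_sup_eq]
  by_contra h
  have h1 : v.asIdeal ⊔ lam ℓ K = v.asIdeal :=
    (v.isMaximal.eq_of_le h le_sup_left).symm
  have h2 : lam ℓ K ≤ v.asIdeal := by
    rw [← h1]
    exact le_sup_right
  have h3 := Ideal.absNorm_dvd_absNorm_of_le h2
  rw [hchar_absNorm] at h3
  rcases (Nat.dvd_prime (Fact.out : ℓ.Prime)).1 h3 with h4 | h4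
  · exact hv.1.one_lt.ne h4.symm
  · exact hv.2 h4

/-- nonzero ideals prime to `lam` -/
def hchar_P (ℓ : ℕ) [Fact ℓ.Prime] {K : Type*} [Field K] [NumberField K]
    [IsCyclotomicExtension {ℓ} ℚ K] (I : Ideal (𝓞 K)) : Prop :=
  IsCoprime I (lam ℓ K ^ 2) ∧ I ≠ 0

theorem hchar_P_mul (I I' : Ideal (𝓞 K)) :
    hchar_P ℓ (I * I') ↔ hchar_P ℓ I ∧ hchar_P ℓ I' := by
  unfold hchar_P
  rw [IsCoprime.mul_left_iff, mul_ne_zero_iff]
  tauto

/-- the character on ideals -/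
noncomputable def hchar_Psi (ℓ : ℕ) [Fact ℓ.Prime] {K : Type*} [Field K] [NumberField K]
    [IsCyclotomicExtension {ℓ} ℚ K] (Ψ₀ : (FractionalIdeal (𝓞 K)⁰ K)ˣ →* ℂˣ) :
    Ideal (𝓞 K) →*₀ ℂ where
  toFun I := if h : hchar_P ℓ I then
    (Ψ₀ (FractionalIdeal.mk0 K ⟨I, mem_nonZeroDivisors_of_ne_zero h.2⟩) : ℂ) else 0
  map_zero' := by
    rw [dif_neg (fun h => h.2 rfl)]
  map_one' := by
    have h : hchar_P ℓ (1 : Ideal (𝓞 K)) := ⟨isCoprime_one_left, one_ne_zero⟩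
    rw [dif_pos h]
    have h1 : (⟨1, mem_nonZeroDivisors_of_ne_zero h.2⟩ : (Ideal (𝓞 K))⁰) = 1 := rfl
    rw [h1, map_one, map_one, Units.val_one]
  map_mul' I I' := by
    by_cases h : hchar_P ℓ I
    · by_cases h' : hchar_P ℓ I'
      · have h2 := (hchar_P_mul (ℓ := ℓ) I I').2 ⟨h, h'⟩
        rw [dif_pos h, dif_pos h', dif_pos h2, ← Units.val_mul, ← map_mul, ← map_mul]
        rfl
      · rw [dif_neg h', mul_zero, dif_neg (fun h2 => h' ((hchar_P_mul I I').1 h2).2)]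
    · rw [dif_neg h, zero_mul, dif_neg (fun h2 => h ((hchar_P_mul I I').1 h2).1)]

theorem hchar_Psi_pos (Ψ₀ : (FractionalIdeal (𝓞 K)⁰ K)ˣ →* ℂˣ) {I : Ideal (𝓞 K)}
    (h : hchar_P ℓ I) : hchar_Psi ℓ Ψ₀ I =
      (Ψ₀ (FractionalIdeal.mk0 K ⟨I, mem_nonZeroDivisors_of_ne_zero h.2⟩) : ℂ) :=
  dif_pos h

theorem hchar_Psi_neg (Ψ₀ : (FractionalIdeal (𝓞 K)⁰ K)ˣ →* ℂˣ) {I : Ideal (𝓞 K)}
    (h : ¬ hchar_P ℓ I) : hchar_Psi ℓ Ψ₀ I = 0 :=
  dif_neg h

theorem exists_hecke (hℓ : ℓ ≠ 2) {J : HeightOneSpectrum (𝓞 K) → 𝓞 K}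
    (hJ : ∀ v, Good ℓ v → IsJac ℓ v (J v)) (φ : K →+* ℂ) :
    ∃ Ψ : Ideal (𝓞 K) →*₀ ℂ, (∀ I, ‖Ψ I‖ ≤ 1) ∧ (∀ I, I ⊔ lam ℓ K ^ 2 ≠ ⊤ → Ψ I = 0) ∧
      (∀ v : HeightOneSpectrum (𝓞 K), Good ℓ v → Ψ v.asIdeal = uni (φ (J v : K))) ∧
      ∀ a : 𝓞 K, a ≠ 0 → a - 1 ∈ lam ℓ K ^ 2 →
        Ψ (Ideal.span {a}) = uni (φ (CM ℓ a : K)) := by
  obtain ⟨Ψ₀, hn, hΨ⟩ := exists_extension (hchar_pi (ℓ := ℓ) (K := K)) (hchar_g hJ φ)
    (by
      intro n n' h
      have h1 : hchar_I n = hchar_I n' := hchar_mk0_inj h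
      have h2 : hchar_X J n = hchar_X J n' :=
        weil hℓ hJ _ _ n.2.2.1 n'.2.2.1 n.2.2.2 n'.2.2.2 h1
      apply Units.ext
      change uni (φ (hchar_X J n : K)) = uni (φ (hchar_X J n' : K))
      rw [h2])
    (by
      intro n
      exact hchar_uni_norm (hchar_phi_ne φ (hchar_X_ne hJ n)))
  have key : ∀ (n : hchar_N ℓ K), hchar_P ℓ (hchar_I n) →
      hchar_Psi ℓ Ψ₀ (hchar_I n) = uni (φ (hchar_X J n : K)) := by
    intro n h
    rw [hchar_Psi_pos Ψ₀ h]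
    have h1 := congrArg Units.val (hΨ n)
    exact h1
  refine ⟨hchar_Psi ℓ Ψ₀, ?_, ?_, ?_, ?_⟩
  · intro I
    by_cases h : hchar_P ℓ I
    · rw [hchar_Psi_pos Ψ₀ h, hn]
    · rw [hchar_Psi_neg Ψ₀ h, norm_zero]
      exact zero_le_one
  · intro I hI
    apply hchar_Psi_neg
    intro h
    exact hI (Ideal.isCoprime_iff_sup_eq.1 h.1)
  · intro v hv
    have h1 : hchar_I (ℓ := ℓ) (Multiplicative.ofAdd ({⟨v, hv⟩} : Multiset _), 1) = v.asIdeal := by
      change ((({⟨v, hv⟩} : Multiset {v : HeightOneSpectrum (𝓞 K) // Good ℓ v}).map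
        fun v => v.1.asIdeal).prod * Ideal.span {((1 : hchar_A ℓ K) : 𝓞 K)}) = _
      simp
    have h2 : hchar_X J (ℓ := ℓ) (Multiplicative.ofAdd ({⟨v, hv⟩} : Multiset _), 1) = J v := by
      change ((({⟨v, hv⟩} : Multiset {v : HeightOneSpectrum (𝓞 K) // Good ℓ v}).map
        fun v => J v.1).prod * CM ℓ ((1 : hchar_A ℓ K) : 𝓞 K)) = _
      simp [CM]
    have h3 := key (Multiplicative.ofAdd ({⟨v, hv⟩} : Multiset _), 1)
      (by rw [h1]; exact ⟨hchar_cop hv, v.ne_bot⟩)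
    rw [h1, h2] at h3
    exact h3
  · intro a ha ha1
    have h1 : hchar_I (ℓ := ℓ) (1, ⟨a, ha, ha1⟩) = Ideal.span {a} := by
      change (((0 : Multiset {v : HeightOneSpectrum (𝓞 K) // Good ℓ v}).map
        fun v => v.1.asIdeal).prod * Ideal.span {a}) = _
      simp
    have h2 : hchar_X J (ℓ := ℓ) (1, ⟨a, ha, ha1⟩) = CM ℓ a := by
      change (((0 : Multiset {v : HeightOneSpectrum (𝓞 K) // Good ℓ v}).map
        fun v => J v.1).prod * CM ℓ a) = _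
      simp
    have h3 := key (1, ⟨a, ha, ha1⟩) (by
      rw [h1]
      refine ⟨?_, ?_⟩
      · rw [Ideal.isCoprime_iff_exists]
        exact ⟨a, Ideal.mem_span_singleton_self a, -(a - 1), neg_mem ha1, by ring⟩
      · rw [Ideal.zero_eq_bot, Ne, Ideal.span_singleton_eq_bot]
        exact ha)
    rw [h1, h2] at h3
    exact h3

end Pool.Agent.H16.HK
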