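import Pool.Agent.H16.HK.Diff

/-!
# Job HK-Kap: the values of a Hecke character at principal ideals

`Phi m (mixedEmbedding K ·)` is multiplicative on nonzero elements with absolute value `1` (`uni (a b) = uni a * uni b`, `mul_zpow`).
For a class `r` in `𝓞 K ⧸ 𝔪` that is a unit choose `δ ≠ 0` in `𝓞 K` with `r * mk δ = 1` (if a lift of `r⁻¹` is `0`, add a nonzero element of `𝔪`), and put
`κ(r) = Phi m δ / Ψ (δ)`; `κ(r) = 0` for the other classes; `g a = κ (mk a)`. For `a ≠ 0` with `mk a` a unit: `a δ - 1 ∈ 𝔪`, `a δ ≠ 0`, so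
`Ψ (a) Ψ (δ) = Ψ (a δ) = Phi m (a δ) = Phi m a * Phi m δ ≠ 0`. For `a` with `mk a` not a unit: `span {a} ⊔ 𝔪 ≠ ⊤`
(`Ideal.isUnit_iff`/`Ideal.Quotient`: `mk a` is a unit iff `span {a} ⊔ 𝔪 = ⊤`), so `Ψ (a) = 0`.
-/

open NumberField NumberField.InfinitePlace NumberField.mixedEmbedding NumberField.Units
open NumberField.Units.dirichletUnitTheorem MeasureTheory Module
open scoped Classical

namespace Pool.Agent.H16.HK

variable {K : Type*} [Field K] [NumberField K]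

theorem kap_uni_mul (a b : ℂ) : uni (a * b) = uni a * uni b := by
  unfold uni
  rw [norm_mul]
  push_cast
  rw [mul_div_mul_comm]

theorem kap_Phi_mul (m : {w : InfinitePlace K // IsComplex w} → ℤ) (x y : mixedSpace K) :
    Phi m (x * y) = Phi m x * Phi m y := by
  unfold Phi
  rw [← Finset.prod_mul_distrib]
  refine Finset.prod_congr rfl fun w _ => ?_
  rw [Prod.snd_mul, Pi.mul_apply, kap_uni_mul, mul_zpow]

theorem kap_Phi_ne_zero (m : {w : InfinitePlace K // IsComplex w} → ℤ) (a : K) (ha : a ≠ 0) :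
    Phi m (mixedEmbedding K a) ≠ 0 := by
  unfold Phi
  refine Finset.prod_ne_zero_iff.2 fun w _ => zpow_ne_zero _ ?_
  have h1 : (mixedEmbedding K a).2 w ≠ 0 := by
    rw [mixedEmbedding_apply_isComplex]
    exact (map_ne_zero _).2 ha
  intro h2
  have := uni_norm h1
  rw [h2, norm_zero] at this
  exact zero_ne_one this

theorem exists_kappa (𝔪 : Ideal (𝓞 K)) (h𝔪 : 𝔪 ≠ ⊥) (Ψ : Ideal (𝓞 K) →*₀ ℂ)
    (h0 : ∀ I, I ⊔ 𝔪 ≠ ⊤ → Ψ I = 0) (m : {w : InfinitePlace K // IsComplex w} → ℤ)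
    (hval : ∀ a : 𝓞 K, a ≠ 0 → a - 1 ∈ 𝔪 →
      Ψ (Ideal.span {a}) = Phi m (mixedEmbedding K (a : K))) :
    ∃ g : 𝓞 K → ℂ, (∀ a x, x ∈ 𝔪 → g (a + x) = g a) ∧
      ∀ a : 𝓞 K, a ≠ 0 → Ψ (Ideal.span {a}) = g a * Phi m (mixedEmbedding K (a : K)) := by
  -- a nonzero inverse modulo `𝔪`
  have hinv : ∀ r : 𝓞 K ⧸ 𝔪, IsUnit r → ∃ δ : 𝓞 K, δ ≠ 0 ∧ r * Ideal.Quotient.mk 𝔪 δ = 1 := by
    intro r hr
    obtain ⟨s, hs⟩ := hr.exists_right_inv
    obtain ⟨d, rfl⟩ := Ideal.Quotient.mk_surjective s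
    by_cases hd : d = 0
    · obtain ⟨e, he, he0⟩ := Submodule.exists_mem_ne_zero_of_ne_bot h𝔪
      refine ⟨e, he0, ?_⟩
      rw [hd] at hs
      rw [Ideal.Quotient.eq_zero_iff_mem.2 he]
      rwa [map_zero] at hs
    · exact ⟨d, hd, hs⟩
  choose! δ hδ0 hδ1 using hinv
  set κ : 𝓞 K ⧸ 𝔪 → ℂ := fun r => if IsUnit r then
    Phi m (mixedEmbedding K (δ r : K)) / Ψ (Ideal.span {δ r}) else 0 with hκ
  refine ⟨fun a => κ (Ideal.Quotient.mk 𝔪 a), ?_, ?_⟩
  · intro a x hx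
    simp only
    rw [map_add, Ideal.Quotient.eq_zero_iff_mem.2 hx, add_zero]
  · intro a ha
    simp only [hκ]
    by_cases hu : IsUnit (Ideal.Quotient.mk 𝔪 a)
    · rw [if_pos hu]
      set d := δ (Ideal.Quotient.mk 𝔪 a) with hd
      have hd0 : d ≠ 0 := hδ0 _ hu
      have hd1 : Ideal.Quotient.mk 𝔪 a * Ideal.Quotient.mk 𝔪 d = 1 := hδ1 _ hu
      have hmem : a * d - 1 ∈ 𝔪 := by
        rw [← Ideal.Quotient.eq_zero_iff_mem, map_sub, map_mul, hd1, map_one, sub_self]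
      have hne : a * d ≠ 0 := mul_ne_zero ha hd0
      have h1 := hval (a * d) hne hmem
      rw [← Ideal.span_singleton_mul_span_singleton, map_mul] at h1
      have h2 : mixedEmbedding K ((a * d : 𝓞 K) : K) =
          mixedEmbedding K (a : K) * mixedEmbedding K (d : K) := by
        rw [← map_mul]
        congr 1
      rw [h2, kap_Phi_mul] at h1
      have hPa : Phi m (mixedEmbedding K (a : K)) ≠ 0 :=
        kap_Phi_ne_zero m _ (by exact_mod_cast ha)
      have hPd : Phi m (mixedEmbedding K (d : K)) ≠ 0 :=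
        kap_Phi_ne_zero m _ (by exact_mod_cast hd0)
      have hΨ : Ψ (Ideal.span {d}) ≠ 0 := by
        intro h3
        rw [h3, mul_zero] at h1
        exact mul_ne_zero hPa hPd h1.symm
      rw [div_mul_eq_mul_div, eq_div_iff hΨ, h1, mul_comm]
    · rw [if_neg hu, zero_mul]
      apply h0
      intro htop
      apply hu
      rw [Ideal.eq_top_iff_one, Submodule.mem_sup] at htop
      obtain ⟨y, hy, z, hz, hyz⟩ := htop
      obtain ⟨c, rfl⟩ := Ideal.mem_span_singleton'.1 hy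
      have h3 : Ideal.Quotient.mk 𝔪 c * Ideal.Quotient.mk 𝔪 a = 1 := by
        rw [← map_mul, ← map_one (Ideal.Quotient.mk 𝔪), ← hyz, map_add,
          Ideal.Quotient.eq_zero_iff_mem.2 hz, add_zero]
      exact IsUnit.of_mul_eq_one_right _ h3

end Pool.Agent.H16.HK
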