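import Pool.Agent.H16.HK.LatSum

/-!
# Job HK-Period: sums over an ideal with periodic coefficients

`I' = I ⊓ J ≠ ⊥` (it contains `I * J`), `J / I'` is finite (`𝓞 K ⧸ I'` is finite, `Ideal.finiteQuotientOfFreeOfNeBot`). Choose
representatives `r_i ∈ J` of the classes of `J` modulo `I'`: the map `(i, a) ↦ r_i + a` is a bijection of `ι × I'` with `J`, and `g (r_i + a) = g r_i`.
So the sum is the finite sum `∑_i g(r_i) ∑_{a ∈ I'} G(r_i + a)`, `lattice_sum` (for the summability over `ι × I'` with `ι` finite: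
`summable_prod_of_...`/`Finset` sum of functions supported on the cosets).
-/

open NumberField NumberField.InfinitePlace NumberField.mixedEmbedding NumberField.Units
open NumberField.Units.dirichletUnitTheorem MeasureTheory Module
open scoped Classical

namespace Pool.Agent.H16.HK

variable {K : Type*} [Field K] [NumberField K]

theorem ideal_sum {b : logSpace K → ℝ} (hb : IsBump b)
    {m : {w : InfinitePlace K // IsComplex w} → ℤ} (hm : m ≠ 0) (J I : Ideal (𝓞 K)) (hJ : J ≠ ⊥)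
    (hI : I ≠ ⊥) (g : 𝓞 K → ℂ) (hg : ∀ a x, x ∈ I → g (a + x) = g a) :
    ∃ C : ℝ, ∀ t : ℝ, 1 < t → t ≤ 2 →
      Summable (fun a : J => g a * G b m t (mixedEmbedding K ((a : 𝓞 K) : K))) ∧
      ‖∑' a : J, g a * G b m t (mixedEmbedding K ((a : 𝓞 K) : K))‖ ≤ C := by
  have hI' : I ⊓ J ≠ ⊥ := by
    intro h
    have h1 : I * J ≤ ⊥ := h ▸ Ideal.mul_le_inf
    rcases Ideal.mul_eq_bot.1 (le_bot_iff.1 h1) with h2 | h2
    · exact hI h2
    · exact hJ h2
  have key : ∀ q : 𝓞 K ⧸ (I ⊓ J), ∃ C : ℝ, ∀ t : ℝ, 1 < t → t ≤ 2 →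
      Summable (fun a : J => if Ideal.Quotient.mk (I ⊓ J) (a : 𝓞 K) = q then
        g a * G b m t (mixedEmbedding K ((a : 𝓞 K) : K)) else 0) ∧
      ‖∑' a : J, if Ideal.Quotient.mk (I ⊓ J) (a : 𝓞 K) = q then
        g a * G b m t (mixedEmbedding K ((a : 𝓞 K) : K)) else 0‖ ≤ C := by
    intro q
    by_cases hq : ∃ r : J, Ideal.Quotient.mk (I ⊓ J) (r : 𝓞 K) = q
    · obtain ⟨r, hr⟩ := hq
      obtain ⟨C, hC⟩ := lattice_sum hb hm (I ⊓ J) hI' (r : 𝓞 K)
      refine ⟨‖g r‖ * C, fun t h1 h2 => ?_⟩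
      obtain ⟨hs, hn⟩ := hC t h1 h2
      let i : ((I ⊓ J : Ideal (𝓞 K))) → J := fun a => ⟨(r : 𝓞 K) + (a : 𝓞 K), J.add_mem r.2 a.2.2⟩
      have hi : Function.Injective i := by
        intro a a' h
        have h3 : (r : 𝓞 K) + (a : 𝓞 K) = (r : 𝓞 K) + (a' : 𝓞 K) := congrArg Subtype.val h
        exact Subtype.ext (add_left_cancel h3)
      have hv : ∀ a : ((I ⊓ J : Ideal (𝓞 K))),
          (if Ideal.Quotient.mk (I ⊓ J) ((i a : J) : 𝓞 K) = q then
            g (i a) * G b m t (mixedEmbedding K (((i a : J) : 𝓞 K) : K)) else 0) =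
          g r * G b m t (mixedEmbedding K (((r : 𝓞 K) + (a : 𝓞 K) : 𝓞 K) : K)) := by
        intro a
        have h4 : ((i a : J) : 𝓞 K) = (r : 𝓞 K) + (a : 𝓞 K) := rfl
        have h5 : Ideal.Quotient.mk (I ⊓ J) (a : 𝓞 K) = 0 :=
          Ideal.Quotient.eq_zero_iff_mem.2 a.2
        rw [h4, map_add, h5, add_zero, if_pos hr, hg _ _ a.2.1]
      have hsupp : ∀ a : J, a ∉ Set.range i → (if Ideal.Quotient.mk (I ⊓ J) (a : 𝓞 K) = q then
          g a * G b m t (mixedEmbedding K ((a : 𝓞 K) : K)) else 0) = 0 := by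
        intro a ha
        rw [if_neg]
        intro h3
        apply ha
        have h4 : (a : 𝓞 K) - (r : 𝓞 K) ∈ (I ⊓ J : Ideal (𝓞 K)) := by
          rw [← Ideal.Quotient.eq_zero_iff_mem, map_sub, h3, hr, sub_self]
        exact ⟨⟨_, h4⟩, Subtype.ext (add_sub_cancel _ _)⟩
      constructor
      · rw [← hi.summable_iff hsupp]
        have e : ((fun a : J => if Ideal.Quotient.mk (I ⊓ J) (a : 𝓞 K) = q then
            g a * G b m t (mixedEmbedding K ((a : 𝓞 K) : K)) else 0) ∘ i) =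
            fun a : ((I ⊓ J : Ideal (𝓞 K))) =>
              g r * G b m t (mixedEmbedding K (((r : 𝓞 K) + (a : 𝓞 K) : 𝓞 K) : K)) :=
          funext hv
        rw [e]
        exact hs.mul_left _
      · have h6 := hi.tsum_eq (f := fun a : J => if Ideal.Quotient.mk (I ⊓ J) (a : 𝓞 K) = q then
            g a * G b m t (mixedEmbedding K ((a : 𝓞 K) : K)) else 0) (fun a ha => by
              by_contra h
              exact ha (hsupp a h))
        rw [← h6]
        simp only [hv]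
        rw [tsum_mul_left, norm_mul]
        exact mul_le_mul_of_nonneg_left hn (norm_nonneg _)
    · push Not at hq
      refine ⟨0, fun t _ _ => ?_⟩
      have e : (fun a : J => if Ideal.Quotient.mk (I ⊓ J) (a : 𝓞 K) = q then
          g a * G b m t (mixedEmbedding K ((a : 𝓞 K) : K)) else 0) = fun _ => 0 :=
        funext fun a => if_neg (hq a)
      rw [e]
      exact ⟨summable_zero, by simp⟩
  choose C hC using key
  have hfin : Finite (𝓞 K ⧸ (I ⊓ J)) := Ideal.finiteQuotientOfFreeOfNeBot _ hI'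
  have hft : Fintype (𝓞 K ⧸ (I ⊓ J)) := Fintype.ofFinite _
  refine ⟨∑ q, C q, fun t h1 h2 => ?_⟩
  have e : (fun a : J => g a * G b m t (mixedEmbedding K ((a : 𝓞 K) : K))) =
      fun a : J => ∑ q, if Ideal.Quotient.mk (I ⊓ J) (a : 𝓞 K) = q then
        g a * G b m t (mixedEmbedding K ((a : 𝓞 K) : K)) else 0 := by
    funext a
    rw [Finset.sum_ite_eq, if_pos (Finset.mem_univ _)]
  rw [e]
  refine ⟨summable_sum fun q _ => (hC q t h1 h2).1, ?_⟩
  rw [Summable.tsum_finsetSum fun q _ => (hC q t h1 h2).1]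
  exact (norm_sum_le _ _).trans (Finset.sum_le_sum fun q _ => (hC q t h1 h2).2)

end Pool.Agent.H16.HK
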