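import Pool.Agent.H16.HK.Defs

/-!
# Job HK-Princ: the sum over the principal ideals contained in `J` as a sum over `J`

Choose a generator `γ_P ≠ 0` of every nonzero principal ideal `P ⊆ J`. The map `(P, u) ↦ u γ_P` is a bijection of pairs (`P`, unit) with
`{a ∈ J | a ≠ 0}` (`Ideal.span_singleton_eq_span_singleton`: same ideal iff associated). `logMap (u γ) = logEmbedding u + logMap γ`
(`logMap_unit_smul`, `unitSMul_smul`; `mixedEmbedding.norm (mixedEmbedding K γ) ≠ 0`, `norm_eq_zero_iff`/`norm_eq_norm`). So the given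
summable family becomes `(P, u) ↦ F P * b (logMap γ_P + logEmbedding u)`, whose sum over `u` is `F P` by `hb.sum` (`HasSum.mul_left`, `Complex.hasSum_ofReal`):
`HasSum.sigma`/`HasSum.prod_fiberwise`. The term `a = 0` is `0` (`hasSum_subtype_iff_of_support_subset`).
-/

open NumberField NumberField.InfinitePlace NumberField.mixedEmbedding NumberField.Units
open NumberField.Units.dirichletUnitTheorem MeasureTheory Module
open scoped Classical

namespace Pool.Agent.H16.HK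

variable {K : Type*} [Field K] [NumberField K]

theorem princ_norm_ne {a : 𝓞 K} (ha : a ≠ 0) :
    mixedEmbedding.norm (mixedEmbedding K (a : K)) ≠ 0 := by
  rw [norm_eq_norm]
  have h : Algebra.norm ℚ (a : K) ≠ 0 := by
    rw [Algebra.norm_ne_zero_iff]
    exact RingOfIntegers.coe_ne_zero_iff.2 ha
  exact_mod_cast abs_ne_zero.2 h

theorem princ_logMap {a : 𝓞 K} (ha : a ≠ 0) (u : (𝓞 K)ˣ) :
    logMap (mixedEmbedding K (((u : 𝓞 K) * a : 𝓞 K) : K)) =
      logMap (mixedEmbedding K (a : K)) + logEmbedding K (Additive.ofMul u) := by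
  have h := logMap_unit_smul u (princ_norm_ne ha)
  rw [unitSMul_smul, ← map_mul] at h
  rw [add_comm, ← h]
  congr 2

theorem principal_sum {b : logSpace K → ℝ} (hb : IsBump b) (J : Ideal (𝓞 K)) (F : Ideal (𝓞 K) → ℂ)
    (hs : Summable (fun a : J => if (a : 𝓞 K) = 0 then (0 : ℂ) else
      F (Ideal.span {(a : 𝓞 K)}) * (b (logMap (mixedEmbedding K ((a : 𝓞 K) : K))) : ℂ))) :
    HasSum (fun P : {P : Ideal (𝓞 K) // P ≠ ⊥ ∧ (∃ a, P = Ideal.span {a}) ∧ P ≤ J} => F P)
      (∑' a : J, if (a : 𝓞 K) = 0 then (0 : ℂ) else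
        F (Ideal.span {(a : 𝓞 K)}) * (b (logMap (mixedEmbedding K ((a : 𝓞 K) : K))) : ℂ)) := by
  let S := {P : Ideal (𝓞 K) // P ≠ ⊥ ∧ (∃ a, P = Ideal.span {a}) ∧ P ≤ J}
  choose γ hγ using fun P : S => P.2.2.1
  have hγ0 : ∀ P : S, γ P ≠ 0 := by
    intro P h
    refine P.2.1 ?_
    rw [hγ P, h]
    exact Ideal.span_singleton_eq_bot.2 rfl
  have hγJ : ∀ P : S, γ P ∈ J := fun P => P.2.2.2 (by
    have := Ideal.mem_span_singleton_self (γ P)
    rwa [← hγ P] at this)
  have hsp : ∀ (a : 𝓞 K) (u : (𝓞 K)ˣ), Ideal.span {(u : 𝓞 K) * a} = Ideal.span {a} := fun a u =>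
    Ideal.span_singleton_eq_span_singleton.2 (associated_unit_mul_left a _ u.isUnit)
  set h : J → ℂ := fun a : J => if (a : 𝓞 K) = 0 then (0 : ℂ) else
      F (Ideal.span {(a : 𝓞 K)}) * (b (logMap (mixedEmbedding K ((a : 𝓞 K) : K))) : ℂ) with hh
  let T := {a : J // (a : 𝓞 K) ≠ 0}
  -- the bijection
  let toF : S × (𝓞 K)ˣ → T := fun x =>
    ⟨⟨(x.2 : 𝓞 K) * γ x.1, J.mul_mem_left _ (hγJ x.1)⟩, mul_ne_zero x.2.ne_zero (hγ0 x.1)⟩
  have hbij : Function.Bijective toF := by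
    constructor
    · rintro ⟨P, u⟩ ⟨P', u'⟩ hx
      have h1 : (u : 𝓞 K) * γ P = (u' : 𝓞 K) * γ P' :=
        congrArg (fun z : T => ((z : J) : 𝓞 K)) hx
      have h2 : P = P' := by
        apply Subtype.ext
        rw [hγ P, hγ P', ← hsp (γ P) u, ← hsp (γ P') u', h1]
      subst h2
      have h3 := mul_right_cancel₀ (hγ0 P) h1
      rw [Units.ext h3]
    · rintro ⟨⟨a, haJ⟩, ha0⟩
      have ha0' : a ≠ 0 := ha0
      let P : S := ⟨Ideal.span {a}, by rwa [Ne, Ideal.span_singleton_eq_bot], ⟨a, rfl⟩,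
        (Ideal.span_singleton_le_iff_mem J).2 haJ⟩
      have h1 : Ideal.span {γ P} = Ideal.span {a} := (hγ P).symm
      obtain ⟨u, hu⟩ := Ideal.span_singleton_eq_span_singleton.1 h1
      refine ⟨(P, u), ?_⟩
      apply Subtype.ext
      apply Subtype.ext
      show (u : 𝓞 K) * γ P = a
      rw [mul_comm]
      exact hu
  let e : S × (𝓞 K)ˣ ≃ T := Equiv.ofBijective toF hbij
  have hsupp : Function.support h ⊆ {a : J | (a : 𝓞 K) ≠ 0} := by
    intro a ha h0
    exact ha (if_pos h0)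
  have h1 : HasSum (fun a : T => h a.1) (∑' a, h a) :=
    (hasSum_subtype_iff_of_support_subset hsupp).2 hs.hasSum
  have h2 : HasSum (fun x : S × (𝓞 K)ˣ => h (e x).1) (∑' a, h a) := e.hasSum_iff.2 h1
  refine HasSum.prod_fiberwise h2 fun P => ?_
  have h3 : ∀ u : (𝓞 K)ˣ, h (e (P, u)).1 = F P.1 *
      ((b (logMap (mixedEmbedding K (γ P : K)) + logEmbedding K (Additive.ofMul u)) : ℝ) : ℂ) := by
    intro u
    have h4 : (((e (P, u)).1 : J) : 𝓞 K) = (u : 𝓞 K) * γ P := rfl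
    simp only [hh]
    rw [if_neg (e (P, u)).2, h4, hsp, ← hγ P, princ_logMap (hγ0 P)]
  simp only [h3]
  have h5 := (Complex.hasSum_ofReal.2 (hb.sum (logMap (mixedEmbedding K (γ P : K))))).mul_left (F P.1)
  rw [Complex.ofReal_one, mul_one] at h5
  exact h5

end Pool.Agent.H16.HK
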