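import Pool.Agent.H16.HK.Bump
import Pool.Agent.H16.HK.Period
import Pool.Agent.H16.HK.Princ
import Pool.Agent.H16.HK.ClassS
import Pool.Agent.H16.HK.Emb
import Pool.Agent.H16.HK.Kap
import Pool.Agent.H16.HK.Eul

/-!
# Boundedness of the L-series of a Hecke character of infinite order
-/

open NumberField NumberField.InfinitePlace NumberField.mixedEmbedding NumberField.Units
open NumberField.Units.dirichletUnitTheorem MeasureTheory Module IsDedekindDomain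
open scoped Classical

namespace Pool.Agent.H16.HK

open Pool.Agent.H3.TatePole

variable {K : Type*} [Field K] [NumberField K]

lemma cut_one {y : ℝ} (hy : 1 ≤ y) : cut y = 1 := by
  unfold cut
  rw [max_eq_right (by linarith), min_eq_left (by linarith)]

lemma principal_bound {b : logSpace K → ℝ} (hb : IsBump b)
    {m : {w : InfinitePlace K // IsComplex w} → ℤ} (hm : m ≠ 0) (𝔪 : Ideal (𝓞 K)) (h𝔪 : 𝔪 ≠ ⊥)
    (Ψ : Ideal (𝓞 K) →*₀ ℂ) (h0 : ∀ I, I ⊔ 𝔪 ≠ ⊤ → Ψ I = 0)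
    (hval : ∀ a : 𝓞 K, a ≠ 0 → a - 1 ∈ 𝔪 →
      Ψ (Ideal.span {a}) = Phi m (mixedEmbedding K (a : K)))
    (J : Ideal (𝓞 K)) (hJ : J ≠ ⊥) :
    ∃ C : ℝ, ∀ t : ℝ, 1 < t → t ≤ 2 →
      ‖∑' P : {P : Ideal (𝓞 K) // P ≠ ⊥ ∧ (∃ a, P = Ideal.span {a}) ∧ P ≤ J},
        Ψ P * (((Ideal.absNorm (P : Ideal (𝓞 K)) : ℝ) ^ (-t) : ℝ) : ℂ)‖ ≤ C := by
  obtain ⟨g, hg, hg2⟩ := exists_kappa 𝔪 h𝔪 Ψ h0 m hval
  obtain ⟨C, hC⟩ := ideal_sum hb hm J 𝔪 hJ h𝔪 g hg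
  refine ⟨C, fun t ht1 ht2 => ?_⟩
  obtain ⟨hs, hle⟩ := hC t ht1 ht2
  have key : ∀ a : J, g a * G b m t (mixedEmbedding K ((a : 𝓞 K) : K)) =
      if (a : 𝓞 K) = 0 then (0 : ℂ) else
        (fun I : Ideal (𝓞 K) => Ψ I * (((Ideal.absNorm I : ℝ) ^ (-t) : ℝ) : ℂ))
          (Ideal.span {(a : 𝓞 K)}) * (b (logMap (mixedEmbedding K ((a : 𝓞 K) : K))) : ℂ) := by
    intro a
    by_cases ha : (a : 𝓞 K) = 0
    · rw [if_pos ha, ha]
      unfold G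
      have : mixedEmbedding.norm (mixedEmbedding K ((0 : 𝓞 K) : K)) = 0 := by simp
      rw [this]
      simp [cut]
    · rw [if_neg ha]
      have hN : mixedEmbedding.norm (mixedEmbedding K ((a : 𝓞 K) : K)) =
          (Ideal.absNorm (Ideal.span {(a : 𝓞 K)}) : ℝ) := by
        rw [norm_eq_norm, Ideal.absNorm_span_singleton]
        have h1 : Algebra.norm ℚ (((a : 𝓞 K) : K)) = ((Algebra.norm ℤ (a : 𝓞 K) : ℤ) : ℚ) :=
          (Algebra.coe_norm_int (a : 𝓞 K)).symm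
        rw [h1]
        push_cast
        rw [Nat.cast_natAbs]
        push_cast
        rfl
      have hN1 : 1 ≤ mixedEmbedding.norm (mixedEmbedding K ((a : 𝓞 K) : K)) := by
        rw [hN]
        have : Ideal.absNorm (Ideal.span {(a : 𝓞 K)}) ≠ 0 := by
          rw [Ne, Ideal.absNorm_eq_zero_iff, Ideal.span_singleton_eq_bot]
          exact ha
        exact_mod_cast Nat.one_le_iff_ne_zero.mpr this
      unfold G
      rw [cut_one hN1]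
      simp only
      rw [hg2 a ha, hN]
      push_cast
      ring
  rw [(summable_congr key)] at hs
  rw [tsum_congr key] at hle
  have h3 := principal_sum hb J
    (fun I : Ideal (𝓞 K) => Ψ I * (((Ideal.absNorm I : ℝ) ^ (-t) : ℝ) : ℂ)) hs
  rw [h3.tsum_eq]
  exact hle

/-- The sum over the primes of a Hecke character with a nontrivial infinity type. -/
theorem hecke_upper [IsTotallyComplex K] (𝔪 : Ideal (𝓞 K)) (h𝔪 : 𝔪 ≠ ⊥)
    (Ψ : Ideal (𝓞 K) →*₀ ℂ) (h1 : ∀ I, ‖Ψ I‖ ≤ 1) (h0 : ∀ I, I ⊔ 𝔪 ≠ ⊤ → Ψ I = 0)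
    (n : (K →+* ℂ) → ℤ) (hn : ∃ φ, n φ ≠ n (ComplexEmbedding.conjugate φ))
    (hval : ∀ a : 𝓞 K, a ≠ 0 → a - 1 ∈ 𝔪 →
      Ψ (Ideal.span {a}) = ∏ φ : K →+* ℂ, uni (φ (a : K)) ^ n φ) :
    ∃ C : ℝ, ∀ t : ℝ, 1 < t → t ≤ 2 →
      wsum (fun v : HeightOneSpectrum (𝓞 K) => (Ψ v.asIdeal).re) t ≤ C := by
  obtain ⟨b, hb⟩ := exists_bump K
  refine euler_upper Ψ h1 (class_sum Ψ h1 fun J hJ => ?_)
  refine principal_bound hb (emb_ne hn) 𝔪 h𝔪 Ψ h0 (fun a ha ha1 => ?_) J hJ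
  rw [hval a ha ha1]
  exact prod_emb n (by simpa using ha)

end Pool.Agent.H16.HK
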