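import Pool.Agent.H16.HK.Alg

/-!
# Job HK-JacC: points of `y ^ 2 = 4 x ^ ℓ + 1` over a prime field and Jacobi sums

`F = 𝓞 K ⧸ v.asIdeal` has `p = absNorm v.asIdeal` elements, `p` a prime, `ℓ ∣ p - 1` (so `p ≠ 2`), `F ≃+* ZMod p` (see `traceH1_eq_ap`,
`card_pairs_ringEquiv` in `Pool/Agent/H18/RS/Traces.lean`). The number of `(x, y) ∈ F × F` with `y ^ 2 = 4 x ^ ℓ + 1` is, with `y = 2 z - 1`, the
number of `(x, z)` with `x ^ ℓ = z (z - 1)`. In `𝓞 K`: for `a ∈ F`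
`#{x | x ^ ℓ = a} = [a = 0] + ∑_{i < ℓ} χ(a) ^ i [a ≠ 0]`: for `a ≠ 0` both sides are `ℓ` if `a` is an `ℓ`-th power (iff `χ a = 1`) and `0` otherwise
(`χ ≠ 1`, `χ ^ ℓ = 1`, `Fˣ` cyclic of order divisible by `ℓ`: the kernel of `χ` has index `ℓ` and contains the `ℓ`-th powers, a subgroup of index `ℓ`; geometric sum
of an `ℓ`-th root of unity `≠ 1`). Summing over `z`: the number of pairs is `2 + (p - 2) + ∑_{0 < i < ℓ} ∑_z χ(z (z - 1)) ^ i`, and
`∑_z χ(z) ^ i χ(z - 1) ^ i = χ(-1) ^ i ∑_z χ(z) ^ i χ(1 - z) ^ i`, `χ(-1) = 1` (`χ(-1) ^ 2 = 1`, `χ(-1) ^ ℓ = 1`, `ℓ` odd). For `0 < i < ℓ` the inner sum is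
`σ_i • jacobiSum χ χ` with `σ_i ζ = ζ ^ i` (`galEquivZMod_smul_of_pow_eq`; a bijection of the units mod `ℓ` with `Gal(K/ℚ)`). So
`ap = p - #pairs = ∑_σ σ • (- jacobiSum χ χ)`.
-/

open NumberField IsDedekindDomain Polynomial IsCyclotomicExtension.Rat
open scoped Pointwise Classical

namespace Pool.Agent.H16.HK

/-- the number of `ℓ`-th roots of `a` -/
lemma jacC_count_roots {F R : Type*} [Field F] [Fintype F] [CommRing R] [IsDomain R] {ℓ : ℕ}
    (hℓ : ℓ.Prime) (hdvd : ℓ ∣ Nat.card F - 1) {χ : MulChar F R} (h1 : χ ^ ℓ = 1) (h2 : χ ≠ 1)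
    (a : F) :
    ((Nat.card {x : F // x ^ ℓ = a} : ℕ) : R) = 1 + ∑ i ∈ Finset.Ico 1 ℓ, χ a ^ i := by
  have hcard : Nat.card {x : F // x ^ ℓ = a} = (Finset.univ.filter fun x : F => x ^ ℓ = a).card := by
    rw [Nat.card_eq_fintype_card, Fintype.card_subtype]
  rw [hcard]
  by_cases ha : a = 0
  · subst ha
    have h3 : (Finset.univ.filter fun x : F => x ^ ℓ = 0) = {0} := by
      ext x
      simp [hℓ.ne_zero]
    rw [h3, Finset.card_singleton, MulChar.map_zero]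
    have h4 : ∑ i ∈ Finset.Ico 1 ℓ, (0 : R) ^ i = 0 := by
      refine Finset.sum_eq_zero fun i hi => ?_
      have := (Finset.mem_Ico.mp hi).1
      exact zero_pow (by omega)
    rw [h4]
    simp
  obtain ⟨g, hg⟩ := IsCyclic.exists_generator (α := Fˣ)
  have hog : orderOf g = Nat.card F - 1 := by
    rw [orderOf_eq_card_of_forall_mem_zpowers hg, Nat.card_units]
  obtain ⟨d, hd⟩ := hdvd
  have hF1 : 1 < Nat.card F := Finite.one_lt_card
  have hdpos : 0 < d := by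
    rcases Nat.eq_zero_or_pos d with h | h
    · subst h; omega
    · exact h
  have hζ : IsPrimitiveRoot ((g ^ d : Fˣ) : F) ℓ := by
    rw [IsPrimitiveRoot.coe_units_iff]
    refine (IsPrimitiveRoot.orderOf g).pow (by rw [hog]; omega) ?_
    rw [hog, hd, mul_comm]
  have hall : ∀ b : F, b ≠ 0 → χ b ^ ℓ = 1 := by
    intro b hb
    rw [← MulChar.pow_apply' χ hℓ.ne_zero b, h1, MulChar.one_apply (isUnit_iff_ne_zero.mpr hb)]
  have hroots : (Finset.univ.filter fun x : F => x ^ ℓ = a).card =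
      Multiset.card (Polynomial.nthRoots ℓ a) := by
    rw [← Multiset.toFinset_card_of_nodup (hζ.nthRoots_nodup ha)]
    congr 1
    ext x
    rw [Multiset.mem_toFinset, Polynomial.mem_nthRoots hℓ.pos]
    simp
  rw [hroots, hζ.card_nthRoots a]
  have hsum : 1 + ∑ i ∈ Finset.Ico 1 ℓ, χ a ^ i = ∑ i ∈ Finset.range ℓ, χ a ^ i := by
    rw [Finset.range_eq_Ico, Finset.sum_eq_sum_Ico_succ_bot hℓ.pos, pow_zero]
  rw [hsum]
  by_cases hχ : χ a = 1
  · -- the element is a power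
    have hgne : χ (g : F) ≠ 1 := by
      intro h
      apply h2
      ext u
      obtain ⟨k, hk⟩ := Subgroup.mem_zpowers_iff.mp (hg u)
      obtain ⟨n, hn⟩ := (isOfFinOrder_of_finite g).mem_powers_iff_mem_zpowers.mpr (hg u)
      have hn' : g ^ n = u := hn
      rw [← hn', Units.val_pow_eq_pow_val, map_pow, h, one_pow]
      rw [← Units.val_pow_eq_pow_val, MulChar.one_apply_coe]
    obtain ⟨n, hn⟩ := (isOfFinOrder_of_finite g).mem_powers_iff_mem_zpowers.mpr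
      (hg (Units.mk0 a ha))
    have hn' : (g : F) ^ n = a := by
      have := congrArg Units.val hn
      simpa using this
    have hgn : χ (g : F) ^ n = 1 := by rw [← map_pow, hn', hχ]
    have : Fact ℓ.Prime := ⟨hℓ⟩
    have hord : orderOf (χ (g : F)) = ℓ :=
      orderOf_eq_prime (hall _ g.ne_zero) hgne
    have hdn : ℓ ∣ n := by
      rw [← hord]
      exact orderOf_dvd_of_pow_eq_one hgn
    obtain ⟨m, hm⟩ := hdn
    have hex : ∃ α : F, α ^ ℓ = a := ⟨(g : F) ^ m, by rw [← hn', hm, ← pow_mul, mul_comm]⟩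
    rw [if_pos hex, hχ]
    simp
  · have hnex : ¬ ∃ α : F, α ^ ℓ = a := by
      rintro ⟨α, hα⟩
      apply hχ
      have hα0 : α ≠ 0 := by
        rintro rfl
        apply ha
        rw [← hα, zero_pow hℓ.ne_zero]
      rw [← hα, map_pow, hall α hα0]
    rw [if_neg hnex]
    have h5 := mul_geom_sum (χ a) ℓ
    rw [hall a ha, sub_self] at h5
    rcases mul_eq_zero.mp h5 with h6 | h6
    · exact absurd (sub_eq_zero.mp h6) hχ
    · rw [h6]; simp

/-- the number of points, through characters -/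
lemma jacC_count_pairs {F R : Type*} [Field F] [Fintype F] [CommRing R] [IsDomain R] {ℓ : ℕ}
    (hℓ : ℓ.Prime) (hdvd : ℓ ∣ Nat.card F - 1) (h20 : (2 : F) ≠ 0) {χ : MulChar F R}
    (h1 : χ ^ ℓ = 1) (h2 : χ ≠ 1) :
    ((Nat.card {z : F × F // z.2 ^ 2 = ((fermatPoly ℓ).map (Int.castRingHom F)).eval z.1} : ℕ) : R) =
      Nat.card F + ∑ i ∈ Finset.Ico 1 ℓ, ∑ w : F, χ (w * (w - 1)) ^ i := by
  have hev : ∀ x : F, ((fermatPoly ℓ).map (Int.castRingHom F)).eval x = 4 * x ^ ℓ + 1 := by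
    intro x
    simp [fermatPoly]
  have h40 : (4 : F) ≠ 0 := by
    have : (4 : F) = 2 * 2 := by norm_num
    rw [this]
    exact mul_ne_zero h20 h20
  have hkey : ∀ x y w : F, y = 2 * w - 1 → (y ^ 2 = 4 * x ^ ℓ + 1 ↔ x ^ ℓ = w * (w - 1)) := by
    intro x y w hy
    subst hy
    constructor
    · intro h
      have h3 : 4 * (x ^ ℓ - w * (w - 1)) = 0 := by linear_combination -h
      rcases mul_eq_zero.mp h3 with h4 | h4
      · exact absurd h4 h40
      · exact sub_eq_zero.mp h4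
    · intro h
      rw [h]
      ring
  have e : {z : F × F // z.2 ^ 2 = ((fermatPoly ℓ).map (Int.castRingHom F)).eval z.1} ≃
      Σ w : F, {x : F // x ^ ℓ = w * (w - 1)} :=
    { toFun := fun z => ⟨(z.1.2 + 1) / 2, z.1.1, (hkey z.1.1 z.1.2 _ (by field_simp; ring)).mp
        (by rw [← hev]; exact z.2)⟩
      invFun := fun s => ⟨(s.2.1, 2 * s.1 - 1), by
        show (2 * s.1 - 1) ^ 2 = ((fermatPoly ℓ).map (Int.castRingHom F)).eval s.2.1
        rw [hev]
        exact (hkey _ _ _ rfl).mpr s.2.2⟩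
      left_inv := by
        rintro ⟨⟨x, y⟩, hz⟩
        apply Subtype.ext
        apply Prod.ext
        · rfl
        · show 2 * ((y + 1) / 2) - 1 = y
          field_simp
          ring
      right_inv := by
        rintro ⟨w, x, hx⟩
        have hw : (2 * w - 1 + 1) / 2 = w := by field_simp; ring
        refine Sigma.ext hw ?_
        refine (Subtype.heq_iff_coe_eq ?_).mpr rfl
        intro u
        show u ^ ℓ = (2 * w - 1 + 1) / 2 * ((2 * w - 1 + 1) / 2 - 1) ↔ u ^ ℓ = w * (w - 1)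
        rw [hw] }
  rw [Nat.card_congr e, Nat.card_sigma]
  push_cast
  rw [Finset.sum_congr rfl fun w _ => jacC_count_roots hℓ hdvd h1 h2 (w * (w - 1)),
    Finset.sum_add_distrib, Finset.sum_comm]
  simp [Nat.card_eq_fintype_card]

lemma jacC_neg_one {F R : Type*} [Field F] [Fintype F] [CommRing R] [IsDomain R] {ℓ : ℕ}
    (hℓ : ℓ.Prime) (hℓ2 : ℓ ≠ 2) {χ : MulChar F R} (h1 : χ ^ ℓ = 1) : χ (-1) = 1 := by
  have h3 : χ (-1) ^ ℓ = 1 := by
    rw [← MulChar.pow_apply' χ hℓ.ne_zero, h1, MulChar.one_apply (isUnit_iff_ne_zero.mpr (by simp))]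
  have h4 : χ (-1) ^ 2 = 1 := by
    rw [← map_pow, neg_one_sq, map_one]
  have h5 : orderOf (χ (-1)) ∣ Nat.gcd ℓ 2 :=
    Nat.dvd_gcd (orderOf_dvd_of_pow_eq_one h3) (orderOf_dvd_of_pow_eq_one h4)
  have h6 : Nat.gcd ℓ 2 = 1 := (Nat.coprime_primes hℓ Nat.prime_two).mpr hℓ2
  rw [h6, Nat.dvd_one, orderOf_eq_one_iff] at h5
  exact h5

lemma jacC_card_ringEquiv {R S : Type*} [CommRing R] [CommRing S] (e : R ≃+* S) {h : ℤ[X]} :
    Nat.card {z : R × R // z.2 ^ 2 = (h.map (Int.castRingHom R)).eval z.1} =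
    Nat.card {z : S × S // z.2 ^ 2 = (h.map (Int.castRingHom S)).eval z.1} := by
  have key : ∀ x : R, (h.map (Int.castRingHom S)).eval (e x) =
      e ((h.map (Int.castRingHom R)).eval x) := by
    intro x
    have h1 : Int.castRingHom S = (e : R →+* S).comp (Int.castRingHom R) := RingHom.ext_int _ _
    have h2 := hom_eval₂ h (Int.castRingHom R) (e : R →+* S) x
    rw [← h1] at h2
    rw [eval_map, eval_map]
    exact h2.symm
  refine Nat.card_congr ((Equiv.prodCongr e.toEquiv e.toEquiv).subtypeEquiv ?_)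
  rintro ⟨x, y⟩
  simp only [Equiv.prodCongr_apply, Prod.map_apply]
  change _ ↔ (e y) ^ 2 = (h.map (Int.castRingHom S)).eval (e x)
  rw [key, ← map_pow]
  exact e.injective.eq_iff.symm

variable {ℓ : ℕ} [Fact ℓ.Prime] {K : Type*} [Field K] [NumberField K] [IsCyclotomicExtension {ℓ} ℚ K]

open Pool.Agent.H18.RS in
theorem jac_count (hℓ : ℓ ≠ 2) {v : HeightOneSpectrum (𝓞 K)} (hv : Good ℓ v)
    (hdvd : ℓ ∣ Ideal.absNorm v.asIdeal - 1)
    [Fintype (𝓞 K ⧸ v.asIdeal)] {χ : MulChar (𝓞 K ⧸ v.asIdeal) (𝓞 K)} (h1 : χ ^ ℓ = 1)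
    (h2 : χ ≠ 1) :
    ((ap (fermatPoly ℓ) (Ideal.absNorm v.asIdeal) : ℤ) : 𝓞 K) =
      ∑ σ : Gal(K/ℚ), σ • (-jacobiSum χ χ) := by
  let _ := Ideal.Quotient.field v.asIdeal
  have hℓp : ℓ.Prime := Fact.out
  set p := Ideal.absNorm v.asIdeal with hp
  have hpp : p.Prime := hv.1
  have hcard : Nat.card (𝓞 K ⧸ v.asIdeal) = p := by
    rw [hp, Ideal.absNorm_apply, Submodule.cardQuot_apply]
  have hcard' : Fintype.card (𝓞 K ⧸ v.asIdeal) = p := by
    rw [← Nat.card_eq_fintype_card]; exact hcard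
  have hp2 : p ≠ 2 := by
    intro h
    rw [h] at hdvd
    have := Nat.dvd_one.mp hdvd
    exact hℓp.one_lt.ne' this
  let e : ZMod p ≃+* 𝓞 K ⧸ v.asIdeal := ZMod.ringEquivOfPrime _ hpp hcard'
  have h20 : (2 : 𝓞 K ⧸ v.asIdeal) ≠ 0 := by
    intro h
    have h3 : e 2 = 0 := by rw [map_ofNat]; exact h
    rw [map_eq_zero_iff e e.injective] at h3
    have h4 : ((2 : ℕ) : ZMod p) = 0 := by exact_mod_cast h3
    rw [ZMod.natCast_eq_zero_iff] at h4
    exact hp2 ((Nat.prime_dvd_prime_iff_eq hpp Nat.prime_two).mp h4)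
  have hcount := jacC_count_pairs (R := 𝓞 K) hℓp (by rw [hcard]; exact hdvd) h20 h1 h2
  have hap : ((ap (fermatPoly ℓ) p : ℤ) : 𝓞 K) =
      -∑ i ∈ Finset.Ico 1 ℓ, ∑ w : 𝓞 K ⧸ v.asIdeal, χ (w * (w - 1)) ^ i := by
    unfold ap
    rw [jacC_card_ringEquiv e, Int.cast_sub, Int.cast_natCast, Int.cast_natCast, hcount, hcard]
    ring
  rw [hap]
  have hneg := jacC_neg_one hℓp hℓ h1
  have hχ : ∀ w : 𝓞 K ⧸ v.asIdeal, χ (w * (w - 1)) = χ w * χ (1 - w) := by
    intro w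
    have : w * (w - 1) = (-1) * (w * (1 - w)) := by ring
    rw [this, map_mul, hneg, one_mul, map_mul]
  simp only [hχ]
  have hσ : ∀ σ : Gal(K/ℚ), ∀ b : 𝓞 K ⧸ v.asIdeal, σ • χ b = χ b ^ (galEquivZMod ℓ K σ).val.val := by
    intro σ b
    by_cases hb : b = 0
    · subst hb
      rw [MulChar.map_zero, smul_zero, zero_pow]
      intro h
      have h5 := (galEquivZMod ℓ K σ).isUnit
      rw [(ZMod.val_eq_zero _).mp h] at h5
      exact not_isUnit_zero h5
    · apply galEquivZMod_smul_of_pow_eq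
      rw [← MulChar.pow_apply' χ hℓp.ne_zero b, h1,
        MulChar.one_apply (isUnit_iff_ne_zero.mpr hb)]
  have hjac : ∀ σ : Gal(K/ℚ), σ • (-jacobiSum χ χ) =
      -∑ w : 𝓞 K ⧸ v.asIdeal, (χ w * χ (1 - w)) ^ (galEquivZMod ℓ K σ).val.val := by
    intro σ
    rw [smul_neg, jacobiSum, Finset.smul_sum]
    congr 1
    refine Finset.sum_congr rfl fun w _ => ?_
    rw [smul_mul', hσ, hσ, mul_pow]
  rw [Finset.sum_congr rfl fun σ _ => hjac σ, Finset.sum_neg_distrib]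
  congr 1
  symm
  refine Finset.sum_bij (fun σ _ => (galEquivZMod ℓ K σ).val.val) ?_ ?_ ?_ ?_
  · intro σ _
    rw [Finset.mem_Ico]
    refine ⟨?_, ZMod.val_lt _⟩
    rw [Nat.one_le_iff_ne_zero]
    intro h
    have h5 := (galEquivZMod ℓ K σ).isUnit
    rw [(ZMod.val_eq_zero _).mp h] at h5
    exact not_isUnit_zero h5
  · intro σ _ τ _ h
    have h3 := ZMod.val_injective ℓ h
    exact (galEquivZMod ℓ K).injective (Units.ext h3)
  · intro i hi
    rw [Finset.mem_Ico] at hi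
    have hcop : Nat.Coprime i ℓ := by
      rw [Nat.coprime_comm]
      exact (Nat.Prime.coprime_iff_not_dvd hℓp).mpr (Nat.not_dvd_of_pos_of_lt (by omega) hi.2)
    refine ⟨(galEquivZMod ℓ K).symm (ZMod.unitOfCoprime i hcop), Finset.mem_univ _, ?_⟩
    rw [MulEquiv.apply_symm_apply, ZMod.coe_unitOfCoprime, ZMod.val_natCast, Nat.mod_eq_of_lt hi.2]
  · intro σ _
    rfl

end Pool.Agent.H16.HK
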