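import Pool.Agent.H16.HK.JacA

/-!
# Job HK-JacF: the prime factorization of the Jacobi sum

`F = 𝓞 K ⧸ v.asIdeal`, `p = absNorm v.asIdeal = card F`, `k = (p - 1) / ℓ`.
(a) Let `σ ∈ half`, `σ⁻¹ ζ = ζ ^ t`, `0 < t`, `2 t < ℓ`. `σ⁻¹ • jacobiSum χ χ = ∑_x χ(x) ^ t χ(1 - x) ^ t`
(`χ x` is `0` or an `ℓ`-th root of unity, `galEquivZMod_smul_of_pow_eq`). Modulo `v` this is
`∑_{x ∈ F} x ^ (t k) (1 - x) ^ (t k)`, a sum over `F` of a polynomial of degree `2 t k < p - 1`: it is `0` (`FiniteField.sum_pow_lt_card_sub_one`,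
expand, or `FiniteField`/`MvPolynomial.sum_eval_eq_zero`). So `σ⁻¹ • J ∈ v`, `J ∈ σ • v` (`Ideal.mem_pointwise_smul_iff_inv_smul_mem`).
(b) The ideals `σ • v.asIdeal`, `σ ∈ Gal(K/ℚ)`, are distinct: if `σ • v = v`, then `σ` acts on `𝓞 K ⧸ v`, the prime field `𝔽_p`, trivially, so
`σ ζ - ζ ∈ v`, and the `ℓ`-th roots of unity are distinct modulo `v` (`Ideal.rootsOfUnityMapQuot_injective`), so `σ ζ = ζ`, `σ = 1`
(or use `galEquivZMod_stabilizer`, with `p ≡ 1 mod ℓ`).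
(c) So the product of the distinct primes `σ • v`, `σ ∈ half`, divides `(J)` (`Finset.prod_primes_dvd`; `Ideal.dvd_iff_le`).
(d) `absNorm (J) = |N(J)| = ∏_φ |φ J| = p ^ ((ℓ - 1) / 2)` by `jac_norm` (`Algebra.norm_eq_prod_embeddings`, there are `ℓ - 1` embeddings; take squares), and
`absNorm (∏ σ • v) = p ^ |half|` (`σ •` preserves `absNorm`), `|half| = (ℓ - 1) / 2`: `galEquivZMod` is a bijection of `Gal(K/ℚ)` with
`(ZMod ℓ)ˣ`, and the nonzero residues `t` with `2 t.val < ℓ` are `(ℓ - 1) / 2` in number. A multiple with the same norm is equal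
(`(J) = P * Q`, `absNorm Q = 1`, `Ideal.absNorm_eq_one_iff`).
-/

open NumberField IsDedekindDomain Polynomial IsCyclotomicExtension.Rat
open scoped Pointwise Classical

namespace Pool.Agent.H16.HK

variable {ℓ : ℕ} [Fact ℓ.Prime] {K : Type*} [Field K] [NumberField K] [IsCyclotomicExtension {ℓ} ℚ K]

omit [IsCyclotomicExtension {ℓ} ℚ K] [Fact ℓ.Prime] in
theorem absNorm_smul' (σ : Gal(K/ℚ)) (I : Ideal (𝓞 K)) :
    Ideal.absNorm (σ • I) = Ideal.absNorm I := by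
  rw [Ideal.absNorm_apply, Ideal.absNorm_apply, Submodule.cardQuot_apply, Submodule.cardQuot_apply]
  exact Nat.card_congr (Ideal.quotientEquiv I (σ • I)
    (MulSemiringAction.toRingEquiv Gal(K/ℚ) (𝓞 K) σ) rfl).symm.toEquiv

theorem val_neg_unit (u : (ZMod ℓ)ˣ) : (-u).val.val = ℓ - u.val.val := by
  have : NeZero ℓ := ⟨(Fact.out : ℓ.Prime).ne_zero⟩
  rw [Units.val_neg, ZMod.neg_val]
  rw [if_neg (Units.ne_zero u)]

theorem card_half (hℓ : ℓ ≠ 2) : 2 * (half ℓ K).card = ℓ - 1 := by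
  have hp : ℓ.Prime := Fact.out
  obtain ⟨A, hA⟩ : ∃ A : Finset (ZMod ℓ)ˣ, A = Finset.univ.filter (fun u => 2 * u.val.val < ℓ) := ⟨_, rfl⟩
  obtain ⟨B, hB⟩ : ∃ B : Finset (ZMod ℓ)ˣ, B = Finset.univ.filter (fun u => ¬ 2 * u.val.val < ℓ) := ⟨_, rfl⟩
  have h1 : (half ℓ K).card = A.card := by
    rw [hA]
    unfold half
    refine Finset.card_bij' (fun σ _ => galEquivZMod ℓ K σ⁻¹) (fun u _ => ((galEquivZMod ℓ K).symm u)⁻¹)
      ?_ ?_ ?_ ?_
    · intro σ hσ
      rw [Finset.mem_filter] at hσ ⊢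
      exact ⟨Finset.mem_univ _, hσ.2⟩
    · intro u hu
      rw [Finset.mem_filter] at hu ⊢
      refine ⟨Finset.mem_univ _, ?_⟩
      rw [inv_inv, MulEquiv.apply_symm_apply]
      exact hu.2
    · intro σ _
      rw [MulEquiv.symm_apply_apply, inv_inv]
    · intro u _
      rw [inv_inv, MulEquiv.apply_symm_apply]
  have hlt : ∀ u : (ZMod ℓ)ˣ, u.val.val < ℓ := fun u => ZMod.val_lt _
  have hpos : ∀ u : (ZMod ℓ)ˣ, 0 < u.val.val := fun u =>
    Nat.pos_of_ne_zero (fun h => Units.ne_zero u ((ZMod.val_eq_zero _).1 h))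
  have hodd : ℓ % 2 = 1 := by
    rcases hp.eq_two_or_odd with h | h
    · exact absurd h hℓ
    · exact h
  have h2 : A.card = B.card := by
    rw [hA, hB]
    refine Finset.card_bij' (fun u _ => -u) (fun u _ => -u) ?_ ?_ ?_ ?_
    · intro u hu
      rw [Finset.mem_filter] at hu ⊢
      refine ⟨Finset.mem_univ _, ?_⟩
      have h := hu.2
      rw [val_neg_unit]
      have := hlt u
      omega
    · intro u hu
      rw [Finset.mem_filter] at hu ⊢
      refine ⟨Finset.mem_univ _, ?_⟩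
      have h := hu.2
      rw [val_neg_unit]
      have := hlt u
      have := hpos u
      omega
    · intro u _
      exact neg_neg u
    · intro u _
      exact neg_neg u
  have h3 : A.card + B.card = ℓ - 1 := by
    rw [hA, hB, Finset.card_filter_add_card_filter_not, Finset.card_univ, ZMod.card_units]
  omega

theorem mk_prim {v : HeightOneSpectrum (𝓞 K)} (hv : Good ℓ v) :
    IsPrimitiveRoot (Ideal.Quotient.mk v.asIdeal
      (IsCyclotomicExtension.zeta_spec ℓ ℚ K).toInteger) ℓ := by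
  have hp : ℓ.Prime := Fact.out
  refine (IsCyclotomicExtension.zeta_spec ℓ ℚ K).toInteger_isPrimitiveRoot.idealQuotient_mk
    hv.1.one_lt.ne' ?_
  exact (Nat.coprime_primes hv.1 hp).2 hv.2

omit [IsCyclotomicExtension {ℓ} ℚ K] [Fact ℓ.Prime] in
theorem smul_nat (σ : Gal(K/ℚ)) (m : ℕ) : σ • (m : 𝓞 K) = m :=
  map_natCast (MulSemiringAction.toRingHom Gal(K/ℚ) (𝓞 K) σ) m

omit [IsCyclotomicExtension {ℓ} ℚ K] [Fact ℓ.Prime] in
theorem exists_int_sub_mem {v : HeightOneSpectrum (𝓞 K)} (hv : (Ideal.absNorm v.asIdeal).Prime)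
    (x : 𝓞 K) : ∃ m : ℕ, x - m ∈ v.asIdeal := by
  have : Fact (Ideal.absNorm v.asIdeal).Prime := ⟨hv⟩
  have h1 : Nat.card (𝓞 K ⧸ v.asIdeal) = Ideal.absNorm v.asIdeal := by
    rw [Ideal.absNorm_apply, Submodule.cardQuot_apply]
  have : Nontrivial (𝓞 K ⧸ v.asIdeal) := Ideal.Quotient.nontrivial_iff.2 v.isPrime.ne_top
  have h2 := mem_multiples_of_prime_card h1 (g := (1 : 𝓞 K ⧸ v.asIdeal))
    (g' := Ideal.Quotient.mk v.asIdeal x) one_ne_zero
  rw [AddSubmonoid.mem_multiples_iff] at h2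
  obtain ⟨m, hm⟩ := h2
  refine ⟨m, ?_⟩
  rw [← Ideal.Quotient.eq, ← hm, map_natCast, nsmul_eq_mul, mul_one]

theorem smul_prime_injective {v : HeightOneSpectrum (𝓞 K)} (hv : Good ℓ v) :
    Function.Injective (fun σ : Gal(K/ℚ) => σ • v.asIdeal) := by
  have key : ∀ σ : Gal(K/ℚ), σ • v.asIdeal = v.asIdeal → σ = 1 := by
    intro σ hσ
    have hζ := (IsCyclotomicExtension.zeta_spec ℓ ℚ K).toInteger_isPrimitiveRoot
    obtain ⟨m, hm⟩ := exists_int_sub_mem hv.1 (IsCyclotomicExtension.zeta_spec ℓ ℚ K).toInteger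
    have h1 : σ • (IsCyclotomicExtension.zeta_spec ℓ ℚ K).toInteger - (m : 𝓞 K) ∈ v.asIdeal := by
      rw [← hσ]
      have := Ideal.smul_mem_pointwise_smul σ _ _ hm
      rwa [smul_sub, smul_nat] at this
    have h2 := v.asIdeal.sub_mem h1 hm
    rw [sub_sub_sub_cancel_right] at h2
    rw [galEquivZMod_smul_of_pow_eq ℓ K σ hζ.pow_eq_one] at h2
    have h3 := (Ideal.Quotient.eq (I := v.asIdeal)).2 h2
    rw [map_pow] at h3
    have h4 : (galEquivZMod ℓ K σ).val.val = 1 := by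
      have hp : ℓ.Prime := Fact.out
      refine (mk_prim hv).pow_inj (ZMod.val_lt _) hp.one_lt ?_
      rw [pow_one]
      exact h3
    have h5 : galEquivZMod ℓ K σ = 1 := by
      apply Units.ext
      have hp : ℓ.Prime := Fact.out
      have : Fact (1 < ℓ) := ⟨hp.one_lt⟩
      apply ZMod.val_injective
      rw [h4, Units.val_one, ZMod.val_one]
    exact (MulEquiv.map_eq_one_iff _).1 h5
  intro σ τ h
  have h1 : (τ⁻¹ * σ) • v.asIdeal = v.asIdeal := by
    rw [mul_smul]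
    have h' : σ • v.asIdeal = τ • v.asIdeal := h
    rw [h', inv_smul_smul]
  have h2 := key _ h1
  exact (inv_mul_eq_one.1 h2).symm

theorem sum_eval_zero {F : Type*} [CommRing F] [IsDomain F] [Fintype F] (P : F[X])
    (h : P.natDegree < Fintype.card F - 1) : ∑ x, P.eval x = 0 := by
  have key : ∀ i < Fintype.card F - 1, ∑ x : F, x ^ i = 0 := by
    intro i hi
    let := Fintype.fieldOfDomain F
    exact FiniteField.sum_pow_lt_card_sub_one F i hi
  simp_rw [Polynomial.eval_eq_sum_range]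
  rw [Finset.sum_comm]
  apply Finset.sum_eq_zero
  intro i hi
  rw [← Finset.mul_sum]
  rw [Finset.mem_range] at hi
  rw [key i (by omega), mul_zero]

theorem card_quot (v : HeightOneSpectrum (𝓞 K)) [Fintype (𝓞 K ⧸ v.asIdeal)] :
    Fintype.card (𝓞 K ⧸ v.asIdeal) = Ideal.absNorm v.asIdeal := by
  rw [Ideal.absNorm_apply, Submodule.cardQuot_apply, Nat.card_eq_fintype_card]

theorem smul_jac_mem {v : HeightOneSpectrum (𝓞 K)} (hv : Good ℓ v)
    (hdvd : ℓ ∣ Ideal.absNorm v.asIdeal - 1)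
    [Fintype (𝓞 K ⧸ v.asIdeal)] {χ : MulChar (𝓞 K ⧸ v.asIdeal) (𝓞 K)} (h1 : χ ^ ℓ = 1)
    (h3 : ∀ x : 𝓞 K, χ (Ideal.Quotient.mk v.asIdeal x) -
      x ^ ((Ideal.absNorm v.asIdeal - 1) / ℓ) ∈ v.asIdeal) (σ : Gal(K/ℚ)) (hσ : σ ∈ half ℓ K) :
    σ⁻¹ • jacobiSum χ χ ∈ v.asIdeal := by
  have hp : ℓ.Prime := Fact.out
  have := v.isPrime
  obtain ⟨t, ht⟩ : ∃ t, t = (galEquivZMod ℓ K σ⁻¹).val.val := ⟨_, rfl⟩
  have ht0 : t ≠ 0 := by
    rw [ht]
    exact fun h => Units.ne_zero (galEquivZMod ℓ K σ⁻¹) ((ZMod.val_eq_zero _).1 h)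
  have ht2 : 2 * t < ℓ := by
    unfold half at hσ
    rw [Finset.mem_filter, ← ht] at hσ
    exact hσ.2
  obtain ⟨k, hk⟩ : ∃ k, k = (Ideal.absNorm v.asIdeal - 1) / ℓ := ⟨_, rfl⟩
  have hk' : Ideal.absNorm v.asIdeal - 1 = ℓ * k := by
    rw [hk, Nat.mul_div_cancel' hdvd]
  have hk0 : 0 < k := by
    rcases Nat.eq_zero_or_pos k with h | h
    · rw [h, mul_zero] at hk'
      have := hv.1.two_le
      omega
    · exact h
  rw [← hk] at h3
  have e1 : ∀ x, σ⁻¹ • χ x = χ x ^ t := by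
    intro x
    by_cases hx : IsUnit x
    · rw [ht]
      apply galEquivZMod_smul_of_pow_eq ℓ K σ⁻¹
      rw [← MulChar.pow_apply' χ hp.ne_zero, h1, MulChar.one_apply hx]
    · rw [MulChar.map_nonunit χ hx, smul_zero, zero_pow ht0]
  have e2 : ∀ x, Ideal.Quotient.mk v.asIdeal (χ x) = x ^ k := by
    intro x
    obtain ⟨y, rfl⟩ := Ideal.Quotient.mk_surjective x
    rw [← map_pow, Ideal.Quotient.eq]
    exact h3 y
  rw [← Ideal.Quotient.eq_zero_iff_mem]
  have e3 : Ideal.Quotient.mk v.asIdeal (σ⁻¹ • jacobiSum χ χ) =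
      ∑ x, ((X ^ (k * t) * (1 - X) ^ (k * t) : (𝓞 K ⧸ v.asIdeal)[X])).eval x := by
    unfold jacobiSum
    rw [Finset.smul_sum, map_sum]
    apply Finset.sum_congr rfl
    intro x _
    rw [smul_mul', e1, e1, map_mul, map_pow, map_pow, e2, e2, eval_mul, eval_pow, eval_pow, eval_sub,
      eval_X, eval_one, pow_mul, pow_mul]
  rw [e3]
  apply sum_eval_zero
  rw [card_quot, hk']
  refine lt_of_le_of_lt (natDegree_mul_le.trans (add_le_add (natDegree_X_pow_le _)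
    (natDegree_pow_le_of_le (k * t) (natDegree_sub_le_of_le natDegree_one.le natDegree_X.le)))) ?_
  have : max 0 1 = 1 := rfl
  rw [this, mul_one]
  nlinarith

theorem jac_ideal (hℓ : ℓ ≠ 2) {v : HeightOneSpectrum (𝓞 K)} (hv : Good ℓ v)
    (hdvd : ℓ ∣ Ideal.absNorm v.asIdeal - 1)
    [Fintype (𝓞 K ⧸ v.asIdeal)] {χ : MulChar (𝓞 K ⧸ v.asIdeal) (𝓞 K)} (h1 : χ ^ ℓ = 1) (h2 : χ ≠ 1)
    (h3 : ∀ x : 𝓞 K, χ (Ideal.Quotient.mk v.asIdeal x) -
      x ^ ((Ideal.absNorm v.asIdeal - 1) / ℓ) ∈ v.asIdeal) :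
    Ideal.span {-jacobiSum χ χ} = ∏ σ ∈ half ℓ K, σ • v.asIdeal := by
  have hp : ℓ.Prime := Fact.out
  have habs : ∀ σ : Gal(K/ℚ), Ideal.absNorm (σ • v.asIdeal) = Ideal.absNorm v.asIdeal :=
    fun σ => absNorm_smul' σ _
  have hprime : ∀ σ : Gal(K/ℚ), Prime (σ • v.asIdeal) := by
    intro σ
    have g1 : Irreducible (Ideal.absNorm (σ • v.asIdeal)) := by
      rw [habs]
      exact hv.1
    apply Ideal.prime_of_isPrime
    · intro h
      rw [h, Ideal.absNorm_bot] at g1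
      exact not_irreducible_zero g1
    · exact Ideal.isPrime_of_irreducible_absNorm g1
  have hdiv : ∏ σ ∈ half ℓ K, σ • v.asIdeal ∣ Ideal.span {-jacobiSum χ χ} := by
    rw [← Finset.prod_image (s := half ℓ K) (g := fun σ => σ • v.asIdeal) (f := fun I => I)
      (fun σ _ τ _ h => smul_prime_injective hv h)]
    apply Finset.prod_primes_dvd
    · intro I hI
      rw [Finset.mem_image] at hI
      obtain ⟨σ, _, rfl⟩ := hI
      exact hprime σ
    · intro I hI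
      rw [Finset.mem_image] at hI
      obtain ⟨σ, hσ, rfl⟩ := hI
      rw [Ideal.dvd_span_singleton, Ideal.mem_pointwise_smul_iff_inv_smul_mem, smul_neg]
      exact neg_mem (smul_jac_mem hv hdvd h1 h3 σ hσ)
  obtain ⟨Q, hQ⟩ := hdiv
  have hn1 : Ideal.absNorm (∏ σ ∈ half ℓ K, σ • v.asIdeal) =
      Ideal.absNorm v.asIdeal ^ (half ℓ K).card := by
    rw [map_prod, Finset.prod_congr rfl fun σ _ => habs σ, Finset.prod_const]
  have hfin : Module.finrank ℚ K = ℓ - 1 := by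
    rw [IsCyclotomicExtension.finrank (n := ℓ) K (cyclotomic.irreducible_rat hp.pos), Nat.totient_prime hp]
  have hn2 : Ideal.absNorm (Ideal.span {-jacobiSum χ χ}) ^ 2 =
      Ideal.absNorm v.asIdeal ^ (ℓ - 1) := by
    have g1 : ((Ideal.absNorm (Ideal.span {-jacobiSum χ χ}) : ℕ) : ℝ) =
        ∏ w : InfinitePlace K, w ((-jacobiSum χ χ : 𝓞 K) : K) ^ w.mult := by
      rw [InfinitePlace.prod_eq_abs_norm, Ideal.absNorm_span_singleton, ← Algebra.coe_norm_int]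
      rw [Nat.cast_natAbs]
      push_cast
      rfl
    have g2 : (((Ideal.absNorm (Ideal.span {-jacobiSum χ χ})) ^ 2 : ℕ) : ℝ) =
        ((Ideal.absNorm v.asIdeal ^ (ℓ - 1) : ℕ) : ℝ) := by
      push_cast
      rw [g1, ← Finset.prod_pow, ← hfin, ← InfinitePlace.sum_mult_eq, ← Finset.prod_pow_eq_pow_sum]
      apply Finset.prod_congr rfl
      intro w _
      rw [← pow_mul, mul_comm, pow_mul, ← InfinitePlace.norm_embedding_eq, jac_norm hℓ hv h1 h2]
    exact_mod_cast g2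
  have hn3 : Ideal.absNorm (Ideal.span {-jacobiSum χ χ}) =
      Ideal.absNorm (∏ σ ∈ half ℓ K, σ • v.asIdeal) := by
    apply Nat.pow_left_injective (n := 2) two_ne_zero
    change _ ^ 2 = _ ^ 2
    rw [hn2, hn1, ← pow_mul, mul_comm, card_half hℓ]
  have hn4 : Ideal.absNorm Q = 1 := by
    have g1 := congrArg Ideal.absNorm hQ
    rw [map_mul, hn3] at g1
    have g2 : Ideal.absNorm (∏ σ ∈ half ℓ K, σ • v.asIdeal) ≠ 0 := by
      rw [hn1]
      exact pow_ne_zero _ hv.1.ne_zero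
    exact Nat.eq_of_mul_eq_mul_left (Nat.pos_of_ne_zero g2) (by rw [mul_one]; exact g1.symm)
  rw [hQ, Ideal.absNorm_eq_one_iff.1 hn4, Ideal.mul_top]

end Pool.Agent.H16.HK
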