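import Pool.Agent.H16.HK.Char
import Pool.Agent.H16.HK.JacF
import Pool.Agent.H16.HK.JacC

/-!
# The Jacobi sum of a prime of degree one
-/

open NumberField IsDedekindDomain Polynomial IsCyclotomicExtension.Rat
open scoped Pointwise Classical

namespace Pool.Agent.H16.HK

variable {ℓ : ℕ} [Fact ℓ.Prime] {K : Type*} [Field K] [NumberField K] [IsCyclotomicExtension {ℓ} ℚ K]

theorem exists_isJac (hℓ : ℓ ≠ 2) {v : HeightOneSpectrum (𝓞 K)} (hv : Good ℓ v) :
    ∃ J : 𝓞 K, IsJac ℓ v J := by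
  obtain ⟨hdvd, χ, h1, h2, h3⟩ := exists_char hv
  have : Finite (𝓞 K ⧸ v.asIdeal) := by
    have := v.isMaximal
    infer_instance
  have : Fintype (𝓞 K ⧸ v.asIdeal) := Fintype.ofFinite _
  exact ⟨-jacobiSum χ χ, jac_norm hℓ hv h1 h2, jac_congr hℓ hv hdvd h1,
    jac_ideal hℓ hv hdvd h1 h2 h3, jac_count hℓ hv hdvd h1 h2⟩

theorem exists_jac (hℓ : ℓ ≠ 2) (K : Type*) [Field K] [NumberField K]
    [IsCyclotomicExtension {ℓ} ℚ K] :
    ∃ J : HeightOneSpectrum (𝓞 K) → 𝓞 K, ∀ v, Good ℓ v → IsJac ℓ v (J v) := by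
  refine ⟨fun v => if h : Good ℓ v then (exists_isJac hℓ h).choose else 1, fun v hv => ?_⟩
  simp only [hv, dif_pos]
  exact (exists_isJac hℓ hv).choose_spec

end Pool.Agent.H16.HK
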