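import Pool.Agent.H16.HK.Alg

/-!
# Job HK-JacA: absolute value and congruence of the Jacobi sum

* `jac_norm`: put `χ' = χ.ringHomComp (φ ∘ (𝓞 K → K)) : MulChar F ℂ`; `φ (jacobiSum χ χ) = jacobiSum χ' χ'` (`jacobiSum_ringHomComp`).
  `χ' ≠ 1` (the map `𝓞 K → ℂ` is injective), `χ' * χ' ≠ 1` (`ℓ` is odd: `χ' ^ 2 = 1` and `χ' ^ ℓ = 1` give `χ' = 1`), so
  `jacobiSum χ' χ' * jacobiSum χ'⁻¹ χ'⁻¹ = card F` (`jacobiSum_mul_jacobiSum_inv`; `ringChar ℂ = 0 ≠ p = ringChar F`), and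
  `jacobiSum χ'⁻¹ χ'⁻¹` is the complex conjugate of `jacobiSum χ' χ'` (`MulChar.star_apply`, `MulChar.star_eq_inv` or directly: values are roots of unity or `0`).
  `card F = absNorm v.asIdeal` (`Ideal.absNorm_apply`, `Submodule.cardQuot_apply`). `F` is a field: `Ideal.Quotient.field v.asIdeal`.
* `jac_congr`: `exists_jacobiSum_eq_neg_one_add` with `n = ℓ > 2`, `μ = (zeta_spec ℓ ℚ K).toInteger`: `jacobiSum χ χ = -1 + z (μ - 1) ^ 2` with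
  `z ∈ 𝓞 K`; it needs `χ ^ ℓ = 1` and `ℓ ∣ card F - 1`.
-/

open NumberField IsDedekindDomain Polynomial IsCyclotomicExtension.Rat
open scoped Pointwise Classical

namespace Pool.Agent.H16.HK

variable {ℓ : ℕ} [Fact ℓ.Prime] {K : Type*} [Field K] [NumberField K] [IsCyclotomicExtension {ℓ} ℚ K]

theorem jacA_ne {F : Type*} [Field F] [Fintype F] {q : ℕ} (hq : q.Prime) (h2 : q ≠ 2)
    {χ : MulChar F ℂ} (h1 : χ ^ q = 1) (hχ : χ ≠ 1) : χ * χ ≠ 1 := by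
  intro h
  have h3 : orderOf χ ∣ q := orderOf_dvd_of_pow_eq_one h1
  have h4 : orderOf χ ∣ 2 := orderOf_dvd_of_pow_eq_one (by rw [pow_two, h])
  have h5 : Nat.Coprime q 2 := (Nat.coprime_primes hq Nat.prime_two).2 h2
  have h6 : orderOf χ ∣ 1 := by
    have h7 := Nat.dvd_gcd h3 h4
    rwa [h5] at h7
  exact hχ (orderOf_eq_one_iff.1 (Nat.dvd_one.1 h6))

theorem jacA_norm {F : Type*} [Field F] [Fintype F] {q : ℕ} (hq : q.Prime) (h2 : q ≠ 2)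
    {χ : MulChar F ℂ} (h1 : χ ^ q = 1) (hχ : χ ≠ 1) :
    ‖jacobiSum χ χ‖ ^ 2 = (Fintype.card F : ℝ) := by
  have hr : ringChar ℂ ≠ ringChar F := by
    rw [ringChar.eq_zero]
    exact (CharP.ringChar_ne_zero_of_finite F).symm
  have h3 := jacobiSum_mul_jacobiSum_inv hr hχ hχ (jacA_ne hq h2 h1 hχ)
  have h4 : jacobiSum χ⁻¹ χ⁻¹ = star (jacobiSum χ χ) := by
    rw [jacobiSum, jacobiSum, star_sum]
    refine Finset.sum_congr rfl fun x _ => ?_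
    rw [star_mul', MulChar.star_apply', MulChar.star_apply']
  rw [h4] at h3
  have h5 : jacobiSum χ χ * star (jacobiSum χ χ) = ((‖jacobiSum χ χ‖ ^ 2 : ℝ) : ℂ) := by
    rw [← Complex.normSq_eq_norm_sq]
    exact Complex.mul_conj _
  rw [h5] at h3
  exact_mod_cast h3

theorem jacA_norm' {F : Type*} [Field F] [Fintype F] {q : ℕ} (hq : q.Prime) (h2 : q ≠ 2)
    {R : Type*} [CommRing R] (f : R →+* ℂ) (hf : Function.Injective f)
    {χ : MulChar F R} (h1 : χ ^ q = 1) (hχ : χ ≠ 1) :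
    ‖f (-jacobiSum χ χ)‖ ^ 2 = (Fintype.card F : ℝ) := by
  rw [map_neg, norm_neg, ← jacobiSum_ringHomComp]
  refine jacA_norm hq h2 ?_ ((MulChar.ringHomComp_ne_one_iff hf).2 hχ)
  rw [MulChar.ringHomComp_pow, h1, MulChar.ringHomComp_one]

theorem jacA_card {v : HeightOneSpectrum (𝓞 K)} [Fintype (𝓞 K ⧸ v.asIdeal)] :
    Fintype.card (𝓞 K ⧸ v.asIdeal) = Ideal.absNorm v.asIdeal := by
  rw [Ideal.absNorm_apply, Submodule.cardQuot_apply, Nat.card_eq_fintype_card]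

theorem jac_norm (hℓ : ℓ ≠ 2) {v : HeightOneSpectrum (𝓞 K)} (hv : Good ℓ v)
    [Fintype (𝓞 K ⧸ v.asIdeal)] {χ : MulChar (𝓞 K ⧸ v.asIdeal) (𝓞 K)} (h1 : χ ^ ℓ = 1) (h2 : χ ≠ 1)
    (φ : K →+* ℂ) :
    ‖φ ((-jacobiSum χ χ : 𝓞 K) : K)‖ ^ 2 = Ideal.absNorm v.asIdeal := by
  let _ : Field (𝓞 K ⧸ v.asIdeal) := Ideal.Quotient.field v.asIdeal
  rw [← jacA_card]
  exact jacA_norm' (Fact.out : ℓ.Prime) hℓ (φ.comp (algebraMap (𝓞 K) K))
    (φ.injective.comp (FaithfulSMul.algebraMap_injective (𝓞 K) K)) h1 h2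

theorem jac_congr (hℓ : ℓ ≠ 2) {v : HeightOneSpectrum (𝓞 K)} (hv : Good ℓ v)
    (hdvd : ℓ ∣ Ideal.absNorm v.asIdeal - 1)
    [Fintype (𝓞 K ⧸ v.asIdeal)] {χ : MulChar (𝓞 K ⧸ v.asIdeal) (𝓞 K)} (h1 : χ ^ ℓ = 1) :
    -jacobiSum χ χ - 1 ∈ lam ℓ K ^ 2 := by
  let _ : Field (𝓞 K ⧸ v.asIdeal) := Ideal.Quotient.field v.asIdeal
  have h2 : 2 < ℓ := lt_of_le_of_ne (Fact.out : ℓ.Prime).two_le (Ne.symm hℓ)
  rw [← jacA_card] at hdvd
  obtain ⟨z, -, hz⟩ := exists_jacobiSum_eq_neg_one_add h2 h1 h1 hdvd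
    (IsCyclotomicExtension.zeta_spec ℓ ℚ K).toInteger_isPrimitiveRoot
  rw [lam, Ideal.span_singleton_pow, Ideal.mem_span_singleton, hz]
  exact ⟨-z, by ring⟩

end Pool.Agent.H16.HK
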