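import Pool.Agent.H16.HK.Riem
import Pool.Agent.H16.HK.GDiff
import Pool.Agent.H16.HK.GInt

/-!
# Job HK-LatSum: the sum of `G` over a coset of an ideal

Apply `riemann` to `V = mixedSpace K`, `μ = volume`, the lattice of the ideal `I`: `mixedEmbedding.idealLattice K (FractionalIdeal.mk0 K ⟨I, _⟩)` (instances
`DiscreteTopology`, `IsZLattice ℝ` in Mathlib), which is the image of `I` under `mixedEmbedding K` (`mem_idealLattice`); the map
`I → lattice` is a bijection (`mixedEmbedding_injective`), so sums over `I` are sums over the lattice (`Equiv.summable_iff`, `Equiv.tsum_eq`),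
`x₀ = mixedEmbedding K r`. The hypotheses are `G_integrable`, `G_integral` and `G_diff hb m R` (`finrank ℝ (mixedSpace K) = finrank ℚ K`:
`mixedEmbedding.finrank`); `C` does not depend on `t`.
-/

open NumberField NumberField.InfinitePlace NumberField.mixedEmbedding NumberField.Units
open NumberField.Units.dirichletUnitTheorem MeasureTheory Module
open scoped Classical

namespace Pool.Agent.H16.HK

variable {K : Type*} [Field K] [NumberField K]

theorem lattice_sum {b : logSpace K → ℝ} (hb : IsBump b)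
    {m : {w : InfinitePlace K // IsComplex w} → ℤ} (hm : m ≠ 0) (I : Ideal (𝓞 K)) (hI : I ≠ ⊥)
    (r : 𝓞 K) :
    ∃ C : ℝ, ∀ t : ℝ, 1 < t → t ≤ 2 →
      Summable (fun a : I => G b m t (mixedEmbedding K ((r + (a : 𝓞 K) : 𝓞 K) : K))) ∧
      ‖∑' a : I, G b m t (mixedEmbedding K ((r + (a : 𝓞 K) : 𝓞 K) : K))‖ ≤ C := by
  have hI' : I ∈ nonZeroDivisors (Ideal (𝓞 K)) := mem_nonZeroDivisors_of_ne_zero hI
  set J : (FractionalIdeal (nonZeroDivisors (𝓞 K)) K)ˣ := FractionalIdeal.mk0 K ⟨I, hI'⟩ with hJ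
  set L : Submodule ℤ (mixedSpace K) := mixedEmbedding.idealLattice K J with hL
  obtain ⟨R, hR, hmain⟩ := riemann (volume : Measure (mixedSpace K)) L
  obtain ⟨A, hA, hdiff⟩ := G_diff hb m R
  obtain ⟨C, hC⟩ := hmain (mixedEmbedding K (r : K)) A
  refine ⟨C, fun t ht ht2 => ?_⟩
  have hfr : finrank ℝ (mixedSpace K) = finrank ℚ K := mixedEmbedding.finrank K
  have h1 := hC (G b m t) (G_integrable hb m ht ht2) (G_integral b hm t) (by
    intro x y hxy
    rw [hfr]
    exact hdiff t ht.le ht2 x y hxy)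
  have hmem : ∀ a : I, mixedEmbedding K ((a : 𝓞 K) : K) ∈ L := by
    intro a
    rw [hL, mixedEmbedding.mem_idealLattice]
    refine ⟨((a : 𝓞 K) : K), ?_, rfl⟩
    rw [hJ, FractionalIdeal.coe_mk0]
    exact FractionalIdeal.mem_coeIdeal_of_mem _ a.2
  let f : I → L := fun a => ⟨mixedEmbedding K ((a : 𝓞 K) : K), hmem a⟩
  have hf : Function.Bijective f := by
    constructor
    · intro a a' h
      have h2 : mixedEmbedding K ((a : 𝓞 K) : K) = mixedEmbedding K ((a' : 𝓞 K) : K) :=
        congrArg Subtype.val h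
      have h3 := mixedEmbedding_injective K h2
      exact Subtype.ext (by exact_mod_cast h3)
    · rintro ⟨y, hy⟩
      rw [hL, mixedEmbedding.mem_idealLattice] at hy
      obtain ⟨x, hx, rfl⟩ := hy
      rw [hJ, FractionalIdeal.coe_mk0] at hx
      obtain ⟨a, ha, rfl⟩ := (FractionalIdeal.mem_coeIdeal _).1 hx
      exact ⟨⟨a, ha⟩, rfl⟩
  let e : I ≃ L := Equiv.ofBijective f hf
  have he : ∀ a : I, G b m t (mixedEmbedding K ((r + (a : 𝓞 K) : 𝓞 K) : K)) =
      G b m t (mixedEmbedding K (r : K) + ((e a : L) : mixedSpace K)) := by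
    intro a
    congr 1
    have : ((r + (a : 𝓞 K) : 𝓞 K) : K) = (r : K) + ((a : 𝓞 K) : K) := by push_cast; ring
    rw [this, map_add]
    rfl
  simp only [he]
  refine ⟨(e.summable_iff (f := fun l : L => G b m t (mixedEmbedding K (r : K) + l))).2 h1.1, ?_⟩
  have h4 := e.tsum_eq (fun l : L => G b m t (mixedEmbedding K (r : K) + l))
  rw [h4]
  exact h1.2

end Pool.Agent.H16.HK
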