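import Pool.Agent.H16.HK.FDefs
import Pool.Agent.H1.Tate.LFun

/-!
# The logarithm of an Euler product with given traces
-/

open NumberField IsDedekindDomain Filter Topology Polynomial

namespace Pool.Agent.H16.HK

open Pool.Agent.H3.TatePole Pool.Agent.H1.Tate

noncomputable section

variable {k : Type*} [Field k] [NumberField k]

variable {R : Finset (HeightOneSpectrum (𝓞 k))} {c : HeightOneSpectrum (𝓞 k) → ℕ → ℂ} {D : ℝ}

open Classical in
/-- logarithm of the local factor -/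
def lamF (R : Finset (HeightOneSpectrum (𝓞 k))) (c : HeightOneSpectrum (𝓞 k) → ℕ → ℂ)
    (bad : HeightOneSpectrum (𝓞 k) → Multiset ℂ) (t : ℝ) (v : HeightOneSpectrum (𝓞 k)) : ℂ :=
  if v ∈ R then ((bad v).map fun α => -Complex.log (1 - α * ((nrm v ^ (-(t + 1)) : ℝ) : ℂ))).sum
  else ∑' n : ℕ, c v (n + 1) * ((nrm v ^ (-(t + 1)) : ℝ) : ℂ) ^ (n + 1) / ((n : ℂ) + 1)

/-- the real part of the first trace, divided by `q` -/
def reTr (c : HeightOneSpectrum (𝓞 k) → ℕ → ℂ) (v : HeightOneSpectrum (𝓞 k)) : ℝ :=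
  (c v 1).re / nrm v

lemma lamF_good (hD : 0 ≤ D) (bad : HeightOneSpectrum (𝓞 k) → Multiset ℂ) {t : ℝ} (ht : 1 < t)
    {v : HeightOneSpectrum (𝓞 k)} (hv : v ∉ R) (hc : ∀ n, 0 < n → ‖c v n‖ ≤ D * nrm v ^ n) :
    |(lamF R c bad t v).re - reTr c v * nrm v ^ (-t)| ≤ 2 * D * nrm v ^ (-2 : ℝ) ∧
    ‖lamF R c bad t v‖ ≤ 2 * D * nrm v ^ (-t) := by
  obtain ⟨e1, e2, e3, e4⟩ := rpow_aux v ht
  set x : ℝ := nrm v ^ (-(t + 1)) with hx
  set y : ℝ := nrm v ^ (-t) with hy
  have hx0 : 0 ≤ x := (Real.rpow_pos_of_pos (nrm_pos v) _).le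
  set T : ℕ → ℂ := fun n => c v (n + 1) * (x : ℂ) ^ (n + 1) / ((n : ℂ) + 1) with hT
  have hTn : ∀ n, ‖T n‖ ≤ D * y ^ (n + 1) := by
    intro n
    simp only [hT]
    rw [norm_div, norm_mul, norm_pow, Complex.norm_real, Real.norm_of_nonneg hx0]
    have h1 := hc (n + 1) (Nat.succ_pos n)
    have h2 : (1 : ℝ) ≤ ‖(n : ℂ) + 1‖ := by
      have : ((n : ℂ) + 1) = ((n + 1 : ℕ) : ℂ) := by push_cast; rfl
      rw [this, Complex.norm_natCast]
      exact_mod_cast Nat.succ_le_succ (Nat.zero_le n)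
    rw [div_le_iff₀ (by linarith)]
    have h3 : ‖c v (n + 1)‖ * x ^ (n + 1) ≤ (D * nrm v ^ (n + 1)) * x ^ (n + 1) :=
      mul_le_mul_of_nonneg_right h1 (pow_nonneg hx0 _)
    have h4 : (D * nrm v ^ (n + 1)) * x ^ (n + 1) = D * y ^ (n + 1) := by
      rw [mul_assoc, ← mul_pow, e1]
    rw [h4] at h3
    have h5 : 0 ≤ D * y ^ (n + 1) := mul_nonneg hD (pow_nonneg e3.le _)
    nlinarith
  have hgeo : Summable (fun n : ℕ => D * y ^ (n + 1)) := by
    have h1 : Summable (fun n : ℕ => y ^ n) :=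
      summable_geometric_of_lt_one e3.le (by linarith)
    exact ((summable_nat_add_iff 1).mpr h1).mul_left D
  have hTs : Summable T := Summable.of_norm_bounded hgeo hTn
  have hl : lamF R c bad t v = ∑' n, T n := by
    unfold lamF
    rw [if_neg hv]
  have hT0 : T 0 = c v 1 * (x : ℂ) := by
    simp only [hT]
    simp
  have hval : ∀ j : ℕ, ∑' n : ℕ, D * y ^ (n + j) = D * (y ^ j * (1 - y)⁻¹) := by
    intro j
    rw [tsum_mul_left]
    congr 1
    rw [← tsum_geometric_of_lt_one e3.le (by linarith), ← tsum_mul_left]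
    exact tsum_congr fun n => by ring
  have h6 : (1 - y)⁻¹ ≤ 2 := by
    rw [inv_le_comm₀ (by linarith) (by norm_num)]
    linarith
  have h60 : 0 ≤ (1 - y)⁻¹ := inv_nonneg.mpr (by linarith)
  constructor
  · rw [hl, hTs.tsum_eq_zero_add, hT0, Complex.add_re]
    have h7 : (c v 1 * (x : ℂ)).re = reTr c v * y := by
      rw [Complex.re_mul_ofReal, ← e1]
      unfold reTr
      have := (nrm_pos v).ne'
      field_simp
    rw [h7, add_sub_cancel_left]
    refine (Complex.abs_re_le_norm _).trans ?_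
    have hgeo2 : Summable (fun n : ℕ => D * y ^ (n + 1 + 1)) := (summable_nat_add_iff 1).mpr hgeo
    refine (tsum_of_norm_bounded hgeo2.hasSum fun n => hTn (n + 1)).trans ?_
    rw [show (∑' n : ℕ, D * y ^ (n + 1 + 1)) = ∑' n : ℕ, D * y ^ (n + 2) from rfl, hval 2]
    have h8 : y ^ 2 * (1 - y)⁻¹ ≤ nrm v ^ (-2 : ℝ) * 2 :=
      mul_le_mul e4 h6 h60 (Real.rpow_nonneg (nrm_pos v).le _)
    have h9 := mul_le_mul_of_nonneg_left h8 hD
    linarith
  · rw [hl]
    refine (tsum_of_norm_bounded hgeo.hasSum hTn).trans ?_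
    rw [hval 1, pow_one]
    have h8 : y * (1 - y)⁻¹ ≤ y * 2 := mul_le_mul_of_nonneg_left h6 e3.le
    have h9 := mul_le_mul_of_nonneg_left h8 hD
    linarith

lemma lamF_bad {bad : HeightOneSpectrum (𝓞 k) → Multiset ℂ} {t : ℝ} (ht : 1 < t)
    {v : HeightOneSpectrum (𝓞 k)} (hv : v ∈ R) (hbad : ∀ α ∈ bad v, ‖α‖ ≤ nrm v) :
    ‖lamF R c bad t v‖ ≤ Multiset.card (bad v) := by
  obtain ⟨e1, e2, e3, e4⟩ := rpow_aux v ht
  set x : ℝ := nrm v ^ (-(t + 1)) with hx
  set y : ℝ := nrm v ^ (-t) with hy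
  have hx0 : 0 ≤ x := (Real.rpow_pos_of_pos (nrm_pos v) _).le
  unfold lamF
  rw [if_pos hv]
  refine (norm_multiset_sum_le _).trans ?_
  rw [Multiset.map_map]
  have h2 : ((bad v).map (norm ∘ fun α => -Complex.log (1 - α * (x : ℂ)))).sum ≤
      ((bad v).map fun _ => (1 : ℝ)).sum := by
    apply Multiset.sum_map_le_sum_map
    intro α hα
    have h3 : ‖α * (x : ℂ)‖ ≤ 1 / 2 := by
      rw [norm_mul, Complex.norm_real, Real.norm_of_nonneg hx0]
      calc ‖α‖ * x ≤ nrm v * x := mul_le_mul_of_nonneg_right (hbad α hα) hx0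
        _ = y := e1
        _ ≤ 1 / 2 := e2
    have h4 := log_one_sub_bound h3
    have h5 : ‖-Complex.log (1 - α * (x : ℂ))‖ ≤ ‖α * (x : ℂ)‖ + ‖α * (x : ℂ)‖ ^ 2 := by
      have := norm_add_le (-Complex.log (1 - α * (x : ℂ)) - α * (x : ℂ)) (α * (x : ℂ))
      rw [sub_add_cancel] at this
      linarith
    simp only [Function.comp_apply]
    have h6 := norm_nonneg (α * (x : ℂ))
    nlinarith
  refine h2.trans ?_
  rw [Multiset.map_const', Multiset.sum_replicate, nsmul_eq_mul, mul_one]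

lemma exp_lamF {bad : HeightOneSpectrum (𝓞 k) → Multiset ℂ} {t : ℝ} (ht : 1 < t)
    (v : HeightOneSpectrum (𝓞 k)) (hbad : v ∈ R → ∀ α ∈ bad v, ‖α‖ ≤ nrm v) [Decidable (v ∈ R)] :
    Complex.exp (lamF R c bad t v) =
      if v ∈ R then
        (((bad v).map fun α => 1 - α * (Ideal.absNorm v.asIdeal : ℂ) ^ (-((t + 1 : ℝ) : ℂ))).prod)⁻¹
      else Complex.exp (∑' n : ℕ, c v (n + 1) *
        ((Ideal.absNorm v.asIdeal : ℂ) ^ (-((t + 1 : ℝ) : ℂ))) ^ (n + 1) / ((n : ℂ) + 1)) := by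
  obtain ⟨e1, e2, e3, e4⟩ := rpow_aux v ht
  have hx : ((Ideal.absNorm v.asIdeal : ℂ) ^ (-((t + 1 : ℝ) : ℂ))) = ((nrm v ^ (-(t + 1)) : ℝ) : ℂ) := by
    unfold nrm
    rw [Complex.ofReal_cpow (by positivity)]
    push_cast
    rfl
  rw [hx]
  have hx0 : 0 ≤ nrm v ^ (-(t + 1)) := (Real.rpow_pos_of_pos (nrm_pos v) _).le
  unfold lamF
  split_ifs with h
  · rw [Complex.exp_multiset_sum, Multiset.map_map, ← Multiset.prod_map_inv]
    refine congrArg Multiset.prod (Multiset.map_congr rfl fun α hα => ?_)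
    have h3 : ‖α * ((nrm v ^ (-(t + 1)) : ℝ) : ℂ)‖ ≤ 1 / 2 := by
      rw [norm_mul, Complex.norm_real, Real.norm_of_nonneg hx0]
      calc ‖α‖ * nrm v ^ (-(t + 1)) ≤ nrm v * nrm v ^ (-(t + 1)) :=
            mul_le_mul_of_nonneg_right (hbad h α hα) hx0
        _ = nrm v ^ (-t) := e1
        _ ≤ 1 / 2 := e2
    have hne : (1 : ℂ) - α * ((nrm v ^ (-(t + 1)) : ℝ) : ℂ) ≠ 0 := by
      intro h0
      have h1 : α * ((nrm v ^ (-(t + 1)) : ℝ) : ℂ) = 1 := (sub_eq_zero.mp h0).symm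
      rw [h1, norm_one] at h3
      norm_num at h3
    rw [Function.comp_apply, Complex.exp_neg, Complex.exp_log hne]
  · rfl

/-- The logarithm of an Euler product with given traces near `s = 2`. -/
theorem log_eulerL (hD : 0 ≤ D) {bad : HeightOneSpectrum (𝓞 k) → Multiset ℂ}
    (hbad : ∀ v ∈ R, ∀ α ∈ bad v, ‖α‖ ≤ nrm v)
    (hc : ∀ v, v ∉ R → ∀ n, 0 < n → ‖c v n‖ ≤ D * nrm v ^ n) (u : HeightOneSpectrum (𝓞 k) → ℝ)
    (hub : Bdd u) (hu : ∀ v, v ∉ R → u v = reTr c v) :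
    ∃ C : ℝ, ∀ t : ℝ, 1 < t → |Real.log ‖eulerL R c bad ((t + 1 : ℝ) : ℂ)‖ - wsum u t| ≤ C := by
  classical
  obtain ⟨E, hE⟩ := hub
  let M : HeightOneSpectrum (𝓞 k) → ℝ := fun v =>
    2 * D * nrm v ^ (-2 : ℝ) + if v ∈ R then (Multiset.card (bad v) + |E| : ℝ) else 0
  have hMsum : Summable M := by
    refine Summable.add ((summable_nrm (by norm_num)).mul_left _) ?_
    exact summable_of_ne_finset_zero (s := R) (fun P hP => if_neg hP)
  refine ⟨∑' v, M v, fun t ht => ?_⟩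
  have hub : Bdd u := ⟨E, hE⟩
  have hbound : ∀ v, ‖(lamF R c bad t v).re - u v * nrm v ^ (-t)‖ ≤ M v := by
    intro v
    have hpos : 0 ≤ 2 * D * nrm v ^ (-2 : ℝ) :=
      mul_nonneg (by positivity) (Real.rpow_nonneg (nrm_pos v).le _)
    obtain ⟨e1, e2, e3, e4⟩ := rpow_aux v ht
    by_cases h : v ∈ R
    · have h1 := lamF_bad (c := c) ht h (hbad v h)
      have h2 : ‖(lamF R c bad t v).re - u v * nrm v ^ (-t)‖ ≤ Multiset.card (bad v) + |E| := by
        refine (norm_sub_le _ _).trans (add_le_add ?_ ?_)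
        · rw [Real.norm_eq_abs]
          exact (Complex.abs_re_le_norm _).trans h1
        · rw [norm_mul, Real.norm_eq_abs, Real.norm_of_nonneg e3.le]
          calc |u v| * nrm v ^ (-t) ≤ |E| * 1 :=
                mul_le_mul ((hE v).trans (le_abs_self _)) (by linarith) e3.le (abs_nonneg _)
            _ = |E| := mul_one _
      simp only [M, if_pos h]
      linarith
    · rw [hu v h, Real.norm_eq_abs]
      refine ((lamF_good hD bad ht h (hc v h)).1).trans ?_
      simp only [M, if_neg h, add_zero, le_refl]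
  have hsum1 : Summable (fun v => u v * nrm v ^ (-t)) := hub.summable ht
  have hsum2 : Summable (fun v => (lamF R c bad t v).re - u v * nrm v ^ (-t)) :=
    Summable.of_norm_bounded hMsum hbound
  have hsuml : Summable (lamF R c bad t) := by
    have h0 : Summable (fun v => 2 * D * nrm v ^ (-t) +
        if v ∈ R then (Multiset.card (bad v) : ℝ) else 0) := by
      refine Summable.add ((summable_nrm ht).mul_left _) ?_
      exact summable_of_ne_finset_zero (s := R) (fun P hP => if_neg hP)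
    refine Summable.of_norm_bounded h0 fun v => ?_
    have hpos : 0 ≤ 2 * D * nrm v ^ (-t) :=
      mul_nonneg (by positivity) (Real.rpow_nonneg (nrm_pos v).le _)
    by_cases h : v ∈ R
    · have h1 := lamF_bad (c := c) ht h (hbad v h)
      simp only [if_pos h]
      linarith
    · have h1 := (lamF_good hD bad ht h (hc v h)).2
      simp only [if_neg h]
      linarith
  have hprod : eulerL R c bad ((t + 1 : ℝ) : ℂ) = Complex.exp (∑' v, lamF R c bad t v) := by
    unfold eulerL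
    rw [← (hsuml.hasSum.cexp).tprod_eq]
    exact tprod_congr fun v => (exp_lamF ht v (hbad v)).symm
  rw [hprod, Complex.norm_exp, Real.log_exp, Complex.re_tsum hsuml]
  have hsumr : Summable (fun v => (lamF R c bad t v).re) := by
    have := hsum2.add hsum1
    refine this.congr fun v => by ring
  unfold wsum
  rw [← hsumr.tsum_sub hsum1, ← Real.norm_eq_abs]
  refine (norm_tsum_le_tsum_norm hsum2.norm).trans ?_
  exact hsum2.norm.tsum_le_tsum hbound hMsum

end

end Pool.Agent.H16.HK
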