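import Pool.Agent.H16.HK.Alg

/-!
# Job HK-Types: the CM types of the conjugates are distinct

* `uni_CM`: `φ (CM ℓ a) = ∏_{σ ∈ half} φ(σ a)`, `uni` is multiplicative; group the `σ` by `ψ = φ ∘ σ` (`Finset.prod_fiberwise`, `Finset.prod_const`).
* `cnt_ne`: embeddings of `K` are determined by the image of `ζ`; `σ ↦ φ ∘ σ` is injective on `Gal(K/ℚ)`, and `φ' = φ ∘ τ` for a `τ ≠ 1`
  (`K/ℚ` normal). So `cnt φ ψ ∈ {0, 1}`, `cnt φ (φ ∘ σ) = [σ ∈ half]`, `cnt φ' (φ ∘ σ) = [τ⁻¹ σ ∈ half]`. `conjugate (φ ∘ σ) = φ ∘ (c σ)` with `c ζ = ζ⁻¹`, and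
  `c σ ∈ half` iff `σ ∉ half` (`ℓ` odd: exactly one of `t`, `ℓ - t` is `< ℓ / 2`). If the claim fails for all `ψ = φ ∘ σ`:
  `[σ ∈ half] - [τ⁻¹ σ ∈ half] = (1 - [σ ∈ half]) - (1 - [τ⁻¹ σ ∈ half])`, so `[σ ∈ half] = [τ⁻¹ σ ∈ half]` for all `σ`. With `σ⁻¹ ζ = ζ ^ t`, `τ ζ = ζ ^ a`:
  `(τ⁻¹ σ)⁻¹ = σ⁻¹ τ`, exponent `a t`: for all units `t`, `t ∈ S` iff `a t ∈ S`, `S = {1, ..., (ℓ - 1) / 2}`. So `a ∈ S`; let `a.val = α`, `2 ≤ α ≤ (ℓ - 1) / 2`
  (`a ≠ 1`), and let `m` be the least integer with `m α > (ℓ - 1) / 2`. Then `(ℓ - 1) / 2 < m α ≤ (ℓ - 1) / 2 + α ≤ ℓ - 1`, so `m α ∉ S` modulo `ℓ`, but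
  `m ≤ (ℓ - 1) / 2` (`(m - 1) α ≤ (ℓ-1)/2`, `α ≥ 2`, and `ℓ ≥ 5` because `2 ≤ α ≤ (ℓ - 1) / 2`), so `m ∈ S`: contradiction.
-/

open NumberField IsDedekindDomain Polynomial IsCyclotomicExtension.Rat
open scoped Pointwise Classical

namespace Pool.Agent.H16.HK

variable {ℓ : ℕ} [Fact ℓ.Prime] {K : Type*} [Field K] [NumberField K] [IsCyclotomicExtension {ℓ} ℚ K]

/-- the number of `σ ∈ half` with `φ ∘ σ = ψ` -/
noncomputable def cnt (ℓ : ℕ) [NeZero ℓ] {K : Type*} [Field K] [NumberField K]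
    [IsCyclotomicExtension {ℓ} ℚ K] (φ ψ : K →+* ℂ) : ℤ :=
  ((half ℓ K).filter fun σ => φ.comp (σ : K →+* K) = ψ).card

lemma types_uni_mul (x y : ℂ) : uni (x * y) = uni x * uni y := by
  unfold uni
  rw [norm_mul, Complex.ofReal_mul, mul_div_mul_comm]

lemma types_uni_one : uni 1 = 1 := by
  unfold uni
  simp

lemma types_uni_prod {ι : Type*} (s : Finset ι) (f : ι → ℂ) :
    uni (∏ i ∈ s, f i) = ∏ i ∈ s, uni (f i) := by
  induction s using Finset.induction_on with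
  | empty => simp [types_uni_one]
  | insert a s ha ih => rw [Finset.prod_insert ha, Finset.prod_insert ha, types_uni_mul, ih]

lemma types_cnt_eq (φ ψ : K →+* ℂ) : cnt ℓ φ ψ =
    (((half ℓ K).filter fun σ : Gal(K/ℚ) => φ.comp (σ : K →+* K) = ψ).card : ℤ) := by
  unfold cnt
  congr 1
  symm
  refine Finset.card_bij (fun (σ : Gal(K/ℚ)) _ => (σ : K →+* K)) ?_ ?_ ?_
  · intro σ hσ
    obtain ⟨h1, h2⟩ := Finset.mem_filter.mp hσ
    refine Finset.mem_filter.mpr ⟨?_, h2⟩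
    exact Finset.mem_sup.mpr ⟨σ, h1, Finset.mem_singleton_self _⟩
  · intro σ _ σ' _ h
    apply AlgEquiv.ext
    intro x
    exact RingHom.congr_fun h x
  · intro f hf
    obtain ⟨h1, h2⟩ := Finset.mem_filter.mp hf
    obtain ⟨σ, h3, h4⟩ := Finset.mem_sup.mp h1
    replace h4 := Finset.mem_singleton.mp h4
    exact ⟨σ, Finset.mem_filter.mpr ⟨h3, by rw [← h4]; exact h2⟩, h4.symm⟩

theorem uni_CM (φ : K →+* ℂ) {a : 𝓞 K} (ha : a ≠ 0) :
    uni (φ (CM ℓ a : K)) = ∏ ψ : K →+* ℂ, uni (ψ (a : K)) ^ cnt ℓ φ ψ := by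
  have h1 : φ (CM ℓ a : K) = ∏ σ ∈ half ℓ K, (φ.comp (σ : K →+* K)) (a : K) := by
    unfold CM
    rw [show ((∏ σ ∈ half ℓ K, σ • a : 𝓞 K) : K) = ∏ σ ∈ half ℓ K, ((σ • a : 𝓞 K) : K) from
      map_prod (algebraMap (𝓞 K) K) _ _, map_prod]
    rfl
  rw [h1, types_uni_prod, ← Finset.prod_fiberwise (half ℓ K)
    (fun σ : Gal(K/ℚ) => φ.comp (σ : K →+* K))
    (fun σ : Gal(K/ℚ) => uni ((φ.comp (σ : K →+* K)) (a : K)))]
  refine Finset.prod_congr rfl fun ψ _ => ?_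
  rw [Finset.prod_congr rfl (fun σ hσ => by rw [(Finset.mem_filter.mp hσ).2]), Finset.prod_const]
  rw [types_cnt_eq, zpow_natCast]

lemma types_comb (hℓ : ℓ ≠ 2) (a : (ZMod ℓ)ˣ) (ha : a ≠ 1)
    (h : ∀ t : (ZMod ℓ)ˣ, 2 * (t : ZMod ℓ).val < ℓ ↔ 2 * ((t * a : (ZMod ℓ)ˣ) : ZMod ℓ).val < ℓ) :
    False := by
  have hp : ℓ.Prime := Fact.out
  have h2 := hp.two_le
  have h3 : 3 ≤ ℓ := by omega
  have hodd : ℓ % 2 = 1 := (hp.eq_two_or_odd.resolve_left hℓ)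
  haveI : Fact (1 < ℓ) := ⟨hp.one_lt⟩
  set α := (a : ZMod ℓ).val with hα
  have hα2 : 2 * α < ℓ := by
    have := (h 1).mp (by rw [Units.val_one, ZMod.val_one]; omega)
    rwa [one_mul] at this
  have hα0 : α ≠ 0 := by
    rw [hα, Ne, ZMod.val_eq_zero]
    exact a.ne_zero
  have hα1 : α ≠ 1 := by
    intro h1
    apply ha
    apply Units.ext
    rw [Units.val_one]
    apply ZMod.val_injective ℓ
    rw [ZMod.val_one]
    exact h1
  set H := ℓ / 2 with hH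
  set m := H / α + 1 with hm
  have hαH : α ≤ H := by omega
  have hm1 : m ≤ H := by
    have : H / α ≤ H / 2 := Nat.div_le_div_left (by omega) (by omega)
    omega
  have hmα : H < m * α := by
    rw [hm, mul_comm]
    exact Nat.lt_mul_div_succ H (Nat.pos_of_ne_zero hα0)
  have hmα2 : m * α < ℓ := by
    have h5 : H / α * α ≤ H := Nat.div_mul_le_self H α
    have h6 : m * α = H / α * α + α := by rw [hm]; ring
    calc m * α = H / α * α + α := h6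
      _ ≤ H + α := Nat.add_le_add_right h5 _
      _ < ℓ := by omega
  have hmℓ : m < ℓ := lt_of_le_of_lt hm1 (by omega)
  have hm0 : m ≠ 0 := Nat.succ_ne_zero _
  have hcop : Nat.Coprime m ℓ := by
    rw [Nat.coprime_comm, hp.coprime_iff_not_dvd]
    intro hd
    have := Nat.le_of_dvd (Nat.pos_of_ne_zero hm0) hd
    omega
  have h7 := (h (ZMod.unitOfCoprime m hcop)).mp (by
    rw [ZMod.coe_unitOfCoprime, ZMod.val_natCast_of_lt hmℓ]
    clear_value m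
    omega)
  have h8 : (((ZMod.unitOfCoprime m hcop) * a : (ZMod ℓ)ˣ) : ZMod ℓ).val = m * α := by
    rw [Units.val_mul, ZMod.coe_unitOfCoprime]
    have : (m : ZMod ℓ) * (a : ZMod ℓ) = ((m * α : ℕ) : ZMod ℓ) := by
      rw [Nat.cast_mul, hα, ZMod.natCast_zmod_val]
    rw [this, ZMod.val_natCast_of_lt hmα2]
  rw [h8] at h7
  clear_value m
  generalize m * α = q at h7 hmα
  omega

theorem cnt_ne (hℓ : ℓ ≠ 2) {φ φ' : K →+* ℂ} (h : φ ≠ φ') :
    ∃ ψ : K →+* ℂ, cnt ℓ φ ψ - cnt ℓ φ' ψ ≠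
      cnt ℓ φ (ComplexEmbedding.conjugate ψ) - cnt ℓ φ' (ComplexEmbedding.conjugate ψ) := by
  have hp : ℓ.Prime := Fact.out
  have hodd : ℓ % 2 = 1 := (hp.eq_two_or_odd.resolve_left hℓ)
  haveI hgal : IsGalois ℚ K := IsCyclotomicExtension.isGalois {ℓ} ℚ K
  have key : ∀ φ₁ : K →+* ℂ, ∃ τ : Gal(K/ℚ), φ.comp (τ : K →+* K) = φ₁ := by
    intro φ₁
    obtain ⟨σ, hσ⟩ := ComplexEmbedding.exists_comp_symm_eq_of_comp_eq (k := ℚ) φ φ₁
      (RingHom.ext_rat _ _)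
    exact ⟨σ.symm, hσ⟩
  obtain ⟨τ, hτ⟩ := key φ'
  obtain ⟨c, hc⟩ := key (ComplexEmbedding.conjugate φ)
  have hτ1 : τ ≠ 1 := by
    rintro rfl
    apply h
    rw [← hτ]
    rfl
  have hinj : ∀ σ σ' : Gal(K/ℚ), φ.comp (σ : K →+* K) = φ.comp (σ' : K →+* K) ↔ σ = σ' := by
    intro σ σ'
    constructor
    · intro h1
      apply AlgEquiv.ext
      intro x
      exact φ.injective (RingHom.congr_fun h1 x)
    · rintro rfl; rfl
  set g := galEquivZMod ℓ K with hg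
  have hζ := IsCyclotomicExtension.zeta_spec ℓ ℚ K
  -- `c` is complex conjugation
  have hgc : g c = -1 := by
    have h1 : c (IsCyclotomicExtension.zeta ℓ ℚ K) = (IsCyclotomicExtension.zeta ℓ ℚ K)⁻¹ := by
      apply φ.injective
      have h2 : φ (c (IsCyclotomicExtension.zeta ℓ ℚ K)) =
          (ComplexEmbedding.conjugate φ) (IsCyclotomicExtension.zeta ℓ ℚ K) :=
        RingHom.congr_fun hc _
      rw [h2, ComplexEmbedding.conjugate_coe_eq, map_inv₀]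
      have h3 : ‖φ (IsCyclotomicExtension.zeta ℓ ℚ K)‖ = 1 :=
        (hζ.map_of_injective φ.injective).norm'_eq_one (hp.ne_zero)
      rw [Complex.inv_def, Complex.normSq_eq_norm_sq, h3]
      simp
    have h2 := galEquivZMod_apply_of_pow_eq ℓ K c hζ.pow_eq_one
    rw [h1] at h2
    have h3 : (IsCyclotomicExtension.zeta ℓ ℚ K) ^ ((g c).val.val + 1) = 1 := by
      rw [pow_succ, ← h2, inv_mul_cancel₀ (hζ.ne_zero hp.ne_zero)]
    have h4 := hζ.dvd_of_pow_eq_one _ h3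
    have h5 : (((g c).val.val + 1 : ℕ) : ZMod ℓ) = 0 := (ZMod.natCast_eq_zero_iff _ _).mpr h4
    rw [Nat.cast_add, ZMod.natCast_zmod_val, Nat.cast_one] at h5
    apply Units.ext
    rw [Units.val_neg, Units.val_one]
    exact eq_neg_of_add_eq_zero_left h5
  have hhalf : ∀ σ : Gal(K/ℚ), σ ∈ half ℓ K ↔ 2 * (g σ⁻¹ : ZMod ℓ).val < ℓ := by
    intro σ
    unfold half
    rw [Finset.mem_filter]
    simp only [Finset.mem_univ, true_and]
    rfl
  have hneg : ∀ t : (ZMod ℓ)ˣ, 2 * ((-t : (ZMod ℓ)ˣ) : ZMod ℓ).val < ℓ ↔ ¬ 2 * (t : ZMod ℓ).val < ℓ := by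
    intro t
    rw [Units.val_neg, ZMod.neg_val, if_neg t.ne_zero]
    have h1 := ZMod.val_lt (t : ZMod ℓ)
    omega
  have hcnt : ∀ σ : Gal(K/ℚ), cnt ℓ φ (φ.comp (σ : K →+* K)) = if σ ∈ half ℓ K then 1 else 0 := by
    intro σ
    rw [types_cnt_eq]
    have h1 : (half ℓ K).filter (fun σ' : Gal(K/ℚ) => φ.comp (σ' : K →+* K) = φ.comp (σ : K →+* K)) =
        (half ℓ K).filter (fun σ' : Gal(K/ℚ) => σ' = σ) := Finset.filter_congr fun σ' _ => hinj σ' σ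
    rw [h1]
    have h2 : (half ℓ K).filter (fun σ' : Gal(K/ℚ) => σ' = σ) =
        if σ ∈ half ℓ K then {σ} else ∅ := by
      ext σ'
      rw [Finset.mem_filter]
      constructor
      · rintro ⟨h3, rfl⟩
        rw [if_pos h3]
        exact Finset.mem_singleton_self _
      · intro h3
        split_ifs at h3 with h4
        · rw [Finset.mem_singleton] at h3
          rw [h3]
          exact ⟨h4, rfl⟩
        · exact absurd h3 (Finset.notMem_empty _)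
    rw [h2]
    split_ifs <;> simp
  have hcnt' : ∀ σ : Gal(K/ℚ), cnt ℓ φ' (φ.comp (σ : K →+* K)) =
      if τ⁻¹ * σ ∈ half ℓ K then 1 else 0 := by
    intro σ
    rw [types_cnt_eq]
    have h1 : (half ℓ K).filter (fun σ' : Gal(K/ℚ) => φ'.comp (σ' : K →+* K) = φ.comp (σ : K →+* K)) =
        (half ℓ K).filter (fun σ' : Gal(K/ℚ) => σ' = τ⁻¹ * σ) := by
      refine Finset.filter_congr fun σ' _ => ?_
      rw [← hτ]
      have h2 : (φ.comp (τ : K →+* K)).comp (σ' : K →+* K) = φ.comp ((τ * σ' : Gal(K/ℚ)) : K →+* K) := rfl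
      rw [h2, hinj]
      constructor
      · rintro rfl; group
      · rintro rfl; group
    rw [h1]
    have h2 : (half ℓ K).filter (fun σ' : Gal(K/ℚ) => σ' = (τ⁻¹ * σ)) =
        if (τ⁻¹ * σ) ∈ half ℓ K then {(τ⁻¹ * σ)} else ∅ := by
      ext σ'
      rw [Finset.mem_filter]
      constructor
      · rintro ⟨h3, rfl⟩
        rw [if_pos h3]
        exact Finset.mem_singleton_self _
      · intro h3
        split_ifs at h3 with h4
        · rw [Finset.mem_singleton] at h3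
          rw [h3]
          exact ⟨h4, rfl⟩
        · exact absurd h3 (Finset.notMem_empty _)
    rw [h2]
    split_ifs <;> simp
  have hconj : ∀ σ : Gal(K/ℚ), ComplexEmbedding.conjugate (φ.comp (σ : K →+* K)) =
      φ.comp ((c * σ : Gal(K/ℚ)) : K →+* K) := by
    intro σ
    have h2 : φ.comp ((c * σ : Gal(K/ℚ)) : K →+* K) = (φ.comp (c : K →+* K)).comp (σ : K →+* K) := rfl
    rw [h2, hc]
    rfl
  by_contra hcon
  push Not at hcon
  have hall : ∀ t : (ZMod ℓ)ˣ, 2 * (t : ZMod ℓ).val < ℓ ↔ 2 * ((t * g τ : (ZMod ℓ)ˣ) : ZMod ℓ).val < ℓ := by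
    intro t
    obtain ⟨σ', hσ'⟩ := g.surjective t
    set σ := σ'⁻¹ with hσ
    have e1 : g σ⁻¹ = t := by rw [hσ, inv_inv, hσ']
    clear_value σ
    have h1 := hcon (φ.comp (σ : K →+* K))
    rw [hconj, hcnt, hcnt, hcnt', hcnt'] at h1
    have a1 : σ ∈ half ℓ K ↔ 2 * (t : ZMod ℓ).val < ℓ := by rw [hhalf, e1]
    have a2 : τ⁻¹ * σ ∈ half ℓ K ↔ 2 * ((t * g τ : (ZMod ℓ)ˣ) : ZMod ℓ).val < ℓ := by
      rw [hhalf, mul_inv_rev, inv_inv τ, map_mul, e1]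
    have a3 : c * σ ∈ half ℓ K ↔ ¬ 2 * (t : ZMod ℓ).val < ℓ := by
      rw [hhalf, mul_inv_rev, map_mul, e1, map_inv, hgc, ← hneg]
      simp
    have a4 : τ⁻¹ * (c * σ) ∈ half ℓ K ↔ ¬ 2 * ((t * g τ : (ZMod ℓ)ˣ) : ZMod ℓ).val < ℓ := by
      rw [hhalf, mul_inv_rev, mul_inv_rev, inv_inv τ, map_mul, map_mul, e1, map_inv, hgc, ← hneg]
      simp
    simp only [a1, a2, a3, a4] at h1
    by_cases b1 : 2 * (t : ZMod ℓ).val < ℓ <;>
      by_cases b2 : 2 * ((t * g τ : (ZMod ℓ)ˣ) : ZMod ℓ).val < ℓ <;> simp [b1, b2] at h1 ⊢ <;>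
      omega
  refine types_comb hℓ (g τ) ?_ hall
  intro h1
  exact hτ1 (g.injective (h1.trans (map_one g).symm))

end Pool.Agent.H16.HK
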