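import Pool.Agent.H16.HK.Hecke
import Pool.Agent.H16.HK.HChar
import Pool.Agent.H16.HK.Types
import Pool.Agent.H16.HK.Jac

/-!
# The mean square of the traces over the primes of degree one of the cyclotomic field
-/

open NumberField IsDedekindDomain Polynomial IsCyclotomicExtension.Rat Filter Topology
open scoped Pointwise Classical ComplexConjugate

namespace Pool.Agent.H16.HK

open Pool.Agent.H3.TatePole Pool.Agent.H18.RS

variable {ℓ : ℕ} [Fact ℓ.Prime] {K : Type*} [Field K] [NumberField K] [IsCyclotomicExtension {ℓ} ℚ K]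

lemma sum_embeddings (hG : IsGalois ℚ K) (φ₀ : K →+* ℂ) (f : (K →+* ℂ) → ℂ) :
    ∑ σ : Gal(K/ℚ), f (φ₀.comp (σ : K →+* K)) = ∑ φ : K →+* ℂ, f φ := by
  have hinj : Function.Injective (fun σ : Gal(K/ℚ) => φ₀.comp (σ : K →+* K)) := by
    intro σ τ h
    ext x
    have h1 := RingHom.congr_fun h x
    exact φ₀.injective h1
  have hcard : Fintype.card Gal(K/ℚ) = Fintype.card (K →+* ℂ) := by
    rw [NumberField.Embeddings.card K ℂ, ← IsGalois.card_aut_eq_finrank, Nat.card_eq_fintype_card]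
  have hbij : Function.Bijective (fun σ : Gal(K/ℚ) => φ₀.comp (σ : K →+* K)) :=
    (Fintype.bijective_iff_injective_and_card _).mpr ⟨hinj, hcard⟩
  exact Fintype.sum_bijective _ hbij _ _ (fun _ => rfl)

/-- the normalised trace at the primes of degree one -/
noncomputable def wGood (ℓ : ℕ) {K : Type*} [Field K] [NumberField K]
    (v : HeightOneSpectrum (𝓞 K)) : ℝ :=
  if Good ℓ v then (ap (fermatPoly ℓ) (Ideal.absNorm v.asIdeal) : ℝ) /
    Real.sqrt (Ideal.absNorm v.asIdeal) else 0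

lemma wGood_eq {J : 𝓞 K} {v : HeightOneSpectrum (𝓞 K)} (hv : Good ℓ v) (hJ : IsJac ℓ v J) :
    (wGood ℓ v : ℂ) = ∑ φ : K →+* ℂ, uni (φ (J : K)) := by
  have hG : IsGalois ℚ K := IsCyclotomicExtension.isGalois {ℓ} ℚ K
  obtain ⟨φ₀⟩ : Nonempty (K →+* ℂ) := inferInstance
  have h1 := congrArg (fun x : 𝓞 K => φ₀ (x : K)) hJ.count
  simp only [map_sum] at h1
  have h2 : ∀ σ : Gal(K/ℚ), φ₀ ((σ • J : 𝓞 K) : K) =
      (fun φ : K →+* ℂ => φ (J : K)) (φ₀.comp (σ : K →+* K)) := fun σ => rfl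
  have h3 : ((ap (fermatPoly ℓ) (Ideal.absNorm v.asIdeal) : ℤ) : ℂ) = ∑ φ : K →+* ℂ, φ (J : K) := by
    rw [← sum_embeddings hG φ₀]
    refine Eq.trans ?_ (h1.trans ?_)
    · simp
    · exact Finset.sum_congr rfl fun σ _ => h2 σ
  have hN : 0 < (Ideal.absNorm v.asIdeal : ℝ) := nrm_pos v
  have h4 : ∀ φ : K →+* ℂ, uni (φ (J : K)) =
      φ (J : K) * ((Real.sqrt (Ideal.absNorm v.asIdeal) : ℝ) : ℂ)⁻¹ := by
    intro φ
    unfold uni
    rw [div_eq_mul_inv]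
    congr 3
    rw [← hJ.norm φ, Real.sqrt_sq (norm_nonneg _)]
  rw [Finset.sum_congr rfl fun φ _ => h4 φ, ← Finset.sum_mul, ← h3]
  unfold wGood
  rw [if_pos hv]
  push_cast
  rw [div_eq_mul_inv]

lemma wGood_bdd (ℓ : ℕ) [Fact ℓ.Prime] (hℓ : ℓ ≠ 2) (K : Type*) [Field K] [NumberField K]
    [IsCyclotomicExtension {ℓ} ℚ K] : Bdd (wGood ℓ (K := K)) := by
  obtain ⟨J, hJ⟩ := exists_jac hℓ K
  refine ⟨Fintype.card (K →+* ℂ), fun v => ?_⟩
  by_cases hv : Good ℓ v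
  · have h1 := wGood_eq hv (hJ v hv)
    have h2 : |wGood ℓ v| = ‖(wGood ℓ v : ℂ)‖ := by
      rw [Complex.norm_real, Real.norm_eq_abs]
    rw [h2, h1]
    refine (norm_sum_le _ _).trans ?_
    calc ∑ φ : K →+* ℂ, ‖uni (φ (J v : K))‖ ≤ ∑ _φ : K →+* ℂ, (1 : ℝ) :=
          Finset.sum_le_sum fun φ _ => uni_norm_le _
      _ = Fintype.card (K →+* ℂ) := by simp
  · unfold wGood
    rw [if_neg hv, abs_zero]
    positivity

/-- the product of a character and the conjugate of another -/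
noncomputable def conjMul (Ψ Ψ' : Ideal (𝓞 K) →*₀ ℂ) : Ideal (𝓞 K) →*₀ ℂ where
  toFun I := Ψ I * conj (Ψ' I)
  map_zero' := by
    change Ψ 0 * conj (Ψ' 0) = 0
    rw [map_zero, zero_mul]
  map_one' := by
    change Ψ 1 * conj (Ψ' 1) = 1
    rw [map_one, map_one, map_one, mul_one]
  map_mul' I I' := by simp only [map_mul]; ring

lemma uni_ne_zero {z : ℂ} (hz : z ≠ 0) : uni z ≠ 0 := by
  have := uni_norm hz
  intro h
  rw [h, norm_zero] at this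
  exact zero_ne_one this

lemma conj_uni_zpow {z : ℂ} (hz : z ≠ 0) (n : ℤ) : conj (uni z ^ n) = uni z ^ (-n) := by
  rw [map_zpow₀, zpow_neg, ← inv_zpow]
  congr 1
  have h1 : uni z * conj (uni z) = 1 := by
    rw [Complex.mul_conj, Complex.normSq_eq_norm_sq, uni_norm hz]
    norm_num
  exact eq_inv_of_mul_eq_one_right h1

theorem offdiag (hℓ : ℓ ≠ 2) {φ φ' : K →+* ℂ} (hφ : φ ≠ φ') {Ψ Ψ' : Ideal (𝓞 K) →*₀ ℂ}
    (h1 : ∀ I, ‖Ψ I‖ ≤ 1) (h1' : ∀ I, ‖Ψ' I‖ ≤ 1) (h0 : ∀ I, I ⊔ lam ℓ K ^ 2 ≠ ⊤ → Ψ I = 0)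
    (hv : ∀ a : 𝓞 K, a ≠ 0 → a - 1 ∈ lam ℓ K ^ 2 →
        Ψ (Ideal.span {a}) = uni (φ (CM ℓ a : K)))
    (hv' : ∀ a : 𝓞 K, a ≠ 0 → a - 1 ∈ lam ℓ K ^ 2 →
        Ψ' (Ideal.span {a}) = uni (φ' (CM ℓ a : K))) :
    ∃ C : ℝ, ∀ t : ℝ, 1 < t → t ≤ 2 →
      wsum (fun v : HeightOneSpectrum (𝓞 K) => (Ψ v.asIdeal * conj (Ψ' v.asIdeal)).re) t ≤ C := by
  have hℓ' : ℓ.Prime := Fact.out
  have : IsTotallyComplex K :=
    IsCyclotomicExtension.Rat.isTotallyComplex K (n := ℓ)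
      (lt_of_le_of_ne hℓ'.two_le (Ne.symm hℓ))
  have hlam : lam ℓ K ^ 2 ≠ ⊥ := by
    apply pow_ne_zero
    unfold lam
    rw [Ne, Ideal.zero_eq_bot, Ideal.span_singleton_eq_bot]
    exact (IsCyclotomicExtension.zeta_spec ℓ ℚ K).toInteger_isPrimitiveRoot.sub_one_ne_zero
      hℓ'.one_lt
  refine hecke_upper (lam ℓ K ^ 2) hlam (conjMul Ψ Ψ') (fun I => ?_) (fun I hI => ?_)
    (fun ψ => cnt ℓ φ ψ - cnt ℓ φ' ψ) (cnt_ne hℓ hφ) (fun a ha ha1 => ?_)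
  · change ‖Ψ I * conj (Ψ' I)‖ ≤ 1
    rw [norm_mul, RCLike.norm_conj]
    exact mul_le_one₀ (h1 I) (norm_nonneg _) (h1' I)
  · change Ψ I * conj (Ψ' I) = 0
    rw [h0 I hI, zero_mul]
  · change Ψ _ * conj (Ψ' _) = _
    rw [hv a ha ha1, hv' a ha ha1, uni_CM φ ha, uni_CM φ' ha, map_prod, ← Finset.prod_mul_distrib]
    refine Finset.prod_congr rfl fun ψ _ => ?_
    have hz : ψ (a : K) ≠ 0 := by
      rw [Ne, map_eq_zero]
      simpa using ha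
    rw [conj_uni_zpow hz, ← zpow_add₀ (uni_ne_zero hz), sub_eq_add_neg]

theorem mean_square (hℓ : ℓ ≠ 2) (K : Type*) [Field K] [NumberField K]
    [IsCyclotomicExtension {ℓ} ℚ K] {ε : ℝ} (hε : 0 < ε) :
    ∀ᶠ t : ℝ in 𝓝[>] 1, wsum (fun v : HeightOneSpectrum (𝓞 K) => wGood ℓ v ^ 2) t ≤
      ((ℓ : ℝ) - 1 + ε) * Lam t := by
  have hℓ' : ℓ.Prime := Fact.out
  obtain ⟨J, hJ⟩ := exists_jac hℓ K
  choose Ψ hΨ1 hΨ0 hΨv hΨa using fun φ : K →+* ℂ => exists_hecke hℓ hJ φ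
  have hcardE : Fintype.card (K →+* ℂ) = ℓ - 1 := by
    rw [NumberField.Embeddings.card K ℂ, IsCyclotomicExtension.finrank K
      (Polynomial.cyclotomic.irreducible_rat hℓ'.pos), Nat.totient_prime hℓ']
  let q : (K →+* ℂ) × (K →+* ℂ) → HeightOneSpectrum (𝓞 K) → ℝ := fun x v =>
    (Ψ x.1 v.asIdeal * conj (Ψ x.2 v.asIdeal)).re
  have hq1 : ∀ x v, |q x v| ≤ 1 := by
    intro x v
    refine (Complex.abs_re_le_norm _).trans ?_
    rw [norm_mul, RCLike.norm_conj]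
    exact mul_le_one₀ (hΨ1 _ _) (norm_nonneg _) (hΨ1 _ _)
  have hqb : ∀ x, Bdd (q x) := fun x => ⟨1, hq1 x⟩
  have hoff : ∀ x : (K →+* ℂ) × (K →+* ℂ), ∃ C : ℝ, 0 ≤ C ∧ (x.1 ≠ x.2 → ∀ t : ℝ, 1 < t → t ≤ 2 →
      wsum (q x) t ≤ C) := by
    intro x
    by_cases hx : x.1 = x.2
    · exact ⟨0, le_rfl, fun h => absurd hx h⟩
    · obtain ⟨C, hC⟩ := offdiag hℓ hx (hΨ1 x.1) (hΨ1 x.2) (hΨ0 x.1) (hΨa x.1) (hΨa x.2)
      exact ⟨max C 0, le_max_right _ _, fun _ t h1 h2 => (hC t h1 h2).trans (le_max_left _ _)⟩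
  choose C hC0 hC using hoff
  have hwb : Bdd (fun v : HeightOneSpectrum (𝓞 K) => wGood ℓ v ^ 2) := by
    simpa [sq] using (wGood_bdd ℓ hℓ K).mul (wGood_bdd ℓ hℓ K)
  have hpt : ∀ v : HeightOneSpectrum (𝓞 K), wGood ℓ v ^ 2 ≤ ∑ x, q x v := by
    intro v
    have hS : ∑ x : (K →+* ℂ) × (K →+* ℂ), q x v =
        Complex.normSq (∑ φ : K →+* ℂ, Ψ φ v.asIdeal) := by
      have h1 : ((Complex.normSq (∑ φ : K →+* ℂ, Ψ φ v.asIdeal) : ℝ) : ℂ) =
          ∑ x : (K →+* ℂ) × (K →+* ℂ), Ψ x.1 v.asIdeal * conj (Ψ x.2 v.asIdeal) := by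
        rw [← Complex.mul_conj, map_sum, Finset.sum_mul_sum, Fintype.sum_prod_type]
      have h2 := congrArg Complex.re h1
      rw [Complex.ofReal_re, Complex.re_sum] at h2
      exact h2.symm
    rw [hS]
    by_cases hv : Good ℓ v
    · have h1 := wGood_eq hv (hJ v hv)
      have h2 : (∑ φ : K →+* ℂ, Ψ φ v.asIdeal) = (wGood ℓ v : ℂ) := by
        rw [h1]
        exact Finset.sum_congr rfl fun φ _ => hΨv φ v hv
      rw [h2, Complex.normSq_ofReal]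
      exact le_of_eq (by ring)
    · unfold wGood
      rw [if_neg hv]
      simpa using Complex.normSq_nonneg _
  have hC' : ∀ t : ℝ, 1 < t → t ≤ 2 → wsum (fun v : HeightOneSpectrum (𝓞 K) => wGood ℓ v ^ 2) t ≤
      ((ℓ : ℝ) - 1) * wsum (fun _ : HeightOneSpectrum (𝓞 K) => (1 : ℝ)) t + ∑ x, C x := by
    intro t h1 h2
    refine (wsum_mono hwb (Bdd.sum Finset.univ fun x _ => hqb x) hpt h1).trans ?_
    rw [wsum_sum Finset.univ (fun x _ => hqb x) h1]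
    have h3 : ∀ x : (K →+* ℂ) × (K →+* ℂ), wsum (q x) t ≤
        (if x.1 = x.2 then wsum (fun _ : HeightOneSpectrum (𝓞 K) => (1 : ℝ)) t else 0) + C x := by
      intro x
      by_cases hx : x.1 = x.2
      · rw [if_pos hx]
        have : wsum (q x) t ≤ wsum (fun _ : HeightOneSpectrum (𝓞 K) => (1 : ℝ)) t :=
          wsum_mono (hqb x) (Bdd.const 1) (fun v => (abs_le.mp (hq1 x v)).2) h1
        linarith [hC0 x]
      · rw [if_neg hx]
        linarith [hC x hx t h1 h2]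
    refine (Finset.sum_le_sum fun x _ => h3 x).trans ?_
    rw [Finset.sum_add_distrib]
    refine add_le_add (le_of_eq ?_) le_rfl
    rw [Fintype.sum_prod_type]
    simp only [Finset.sum_ite_eq, Finset.mem_univ, if_true, Finset.sum_const, Finset.card_univ,
      hcardE, nsmul_eq_mul]
    rw [Nat.cast_sub hℓ'.one_lt.le]
    simp
  have hl1 : (0 : ℝ) < ℓ := by exact_mod_cast hℓ'.pos
  have hl2 : (1 : ℝ) < ℓ := by exact_mod_cast hℓ'.one_lt
  have hone : Tendsto (fun t => wsum (fun _ : HeightOneSpectrum (𝓞 K) => (1 : ℝ)) t / Lam t)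
    (𝓝[>] 1) (𝓝 1) := hasMean_one
  have h5 := hone.eventually_le_const (show (1 : ℝ) < 1 + ε / (2 * ℓ) by
    have : 0 < ε / (2 * ℓ) := by positivity
    linarith)
  have h6 := Lam_tendsto.eventually_ge_atTop (max 1 (2 * (∑ x, C x) / ε))
  have h7 : ∀ᶠ t : ℝ in 𝓝[>] 1, t ≤ 2 := by
    have : ∀ᶠ t : ℝ in 𝓝 1, t ≤ 2 := by
      filter_upwards [Iio_mem_nhds (show (1 : ℝ) < 2 by norm_num)] with t ht using le_of_lt ht
    exact this.filter_mono nhdsWithin_le_nhds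
  filter_upwards [h5, h6, h7, self_mem_nhdsWithin] with t ht1 ht2 ht3 ht4
  have ht4' : 1 < t := ht4
  have hL : 1 ≤ Lam t := (le_max_left _ _).trans ht2
  have hL0 : 0 < Lam t := by linarith
  have hL2 : 2 * (∑ x, C x) / ε ≤ Lam t := (le_max_right _ _).trans ht2
  have h8 := hC' t ht4' ht3
  rw [div_le_iff₀ hL0] at ht1
  rw [div_le_iff₀ hε] at hL2
  have h9 : ((ℓ : ℝ) - 1) * wsum (fun _ : HeightOneSpectrum (𝓞 K) => (1 : ℝ)) t ≤
      ((ℓ : ℝ) - 1) * ((1 + ε / (2 * ℓ)) * Lam t) :=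
    mul_le_mul_of_nonneg_left ht1 (by linarith)
  have h10 : ((ℓ : ℝ) - 1) * (ε / (2 * ℓ)) ≤ ε / 2 := by
    rw [mul_div_assoc', div_le_iff₀ (by positivity)]
    nlinarith
  nlinarith

end Pool.Agent.H16.HK
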