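import Pool.Agent.H16.HK.Alg

/-!
# Job HK-NM1: a modulus for the norm from `M` to the cyclotomic field `K`

`𝔪 = span {ℓ ^ 2}` in `𝓞 M`.
* `a = 1 + ℓ ^ 2 b`: the norm `N_{M/K}(a)`, in an algebraic closure of `K`, is `∏_σ (1 + ℓ ^ 2 σ(b))` over the `K`-embeddings `σ` of `M`
  (`Algebra.norm_eq_prod_embeddings`; `Algebra.algebraMap_intNorm` for `Algebra.intNorm`), and a product of numbers of the form `1 + ℓ ^ 2 c`, `c` integral
  over `ℤ`, has this form. So `(N(a) - 1) / ℓ ^ 2 ∈ K` is integral over `ℤ`, `N(a) - 1 ∈ ℓ ^ 2 𝓞 K ⊆ lam ^ 2` (`ℓ ∈ lam`: `p_mem_span_zeta_sub_one`, or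
  `∏ (1 - ζ^i) = ℓ`). (Any other proof is fine, for instance with the determinant after localisation.)
* `I ⊔ 𝔪 ≠ ⊤`: let `P` be a maximal ideal with `I ≤ P`, `ℓ ^ 2 ∈ P`, so `ℓ ∈ P`. `P ∩ 𝓞 K` is a prime containing `ℓ`, so it is `lam`
  (`eq_span_zeta_sub_one_of_liesOver'` in `Mathlib/NumberTheory/NumberField/Cyclotomic/Ideal.lean`). `relNorm I ≤ relNorm P ≤ P ∩ 𝓞 K = lam`
  (`Ideal.relNorm_mono`, `Ideal.relNorm_le_comap`), so `relNorm I ⊔ lam ^ 2 ≤ lam ≠ ⊤`.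
-/

open NumberField IsDedekindDomain Polynomial IsCyclotomicExtension.Rat
open scoped Pointwise Classical

namespace Pool.Agent.H16.HK

theorem nm1_int {Ω : Type*} [Field Ω] (n : ℕ) : IsIntegral ℤ (n : Ω) := by
  simpa using isIntegral_algebraMap (R := ℤ) (A := Ω) (x := (n : ℤ))

/-- a product of numbers of the form `1 + r c`, `c` integral, has this form -/
theorem nm1_prod {Ω ι : Type*} [Field Ω] (r : Ω) (hr : IsIntegral ℤ r) (s : Finset ι) (f : ι → Ω)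
    (hf : ∀ i ∈ s, IsIntegral ℤ (f i)) :
    ∃ c : Ω, IsIntegral ℤ c ∧ ∏ i ∈ s, (1 + r * f i) = 1 + r * c := by
  induction s using Finset.induction_on with
  | empty => exact ⟨0, isIntegral_zero, by simp⟩
  | insert i s hi ih =>
    obtain ⟨c, hc, h⟩ := ih (fun j hj => hf j (Finset.mem_insert_of_mem hj))
    have hi' := hf i (Finset.mem_insert_self _ _)
    refine ⟨c + f i + r * f i * c, ?_, ?_⟩
    · exact (hc.add hi').add ((hr.mul hi').mul hc)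
    · rw [Finset.prod_insert hi, h]; ring

theorem nm1_norm (ℓ : ℕ) (hℓ : ℓ ≠ 0) (K M : Type*) [Field K] [NumberField K] [Field M]
    [NumberField M] [Algebra K M] (b : 𝓞 M) :
    ∃ c : 𝓞 K, Algebra.intNorm (𝓞 K) (𝓞 M) (1 + (ℓ : 𝓞 M) ^ 2 * b) =
      1 + (ℓ : 𝓞 K) ^ 2 * c := by
  have h1 : algebraMap (𝓞 K) K (Algebra.intNorm (𝓞 K) (𝓞 M) (1 + (ℓ : 𝓞 M) ^ 2 * b)) =
      Algebra.norm K (1 + (ℓ : M) ^ 2 * (b : M)) := by
    rw [Algebra.algebraMap_intNorm (L := M)]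
    simp
  have h2 := Algebra.norm_eq_prod_embeddings K (AlgebraicClosure K) (1 + (ℓ : M) ^ 2 * (b : M))
  have h3 : ∀ σ : M →ₐ[K] AlgebraicClosure K,
      σ (1 + (ℓ : M) ^ 2 * (b : M)) = 1 + (ℓ : AlgebraicClosure K) ^ 2 * σ (b : M) := by
    intro σ
    simp
  obtain ⟨c, hc, h4⟩ := nm1_prod ((ℓ : AlgebraicClosure K) ^ 2)
    ((nm1_int ℓ).pow 2) Finset.univ
    (fun σ : M →ₐ[K] AlgebraicClosure K => σ (b : M))
    (fun σ _ => by
      have := b.isIntegral_coe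
      exact this.map (σ.restrictScalars ℤ))
  set N := Algebra.norm K (1 + (ℓ : M) ^ 2 * (b : M)) with hN
  have hℓK : (ℓ : K) ≠ 0 := Nat.cast_ne_zero.mpr hℓ
  have hℓO : (ℓ : AlgebraicClosure K) ≠ 0 := Nat.cast_ne_zero.mpr hℓ
  have h5 : algebraMap K (AlgebraicClosure K) ((N - 1) / (ℓ : K) ^ 2) = c := by
    rw [map_div₀, map_sub, map_pow, map_natCast, map_one, h2,
      Finset.prod_congr rfl (fun σ _ => h3 σ), h4]
    field_simp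
    ring
  have h6 : IsIntegral ℤ ((N - 1) / (ℓ : K) ^ 2) := by
    rw [← isIntegral_algebraMap_iff (FaithfulSMul.algebraMap_injective K (AlgebraicClosure K)), h5]
    exact hc
  refine ⟨⟨_, h6⟩, ?_⟩
  apply RingOfIntegers.coe_injective
  rw [h1]
  show N = 1 + (ℓ : K) ^ 2 * ((N - 1) / (ℓ : K) ^ 2)
  field_simp
  ring

theorem nm1_ell_mem (ℓ : ℕ) [Fact ℓ.Prime] (K : Type*) [Field K] [NumberField K]
    [IsCyclotomicExtension {ℓ} ℚ K] : (ℓ : 𝓞 K) ∈ lam ℓ K := by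
  have h := (zeta_sub_one_dvd_intCast_iff' ℓ (IsCyclotomicExtension.zeta_spec ℓ ℚ K)
    (n := (ℓ : ℤ))).2 dvd_rfl
  rw [lam, Ideal.mem_span_singleton]
  simpa using h

theorem exists_modulus (ℓ : ℕ) [Fact ℓ.Prime] (K M : Type*) [Field K] [NumberField K]
    [IsCyclotomicExtension {ℓ} ℚ K] [Field M] [NumberField M] [Algebra K M] :
    ∃ 𝔪 : Ideal (𝓞 M), 𝔪 ≠ ⊥ ∧
      (∀ a : 𝓞 M, a - 1 ∈ 𝔪 → Algebra.intNorm (𝓞 K) (𝓞 M) a - 1 ∈ lam ℓ K ^ 2) ∧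
      ∀ I : Ideal (𝓞 M), I ⊔ 𝔪 ≠ ⊤ → Ideal.relNorm (𝓞 K) I ⊔ lam ℓ K ^ 2 ≠ ⊤ := by
  have hℓ : ℓ.Prime := Fact.out
  have hℓ0 : ℓ ≠ 0 := hℓ.ne_zero
  refine ⟨Ideal.span {(ℓ : 𝓞 M) ^ 2}, ?_, ?_, ?_⟩
  · rw [Ne, Ideal.span_singleton_eq_bot]
    exact pow_ne_zero 2 (Nat.cast_ne_zero.mpr hℓ0)
  · intro a ha
    rw [Ideal.mem_span_singleton] at ha
    obtain ⟨b, hb⟩ := ha
    have ha : a = 1 + (ℓ : 𝓞 M) ^ 2 * b := by rw [← hb]; ring
    obtain ⟨c, hc⟩ := nm1_norm ℓ hℓ0 K M b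
    rw [ha, hc, add_sub_cancel_left]
    exact Ideal.mul_mem_right _ _ (Ideal.pow_mem_pow (nm1_ell_mem ℓ K) 2)
  · intro I hI
    obtain ⟨P, hP, hIP⟩ := Ideal.exists_le_maximal _ hI
    have hPp : P.IsPrime := hP.isPrime
    have hℓP : (ℓ : 𝓞 M) ∈ P := by
      have : (ℓ : 𝓞 M) ^ 2 ∈ P := hIP (Ideal.mem_sup_right (Ideal.mem_span_singleton_self _))
      exact hPp.mem_of_pow_mem 2 this
    have hQp : (Ideal.comap (algebraMap (𝓞 K) (𝓞 M)) P).IsPrime := Ideal.IsPrime.comap _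
    have hQl : (Ideal.comap (algebraMap (𝓞 K) (𝓞 M)) P).LiesOver (Ideal.span {(ℓ : ℤ)}) := by
      rw [Ideal.liesOver_iff]
      refine Ideal.IsMaximal.eq_of_le (Int.ideal_span_isMaximal_of_prime ℓ)
        Ideal.IsPrime.ne_top' ?_
      rw [Ideal.span_singleton_le_iff_mem]
      show algebraMap (𝓞 K) (𝓞 M) (algebraMap ℤ (𝓞 K) (ℓ : ℤ)) ∈ P
      simpa using hℓP
    have hQ := eq_span_zeta_sub_one_of_liesOver' ℓ K (IsCyclotomicExtension.zeta_spec ℓ ℚ K)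
      (Ideal.comap (algebraMap (𝓞 K) (𝓞 M)) P)
    have hlam : Ideal.comap (algebraMap (𝓞 K) (𝓞 M)) P = lam ℓ K := hQ
    have h1 : Ideal.relNorm (𝓞 K) I ≤ lam ℓ K := by
      rw [← hlam]
      exact (Ideal.relNorm_mono (𝓞 K) (le_trans le_sup_left hIP)).trans
        (Ideal.relNorm_le_comap (𝓞 K) P)
    intro htop
    have h2 : Ideal.relNorm (𝓞 K) I ⊔ lam ℓ K ^ 2 ≤ lam ℓ K :=
      sup_le h1 (Ideal.pow_le_self two_ne_zero)
    rw [htop, ← hlam] at h2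
    exact hQp.ne_top (top_le_iff.mp h2)

end Pool.Agent.H16.HK
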