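import Pool.Agent.H16.HK.Types

/-!
# Job HK-NM2: the values at norms

By `uni_CM`, the left side is `∏_{ψ₀ : K →+* ℂ} uni (ψ₀ (N a)) ^ cnt ℓ φ ψ₀`, `N a = Algebra.intNorm (𝓞 K) (𝓞 M) a ≠ 0`, and
`ψ₀ (N a) = ∏_{ψ : M →+* ℂ, ψ ∘ algebraMap = ψ₀} ψ a` (`Algebra.norm_eq_prod_embeddings` for the algebra structure on `ℂ` given by `ψ₀`;
`Algebra.algebraMap_intNorm`). `uni` is multiplicative (`types_uni_mul`, `types_uni_prod`). Group the product over `ψ` by its restriction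
(`Finset.prod_fiberwise`).
-/

open NumberField IsDedekindDomain Polynomial IsCyclotomicExtension.Rat
open scoped Pointwise Classical

namespace Pool.Agent.H16.HK

theorem nm2_norm {K M : Type*} [Field K] [NumberField K] [Field M] [NumberField M] [Algebra K M]
    (ψ₀ : K →+* ℂ) (x : M) :
    ψ₀ (Algebra.norm K x) =
      ∏ ψ ∈ Finset.univ.filter (fun ψ : M →+* ℂ => ψ.comp (algebraMap K M) = ψ₀), ψ x := by
  letI : Algebra K ℂ := ψ₀.toAlgebra
  have h1 := Algebra.norm_eq_prod_embeddings (K := K) (L := M) ℂ x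
  have h2 : algebraMap K ℂ (Algebra.norm K x) = ψ₀ (Algebra.norm K x) := rfl
  rw [← h2, h1]
  refine Finset.prod_bij (fun (σ : M →ₐ[K] ℂ) _ => (σ : M →+* ℂ)) ?_ ?_ ?_ ?_
  · intro σ _
    rw [Finset.mem_filter]
    refine ⟨Finset.mem_univ _, ?_⟩
    ext y
    exact σ.commutes y
  · intro σ _ σ' _ h
    apply AlgHom.ext
    intro y
    exact RingHom.congr_fun h y
  · intro ψ hψ
    rw [Finset.mem_filter] at hψ
    refine ⟨{ ψ with commutes' := fun y => RingHom.congr_fun hψ.2 y }, Finset.mem_univ _, ?_⟩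
    rfl
  · intro σ _
    rfl

theorem uni_norm_emb {ℓ : ℕ} [Fact ℓ.Prime] {K M : Type*} [Field K] [NumberField K]
    [IsCyclotomicExtension {ℓ} ℚ K] [Field M] [NumberField M] [Algebra K M] (φ : K →+* ℂ)
    {a : 𝓞 M} (ha : a ≠ 0) :
    uni (φ (CM ℓ (Algebra.intNorm (𝓞 K) (𝓞 M) a) : K)) =
      ∏ ψ : M →+* ℂ, uni (ψ (a : M)) ^ cnt ℓ φ (ψ.comp (algebraMap K M)) := by
  have hN : Algebra.intNorm (𝓞 K) (𝓞 M) a ≠ 0 := by
    rw [Ne, Algebra.intNorm_eq_zero]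
    exact ha
  rw [uni_CM φ hN]
  rw [← Finset.prod_fiberwise Finset.univ (fun ψ : M →+* ℂ => ψ.comp (algebraMap K M))
    (fun ψ : M →+* ℂ => uni (ψ (a : M)) ^ cnt ℓ φ (ψ.comp (algebraMap K M)))]
  refine Finset.prod_congr rfl fun ψ₀ _ => ?_
  have h1 : ((Algebra.intNorm (𝓞 K) (𝓞 M) a : 𝓞 K) : K) = Algebra.norm K (a : M) :=
    Algebra.algebraMap_intNorm (A := 𝓞 K) (K := K) (L := M) (B := 𝓞 M) a
  rw [h1, nm2_norm, types_uni_prod, ← Finset.prod_zpow]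
  refine Finset.prod_congr rfl fun ψ hψ => ?_
  rw [(Finset.mem_filter.mp hψ).2]

end Pool.Agent.H16.HK
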