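import Pool.Agent.H16.HK.MSq
import Pool.Agent.H16.HK.NM1
import Pool.Agent.H16.HK.NM2

/-!
# The mean square over the primes of an extension of the cyclotomic field
-/

open NumberField IsDedekindDomain Polynomial IsCyclotomicExtension.Rat Filter Topology
open scoped Pointwise Classical ComplexConjugate

namespace Pool.Agent.H16.HK

open Pool.Agent.H3.TatePole Pool.Agent.H18.RS

variable {ℓ : ℕ} [Fact ℓ.Prime] {K M : Type*} [Field K] [NumberField K]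
  [IsCyclotomicExtension {ℓ} ℚ K] [Field M] [NumberField M] [Algebra K M]

/-- composition with the norm of ideals -/
noncomputable def compNorm (Ψ : Ideal (𝓞 K) →*₀ ℂ) (M : Type*) [Field M] [NumberField M]
    [Algebra K M] : Ideal (𝓞 M) →*₀ ℂ :=
  Ψ.comp (Ideal.relNorm (𝓞 K))

theorem offdiagM (hℓ : ℓ ≠ 2) {φ φ' : K →+* ℂ} (hφ : φ ≠ φ') {Ψ Ψ' : Ideal (𝓞 K) →*₀ ℂ}
    (h1 : ∀ I, ‖Ψ I‖ ≤ 1) (h1' : ∀ I, ‖Ψ' I‖ ≤ 1) (h0 : ∀ I, I ⊔ lam ℓ K ^ 2 ≠ ⊤ → Ψ I = 0)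
    (hv : ∀ a : 𝓞 K, a ≠ 0 → a - 1 ∈ lam ℓ K ^ 2 →
        Ψ (Ideal.span {a}) = uni (φ (CM ℓ a : K)))
    (hv' : ∀ a : 𝓞 K, a ≠ 0 → a - 1 ∈ lam ℓ K ^ 2 →
        Ψ' (Ideal.span {a}) = uni (φ' (CM ℓ a : K))) :
    ∃ C : ℝ, ∀ t : ℝ, 1 < t → t ≤ 2 →
      wsum (fun v : HeightOneSpectrum (𝓞 M) => (Ψ (Ideal.relNorm (𝓞 K) v.asIdeal) *
        conj (Ψ' (Ideal.relNorm (𝓞 K) v.asIdeal))).re) t ≤ C := by
  have hℓ' : ℓ.Prime := Fact.out
  have hK : IsTotallyComplex K :=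
    IsCyclotomicExtension.Rat.isTotallyComplex K (n := ℓ)
      (lt_of_le_of_ne hℓ'.two_le (Ne.symm hℓ))
  have : IsTotallyComplex M := by
    refine ⟨fun w => ?_⟩
    have h1 := hK.isComplex (w.comap (algebraMap K M))
    rw [← InfinitePlace.not_isReal_iff_isComplex] at h1 ⊢
    exact fun h => h1 (h.comap _)
  obtain ⟨𝔪, h𝔪, hm1, hm2⟩ := exists_modulus ℓ K M
  obtain ⟨ψ₀, hψ₀⟩ := cnt_ne (ℓ := ℓ) hℓ hφ
  refine hecke_upper 𝔪 h𝔪 (conjMul (compNorm Ψ M) (compNorm Ψ' M)) (fun I => ?_)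
    (fun I hI => ?_)
    (fun ψ => cnt ℓ φ (ψ.comp (algebraMap K M)) - cnt ℓ φ' (ψ.comp (algebraMap K M)))
    ?_ (fun a ha ha1 => ?_)
  · change ‖Ψ _ * conj (Ψ' _)‖ ≤ 1
    rw [norm_mul, RCLike.norm_conj]
    exact mul_le_one₀ (h1 _) (norm_nonneg _) (h1' _)
  · change Ψ (Ideal.relNorm (𝓞 K) I) * conj (Ψ' _) = 0
    rw [h0 _ (hm2 I hI), zero_mul]
  · -- an extension of `ψ₀`
    obtain ⟨ψ, hψ⟩ : ∃ ψ : M →+* ℂ, ψ.comp (algebraMap K M) = ψ₀ := by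
      let _ : Algebra K ℂ := ψ₀.toAlgebra
      let f : M →ₐ[K] ℂ := IsAlgClosed.lift (M := ℂ) (R := K) (S := M)
      exact ⟨f.toRingHom, RingHom.ext fun x => f.commutes x⟩
    refine ⟨ψ, ?_⟩
    have h2 : (ComplexEmbedding.conjugate ψ).comp (algebraMap K M) =
        ComplexEmbedding.conjugate ψ₀ := by
      rw [← hψ]
      rfl
    simp only [h2, hψ]
    exact hψ₀
  · have hN : Ideal.relNorm (𝓞 K) (Ideal.span {a}) =
        Ideal.span {Algebra.intNorm (𝓞 K) (𝓞 M) a} := Ideal.relNorm_singleton _ _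
    have hN0 : Algebra.intNorm (𝓞 K) (𝓞 M) a ≠ 0 := by
      intro h
      rw [h, Ideal.span_singleton_eq_bot.mpr rfl, Ideal.relNorm_eq_bot_iff,
        Ideal.span_singleton_eq_bot] at hN
      exact ha hN
    change Ψ (Ideal.relNorm (𝓞 K) (Ideal.span {a})) *
      conj (Ψ' (Ideal.relNorm (𝓞 K) (Ideal.span {a}))) = _
    rw [hN, hv _ hN0 (hm1 a ha1), hv' _ hN0 (hm1 a ha1), uni_norm_emb φ ha, uni_norm_emb φ' ha,
      map_prod, ← Finset.prod_mul_distrib]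
    refine Finset.prod_congr rfl fun ψ _ => ?_
    have hz : ψ (a : M) ≠ 0 := by
      rw [Ne, map_eq_zero]
      simpa using ha
    rw [conj_uni_zpow hz, ← zpow_add₀ (uni_ne_zero hz), sub_eq_add_neg]

/-- the norm of a prime of degree one -/
lemma exists_below {v : HeightOneSpectrum (𝓞 M)} (hv : Good ℓ v) :
    ∃ w : HeightOneSpectrum (𝓞 K), Good ℓ w ∧ w.asIdeal = Ideal.relNorm (𝓞 K) v.asIdeal ∧
      Ideal.absNorm w.asIdeal = Ideal.absNorm v.asIdeal := by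
  have h1 : Ideal.absNorm (Ideal.relNorm (𝓞 K) v.asIdeal) = Ideal.absNorm v.asIdeal :=
    Ideal.absNorm_relNorm _ _ _
  have hp : Irreducible (Ideal.absNorm (Ideal.relNorm (𝓞 K) v.asIdeal)) := by
    rw [h1]
    exact hv.1
  have h2 : (Ideal.relNorm (𝓞 K) v.asIdeal).IsPrime := Ideal.isPrime_of_irreducible_absNorm hp
  have h3 : Ideal.relNorm (𝓞 K) v.asIdeal ≠ ⊥ := by
    rw [Ne, Ideal.relNorm_eq_bot_iff]
    exact v.ne_bot
  exact ⟨⟨_, h2, h3⟩, ⟨by rw [h1]; exact hv.1, by rw [h1]; exact hv.2⟩, rfl, h1⟩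

lemma wGood_eqM {J : HeightOneSpectrum (𝓞 K) → 𝓞 K} (hJ : ∀ v, Good ℓ v → IsJac ℓ v (J v))
    {Ψ : (K →+* ℂ) → Ideal (𝓞 K) →*₀ ℂ}
    (hΨ : ∀ φ, ∀ v : HeightOneSpectrum (𝓞 K), Good ℓ v → Ψ φ v.asIdeal = uni (φ (J v : K)))
    {v : HeightOneSpectrum (𝓞 M)} (hv : Good ℓ v) :
    (wGood ℓ v : ℂ) = ∑ φ : K →+* ℂ, Ψ φ (Ideal.relNorm (𝓞 K) v.asIdeal) := by
  obtain ⟨w, hw1, hw2, hw3⟩ := exists_below (K := K) hv
  have h1 := wGood_eq hw1 (hJ w hw1)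
  have h2 : wGood ℓ v = wGood ℓ w := by
    unfold wGood
    rw [if_pos hv, if_pos hw1, hw3]
  rw [h2, h1, ← hw2]
  exact Finset.sum_congr rfl fun φ _ => (hΨ φ w hw1).symm

lemma wGood_bddM (ℓ : ℕ) [Fact ℓ.Prime] (hℓ : ℓ ≠ 2) (K M : Type*) [Field K] [NumberField K]
    [IsCyclotomicExtension {ℓ} ℚ K] [Field M] [NumberField M] [Algebra K M] :
    Bdd (wGood ℓ (K := M)) := by
  obtain ⟨D, hD⟩ := wGood_bdd ℓ hℓ K
  refine ⟨max D 0, fun v => ?_⟩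
  by_cases hv : Good ℓ v
  · obtain ⟨w, hw1, hw2, hw3⟩ := exists_below (K := K) hv
    have h2 : wGood ℓ v = wGood ℓ w := by
      unfold wGood
      rw [if_pos hv, if_pos hw1, hw3]
    rw [h2]
    exact (hD w).trans (le_max_left _ _)
  · unfold wGood
    rw [if_neg hv, abs_zero]
    exact le_max_right _ _

theorem mean_squareM (hℓ : ℓ ≠ 2) (K M : Type*) [Field K] [NumberField K]
    [IsCyclotomicExtension {ℓ} ℚ K] [Field M] [NumberField M] [Algebra K M] {ε : ℝ} (hε : 0 < ε) :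
    ∀ᶠ t : ℝ in 𝓝[>] 1, wsum (fun v : HeightOneSpectrum (𝓞 M) => wGood ℓ v ^ 2) t ≤
      ((ℓ : ℝ) - 1 + ε) * Lam t := by
  have hℓ' : ℓ.Prime := Fact.out
  obtain ⟨J, hJ⟩ := exists_jac hℓ K
  choose Ψ hΨ1 hΨ0 hΨv hΨa using fun φ : K →+* ℂ => exists_hecke hℓ hJ φ
  have hcardE : Fintype.card (K →+* ℂ) = ℓ - 1 := by
    rw [NumberField.Embeddings.card K ℂ, IsCyclotomicExtension.finrank K
      (Polynomial.cyclotomic.irreducible_rat hℓ'.pos), Nat.totient_prime hℓ']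
  let q : (K →+* ℂ) × (K →+* ℂ) → HeightOneSpectrum (𝓞 M) → ℝ := fun x v =>
    (Ψ x.1 (Ideal.relNorm (𝓞 K) v.asIdeal) * conj (Ψ x.2 (Ideal.relNorm (𝓞 K) v.asIdeal))).re
  have hq1 : ∀ x v, |q x v| ≤ 1 := by
    intro x v
    refine (Complex.abs_re_le_norm _).trans ?_
    rw [norm_mul, RCLike.norm_conj]
    exact mul_le_one₀ (hΨ1 _ _) (norm_nonneg _) (hΨ1 _ _)
  have hqb : ∀ x, Bdd (q x) := fun x => ⟨1, hq1 x⟩
  have hoff : ∀ x : (K →+* ℂ) × (K →+* ℂ), ∃ C : ℝ, 0 ≤ C ∧ (x.1 ≠ x.2 → ∀ t : ℝ, 1 < t → t ≤ 2 →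
      wsum (q x) t ≤ C) := by
    intro x
    by_cases hx : x.1 = x.2
    · exact ⟨0, le_rfl, fun h => absurd hx h⟩
    · obtain ⟨C, hC⟩ := offdiagM (M := M) hℓ hx (hΨ1 x.1) (hΨ1 x.2) (hΨ0 x.1) (hΨa x.1) (hΨa x.2)
      exact ⟨max C 0, le_max_right _ _, fun _ t h1 h2 => (hC t h1 h2).trans (le_max_left _ _)⟩
  choose C hC0 hC using hoff
  have hwb : Bdd (fun v : HeightOneSpectrum (𝓞 M) => wGood ℓ v ^ 2) := by
    simpa [sq] using (wGood_bddM ℓ hℓ K M).mul (wGood_bddM ℓ hℓ K M)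
  have hpt : ∀ v : HeightOneSpectrum (𝓞 M), wGood ℓ v ^ 2 ≤ ∑ x, q x v := by
    intro v
    have hS : ∑ x : (K →+* ℂ) × (K →+* ℂ), q x v =
        Complex.normSq (∑ φ : K →+* ℂ, Ψ φ (Ideal.relNorm (𝓞 K) v.asIdeal)) := by
      have h1 : ((Complex.normSq (∑ φ : K →+* ℂ, Ψ φ (Ideal.relNorm (𝓞 K) v.asIdeal)) : ℝ) : ℂ) =
          ∑ x : (K →+* ℂ) × (K →+* ℂ), Ψ x.1 (Ideal.relNorm (𝓞 K) v.asIdeal) *
            conj (Ψ x.2 (Ideal.relNorm (𝓞 K) v.asIdeal)) := by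
        rw [← Complex.mul_conj, map_sum, Finset.sum_mul_sum, Fintype.sum_prod_type]
      have h2 := congrArg Complex.re h1
      rw [Complex.ofReal_re, Complex.re_sum] at h2
      exact h2.symm
    rw [hS]
    by_cases hv : Good ℓ v
    · have h2 := (wGood_eqM hJ hΨv hv).symm
      rw [h2, Complex.normSq_ofReal]
      exact le_of_eq (by ring)
    · unfold wGood
      rw [if_neg hv]
      simpa using Complex.normSq_nonneg _
  have hC' : ∀ t : ℝ, 1 < t → t ≤ 2 → wsum (fun v : HeightOneSpectrum (𝓞 M) => wGood ℓ v ^ 2) t ≤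
      ((ℓ : ℝ) - 1) * wsum (fun _ : HeightOneSpectrum (𝓞 M) => (1 : ℝ)) t + ∑ x, C x := by
    intro t h1 h2
    refine (wsum_mono hwb (Bdd.sum Finset.univ fun x _ => hqb x) hpt h1).trans ?_
    rw [wsum_sum Finset.univ (fun x _ => hqb x) h1]
    have h3 : ∀ x : (K →+* ℂ) × (K →+* ℂ), wsum (q x) t ≤
        (if x.1 = x.2 then wsum (fun _ : HeightOneSpectrum (𝓞 M) => (1 : ℝ)) t else 0) + C x := by
      intro x
      by_cases hx : x.1 = x.2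
      · rw [if_pos hx]
        have : wsum (q x) t ≤ wsum (fun _ : HeightOneSpectrum (𝓞 M) => (1 : ℝ)) t :=
          wsum_mono (hqb x) (Bdd.const 1) (fun v => (abs_le.mp (hq1 x v)).2) h1
        linarith [hC0 x]
      · rw [if_neg hx]
        linarith [hC x hx t h1 h2]
    refine (Finset.sum_le_sum fun x _ => h3 x).trans ?_
    rw [Finset.sum_add_distrib]
    refine add_le_add (le_of_eq ?_) le_rfl
    rw [Fintype.sum_prod_type]
    simp only [Finset.sum_ite_eq, Finset.mem_univ, if_true, Finset.sum_const, Finset.card_univ,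
      hcardE, nsmul_eq_mul]
    rw [Nat.cast_sub hℓ'.one_lt.le]
    simp
  have hl1 : (0 : ℝ) < ℓ := by exact_mod_cast hℓ'.pos
  have hl2 : (1 : ℝ) < ℓ := by exact_mod_cast hℓ'.one_lt
  have hone : Tendsto (fun t => wsum (fun _ : HeightOneSpectrum (𝓞 M) => (1 : ℝ)) t / Lam t)
    (𝓝[>] 1) (𝓝 1) := hasMean_one
  have h5 := hone.eventually_le_const (show (1 : ℝ) < 1 + ε / (2 * ℓ) by
    have : 0 < ε / (2 * ℓ) := by positivity
    linarith)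
  have h6 := Lam_tendsto.eventually_ge_atTop (max 1 (2 * (∑ x, C x) / ε))
  have h7 : ∀ᶠ t : ℝ in 𝓝[>] 1, t ≤ 2 := by
    have : ∀ᶠ t : ℝ in 𝓝 1, t ≤ 2 := by
      filter_upwards [Iio_mem_nhds (show (1 : ℝ) < 2 by norm_num)] with t ht using le_of_lt ht
    exact this.filter_mono nhdsWithin_le_nhds
  filter_upwards [h5, h6, h7, self_mem_nhdsWithin] with t ht1 ht2 ht3 ht4
  have ht4' : 1 < t := ht4
  have hL : 1 ≤ Lam t := (le_max_left _ _).trans ht2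
  have hL0 : 0 < Lam t := by linarith
  have hL2 : 2 * (∑ x, C x) / ε ≤ Lam t := (le_max_right _ _).trans ht2
  have h8 := hC' t ht4' ht3
  rw [div_le_iff₀ hL0] at ht1
  rw [div_le_iff₀ hε] at hL2
  have h9 : ((ℓ : ℝ) - 1) * wsum (fun _ : HeightOneSpectrum (𝓞 M) => (1 : ℝ)) t ≤
      ((ℓ : ℝ) - 1) * ((1 + ε / (2 * ℓ)) * Lam t) :=
    mul_le_mul_of_nonneg_left ht1 (by linarith)
  have h10 : ((ℓ : ℝ) - 1) * (ε / (2 * ℓ)) ≤ ε / 2 := by
    rw [mul_div_assoc', div_le_iff₀ (by positivity)]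
    nlinarith
  nlinarith

end Pool.Agent.H16.HK
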