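import Pool.Agent.H16.HK.Defs

/-!
# Job HK-Riem: sum over a lattice and integral

Let `D` be the fundamental domain of a ℤ-basis of `L` (`IsZLattice`: `Module.Free.chooseBasis ℤ L`,
`Basis.ofZLatticeBasis ℝ L`, `ZSpan.fundamentalDomain`, `ZLattice.isAddFundamentalDomain`), bounded
(`ZSpan.fundamentalDomain_isBounded`), `‖x‖ ≤ R` on `D`, of measure `0 < μ D < ∞`.
For `l ∈ L`: `‖μ(D) G(x₀ + l) - ∫_D G(x₀ + l + x) dx‖ ≤ μ(D) A (1 + ‖x₀ + l‖) ^ (-(n + 1))` (apply the hypothesis to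
`x₀ + l` and `x₀ + l + x`). The sum over `l` of `∫_D G(x₀ + l + x) dx` converges absolutely, to `∫ G = 0`
(`IsAddFundamentalDomain.integral_eq_tsum` for `x ↦ G (x₀ + x)`, `integral_add_left_eq_self`; `integrable` for the norms).
`∑_l (1 + ‖x₀ + l‖) ^ (-(n + 1)) < ∞`: compare with `ZLattice.summable_norm_sub_rpow` (`Mathlib/Algebra/Module/ZLattice/Summable.lean`,
`finrank ℤ L = finrank ℝ V` is `ZLattice.rank`; `l = -x₀` is the only place where `‖l + x₀‖ ^ r` may fail to dominate,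
change one term or use `‖z‖ ≤ 1 + ‖z‖`). So `C = A ∑_l (1 + ‖x₀ + l‖) ^ (-(n + 1))`.
-/

open NumberField NumberField.InfinitePlace NumberField.mixedEmbedding NumberField.Units
open NumberField.Units.dirichletUnitTheorem MeasureTheory Module
open scoped Classical

namespace Pool.Agent.H16.HK

theorem riem_summable {V : Type*} [NormedAddCommGroup V] [NormedSpace ℝ V] [FiniteDimensional ℝ V]
    (L : Submodule ℤ V) [DiscreteTopology L] [IsZLattice ℝ L] (x₀ : V) :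
    Summable (fun l : L => (1 + ‖x₀ + l‖) ^ (-((finrank ℝ V : ℝ) + 1))) := by
  set n : ℝ := (finrank ℝ V : ℝ) + 1 with hn
  have hn0 : 0 < n := by positivity
  have h1 : Summable fun z : L => ‖z‖ ^ (-n) := by
    apply ZLattice.summable_norm_rpow
    rw [ZLattice.rank ℝ L, hn]
    linarith
  have h2 : Summable fun z : L => (1 + ‖x₀‖) ^ n * ‖z‖ ^ (-n) + (if z = 0 then (1:ℝ) else 0) :=
    (h1.mul_left _).add (hasSum_ite_eq (0 : L) (1 : ℝ)).summable
  refine Summable.of_nonneg_of_le (fun l => by positivity) (fun l => ?_) h2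
  by_cases hl : l = 0
  · rw [if_pos hl]
    have h3 : (1 + ‖x₀ + (l : V)‖) ^ (-n) ≤ 1 := by
      apply Real.rpow_le_one_of_one_le_of_nonpos
      · have := norm_nonneg (x₀ + (l : V))
        linarith
      · linarith
    have h4 : 0 ≤ (1 + ‖x₀‖) ^ n * ‖l‖ ^ (-n) := by positivity
    linarith
  · rw [if_neg hl, add_zero]
    have h3 : 0 < ‖l‖ := norm_pos_iff.2 hl
    have h4 : ‖l‖ ≤ (1 + ‖x₀‖) * (1 + ‖x₀ + l‖) := by
      have h5 : ‖(l : V)‖ ≤ ‖x₀ + (l : V)‖ + ‖x₀‖ := by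
        have : (l : V) = (x₀ + l) - x₀ := by abel
        calc ‖(l : V)‖ = ‖(x₀ + l) - x₀‖ := by rw [← this]
          _ ≤ _ := norm_sub_le _ _
      have h6 : ‖l‖ = ‖(l : V)‖ := rfl
      rw [h6]
      nlinarith [norm_nonneg x₀, norm_nonneg (x₀ + (l : V))]
    have h5 : 0 < 1 + ‖x₀ + (l : V)‖ := by positivity
    have h6 : 0 < 1 + ‖x₀‖ := by positivity
    rw [Real.rpow_neg h5.le, Real.rpow_neg h3.le, ← div_eq_mul_inv, inv_eq_one_div,
      div_le_div_iff₀ (Real.rpow_pos_of_pos h5 n) (Real.rpow_pos_of_pos h3 n), one_mul,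
      ← Real.mul_rpow h6.le h5.le]
    exact Real.rpow_le_rpow h3.le h4 hn0.le

open scoped Pointwise in
theorem riem_main {V : Type*} [NormedAddCommGroup V] [NormedSpace ℝ V] [FiniteDimensional ℝ V]
    [MeasurableSpace V] [BorelSpace V] (μ : Measure V) [μ.IsAddHaarMeasure]
    (L : Submodule ℤ V) [DiscreteTopology L] [IsZLattice ℝ L] :
    ∃ R : ℝ, 0 < R ∧ ∀ (x₀ : V) (A : ℝ), ∃ C : ℝ, ∀ G : V → ℂ, Integrable G μ →
      ∫ x, G x ∂μ = 0 →
      (∀ x y, ‖x - y‖ ≤ R → ‖G x - G y‖ ≤ A * (1 + ‖x‖) ^ (-((finrank ℝ V : ℝ) + 1))) →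
      Summable (fun l : L => G (x₀ + l)) ∧ ‖∑' l : L, G (x₀ + l)‖ ≤ C := by
  have : VAddInvariantMeasure L V μ := inferInstanceAs (VAddInvariantMeasure L.toAddSubgroup V μ)
  set b := Module.Free.chooseBasis ℤ L with hb
  set D := ZSpan.fundamentalDomain (b.ofZLatticeBasis ℝ) with hDdef
  have hD : IsAddFundamentalDomain L D μ := ZLattice.isAddFundamentalDomain b μ
  have hbd : Bornology.IsBounded D := ZSpan.fundamentalDomain_isBounded _
  obtain ⟨R0, hR0⟩ := isBounded_iff_forall_norm_le.1 hbd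
  have hμ0 : μ D ≠ 0 := ZSpan.measure_fundamentalDomain_ne_zero _
  have hμt : μ D < ⊤ := hbd.measure_lt_top
  have hm : 0 < μ.real D := by
    rw [measureReal_def]
    exact ENNReal.toReal_pos hμ0 hμt.ne
  refine ⟨max R0 1, lt_of_lt_of_le one_pos (le_max_right _ _), fun x₀ A =>
    ⟨A * ∑' l : L, (1 + ‖x₀ + l‖) ^ (-((finrank ℝ V : ℝ) + 1)), fun G hG hG0 hlip => ?_⟩⟩
  set r : ℝ := -((finrank ℝ V : ℝ) + 1) with hr
  set f : V → ℂ := fun x => G (x₀ + x) with hf
  have hfi : Integrable f μ := hG.comp_add_left x₀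
  have hf0 : ∫ x, f x ∂μ = 0 := by
    rw [← hG0]
    exact integral_add_left_eq_self G x₀
  have hsum : HasSum (fun g : L => ∫ x in g +ᵥ D, f x ∂μ) 0 := by
    rw [← hf0]
    have h1 := hD.sum_restrict
    have h2 : HasSum (fun g : L => ∫ x in g +ᵥ D, f x ∂μ)
      (∫ x, f x ∂(Measure.sum fun g : L => μ.restrict (g +ᵥ D))) := by
      apply hasSum_integral_measure
      rw [h1]
      exact hfi
    rwa [h1] at h2
  have hms : ∀ g : L, μ (g +ᵥ D) = μ D := fun g => measure_vadd μ g D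
  have hms' : ∀ g : L, μ.real (g +ᵥ D) = μ.real D := fun g => by
    rw [measureReal_def, hms g, ← measureReal_def]
  have hdiff : ∀ g : L, ‖(μ.real D : ℂ) * f g - ∫ x in g +ᵥ D, f x ∂μ‖ ≤
      μ.real D * (A * (1 + ‖x₀ + g‖) ^ r) := by
    intro g
    have h1 : (μ.real D : ℂ) * f g = ∫ x in g +ᵥ D, f g ∂μ := by
      rw [setIntegral_const, hms' g]
      rfl
    have h2 : IntegrableOn (fun _ : V => f g) (g +ᵥ D) μ := by
      refine integrableOn_const ?_ (by simp)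
      rw [hms g]
      exact hμt.ne
    rw [h1, ← integral_sub h2 hfi.integrableOn]
    have h3 := norm_setIntegral_le_of_norm_le_const (μ := μ) (s := g +ᵥ D)
      (f := fun x => f g - f x) (C := A * (1 + ‖x₀ + g‖) ^ r) (by rw [hms g]; exact hμt) ?_
    · refine h3.trans (le_of_eq ?_)
      rw [hms' g]
      ring
    · rintro x ⟨d, hd, rfl⟩
      have h4 : (x₀ + (g : V)) - (x₀ + ((g : V) + d)) = -d := by abel
      apply hlip
      show ‖(x₀ + (g : V)) - (x₀ + ((g : V) + d))‖ ≤ max R0 1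
      rw [h4, norm_neg]
      exact (hR0 d hd).trans (le_max_left _ _)
  have hS := riem_summable L x₀
  have hS2 : Summable (fun g : L => μ.real D * (A * (1 + ‖x₀ + g‖) ^ r)) :=
    (hS.mul_left A).mul_left _
  have hS3 : Summable (fun g : L => (μ.real D : ℂ) * f g - ∫ x in g +ᵥ D, f x ∂μ) :=
    Summable.of_norm_bounded hS2 hdiff
  have hS4 : Summable (fun g : L => (μ.real D : ℂ) * f g) := by
    have := hS3.add hsum.summable
    simpa using this
  have hmC : (μ.real D : ℂ) ≠ 0 := by exact_mod_cast hm.ne'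
  have hS5 : Summable (fun g : L => f g) := (summable_mul_left_iff hmC).1 hS4
  refine ⟨hS5, ?_⟩
  have h1 : (μ.real D : ℂ) * ∑' g : L, f g =
      ∑' g : L, ((μ.real D : ℂ) * f g - ∫ x in g +ᵥ D, f x ∂μ) := by
    rw [Summable.tsum_sub hS4 hsum.summable, hsum.tsum_eq, sub_zero, tsum_mul_left]
  have h2 : ‖(μ.real D : ℂ) * ∑' g : L, f g‖ ≤ μ.real D * (A * ∑' g : L, (1 + ‖x₀ + g‖) ^ r) := by
    rw [h1]
    refine (tsum_of_norm_bounded hS2.hasSum hdiff).trans (le_of_eq ?_)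
    rw [tsum_mul_left, tsum_mul_left]
  rw [norm_mul, Complex.norm_real, Real.norm_of_nonneg hm.le] at h2
  exact le_of_mul_le_mul_left h2 hm

theorem riemann {V : Type*} [NormedAddCommGroup V] [NormedSpace ℝ V] [FiniteDimensional ℝ V]
    [MeasurableSpace V] [BorelSpace V] (μ : Measure V) [μ.IsAddHaarMeasure]
    (L : Submodule ℤ V) [DiscreteTopology L] [IsZLattice ℝ L] :
    ∃ R : ℝ, 0 < R ∧ ∀ (x₀ : V) (A : ℝ), ∃ C : ℝ, ∀ G : V → ℂ, Integrable G μ →
      ∫ x, G x ∂μ = 0 →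
      (∀ x y, ‖x - y‖ ≤ R → ‖G x - G y‖ ≤ A * (1 + ‖x‖) ^ (-((finrank ℝ V : ℝ) + 1))) →
      Summable (fun l : L => G (x₀ + l)) ∧ ‖∑' l : L, G (x₀ + l)‖ ≤ C := by
  exact riem_main μ L

end Pool.Agent.H16.HK
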