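import Pool.Agent.H3.TatePole.Zeta
import Pool.Agent.H3.TatePole.Mean

/-!
# Job HK-Summ: `∑ N(I) ^ (-t)` converges for `t > 1`

From `tsum_normWeight` of `Pool/Agent/H3/TatePole/Zeta.lean` and the summability of the Dedekind series used there (look at how
`Zeta.lean` proves its `LSeriesSummable` hypothesis); `I = ⊥` gives `0 ^ (-t) = 0`.
-/

open NumberField IsDedekindDomain

namespace Pool.Agent.H16.HK

theorem summable_ideals (K : Type*) [Field K] [NumberField K] {t : ℝ} (ht : 1 < t) :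
    Summable (fun I : Ideal (𝓞 K) => (Ideal.absNorm I : ℝ) ^ (-t)) := by
  have h1 := H3.TatePole.eventually_summable_pos K
  have h2 : ∀ᶠ t' : ℝ in nhdsWithin 1 (Set.Ioi 1), t' < t := by
    have : Set.Iio t ∈ nhds (1 : ℝ) := Iio_mem_nhds ht
    exact mem_nhdsWithin_of_mem_nhds this
  obtain ⟨t', ⟨⟨h3, h4⟩, h5⟩, h6⟩ := ((h1.and h2).and self_mem_nhdsWithin).exists
  have h6' : 1 < t' := h6
  have h7 := H3.TatePole.tsum_normWeight K t' h3
  have h8 : Summable (fun I : {I : Ideal (𝓞 K) // I ≠ ⊥} =>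
      (Ideal.absNorm (I : Ideal (𝓞 K)) : ℝ) ^ (-t')) := by
    have h9 : ∑' I : {I : Ideal (𝓞 K) // I ≠ ⊥}, H3.TatePole.normWeight K t' I ≠ ⊤ := by
      rw [h7]
      exact ENNReal.ofReal_ne_top
    refine (ENNReal.summable_toReal h9).congr fun I => ?_
    change (ENNReal.ofReal ((Ideal.absNorm (I : Ideal (𝓞 K)) : ℝ) ^ (-t'))).toReal = _
    rw [ENNReal.toReal_ofReal (by positivity)]
  have h9 : Summable (fun I : {I : Ideal (𝓞 K) // I ≠ ⊥} =>
      (Ideal.absNorm (I : Ideal (𝓞 K)) : ℝ) ^ (-t)) := by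
    refine Summable.of_nonneg_of_le (fun I => by positivity) (fun I => ?_) h8
    have h10 : Ideal.absNorm (I : Ideal (𝓞 K)) ≠ 0 := fun h => I.2 (Ideal.absNorm_eq_zero_iff.mp h)
    have h11 : (1 : ℝ) ≤ (Ideal.absNorm (I : Ideal (𝓞 K)) : ℝ) := by
      exact_mod_cast Nat.one_le_iff_ne_zero.mpr h10
    exact Real.rpow_le_rpow_of_exponent_le h11 (by linarith)
  refine (Function.Injective.summable_iff (g := fun I : {I : Ideal (𝓞 K) // I ≠ ⊥} =>
    (I : Ideal (𝓞 K))) Subtype.val_injective ?_).mp h9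
  intro I hI
  have h10 : I = ⊥ := by
    by_contra hc
    exact hI ⟨⟨I, hc⟩, rfl⟩
  rw [h10, Ideal.absNorm_bot, Nat.cast_zero, Real.zero_rpow (by linarith)]

end Pool.Agent.H16.HK
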