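import Pool.Agent.H16.HK.Alg

/-!
# Job HK-WCM: the map `CM ℓ a = ∏_{σ ∈ half} σ a`

* `CM_norm`: `conj (φ x) = φ (c x)` for the automorphism `c` with `c ζ = ζ⁻¹` (compare on `ζ`: `K = ℚ(ζ)`; or `NumberField.IsCMField`), `c` commutes with all
  `σ`. `‖φ (CM a)‖ ^ 2 = ∏_{σ ∈ half} φ(σ a) φ(c σ a)`. `σ ↦ c σ` maps `half` onto its complement (`(c σ)⁻¹ ζ = ζ ^ (-t)`, `ℓ - t > ℓ / 2`; `ℓ` odd), so this is
  `∏_{σ} φ(σ a) = φ(N a) = N a` (`Algebra.norm_eq_prod_automorphisms`), and it is `≥ 0`: `|N a| = absNorm (span {a})`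
  (`Ideal.absNorm_span_singleton`, `Algebra.coe_norm_int`).
* `CM_congr`: `σ • lam = lam` (`σ ζ - 1 = ζ ^ a - 1` is divisible by `ζ - 1`), so `σ a - 1 ∈ lam ^ 2` for every `σ`; product of elements `≡ 1`.
* `CM_span`: `Ideal.prod_span_singleton`, `Ideal.smul_...`: `σ • span {a} = span {σ • a}`.
-/

open NumberField IsDedekindDomain Polynomial IsCyclotomicExtension.Rat
open scoped Pointwise Classical

namespace Pool.Agent.H16.HK

variable {ℓ : ℕ} [Fact ℓ.Prime] {K : Type*} [Field K] [NumberField K] [IsCyclotomicExtension {ℓ} ℚ K]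

theorem CM_mul (a b : 𝓞 K) : CM ℓ (a * b) = CM ℓ a * CM ℓ b := by
  unfold CM
  simp only [smul_mul', Finset.prod_mul_distrib]

theorem CM_ne_zero {a : 𝓞 K} (ha : a ≠ 0) : CM ℓ a ≠ 0 := by
  unfold CM
  rw [Finset.prod_ne_zero_iff]
  intro σ _
  rwa [Ne, smul_eq_zero_iff_eq]

variable (ℓ K) in
/-- complex conjugation -/
noncomputable def wcmC : Gal(K/ℚ) := (galEquivZMod ℓ K).symm (-1)

theorem wcm_val_neg {x : (ZMod ℓ)ˣ} : (-x).val.val = ℓ - x.val.val := by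
  have hx : (x : ZMod ℓ) ≠ 0 := x.ne_zero
  rw [Units.val_neg, ZMod.neg_val, if_neg hx]

theorem wcm_conj_zeta (φ : K →+* ℂ) :
    (starRingEnd ℂ) (φ (IsCyclotomicExtension.zeta ℓ ℚ K)) =
      φ (wcmC ℓ K (IsCyclotomicExtension.zeta ℓ ℚ K)) := by
  have hζ := IsCyclotomicExtension.zeta_spec ℓ ℚ K
  set ζ := IsCyclotomicExtension.zeta ℓ ℚ K with hζd
  have hℓ : ℓ ≠ 0 := (Fact.out : ℓ.Prime).ne_zero
  have h1 : φ ζ ^ ℓ = 1 := by rw [← map_pow, hζ.pow_eq_one, map_one]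
  have h2 : ‖φ ζ‖ = 1 := Complex.norm_eq_one_of_pow_eq_one h1 hℓ
  rw [← Complex.inv_eq_conj h2]
  have h3 : wcmC ℓ K ζ * ζ = 1 := by
    rw [galEquivZMod_apply_of_pow_eq ℓ K _ hζ.pow_eq_one, wcmC, MulEquiv.apply_symm_apply]
    rw [← pow_succ]
    rw [wcm_val_neg]
    have h4 : ((1 : (ZMod ℓ)ˣ) : ZMod ℓ).val = 1 := by
      have : Fact (1 < ℓ) := ⟨(Fact.out : ℓ.Prime).one_lt⟩
      rw [Units.val_one, ZMod.val_one]
    rw [h4, Nat.sub_add_cancel (Fact.out : ℓ.Prime).one_lt.le]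
    exact hζ.pow_eq_one
  have h5 : φ (wcmC ℓ K ζ) * φ ζ = 1 := by rw [← map_mul, h3, map_one]
  exact (eq_inv_of_mul_eq_one_left h5).symm

theorem wcm_conj (φ : K →+* ℂ) (x : K) : (starRingEnd ℂ) (φ x) = φ (wcmC ℓ K x) := by
  let f : K →ₐ[ℚ] ℂ := ((starRingEnd ℂ).comp φ).toRatAlgHom
  let g : K →ₐ[ℚ] ℂ := (φ.comp (wcmC ℓ K : K →+* K)).toRatAlgHom
  have h : f = g := by
    apply ((IsCyclotomicExtension.zeta_spec ℓ ℚ K).powerBasis ℚ).algHom_ext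
    rw [IsPrimitiveRoot.powerBasis_gen]
    exact wcm_conj_zeta φ
  exact AlgHom.congr_fun h x

theorem wcm_mem_half (hℓ : ℓ ≠ 2) (σ : Gal(K/ℚ)) :
    wcmC ℓ K * σ ∈ half ℓ K ↔ σ ∉ half ℓ K := by
  unfold half
  simp only [Finset.mem_filter, Finset.mem_univ, true_and]
  have h1 : galEquivZMod ℓ K (wcmC ℓ K * σ)⁻¹ = - galEquivZMod ℓ K σ⁻¹ := by
    rw [mul_inv_rev, map_mul, map_inv (galEquivZMod ℓ K) (wcmC ℓ K), wcmC,
      MulEquiv.apply_symm_apply, inv_neg, inv_one, mul_neg, mul_one]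
  rw [h1, wcm_val_neg]
  have h2 : (galEquivZMod ℓ K σ⁻¹).val.val < ℓ := ZMod.val_lt _
  have hodd : ℓ % 2 = 1 := (Nat.Prime.eq_two_or_odd (Fact.out : ℓ.Prime)).resolve_left hℓ
  omega

theorem CM_norm (hℓ : ℓ ≠ 2) (a : 𝓞 K) (φ : K →+* ℂ) :
    ‖φ (CM ℓ a : K)‖ ^ 2 = Ideal.absNorm (Ideal.span {a}) := by
  have hgal : IsGalois ℚ K := IsCyclotomicExtension.isGalois {ℓ} ℚ K
  have h0 : (CM ℓ a : K) = ∏ σ ∈ half ℓ K, σ (a : K) := by
    have h00 : algebraMap (𝓞 K) K (CM ℓ a) = ∏ σ ∈ half ℓ K, algebraMap (𝓞 K) K (σ • a) := by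
      unfold CM
      rw [map_prod]
    exact h00
  have h1 : φ (CM ℓ a : K) = ∏ σ ∈ half ℓ K, φ (σ (a : K)) := by
    rw [h0, map_prod]
  have h2 : (starRingEnd ℂ) (φ (CM ℓ a : K)) = ∏ σ ∈ (half ℓ K)ᶜ, φ (σ (a : K)) := by
    rw [wcm_conj (ℓ := ℓ), h0, map_prod, map_prod]
    refine Finset.prod_bij (fun σ _ => wcmC ℓ K * σ) ?_ ?_ ?_ ?_
    · intro σ hσ
      rw [Finset.mem_compl, wcm_mem_half hℓ, not_not]
      exact hσ
    · intro σ _ τ _ h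
      exact mul_left_cancel h
    · intro τ hτ
      refine ⟨(wcmC ℓ K)⁻¹ * τ, ?_, by rw [mul_inv_cancel_left]⟩
      rw [Finset.mem_compl] at hτ
      by_contra h
      rw [← wcm_mem_half hℓ, mul_inv_cancel_left] at h
      exact hτ h
    · intro σ _
      rfl
  have h3 : φ (CM ℓ a : K) * (starRingEnd ℂ) (φ (CM ℓ a : K)) = ((Algebra.norm ℤ a : ℤ) : ℂ) := by
    rw [h1] at h2 ⊢
    rw [h2, Finset.prod_mul_prod_compl, ← map_prod, ← Algebra.norm_eq_prod_automorphisms,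
      ← Algebra.coe_norm_int]
    simp
  rw [Complex.mul_conj'] at h3
  have h4 : ‖φ (CM ℓ a : K)‖ ^ 2 = ((Algebra.norm ℤ a : ℤ) : ℝ) := by exact_mod_cast h3
  rw [Ideal.absNorm_span_singleton, Nat.cast_natAbs, Int.cast_abs, ← h4, abs_of_nonneg (sq_nonneg _)]

theorem wcm_smul_mem {a : 𝓞 K} (ha : a ∈ lam ℓ K ^ 2) (σ : Gal(K/ℚ)) : σ • a ∈ lam ℓ K ^ 2 := by
  unfold lam at ha ⊢
  rw [Ideal.span_singleton_pow, Ideal.mem_span_singleton] at ha ⊢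
  obtain ⟨b, rfl⟩ := ha
  have hζ := IsCyclotomicExtension.zeta_spec ℓ ℚ K
  have h1 : σ • hζ.toInteger = hζ.toInteger ^ (galEquivZMod ℓ K σ).val.val :=
    galEquivZMod_smul_of_pow_eq ℓ K σ hζ.toInteger_isPrimitiveRoot.pow_eq_one
  have h2 : hζ.toInteger - 1 ∣ σ • (hζ.toInteger - 1) := by
    rw [smul_sub, smul_one, h1]
    have := sub_dvd_pow_sub_pow hζ.toInteger 1 (galEquivZMod ℓ K σ).val.val
    rwa [one_pow] at this
  rw [smul_mul', smul_pow']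
  exact (pow_dvd_pow_of_dvd h2 2).mul_right _

theorem CM_congr {a : 𝓞 K} (ha : a - 1 ∈ lam ℓ K ^ 2) : CM ℓ a - 1 ∈ lam ℓ K ^ 2 := by
  rw [← Ideal.Quotient.eq, map_one]
  unfold CM
  rw [map_prod]
  refine Finset.prod_eq_one fun σ _ => ?_
  rw [← map_one (Ideal.Quotient.mk (lam ℓ K ^ 2)), Ideal.Quotient.eq]
  have h := wcm_smul_mem ha σ
  rwa [smul_sub, smul_one] at h

theorem CM_span (a : 𝓞 K) : Ideal.span {CM ℓ a} = ∏ σ ∈ half ℓ K, σ • Ideal.span {a} := by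
  unfold CM
  rw [← Ideal.prod_span_singleton]
  refine Finset.prod_congr rfl fun σ _ => ?_
  rw [Ideal.pointwise_smul_def, Ideal.map_span, Set.image_singleton]
  rfl

end Pool.Agent.H16.HK
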