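import Pool.Agent.H16.HK.Alg

/-!
# Job HK-WUnit: generators with the same absolute values, congruent to 1

`x = u y` with a unit `u` (`Ideal.span_singleton_eq_span_singleton`, `Associated`). `‖φ u‖ = 1` for all `φ`, so `u ^ n = 1` for some `n > 0`
(`NumberField.Embeddings.pow_eq_one_of_norm_eq_one`), and `u = (-ζ) ^ r` or `u = ± ζ ^ i` (`IsPrimitiveRoot.exists_neg_pow_of_isOfFinOrder`, or
`IsPrimitiveRoot.exists_pow_or_neg_mul_pow_of_isOfFinOrder`, `ℓ` odd). `x - 1, y - 1 ∈ lam ^ 2` give `(u - 1) y ∈ lam ^ 2`, and `y ≡ 1`, so `u - 1 ∈ lam ^ 2`: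
`(u - 1) = (u - 1) y - (u - 1) (y - 1)`. Modulo `lam`: `ζ ≡ 1`, so the sign is `+` (`2 ∉ lam`: `two_not_mem_span_zeta_sub_one'`). If `u = ζ ^ i ≠ 1` then `u` is a
primitive root and `u - 1` is associated to `ζ - 1` (`associated_sub_one_of_isPrimitiveRoot`), so `ζ - 1 ∈ (ζ - 1) ^ 2`, `ζ - 1` would be a unit
(`isPrime_span_zeta_sub_one'`, `span_zeta_sub_one_ne_bot`). So `u = 1`.
-/

open NumberField IsDedekindDomain Polynomial IsCyclotomicExtension.Rat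
open scoped Pointwise Classical

namespace Pool.Agent.H16.HK

variable {ℓ : ℕ} [Fact ℓ.Prime] {K : Type*} [Field K] [NumberField K] [IsCyclotomicExtension {ℓ} ℚ K]

theorem eq_of_span_eq (hℓ : ℓ ≠ 2) {x y : 𝓞 K} (hx : x ≠ 0)
    (h : Ideal.span {x} = Ideal.span {y}) (hn : ∀ φ : K →+* ℂ, ‖φ (x : K)‖ = ‖φ (y : K)‖)
    (hx1 : x - 1 ∈ lam ℓ K ^ 2) (hy1 : y - 1 ∈ lam ℓ K ^ 2) : x = y := by
  have hp : ℓ.Prime := Fact.out
  have hℓ2 : 2 < ℓ := lt_of_le_of_ne hp.two_le (Ne.symm hℓ)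
  have hζ := IsCyclotomicExtension.zeta_spec ℓ ℚ K
  set ζ : 𝓞 K := hζ.toInteger with hζdef
  have hlam : lam ℓ K = Ideal.span {ζ - 1} := rfl
  have hprime : Prime (ζ - 1) := hζ.zeta_sub_one_prime'
  have hζp : IsPrimitiveRoot ζ ℓ := hζ.toInteger_isPrimitiveRoot
  obtain ⟨u, hu⟩ := Ideal.span_singleton_eq_span_singleton.mp h
  have hnorm : ∀ φ : K →+* ℂ, ‖φ ((u : 𝓞 K) : K)‖ = 1 := by
    intro φ
    have h1 : φ (y : K) = φ (x : K) * φ ((u : 𝓞 K) : K) := by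
      rw [← hu, ← _root_.map_mul]
      simp
    have h2 := hn φ
    rw [h1, norm_mul] at h2
    have h3 : ‖φ (x : K)‖ ≠ 0 := by
      rw [norm_ne_zero_iff]
      intro h4
      apply hx
      have h5 : (x : K) = 0 := (map_eq_zero φ).mp h4
      exact_mod_cast h5
    have h4 : ‖φ (x : K)‖ * ‖φ ((u : 𝓞 K) : K)‖ = ‖φ (x : K)‖ * 1 := by rw [mul_one]; exact h2.symm
    exact mul_left_cancel₀ h3 h4
  obtain ⟨n, hn0, hun⟩ := NumberField.Embeddings.pow_eq_one_of_norm_eq_one K ℂ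
    (RingOfIntegers.isIntegral_coe (u : 𝓞 K)) hnorm
  have hodd : Odd ℓ := hp.odd_of_ne_two hℓ
  obtain ⟨r, hr, hur⟩ := hζ.exists_pow_or_neg_mul_pow_of_isOfFinOrder hodd
    (isOfFinOrder_iff_pow_eq_one.2 ⟨n, hn0, hun⟩)
  replace hur : (u : 𝓞 K) = ζ ^ r ∨ (u : 𝓞 K) = -ζ ^ r := by
    rcases hur with h | h
    · left; ext; exact h
    · right; ext; exact h
  have hu1 : (ζ - 1) ^ 2 ∣ (u : 𝓞 K) - 1 := by
    rw [← Ideal.mem_span_singleton, ← Ideal.span_singleton_pow, ← hlam]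
    have e : (u : 𝓞 K) - 1 = (y - 1) - (x - 1) - ((u : 𝓞 K) - 1) * (x - 1) := by
      rw [← hu]; ring
    rw [e]
    exact Ideal.sub_mem _ (Ideal.sub_mem _ hy1 hx1) (Ideal.mul_mem_left _ _ hx1)
  have hd : ζ - 1 ∣ ζ ^ r - 1 := by
    simpa using sub_dvd_pow_sub_pow ζ 1 r
  rcases hur with h1 | h1
  · rcases Nat.eq_zero_or_pos r with h0 | h0
    · subst h0
      rw [pow_zero] at h1
      rw [h1, mul_one] at hu
      exact hu
    · exfalso
      have hcop : r.Coprime ℓ := (Nat.coprime_of_lt_prime h0.ne' hr hp).symm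
      have has : Associated (ζ - 1) (ζ ^ r - 1) :=
        hζp.associated_sub_one_pow_sub_one_of_coprime hcop
      rw [h1] at hu1
      have h2 : (ζ - 1) ^ 2 ∣ (ζ - 1) := hu1.trans has.symm.dvd
      obtain ⟨w, hw⟩ := h2
      have h3 : (ζ - 1) * ((ζ - 1) * w) = (ζ - 1) * 1 := by
        rw [mul_one, ← mul_assoc, ← sq]
        exact hw.symm
      have h4 : (ζ - 1) * w = 1 := mul_left_cancel₀ hprime.ne_zero h3
      exact hprime.not_isUnit (IsUnit.of_mul_eq_one _ h4)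
  · exfalso
    have h2 : ζ - 1 ∣ 2 := by
      have h3 : ζ - 1 ∣ (u : 𝓞 K) - 1 := (dvd_pow_self _ two_ne_zero).trans hu1
      have e : (2 : 𝓞 K) = -((u : 𝓞 K) - 1) - (ζ ^ r - 1) := by rw [h1]; ring
      rw [e]
      exact dvd_sub ((dvd_neg).mpr h3) hd
    apply two_not_mem_span_zeta_sub_one' ℓ hζ hℓ2
    exact Ideal.mem_span_singleton.mpr h2

end Pool.Agent.H16.HK
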