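import Pool.Agent.H16.HK.WUnit
import Pool.Agent.H16.HK.WCM

/-!
# Job HK-Weil: Weil's theorem on Jacobi sums (primes of degree one)

Let `X = (s.map J).prod * CM ℓ a`, `Y = (s'.map J).prod * CM ℓ b`. `span {X} = ∏_{σ ∈ half} σ • ((s.map asIdeal).prod * span {a})`
(`IsJac.ideal`, `CM_span`, `σ •` is multiplicative on ideals; `Ideal.span_singleton_mul_span_singleton`; induction on `s`), and the same for `Y`: the ideals
are equal by `h`. `‖φ X‖ ^ 2 = absNorm ((s.map asIdeal).prod * span {a}) = ‖φ Y‖ ^ 2` (`IsJac.norm`, `CM_norm`). `X ≡ Y ≡ 1` modulo `lam ^ 2`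
(`IsJac.congr`, `CM_congr`). `X ≠ 0` (`CM_ne_zero`; `J v ≠ 0` from `IsJac.norm`). Apply `eq_of_span_eq`.
-/

open NumberField IsDedekindDomain Polynomial IsCyclotomicExtension.Rat
open scoped Pointwise Classical

namespace Pool.Agent.H16.HK

variable {ℓ : ℕ} [Fact ℓ.Prime] {K : Type*} [Field K] [NumberField K] [IsCyclotomicExtension {ℓ} ℚ K]

omit [NumberField K] in
theorem nrm_mul (φ : K →+* ℂ) (x y : 𝓞 K) :
    ‖φ ((x * y : 𝓞 K) : K)‖ ^ 2 = ‖φ (x : K)‖ ^ 2 * ‖φ (y : K)‖ ^ 2 := by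
  have h : ((x * y : 𝓞 K) : K) = (x : K) * (y : K) := map_mul (algebraMap (𝓞 K) K) x y
  rw [h, map_mul, norm_mul, mul_pow]

omit [NumberField K] in
theorem mul_sub_one_mem {I : Ideal (𝓞 K)} {x y : 𝓞 K} (hx : x - 1 ∈ I) (hy : y - 1 ∈ I) :
    x * y - 1 ∈ I := by
  have h : x * y - 1 = x * (y - 1) + (x - 1) := by ring
  rw [h]
  exact I.add_mem (I.mul_mem_left x hy) hx

theorem weil_aux {J : HeightOneSpectrum (𝓞 K) → 𝓞 K}
    (hJ : ∀ v, Good ℓ v → IsJac ℓ v (J v)) (s : Multiset {v : HeightOneSpectrum (𝓞 K) // Good ℓ v}) :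
    Ideal.span {(s.map fun v => J v.1).prod} =
      ∏ σ ∈ half ℓ K, σ • (s.map fun v => v.1.asIdeal).prod ∧
    (∀ φ : K →+* ℂ, ‖φ ((s.map fun v => J v.1).prod : 𝓞 K)‖ ^ 2 =
      Ideal.absNorm (s.map fun v => v.1.asIdeal).prod) ∧
    (s.map fun v => J v.1).prod - 1 ∈ lam ℓ K ^ 2 ∧ (s.map fun v => J v.1).prod ≠ 0 := by
  induction s using Multiset.induction_on with
  | empty =>
    refine ⟨?_, ?_, ?_, ?_⟩
    · simp only [Multiset.map_zero, Multiset.prod_zero, Ideal.span_singleton_one, smul_one,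
        Finset.prod_const_one]
      exact Ideal.one_eq_top.symm
    · intro φ
      simp
    · simp
    · simp
  | cons v s ih =>
    obtain ⟨h1, h2, h3, h4⟩ := ih
    have hv := hJ v.1 v.2
    refine ⟨?_, ?_, ?_, ?_⟩
    · rw [Multiset.map_cons, Multiset.prod_cons, Multiset.map_cons, Multiset.prod_cons,
        ← Ideal.span_singleton_mul_span_singleton, h1, hv.ideal, ← Finset.prod_mul_distrib]
      apply Finset.prod_congr rfl
      intro σ _
      rw [smul_mul']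
    · intro φ
      rw [Multiset.map_cons, Multiset.prod_cons, Multiset.map_cons, Multiset.prod_cons, map_mul,
        nrm_mul, h2, hv.norm, Nat.cast_mul]
    · rw [Multiset.map_cons, Multiset.prod_cons]
      exact mul_sub_one_mem hv.congr h3
    · rw [Multiset.map_cons, Multiset.prod_cons]
      refine mul_ne_zero ?_ h4
      intro h
      have h5 := hv.norm (Classical.arbitrary (K →+* ℂ))
      have h7 : ((0 : 𝓞 K) : K) = 0 := map_zero (algebraMap (𝓞 K) K)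
      rw [h, h7, map_zero, norm_zero, zero_pow two_ne_zero] at h5
      have h6 : Ideal.absNorm v.1.asIdeal = 0 := by exact_mod_cast h5.symm
      exact v.2.1.ne_zero h6

theorem weil_aux2 (hℓ : ℓ ≠ 2) {J : HeightOneSpectrum (𝓞 K) → 𝓞 K}
    (hJ : ∀ v, Good ℓ v → IsJac ℓ v (J v)) (s : Multiset {v : HeightOneSpectrum (𝓞 K) // Good ℓ v})
    {a : 𝓞 K} (ha : a ≠ 0) (ha1 : a - 1 ∈ lam ℓ K ^ 2) :
    Ideal.span {(s.map fun v => J v.1).prod * CM ℓ a} =
      ∏ σ ∈ half ℓ K, σ • ((s.map fun v => v.1.asIdeal).prod * Ideal.span {a}) ∧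
    (∀ φ : K →+* ℂ, ‖φ ((s.map fun v => J v.1).prod * CM ℓ a : 𝓞 K)‖ ^ 2 =
      Ideal.absNorm ((s.map fun v => v.1.asIdeal).prod * Ideal.span {a})) ∧
    (s.map fun v => J v.1).prod * CM ℓ a - 1 ∈ lam ℓ K ^ 2 ∧
    (s.map fun v => J v.1).prod * CM ℓ a ≠ 0 := by
  obtain ⟨h1, h2, h3, h4⟩ := weil_aux hJ s
  refine ⟨?_, ?_, ?_, ?_⟩
  · rw [← Ideal.span_singleton_mul_span_singleton, h1, CM_span, ← Finset.prod_mul_distrib]
    apply Finset.prod_congr rfl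
    intro σ _
    rw [smul_mul']
  · intro φ
    rw [map_mul, nrm_mul, h2, CM_norm hℓ, Nat.cast_mul]
  · exact mul_sub_one_mem h3 (CM_congr ha1)
  · exact mul_ne_zero h4 (CM_ne_zero ha)

theorem weil (hℓ : ℓ ≠ 2) {J : HeightOneSpectrum (𝓞 K) → 𝓞 K}
    (hJ : ∀ v, Good ℓ v → IsJac ℓ v (J v)) (s s' : Multiset {v : HeightOneSpectrum (𝓞 K) // Good ℓ v})
    {a b : 𝓞 K} (ha : a ≠ 0) (hb : b ≠ 0) (ha1 : a - 1 ∈ lam ℓ K ^ 2) (hb1 : b - 1 ∈ lam ℓ K ^ 2)
    (h : (s.map fun v => v.1.asIdeal).prod * Ideal.span {a} =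
      (s'.map fun v => v.1.asIdeal).prod * Ideal.span {b}) :
    (s.map fun v => J v.1).prod * CM ℓ a = (s'.map fun v => J v.1).prod * CM ℓ b := by
  obtain ⟨h1, h2, h3, h4⟩ := weil_aux2 hℓ hJ s ha ha1
  obtain ⟨k1, k2, k3, k4⟩ := weil_aux2 hℓ hJ s' hb hb1
  apply eq_of_span_eq hℓ h4
  · rw [h1, k1, h]
  · intro φ
    have e1 := h2 φ
    have e2 := k2 φ
    rw [← h, ← e1] at e2
    exact ((sq_eq_sq₀ (norm_nonneg _) (norm_nonneg _)).1 e2).symm
  · exact h3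
  · exact k3

end Pool.Agent.H16.HK
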